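import Mathlib

/-! The discriminant of a quadratic field which contains a square root of `n` (helper20; the proof is that of
`Pool.Agent.X124.MV.discr_aux`). -/

set_option autoImplicit false

namespace Pool.Agent.X20.Tr

open Polynomial Finset NumberField

lemma four_mul_eq {K : Type*} [Field K] [NumberField K] (hfin : Module.finrank ℚ K = 2) (g : K)
    (n : ℤ) (hns : ¬ IsSquare n) (hg2 : g ^ 2 = (n : K)) : ∃ f : ℤ, 4 * n = f ^ 2 * NumberField.discr K := by
  have hn' : ∀ b : ℚ, b ^ 2 ≠ (n : ℚ) := by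
    intro b hb
    apply hns
    rw [← Rat.isSquare_intCast_iff]
    exact ⟨b, by rw [← hb]; ring⟩
  have hirr := X_pow_sub_C_irreducible_of_prime Nat.prime_two hn'
  have hroot : aeval g (X ^ 2 - C (n : ℚ)) = 0 := by simp [hg2]
  have hmin : minpoly ℚ g = X ^ 2 - C (n : ℚ) :=
    (minpoly.eq_of_irreducible_of_monic hirr hroot (monic_X_pow_sub_C _ two_ne_zero)).symm
  have htr : Algebra.trace ℚ K g = 0 := by
    rw [trace_eq_finrank_mul_minpoly_nextCoeff, hmin,
      nextCoeff_of_natDegree_pos (by rw [natDegree_X_pow_sub_C]; norm_num),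
      natDegree_X_pow_sub_C, coeff_sub, coeff_X_pow, coeff_C]
    norm_num
  have hgint : IsIntegral ℤ g := by
    refine IsIntegral.of_pow (n := 2) (by norm_num) ?_
    rw [hg2]
    exact isIntegral_algebraMap (R := ℤ) (A := K) (x := n)
  obtain ⟨w, hw⟩ : ∃ w : 𝓞 K, (w : K) = g := ⟨⟨g, hgint⟩, rfl⟩
  have hw2 : w * w = (n : 𝓞 K) := by
    apply RingOfIntegers.ext
    have h5 : ((w * w : 𝓞 K) : K) = (w : K) ^ 2 := by rw [sq]; simp
    have h6 : ((n : 𝓞 K) : K) = (n : K) := by simp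
    exact (h5.trans (by rw [hw, hg2])).trans h6.symm
  have htrw : Algebra.trace ℤ (𝓞 K) w = 0 := by
    have := Algebra.coe_trace_int w
    rw [hw, htr] at this
    exact_mod_cast this
  have hfinZ : Module.finrank ℤ (𝓞 K) = 2 := by rw [RingOfIntegers.rank, hfin]
  have htrn : ∀ m : ℤ, Algebra.trace ℤ (𝓞 K) (m : 𝓞 K) = 2 * m := by
    intro m
    have := Algebra.trace_algebraMap (R := ℤ) (S := 𝓞 K) m
    rw [hfinZ] at this
    simpa using this
  have hcard : Fintype.card (Module.Free.ChooseBasisIndex ℤ (𝓞 K)) = 2 := by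
    rw [← Module.finrank_eq_card_chooseBasisIndex, hfinZ]
  set b : Module.Basis (Fin 2) ℤ (𝓞 K) :=
    (RingOfIntegers.basis K).reindex (Fintype.equivFinOfCardEq hcard) with hb
  have hdb : Algebra.discr ℤ b = NumberField.discr K := NumberField.discr_eq_discr K b
  set v : Fin 2 → 𝓞 K := ![1, w] with hv
  have h1 : Algebra.discr ℤ v = (b.toMatrix v).det ^ 2 * NumberField.discr K := by
    rw [← hdb, ← Algebra.discr_of_matrix_vecMul, b.toMatrix_map_vecMul]
  have h2 : Algebra.discr ℤ v = 4 * n := by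
    rw [Algebra.discr_def, Matrix.det_fin_two]
    simp only [Algebra.traceMatrix_apply, Algebra.traceForm_apply, hv, Matrix.cons_val_zero,
      Matrix.cons_val_one]
    have e1 : Algebra.trace ℤ (𝓞 K) (1 * 1) = 2 := by
      have := htrn 1
      simpa using this
    rw [e1, one_mul, mul_one, htrw, hw2, htrn]
    ring
  rw [h2] at h1
  exact ⟨(b.toMatrix v).det, h1⟩

lemma sum_inv_sq' (M : ℕ) : ∑ f ∈ Icc 1 (M + 1), (1 : ℝ) / (f : ℝ) ^ 2 ≤ 2 - 1 / ((M : ℝ) + 1) := by
  induction M with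
  | zero => norm_num
  | succ M ih =>
    rw [sum_Icc_succ_top (by omega)]
    have h1 : (0 : ℝ) < (M : ℝ) + 1 := by positivity
    have h2 : (0 : ℝ) < (M : ℝ) + 1 + 1 := by positivity
    push_cast
    have h3 : (1 : ℝ) / ((M : ℝ) + 1 + 1) ^ 2 ≤ 1 / ((M : ℝ) + 1) - 1 / ((M : ℝ) + 1 + 1) := by
      rw [div_sub_div _ _ h1.ne' h2.ne', div_le_div_iff₀ (by positivity) (by positivity)]
      nlinarith
    linarith

lemma sum_inv_sq (M : ℕ) : ∑ f ∈ Icc 1 M, (1 : ℝ) / (f : ℝ) ^ 2 ≤ 2 := by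
  rcases Nat.eq_zero_or_pos M with rfl | h
  · norm_num
  · obtain ⟨k, rfl⟩ := Nat.exists_eq_add_of_le' h
    have h1 := sum_inv_sq' k
    have h2 : (0 : ℝ) ≤ 1 / ((k : ℝ) + 1) := by positivity
    linarith

end Pool.Agent.X20.Tr
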