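import Pool.Agent.X20.Tr.RelFun

/-! Counting pairs (number, sign) and integers by absolute value (helper20). -/

set_option autoImplicit false

namespace Pool.Agent.X20.Tr

open Finset Filter Topology
open Pool.Agent.Y854.PS (ms xs)

open Classical in
/-- counting the pairs (number, sign) -/
lemma pairs_sum (P : ℕ → ℤ → Prop) (N : ℕ) {hd : DecidablePred fun p : ℕ × ℤ => P p.1 p.2} :
    ((((Icc 1 N ×ˢ {1, -1}).filter (fun p : ℕ × ℤ => P p.1 p.2)).card : ℕ) : ℝ) =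
      ∑ n ∈ Icc 1 N, ((if P n 1 then (1 : ℝ) else 0) + if P n (-1) then 1 else 0) := by
  rw [card_filter, sum_product]
  push_cast
  apply sum_congr rfl
  intro n _
  rw [sum_pair (by norm_num)]

open Classical in
/-- counting the integers by absolute value -/
lemma signs_sum (P : ℤ → Prop) (X : ℕ) (h0 : ¬ P 0) {hd : DecidablePred P} :
    ((((Icc (-(X : ℤ)) X).filter P).card : ℕ) : ℝ) =
      ∑ m ∈ Ioc 0 X, ((if P (m : ℤ) then (1 : ℝ) else 0) + if P (-(m : ℤ)) then 1 else 0) := by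
  have e : (Icc (-(X : ℤ)) X).filter P =
      (((Icc 1 X).filter (fun m : ℕ => P (m : ℤ))).image (fun m : ℕ => (m : ℤ))) ∪
      (((Icc 1 X).filter (fun m : ℕ => P (-(m : ℤ)))).image (fun m : ℕ => -(m : ℤ))) := by
    ext d
    simp only [mem_filter, mem_Icc, mem_union, mem_image]
    constructor
    · rintro ⟨⟨h1, h2⟩, h3⟩
      rcases lt_trichotomy d 0 with h | h | h
      · right
        exact ⟨d.natAbs, ⟨⟨by omega, by omega⟩, by rwa [show -((d.natAbs : ℕ) : ℤ) = d by omega]⟩, by omega⟩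
      · exact absurd (h ▸ h3) h0
      · left
        exact ⟨d.natAbs, ⟨⟨by omega, by omega⟩, by rwa [show ((d.natAbs : ℕ) : ℤ) = d by omega]⟩, by omega⟩
    · rintro (⟨m, ⟨⟨h1, h2⟩, h3⟩, rfl⟩ | ⟨m, ⟨⟨h1, h2⟩, h3⟩, rfl⟩)
      · exact ⟨⟨by omega, by omega⟩, h3⟩
      · exact ⟨⟨by omega, by omega⟩, h3⟩
  rw [e, card_union_of_disjoint, card_image_of_injective, card_image_of_injective, card_filter, card_filter,
    sum_add_distrib]
  · push_cast
    rfl
  · intro x y h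
    have h' : -(x : ℤ) = -(y : ℤ) := h
    omega
  · intro x y h
    have h' : (x : ℤ) = (y : ℤ) := h
    omega
  · rw [disjoint_left]
    intro d h1 h2
    simp only [mem_filter, mem_Icc, mem_image] at h1 h2
    obtain ⟨m, ⟨⟨h1, _⟩, _⟩, rfl⟩ := h1
    obtain ⟨m', ⟨⟨h3, _⟩, _⟩, h4⟩ := h2
    omega

lemma sqf_neg (m : ℕ) : Squarefree (-(m : ℤ)) ↔ Squarefree m := by
  rw [← Int.squarefree_natAbs, Int.natAbs_neg, Int.natAbs_natCast]

lemma sqf_pos (m : ℕ) : Squarefree ((m : ℤ)) ↔ Squarefree m := by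
  rw [← Int.squarefree_natAbs, Int.natAbs_natCast]

lemma cnt_sum (X : ℕ) (Q : Set ℕ) : (cnt Q X : ℝ) = ∑ m ∈ Ioc 0 X, ind Q m := by
  classical
  rw [sum_ind Q (Ioc 0 X) (fun m => m)]
  have : Ioc 0 X = Icc 1 X := by ext m; simp only [mem_Ioc, mem_Icc]; omega
  rw [this]
  unfold cnt
  exact congrArg Nat.cast (card_filt _ fun _ => Iff.rfl)

lemma hit_sum (c α : ℝ) (N : ℕ) (Q : Set ℕ) : (hit c α Q N : ℝ) = ∑ n ∈ Icc 1 N, ind Q (ms α c n) := by
  classical
  rw [sum_ind Q]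
  unfold hit
  exact congrArg Nat.cast (card_filt _ fun _ => Iff.rfl)

end Pool.Agent.X20.Tr
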