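import Pool.Agent.X20.Tr.UpLog
import Pool.Agent.X20.Tr.Fund

/-! The transfer theorem for sets of squarefree integers (of both signs) of logarithmic savings (helper20). -/

set_option autoImplicit false

namespace Pool.Agent.X20.Tr

open Finset Filter
open Pool.Agent.Y854.PS (ms xs)

lemma cnt_of_int (P : ℤ → Prop) (s : ℤ) (hs : s = 1 ∨ s = -1) (X : ℕ) :
    cnt {m : ℕ | Squarefree m ∧ P (s * (m : ℤ))} X ≤ {d : ℤ | d.natAbs ≤ X ∧ Squarefree d ∧ P d}.ncard := by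
  classical
  obtain ⟨T, hT⟩ : ∃ T : Set ℤ, T = {d : ℤ | d.natAbs ≤ X ∧ Squarefree d ∧ P d} := ⟨_, rfl⟩
  rw [← hT]
  have hTfin : T.Finite := by
    refine (Set.finite_Icc (-(X : ℤ)) X).subset ?_
    intro d hd
    rw [hT] at hd
    have := hd.1
    constructor <;> omega
  have hs0 : s ≠ 0 := by rcases hs with rfl | rfl <;> norm_num
  have hsa : s.natAbs = 1 := by rcases hs with rfl | rfl <;> rfl
  have h3 : (((Icc 1 X).filter (fun m : ℕ => m ∈ {m : ℕ | Squarefree m ∧ P (s * (m : ℤ))})).image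
      (fun m : ℕ => s * (m : ℤ))) ⊆ hTfin.toFinset := by
    intro d hd
    rw [mem_image] at hd
    obtain ⟨m, hm, rfl⟩ := hd
    rw [mem_filter, mem_Icc] at hm
    obtain ⟨⟨hm1, hm2⟩, hm3, hm4⟩ := hm
    rw [Set.Finite.mem_toFinset, hT]
    refine ⟨?_, ?_, hm4⟩
    · rw [Int.natAbs_mul, hsa, one_mul, Int.natAbs_natCast]
      exact hm2
    · rw [← Int.squarefree_natAbs, Int.natAbs_mul, hsa, one_mul, Int.natAbs_natCast]
      exact hm3
  have h4 := card_le_card h3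
  rw [card_image_of_injective] at h4
  · rw [Set.ncard_eq_toFinset_card T hTfin]
    refine le_trans (le_of_eq ?_) h4
    unfold cnt
    exact card_filt _ fun _ => Iff.rfl
  · intro m m' h
    have h' : s * (m : ℤ) = s * (m' : ℤ) := h
    have := mul_left_cancel₀ hs0 h'
    exact_mod_cast this

lemma sqf_nat_lower (X : ℕ) (hX : 6 ≤ X) : (1 : ℝ) / 12 * X ≤ (cnt {m | Squarefree m} X : ℝ) := by
  classical
  have h1 := card_sqf X hX
  have h2 : ((Icc 1 X).filter (fun m => m % 4 = 3 ∧ Squarefree m)).card ≤ cnt {m | Squarefree m} X := by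
    unfold cnt
    apply card_le_card
    intro m hm
    rw [mem_filter] at hm
    exact mem_filt.2 ⟨hm.1, hm.2.2⟩
  have h3 : (((Icc 1 X).filter (fun m => m % 4 = 3 ∧ Squarefree m)).card : ℝ) ≤ cnt {m | Squarefree m} X := by
    exact_mod_cast h2
  linarith

open Classical in
/-- **Squarefree integers.** For every `c > 1` there is `κ > 0` such that for every countable family of sets `P i` of
integers there is a set `E` of dimension at most `1 - κ` such that for all `α > 0` outside `E`: a positive proportion of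
the `m(n) = ⌊α n ^ c⌋` is squarefree, and if the set of the squarefree `d` with `P i d` saves a power of the logarithm,
then so do the sets of the `n` with `m(n)` squarefree and `P i (± m(n))`. -/
theorem sparse_sqf (c : ℝ) (hc : 1 < c) : ∃ κ : ℝ, 0 < κ ∧ κ < 1 ∧ ∀ (ι : Type) [Countable ι] (P : ι → ℤ → Prop),
    ∃ E : Set ℝ, dimH E ≤ ENNReal.ofReal (1 - κ) ∧ ∀ α : ℝ, 0 < α → α ∉ E →
      (∃ N₀ : ℕ, ∀ N : ℕ, N₀ ≤ N →
        (N : ℝ) / 24 ≤ (((Icc 1 N).filter (fun n : ℕ => Squarefree ⌊α * (n : ℝ) ^ c⌋₊)).card : ℝ)) ∧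
      (∀ (i : ι) (s : ℤ), (s = 1 ∨ s = -1) → ∀ δ C : ℝ, 0 < δ →
        (∃ X₀ : ℕ, ∀ X : ℕ, X₀ ≤ X → ({d : ℤ | d.natAbs ≤ X ∧ Squarefree d ∧ P i d}.ncard : ℝ) ≤
          C * X * (Real.log X) ^ (-δ)) →
        ∃ C' : ℝ, ∃ N₀ : ℕ, ∀ N : ℕ, N₀ ≤ N →
          (((Icc 1 N).filter (fun n : ℕ => Squarefree ⌊α * (n : ℝ) ^ c⌋₊ ∧
            P i (s * ((⌊α * (n : ℝ) ^ c⌋₊ : ℕ) : ℤ)))).card : ℝ) ≤ C' * N * (Real.log N) ^ (-δ)) := by
  obtain ⟨κ, hκ0, hκ1, H⟩ := use c hc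
  refine ⟨κ, hκ0, hκ1, fun ι _ P => ?_⟩
  obtain ⟨E, hE, h⟩ := H (fun _ _ => {m | Squarefree m}) (ι × ℤ)
    (fun i => {m : ℕ | Squarefree m ∧ P i.1 (i.2 * (m : ℤ))})
  refine ⟨E, hE, fun α hα hαE => ?_⟩
  obtain ⟨_, h2, h3⟩ := h α hα hαE
  refine ⟨?_, fun i s hs δ C hδ hP => ?_⟩
  · obtain ⟨N₀, h4⟩ := low_set hc hα hκ0 (h2 0 0) (1 / 12) (by norm_num) ⟨6, fun x hxx => by
      have := sqf_nat_lower x hxx
      unfold cnt at this
      convert this⟩
    refine ⟨N₀, fun N hN => ?_⟩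
    have h5 := h4 N hN
    refine le_trans (by linarith) (h5.trans (le_of_eq ?_))
    exact congrArg Nat.cast (card_filt _ fun _ => Iff.rfl)
  · obtain ⟨X₁, h4⟩ := hP
    obtain ⟨C', _, N₀, h5⟩ := up_log hc hα hκ0 hδ (h3 (i, s)) ⟨C, X₁, fun X hX =>
      le_trans (Nat.cast_le.2 (cnt_of_int (P i) s hs X)) (h4 X hX)⟩
    refine ⟨C', N₀, fun N hN => ?_⟩
    exact le_trans (le_of_eq (congrArg Nat.cast (hit_form c α
      (fun m : ℕ => Squarefree m ∧ P i (s * (m : ℤ))) N))) (h5 N hN)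

lemma countable_polys : Countable (Polynomial ℤ) := by
  rw [← Cardinal.mk_le_aleph0_iff]
  refine Polynomial.cardinalMk_le_max.trans ?_
  rw [max_le_iff]
  exact ⟨Cardinal.mk_le_aleph0_iff.2 inferInstance, le_refl _⟩

lemma countable_systems : Countable ((k : ℕ) × (Fin k → Polynomial ℤ)) := by
  have := countable_polys
  infer_instance

end Pool.Agent.X20.Tr
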