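import Pool.Agent.X20.Tr.ThinB

/-! Relative densities along `⌊α n ^ c⌋` (helper20). -/

set_option autoImplicit false

namespace Pool.Agent.X20.Tr

open Finset Filter
open Pool.Agent.Y854.PS (ms xs)

open Classical in
/-- a set which contains few of the elements of `F` contains few of the elements of `F` on the sequence -/
lemma rel {c α κ : ℝ} (hc : 1 < c) (hα : 0 < α) (hκ : 0 < κ) (hκ1 : κ ≤ 1) {B F : Set ℕ}
    (hCB : Cmp c α κ (ind B)) (hCF : Cmp c α κ (ind F))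
    (hrel : ∀ ε : ℝ, 0 < ε → ∃ X₀ : ℕ, ∀ X : ℕ, X₀ ≤ X →
      (((Icc 1 X).filter (fun m => m ∈ B)).card : ℝ) ≤ ε * (((Icc 1 X).filter (fun m => m ∈ F)).card : ℝ))
    (hF : ∀ δ : ℝ, 0 < δ → ∃ X₀ : ℕ, ∀ X : ℕ, X₀ ≤ X →
      (X : ℝ) ^ (1 - δ) ≤ (((Icc 1 X).filter (fun m => m ∈ F)).card : ℝ)) :
    ∀ ε : ℝ, 0 < ε → ∃ N₀ : ℕ, ∀ N : ℕ, N₀ ≤ N →
      (((Icc 1 N).filter (fun n => ms α c n ∈ B)).card : ℝ) ≤
        ε * (((Icc 1 N).filter (fun n => ms α c n ∈ F)).card : ℝ) := by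
  intro ε hε
  obtain ⟨X₀, h1⟩ := hrel (ε / 2) (by positivity)
  obtain ⟨N₁, h2⟩ := hCB
  obtain ⟨N₂, h3⟩ := hCF
  obtain ⟨N₃, h4⟩ := thin_pow hc hα hκ ⟨N₂, h3⟩ hF (κ / 2) (by positivity)
  have hw1 : 0 ≤ wt c α 1 := wt_nonneg hc hα 1
  obtain ⟨N₄, h5⟩ := ((((tend_pow (κ / 2) (by positivity)).eventually_ge_atTop
    ((ε / 2 + 1 + X₀ * wt c α 1) * (2 / ε))).and (eventually_ge_atTop 1)).and
    ((tend_ms hc hα).eventually_ge_atTop 1)).exists_forall_of_atTop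
  refine ⟨max (max N₁ N₂) (max N₃ N₄), fun N hN => ?_⟩
  obtain ⟨⟨k1, k2⟩, k3⟩ := h5 N ((le_max_right _ _).trans ((le_max_right _ _).trans hN))
  have h6 := h4 N ((le_max_left _ _).trans ((le_max_right _ _).trans hN))
  obtain ⟨_, h7⟩ := h2 N ((le_max_left _ _).trans ((le_max_left _ _).trans hN))
  obtain ⟨_, h8⟩ := h3 N ((le_max_right _ _).trans ((le_max_left _ _).trans hN))
  have hN1 : (1 : ℝ) ≤ N := by exact_mod_cast k2
  have hN0 : (0 : ℝ) < N := by linarith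
  rw [sum_ind B] at h7
  rw [sum_ind F] at h8
  rw [_root_.abs_le] at h7 h8
  have key := abel_ge (fun m => ε / 2 * ind F m - ind B m) (wt c α) 0 X₀ (ms α c N)
    (fun m _ => wt_nonneg hc hα m) (fun m hm => wt_anti hc hα m hm)
    (fun x hx => by
      rw [sum_sub_distrib, ← mul_sum]
      have e1 : ∑ m ∈ Ioc 0 x, ind F m = (((Icc 1 x).filter (fun m => m ∈ F)).card : ℝ) := by
        rw [sum_ind F (Ioc 0 x) (fun m => m)]
        have : Ioc 0 x = Icc 1 x := by ext m; simp only [mem_Ioc, mem_Icc]; omega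
        rw [this]
      have e2 : ∑ m ∈ Ioc 0 x, ind B m = (((Icc 1 x).filter (fun m => m ∈ B)).card : ℝ) := by
        rw [sum_ind B (Ioc 0 x) (fun m => m)]
        have : Ioc 0 x = Icc 1 x := by ext m; simp only [mem_Ioc, mem_Icc]; omega
        rw [this]
      rw [e1, e2, zero_mul]
      rcases le_total X₀ x with h9 | h9
      · have := h1 x h9
        have h10 : (0 : ℝ) ≤ X₀ := Nat.cast_nonneg _
        linarith
      · have h10 : (((Icc 1 x).filter (fun m => m ∈ B)).card : ℝ) ≤ x := by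
          have := card_filter_le (Icc 1 x) (fun m => m ∈ B)
          rw [Nat.card_Icc, Nat.add_sub_cancel] at this
          exact_mod_cast this
        have h11 : (x : ℝ) ≤ X₀ := by exact_mod_cast h9
        have h12 : (0 : ℝ) ≤ ε / 2 * (((Icc 1 x).filter (fun m => m ∈ F)).card : ℝ) := by positivity
        linarith) k3
  rw [zero_mul, zero_sub] at key
  have key2 : ∑ m ∈ Ioc 0 (ms α c N), (ε / 2 * ind F m - ind B m) * wt c α m =
      ε / 2 * ∑ m ∈ Ioc 0 (ms α c N), ind F m * wt c α m - ∑ m ∈ Ioc 0 (ms α c N), ind B m * wt c α m := by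
    rw [mul_sum, ← sum_sub_distrib]
    apply sum_congr rfl
    intro m _
    ring
  rw [key2] at key
  have hpow : (N : ℝ) ^ (1 - κ / 2) = (N : ℝ) ^ (1 - κ) * (N : ℝ) ^ (κ / 2) := by
    rw [← Real.rpow_add hN0]
    congr 1
    ring
  obtain ⟨P, hP⟩ : ∃ P : ℝ, P = (N : ℝ) ^ (1 - κ) := ⟨_, rfl⟩
  obtain ⟨Q, hQ⟩ : ∃ Q : ℝ, Q = (N : ℝ) ^ (κ / 2) := ⟨_, rfl⟩
  rw [← hQ] at k1
  rw [hpow, ← hP, ← hQ] at h6
  rw [← hP] at h7 h8
  have hP1 : 1 ≤ P := by rw [hP]; exact Real.one_le_rpow hN1 (by linarith)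
  have g1 : (X₀ : ℝ) * wt c α 1 ≤ P * (X₀ * wt c α 1) := by
    have : (0 : ℝ) ≤ X₀ * wt c α 1 := mul_nonneg (Nat.cast_nonneg _) hw1
    nlinarith
  have g2 : ε / 2 + 1 + X₀ * wt c α 1 ≤ ε / 2 * Q := by
    have := mul_le_mul_of_nonneg_left k1 (show 0 ≤ ε / 2 by positivity)
    refine le_trans (le_of_eq ?_) this
    field_simp
  have g3 : P * (ε / 2 + 1 + X₀ * wt c α 1) ≤ P * (ε / 2 * Q) := mul_le_mul_of_nonneg_left g2 (by linarith)
  have g4 : ε / 2 * (P * Q) ≤ ε / 2 * (((Icc 1 N).filter (fun n => ms α c n ∈ F)).card : ℝ) :=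
    mul_le_mul_of_nonneg_left h6 (by positivity)
  have g5 := mul_le_mul_of_nonneg_left (show ∑ m ∈ Ioc 0 (ms α c N), ind F m * wt c α m ≤
    (((Icc 1 N).filter (fun n => ms α c n ∈ F)).card : ℝ) + P by linarith [h8.1]) (show 0 ≤ ε / 2 by positivity)
  linarith [h7.2]

end Pool.Agent.X20.Tr
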