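import Pool.Agent.X20.Tr.Use

/-! Upper bounds with powers of the logarithm pass to `⌊α n ^ c⌋` (helper20). -/

set_option autoImplicit false

namespace Pool.Agent.X20.Tr

open Finset Filter Topology
open Pool.Agent.Y854.PS (ms xs)

lemma logpow_small (θ κ : ℝ) (hκ : 0 < κ) : ∀ᶠ N : ℕ in atTop, (Real.log N) ^ θ ≤ (N : ℝ) ^ κ := by
  have h3 := (isLittleO_log_rpow_rpow_atTop θ hκ).def (show (0 : ℝ) < 1 by norm_num)
  have h4 := tendsto_natCast_atTop_atTop.eventually h3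
  filter_upwards [h4, eventually_ge_atTop 1] with N h5 h6
  have h7 : (1 : ℝ) ≤ N := by exact_mod_cast h6
  rw [Real.norm_of_nonneg (Real.rpow_nonneg (Real.log_nonneg h7) _), Real.norm_of_nonneg (by positivity),
    one_mul] at h5
  exact h5

/-- upper bounds with powers of the logarithm -/
lemma up_log {c α κ θ : ℝ} (hc : 1 < c) (hα : 0 < α) (hκ : 0 < κ) (hθ : 0 < θ) {B : Set ℕ}
    (hCB : Cmp c α κ (ind B))
    (hB : ∃ C : ℝ, ∃ X₁ : ℕ, ∀ X : ℕ, X₁ ≤ X → (cnt B X : ℝ) ≤ C * X * (Real.log X) ^ (-θ)) :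
    ∃ C : ℝ, 0 < C ∧ ∃ N₀ : ℕ, ∀ N : ℕ, N₀ ≤ N → (hit c α B N : ℝ) ≤ C * N * (Real.log N) ^ (-θ) := by
  classical
  have hc0 : 0 < c := by linarith
  obtain ⟨N₁, h1⟩ := hCB
  obtain ⟨C0, X₁, h2'⟩ := hB
  obtain ⟨C, hC⟩ : ∃ C : ℝ, C = max C0 0 := ⟨_, rfl⟩
  have hC0 : 0 ≤ C := by rw [hC]; exact le_max_right _ _
  have h2 : ∀ X : ℕ, max X₁ 1 ≤ X → (cnt B X : ℝ) ≤ C * X * (Real.log X) ^ (-θ) := by
    intro X hX
    refine (h2' X ((le_max_left _ _).trans hX)).trans ?_
    have hX1 : (1 : ℝ) ≤ X := by exact_mod_cast (le_max_right _ _).trans hX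
    have h3 : 0 ≤ (Real.log X) ^ (-θ) := Real.rpow_nonneg (Real.log_nonneg hX1) _
    apply mul_le_mul_of_nonneg_right _ h3
    apply mul_le_mul_of_nonneg_right _ (Nat.cast_nonneg _)
    rw [hC]
    exact le_max_left _ _
  have hw1 : 0 ≤ wt c α 1 := wt_nonneg hc hα 1
  have hxT : Tendsto (fun N : ℕ => α * (N : ℝ) ^ c) atTop atTop := (tend_pow c hc0).const_mul_atTop hα
  have hlogT : Tendsto (fun N : ℕ => Real.log (N : ℝ)) atTop atTop :=
    Real.tendsto_log_atTop.comp tendsto_natCast_atTop_atTop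
  obtain ⟨N₂, h3⟩ := ((((tend_ms hc hα).eventually_ge_atTop 2).and
    ((hlogT.eventually_ge_atTop 1).and (hlogT.eventually_ge_atTop (-(2 * Real.log α) / c + 2 * Real.log 2 / c)))).and
    (((logpow_small θ κ hκ).and (logpow_small θ (1 / 2) (by norm_num))).and
    ((eventually_ge_atTop (max X₁ 3)).and (hxT.eventually_ge_atTop 2)))).exists_forall_of_atTop
  refine ⟨2 * C * 4 ^ θ + 1 + (X₁ + 2 + α ^ (1 / (2 * c))) * wt c α 1, by positivity, max N₁ N₂, fun N hN => ?_⟩
  obtain ⟨⟨k1, k2, k3⟩, ⟨k4, k5⟩, k6, k8⟩ := h3 N ((le_max_right _ _).trans hN)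
  obtain ⟨g1, g2⟩ := h1 N ((le_max_left _ _).trans hN)
  have hN3 : (3 : ℝ) ≤ N := by exact_mod_cast (le_max_right _ _).trans k6
  have hN0 : (0 : ℝ) < N := by linarith
  have hLN : 0 < Real.log N := by linarith
  rw [sum_ind B] at g2
  rw [_root_.abs_le] at g1 g2
  -- the logarithm of M
  obtain ⟨M, hM⟩ : ∃ M : ℕ, M = ms α c N := ⟨_, rfl⟩
  rw [← hM] at g1 g2 k1
  have hM2 : (2 : ℝ) ≤ M := by exact_mod_cast k1
  have hMx : α * (N : ℝ) ^ c / 2 ≤ M := by
    have h5 : α * (N : ℝ) ^ c < M + 1 := by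
      rw [hM]
      unfold ms xs
      exact Nat.lt_floor_add_one _
    linarith
  have hMx2 : (M : ℝ) ≤ α * (N : ℝ) ^ c := by
    rw [hM]
    unfold ms xs
    exact Nat.floor_le (by positivity)
  have hlogM : c / 2 * Real.log N ≤ Real.log M := by
    have h5 : Real.log (α * (N : ℝ) ^ c / 2) ≤ Real.log M := Real.log_le_log (by positivity) hMx
    rw [Real.log_div (by positivity) (by norm_num), Real.log_mul hα.ne' (by positivity), Real.log_rpow hN0] at h5
    have h6 : -(2 * Real.log α) + 2 * Real.log 2 ≤ c * Real.log N := by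
      have := mul_le_mul_of_nonneg_left k3 hc0.le
      have e : c * (-(2 * Real.log α) / c + 2 * Real.log 2 / c) = -(2 * Real.log α) + 2 * Real.log 2 := by field_simp
      rw [e] at this
      exact this
    linarith
  have hLM : 0 < Real.log M := lt_of_lt_of_le (by positivity) hlogM
  obtain ⟨D, hD⟩ : ∃ D : ℝ, D = X₁ + 2 + (M : ℝ) ^ (1 / (2 * c)) := ⟨_, rfl⟩
  obtain ⟨b, hb⟩ : ∃ b : ℝ, b = C * (Real.log M / (2 * c)) ^ (-θ) := ⟨_, rfl⟩
  have hb0 : 0 ≤ b := by rw [hb]; positivity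
  have key := abel_ge (fun m => b - ind B m) (wt c α) 0 D M
    (fun m _ => wt_nonneg hc hα m) (fun m hm => wt_anti hc hα m hm)
    (fun x hx => by
      rw [sum_sub_distrib, sum_const, Nat.card_Ioc, Nat.sub_zero, nsmul_eq_mul, sum_ind B (Ioc 0 x) (fun m => m)]
      have e : Ioc 0 x = Icc 1 x := by ext m; simp only [mem_Ioc, mem_Icc]; omega
      rw [e, zero_mul]
      have hx0 : (0 : ℝ) ≤ x := Nat.cast_nonneg _
      have hpx : ((((Icc 1 x).filter (fun m => m ∈ B)).card : ℕ) : ℝ) ≤ x := by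
        have := card_filter_le (Icc 1 x) (fun m => m ∈ B)
        rw [Nat.card_Icc, Nat.add_sub_cancel] at this
        exact_mod_cast this
      have hpos : 0 ≤ x * b := by positivity
      have hDM : 0 ≤ (M : ℝ) ^ (1 / (2 * c)) := by positivity
      have hX₁0 : (0 : ℝ) ≤ X₁ := Nat.cast_nonneg _
      rcases le_total (X₁ + 2) x with h9 | h9
      · rcases le_total ((M : ℝ) ^ (1 / (2 * c))) x with h10 | h10
        · have h11 := h2 x (by omega)
          have hx2 : (2 : ℝ) ≤ x := by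
            have : 2 ≤ x := by omega
            exact_mod_cast this
          have h12 : 1 / (2 * c) * Real.log M ≤ Real.log x := by
            rw [← Real.log_rpow (by linarith)]
            exact Real.log_le_log (by positivity) h10
          have h13 : 0 < Real.log M / (2 * c) := by positivity
          have h12' : Real.log M / (2 * c) ≤ Real.log x := by
            refine le_trans (le_of_eq ?_) h12
            ring
          have h14 : (Real.log x) ^ (-θ) ≤ (Real.log M / (2 * c)) ^ (-θ) :=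
            Real.rpow_le_rpow_of_nonpos h13 h12' (by linarith)
          have h15 : (cnt B x : ℝ) = (((Icc 1 x).filter (fun m => m ∈ B)).card : ℝ) := by
            unfold cnt
            norm_cast
          rw [h15] at h11
          have h16 : C * x * (Real.log x) ^ (-θ) ≤ x * b := by
            rw [hb]
            calc C * x * (Real.log x) ^ (-θ) ≤ C * x * (Real.log M / (2 * c)) ^ (-θ) :=
                  mul_le_mul_of_nonneg_left h14 (by positivity)
              _ = x * (C * (Real.log M / (2 * c)) ^ (-θ)) := by ring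
          rw [hD]
          linarith
        · rw [hD]
          linarith
      · rw [hD]
        have : (x : ℝ) ≤ X₁ + 2 := by exact_mod_cast h9
        linarith) (by omega)
  rw [zero_mul, zero_sub] at key
  have key2 : ∑ m ∈ Ioc 0 M, (b - ind B m) * wt c α m =
      b * ∑ m ∈ Ioc 0 M, wt c α m - ∑ m ∈ Ioc 0 M, ind B m * wt c α m := by
    rw [mul_sum, ← sum_sub_distrib]
    apply sum_congr rfl
    intro m _
    ring
  rw [key2] at key
  -- everything in terms of `N (log N) ^ (-θ)`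
  obtain ⟨q, hq⟩ : ∃ q : ℝ, q = (N : ℝ) * (Real.log N) ^ (-θ) := ⟨_, rfl⟩
  have hLθ : 0 < (Real.log N) ^ θ := by positivity
  have hq0 : 0 < q := by rw [hq]; positivity
  have hqe : q = (N : ℝ) / (Real.log N) ^ θ := by rw [hq, Real.rpow_neg hLN.le, div_eq_mul_inv]
  have hNκ : (N : ℝ) ^ (1 - κ) ≤ q := by
    rw [hqe, le_div_iff₀ hLθ]
    calc (N : ℝ) ^ (1 - κ) * (Real.log N) ^ θ ≤ (N : ℝ) ^ (1 - κ) * (N : ℝ) ^ κ :=
          mul_le_mul_of_nonneg_left k4 (by positivity)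
      _ = N := by rw [← Real.rpow_add hN0]; simp
  have hNh : (N : ℝ) ^ (1 / 2 : ℝ) ≤ q := by
    rw [hqe, le_div_iff₀ hLθ]
    calc (N : ℝ) ^ (1 / 2 : ℝ) * (Real.log N) ^ θ ≤ (N : ℝ) ^ (1 / 2 : ℝ) * (N : ℝ) ^ (1 / 2 : ℝ) :=
          mul_le_mul_of_nonneg_left k5 (by positivity)
      _ = N := by rw [← Real.rpow_add hN0]; norm_num
  have hN1h : (1 : ℝ) ≤ (N : ℝ) ^ (1 / 2 : ℝ) := Real.one_le_rpow (by linarith) (by norm_num)
  have hNk1 : (N : ℝ) ^ (1 - κ) ≤ N := by
    calc (N : ℝ) ^ (1 - κ) ≤ (N : ℝ) ^ (1 : ℝ) := Real.rpow_le_rpow_of_exponent_le (by linarith) (by linarith)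
      _ = N := Real.rpow_one _
  have t1 : b * ∑ m ∈ Ioc 0 M, wt c α m ≤ 2 * C * 4 ^ θ * q := by
    have h5 : ∑ m ∈ Ioc 0 M, wt c α m ≤ 2 * N := by linarith [g1.1]
    have h7 : 0 ≤ ∑ m ∈ Ioc 0 M, wt c α m := sum_nonneg fun m _ => wt_nonneg hc hα m
    have h8 : Real.log N / 4 ≤ Real.log M / (2 * c) := by
      rw [div_le_div_iff₀ (by norm_num) (by positivity)]
      nlinarith
    have h6 : b ≤ C * (4 ^ θ * (Real.log N) ^ (-θ)) := by
      rw [hb]
      apply mul_le_mul_of_nonneg_left _ hC0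
      calc (Real.log M / (2 * c)) ^ (-θ) ≤ (Real.log N / 4) ^ (-θ) :=
            Real.rpow_le_rpow_of_nonpos (by positivity) h8 (by linarith)
        _ = 4 ^ θ * (Real.log N) ^ (-θ) := by
            rw [Real.div_rpow hLN.le (by norm_num), Real.rpow_neg (by norm_num : (0 : ℝ) ≤ 4)]
            field_simp
    calc b * ∑ m ∈ Ioc 0 M, wt c α m ≤ (C * (4 ^ θ * (Real.log N) ^ (-θ))) * (2 * N) :=
          mul_le_mul h6 h5 h7 (by positivity)
      _ = 2 * C * 4 ^ θ * q := by rw [hq]; ring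
  have t2 : (M : ℝ) ^ (1 / (2 * c)) ≤ α ^ (1 / (2 * c)) * q := by
    calc (M : ℝ) ^ (1 / (2 * c)) ≤ (α * (N : ℝ) ^ c) ^ (1 / (2 * c)) :=
          Real.rpow_le_rpow (by positivity) hMx2 (by positivity)
      _ = α ^ (1 / (2 * c)) * (N : ℝ) ^ (1 / 2 : ℝ) := by
          rw [Real.mul_rpow hα.le (by positivity), ← Real.rpow_mul hN0.le]
          congr 2
          field_simp
      _ ≤ α ^ (1 / (2 * c)) * q := mul_le_mul_of_nonneg_left hNh (by positivity)
  have t3 : D * wt c α 1 ≤ (X₁ + 2 + α ^ (1 / (2 * c))) * wt c α 1 * q := by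
    have h5 : D ≤ (X₁ + 2 + α ^ (1 / (2 * c))) * q := by
      rw [hD]
      have h6 : (X₁ : ℝ) + 2 ≤ (X₁ + 2) * q := by
        have : (0 : ℝ) ≤ X₁ := Nat.cast_nonneg _
        have h7 : 1 ≤ q := hN1h.trans hNh
        nlinarith
      nlinarith
    calc D * wt c α 1 ≤ (X₁ + 2 + α ^ (1 / (2 * c))) * q * wt c α 1 := mul_le_mul_of_nonneg_right h5 hw1
      _ = _ := by ring
  have hfin : (hit c α B N : ℝ) ≤ (2 * C * 4 ^ θ + 1 + (X₁ + 2 + α ^ (1 / (2 * c))) * wt c α 1) * q := by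
    have h15 : (hit c α B N : ℝ) = (((Icc 1 N).filter (fun n => ms α c n ∈ B)).card : ℝ) := by
      unfold hit
      norm_cast
    rw [h15]
    linarith [g2.2]
  refine hfin.trans (le_of_eq ?_)
  rw [hq]
  ring

end Pool.Agent.X20.Tr
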