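import Pool.Agent.X20.Tr.UpLog

/-! The transfer theorem for sets of integers (of both signs, with shifts) which save a power of the logarithm or have
density zero (helper20). -/

set_option autoImplicit false

namespace Pool.Agent.X20.Tr

open Finset Filter Topology
open Pool.Agent.Y854.PS (ms xs)

lemma card_filt' {γ : Type} (s : Finset γ) {p q : γ → Prop} {dp : DecidablePred p} {dq : DecidablePred q}
    (h : ∀ x, p x ↔ q x) : (@Finset.filter γ p dp s).card = (@Finset.filter γ q dq s).card := by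
  classical
  have : p = q := funext fun x => propext (h x)
  subst this
  congr

lemma cnt_shift (P : ℤ → Prop) (h s : ℤ) (hs : s = 1 ∨ s = -1) (X : ℕ) {dp : DecidablePred P} :
    cnt {m : ℕ | P (h + s * (m : ℤ))} X ≤
      (@Finset.filter ℤ P dp (Icc (-((X + h.natAbs : ℕ) : ℤ)) ((X + h.natAbs : ℕ) : ℤ))).card := by
  classical
  have hs0 : s ≠ 0 := by rcases hs with rfl | rfl <;> norm_num
  have h3 : (((Icc 1 X).filter (fun m : ℕ => m ∈ {m : ℕ | P (h + s * (m : ℤ))})).image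
      (fun m : ℕ => h + s * (m : ℤ))) ⊆
      @Finset.filter ℤ P dp (Icc (-((X + h.natAbs : ℕ) : ℤ)) ((X + h.natAbs : ℕ) : ℤ)) := by
    intro d hd
    rw [mem_image] at hd
    obtain ⟨m, hm, rfl⟩ := hd
    rw [mem_filter, mem_Icc] at hm
    obtain ⟨⟨hm1, hm2⟩, hm3⟩ := hm
    rw [mem_filter, mem_Icc]
    refine ⟨?_, hm3⟩
    rcases hs with rfl | rfl <;> constructor <;> omega
  have h4 := card_le_card h3
  rw [card_image_of_injective] at h4
  · refine le_trans (le_of_eq ?_) h4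
    unfold cnt
    exact card_filt _ fun _ => Iff.rfl
  · intro m m' h
    have h' : s * (m : ℤ) = s * (m' : ℤ) := by
      have h'' : _ + s * (m : ℤ) = _ + s * (m' : ℤ) := h
      linarith
    have := mul_left_cancel₀ hs0 h'
    exact_mod_cast this

open Classical in
/-- **Sets of integers.** For every `c > 1` there is `κ > 0` such that for every countable family of sets `P i` of
integers there is a set `E` of dimension at most `1 - κ` such that for all `α > 0` outside `E`, all integers `h` and both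
signs: if `P i` saves a power of the logarithm or has density zero, then so has the set of the `n` with
`P i (h ± ⌊α n ^ c⌋)`. -/
theorem sparse_int (c : ℝ) (hc : 1 < c) : ∃ κ : ℝ, 0 < κ ∧ κ < 1 ∧ ∀ (ι : Type) [Countable ι] (P : ι → ℤ → Prop),
    ∃ E : Set ℝ, dimH E ≤ ENNReal.ofReal (1 - κ) ∧ ∀ α : ℝ, 0 < α → α ∉ E →
      ∀ (i : ι) (h s : ℤ), (s = 1 ∨ s = -1) →
        (∀ θ C : ℝ, 0 < θ →
          (∃ X₀ : ℕ, ∀ X : ℕ, X₀ ≤ X → (((Icc (-(X : ℤ)) X).filter (P i)).card : ℝ) ≤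
            C * X * (Real.log X) ^ (-θ)) →
          ∃ C' : ℝ, ∃ N₀ : ℕ, ∀ N : ℕ, N₀ ≤ N →
            (((Icc 1 N).filter (fun n : ℕ => P i (h + s * ((⌊α * (n : ℝ) ^ c⌋₊ : ℕ) : ℤ)))).card : ℝ) ≤
              C' * N * (Real.log N) ^ (-θ)) ∧
        (Tendsto (fun X : ℕ => (((Icc (-(X : ℤ)) X).filter (P i)).card : ℝ) / X) atTop (𝓝 0) →
          Tendsto (fun N : ℕ => (((Icc 1 N).filter
            (fun n : ℕ => P i (h + s * ((⌊α * (n : ℝ) ^ c⌋₊ : ℕ) : ℤ)))).card : ℝ) / N) atTop (𝓝 0)) := by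
  obtain ⟨κ, hκ0, hκ1, H⟩ := use c hc
  refine ⟨κ, hκ0, hκ1, fun ι _ P => ?_⟩
  obtain ⟨E, hE, hh⟩ := H (fun _ _ => ∅) ((ι × ℤ) × ℤ)
    (fun i => {m : ℕ | P i.1.1 (i.1.2 + i.2 * (m : ℤ))})
  refine ⟨E, hE, fun α hα hαE i h s hs => ⟨fun θ C hθ hP => ?_, fun hP => ?_⟩⟩
  · obtain ⟨_, _, h3⟩ := hh α hα hαE
    obtain ⟨X₁, h4⟩ := hP
    have hb : ∃ C : ℝ, ∃ X₁ : ℕ, ∀ X : ℕ, X₁ ≤ X → (cnt {m : ℕ | P i (h + s * (m : ℤ))} X : ℝ) ≤
        C * X * (Real.log X) ^ (-θ) := by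
      refine ⟨2 * max C 0, max X₁ (max h.natAbs 3), fun X hX => ?_⟩
      have hX1 : X₁ ≤ X := (le_max_left _ _).trans hX
      have hX2 : h.natAbs ≤ X := (le_max_left _ _).trans ((le_max_right _ _).trans hX)
      have hX3 : 3 ≤ X := (le_max_right _ _).trans ((le_max_right _ _).trans hX)
      have h5 : (cnt {m : ℕ | P i (h + s * (m : ℤ))} X : ℝ) ≤
          C * ((X + h.natAbs : ℕ) : ℝ) * (Real.log ((X + h.natAbs : ℕ) : ℝ)) ^ (-θ) :=
        le_trans (Nat.cast_le.2 (cnt_shift (P i) h s hs X)) (h4 (X + h.natAbs) (by omega))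
      have hXr : (3 : ℝ) ≤ X := by exact_mod_cast hX3
      have hl0 : 0 < Real.log X := Real.log_pos (by linarith)
      have hle : (X : ℝ) ≤ ((X + h.natAbs : ℕ) : ℝ) := by exact_mod_cast Nat.le_add_right _ _
      have hl1 : Real.log X ≤ Real.log ((X + h.natAbs : ℕ) : ℝ) := Real.log_le_log (by linarith) hle
      have h6 : (Real.log ((X + h.natAbs : ℕ) : ℝ)) ^ (-θ) ≤ (Real.log X) ^ (-θ) :=
        Real.rpow_le_rpow_of_nonpos hl0 hl1 (by linarith)
      have h7 : ((X + h.natAbs : ℕ) : ℝ) ≤ 2 * X := by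
        have : X + h.natAbs ≤ 2 * X := by omega
        exact_mod_cast this
      have h8 : (0 : ℝ) ≤ (Real.log ((X + h.natAbs : ℕ) : ℝ)) ^ (-θ) := by positivity
      calc (cnt {m : ℕ | P i (h + s * (m : ℤ))} X : ℝ)
          ≤ C * ((X + h.natAbs : ℕ) : ℝ) * (Real.log ((X + h.natAbs : ℕ) : ℝ)) ^ (-θ) := h5
        _ ≤ max C 0 * ((X + h.natAbs : ℕ) : ℝ) * (Real.log ((X + h.natAbs : ℕ) : ℝ)) ^ (-θ) :=
            mul_le_mul_of_nonneg_right (mul_le_mul_of_nonneg_right (le_max_left _ _) (Nat.cast_nonneg _)) h8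
        _ ≤ max C 0 * (2 * X) * (Real.log X) ^ (-θ) :=
            mul_le_mul (mul_le_mul_of_nonneg_left h7 (le_max_right _ _)) h6 h8 (by positivity)
        _ = 2 * max C 0 * X * (Real.log X) ^ (-θ) := by ring
    obtain ⟨C', _, N₀, h5⟩ := up_log hc hα hκ0 hθ (h3 ((i, h), s)) hb
    refine ⟨C', N₀, fun N hN => ?_⟩
    exact le_trans (le_of_eq (congrArg Nat.cast (hit_form c α (fun m : ℕ => P i (h + s * (m : ℤ))) N))) (h5 N hN)
  · obtain ⟨_, _, h3⟩ := hh α hα hαE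
    have h4 : Tendsto (fun X : ℕ => (cnt {m : ℕ | P i (h + s * (m : ℤ))} X : ℝ) / X) atTop (𝓝 0) := by
      have hsh : Tendsto (fun X : ℕ => X + h.natAbs) atTop atTop := tendsto_add_atTop_nat h.natAbs
      have k1 := (hP.comp hsh).const_mul 2
      rw [mul_zero] at k1
      refine squeeze_zero' (Eventually.of_forall fun X => by positivity) ?_ k1
      filter_upwards [eventually_ge_atTop (max h.natAbs 1)] with X hX
      have hX2 : h.natAbs ≤ X := (le_max_left _ _).trans hX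
      have hX1 : (0 : ℝ) < X := by exact_mod_cast (le_max_right _ _).trans hX
      have hY1 : (0 : ℝ) < ((X + h.natAbs : ℕ) : ℝ) := by
        have : 0 < X := (le_max_right _ _).trans hX
        exact_mod_cast Nat.add_pos_left this _
      have h7 : ((X + h.natAbs : ℕ) : ℝ) ≤ 2 * X := by
        have : X + h.natAbs ≤ 2 * X := by omega
        exact_mod_cast this
      have h8 : (cnt {m : ℕ | P i (h + s * (m : ℤ))} X : ℝ) ≤
          (((Icc (-((X + h.natAbs : ℕ) : ℤ)) ((X + h.natAbs : ℕ) : ℤ)).filter (P i)).card : ℝ) :=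
        Nat.cast_le.2 (cnt_shift (P i) h s hs X)
      show (cnt {m : ℕ | P i (h + s * (m : ℤ))} X : ℝ) / X ≤
        2 * ((((Icc (-((X + h.natAbs : ℕ) : ℤ)) ((X + h.natAbs : ℕ) : ℤ)).filter (P i)).card : ℝ) /
          ((X + h.natAbs : ℕ) : ℝ))
      rw [mul_div_assoc', div_le_div_iff₀ hX1 hY1]
      have h9 : (0 : ℝ) ≤ (((Icc (-((X + h.natAbs : ℕ) : ℤ)) ((X + h.natAbs : ℕ) : ℤ)).filter (P i)).card : ℝ) :=
        Nat.cast_nonneg _
      calc (cnt {m : ℕ | P i (h + s * (m : ℤ))} X : ℝ) * ((X + h.natAbs : ℕ) : ℝ)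
          ≤ (((Icc (-((X + h.natAbs : ℕ) : ℤ)) ((X + h.natAbs : ℕ) : ℤ)).filter (P i)).card : ℝ) * (2 * X) :=
            mul_le_mul h8 h7 hY1.le h9
        _ = 2 * (((Icc (-((X + h.natAbs : ℕ) : ℤ)) ((X + h.natAbs : ℕ) : ℤ)).filter (P i)).card : ℝ) * X := by ring
    have h5 := (nat_iff hc hα hκ0 hκ1 (h3 ((i, h), s)) 0).1 h4
    refine h5.congr fun N => ?_
    exact congrArg (fun x : ℕ => (x : ℝ) / N) (hit_form c α (fun m : ℕ => P i (h + s * (m : ℤ))) N).symm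

/-- conversion between natural and real powers of the logarithm -/
lemma save_all (F : ℕ → ℝ) (h : ∀ U : ℕ, ∃ C : ℝ, ∃ N₀ : ℕ, ∀ N : ℕ, N₀ ≤ N →
    F N ≤ C * N * (Real.log N) ^ (-((U : ℝ) + 1))) : ∀ U : ℕ, ∃ N₀ : ℕ, ∀ N : ℕ, N₀ ≤ N →
    F N ≤ N / (Real.log N) ^ U := by
  intro U
  obtain ⟨C, N₁, h1⟩ := h U
  have hlog : Tendsto (fun N : ℕ => Real.log (N : ℝ)) atTop atTop := Real.tendsto_log_atTop.comp tendsto_natCast_atTop_atTop
  obtain ⟨N₂, h2⟩ := (hlog.eventually_ge_atTop (max C 1)).exists_forall_of_atTop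
  refine ⟨max N₁ N₂, fun N hN => (h1 N ((le_max_left _ _).trans hN)).trans ?_⟩
  have h3 := h2 N ((le_max_right _ _).trans hN)
  have hC : C ≤ Real.log N := (le_max_left _ _).trans h3
  have h0 : 0 < Real.log N := lt_of_lt_of_le one_pos ((le_max_right _ _).trans h3)
  have e : (Real.log N) ^ (-((U : ℝ) + 1)) = ((Real.log N) ^ U * Real.log N)⁻¹ := by
    rw [Real.rpow_neg h0.le, Real.rpow_add h0, Real.rpow_natCast, Real.rpow_one]
  rw [e]
  have hN0 : (0 : ℝ) ≤ N := Nat.cast_nonneg _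
  have h4 : C * N * ((Real.log N) ^ U * Real.log N)⁻¹ ≤ Real.log N * N * ((Real.log N) ^ U * Real.log N)⁻¹ :=
    mul_le_mul_of_nonneg_right (mul_le_mul_of_nonneg_right hC hN0) (by positivity)
  refine h4.trans (le_of_eq ?_)
  field_simp

lemma save_conv (F : ℕ → ℝ) (h : ∀ U : ℕ, ∃ N₀ : ℕ, ∀ N : ℕ, N₀ ≤ N → F N ≤ N / (Real.log N) ^ U) (U : ℕ) :
    ∃ N₀ : ℕ, ∀ N : ℕ, N₀ ≤ N → F N ≤ 1 * N * (Real.log N) ^ (-((U : ℝ) + 1)) := by
  obtain ⟨N₁, h1⟩ := h (U + 1)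
  refine ⟨max N₁ 3, fun N hN => (h1 N ((le_max_left _ _).trans hN)).trans (le_of_eq ?_)⟩
  have h3 : (3 : ℝ) ≤ N := by exact_mod_cast (le_max_right _ _).trans hN
  have h0 : 0 < Real.log N := Real.log_pos (by linarith)
  have e : (Real.log N) ^ (-((U : ℝ) + 1)) = ((Real.log N) ^ U * Real.log N)⁻¹ := by
    rw [Real.rpow_neg h0.le, Real.rpow_add h0, Real.rpow_natCast, Real.rpow_one]
  rw [e, pow_succ, one_mul, div_eq_mul_inv]

open Classical in
/-- **Sets of integers, all powers of the logarithm.** -/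
theorem sparse_all (c : ℝ) (hc : 1 < c) : ∃ κ : ℝ, 0 < κ ∧ κ < 1 ∧ ∀ (ι : Type) [Countable ι] (P : ι → ℤ → Prop),
    ∃ E : Set ℝ, dimH E ≤ ENNReal.ofReal (1 - κ) ∧ ∀ α : ℝ, 0 < α → α ∉ E →
      ∀ (i : ι) (h s : ℤ), (s = 1 ∨ s = -1) →
        (∀ U : ℕ, ∃ X₀ : ℕ, ∀ X : ℕ, X₀ ≤ X → (((Icc (-(X : ℤ)) X).filter (P i)).card : ℝ) ≤ X / (Real.log X) ^ U) →
        ∀ U : ℕ, ∃ N₀ : ℕ, ∀ N : ℕ, N₀ ≤ N →
          (((Icc 1 N).filter (fun n : ℕ => P i (h + s * ((⌊α * (n : ℝ) ^ c⌋₊ : ℕ) : ℤ)))).card : ℝ) ≤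
            N / (Real.log N) ^ U := by
  obtain ⟨κ, hκ0, hκ1, H⟩ := sparse_int c hc
  refine ⟨κ, hκ0, hκ1, fun ι _ P => ?_⟩
  obtain ⟨E, hE, hh⟩ := H ι P
  refine ⟨E, hE, fun α hα hαE i h s hs hP => ?_⟩
  refine save_all (fun N : ℕ => (((Icc 1 N).filter
    (fun n : ℕ => P i (h + s * ((⌊α * (n : ℝ) ^ c⌋₊ : ℕ) : ℤ)))).card : ℝ)) fun U => ?_
  exact (hh α hα hαE i h s hs).1 ((U : ℝ) + 1) 1 (by positivity)
    (save_conv (fun X : ℕ => (((Icc (-(X : ℤ)) X).filter (P i)).card : ℝ)) hP U)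

lemma countable_mvpolys (m : ℕ) : Countable (MvPolynomial (Fin m) ℤ) := by
  rw [← Cardinal.mk_le_aleph0_iff]
  refine MvPolynomial.cardinalMk_le_max.trans ?_
  rw [max_le_iff, max_le_iff]
  exact ⟨⟨Cardinal.mk_le_aleph0_iff.2 inferInstance, Cardinal.mk_le_aleph0_iff.2 inferInstance⟩, le_refl _⟩

end Pool.Agent.X20.Tr
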