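import Pool.Agent.X20.Tr.UpPow
import Pool.Agent.X20.Tr.Int

/-! Sets of integers which save a power, and upper densities, along `⌊α n ^ c⌋` (helper20). -/

set_option autoImplicit false

namespace Pool.Agent.X20.Tr

open Finset Filter Topology
open Pool.Agent.Y854.PS (ms xs)

/-- dyadic decomposition -/
lemma dyad (B : Set ℕ) (C δ : ℝ) (hC : 0 ≤ C) (hδ : δ ≤ 1 / 2) (N₀ : ℕ)
    (h : ∀ N : ℕ, N₀ ≤ N → ({m : ℕ | m ∈ B ∧ N < 2 * m ∧ m ≤ N}.ncard : ℝ) ≤ C * (N : ℝ) ^ (1 - δ)) :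
    ∃ C' : ℝ, 0 ≤ C' ∧ ∀ X : ℕ, 1 ≤ X → (cnt B X : ℝ) ≤ C' * (X : ℝ) ^ (1 - δ) := by
  classical
  refine ⟨4 * C + N₀ + 1, by positivity, fun X => ?_⟩
  induction X using Nat.strong_induction_on with
  | _ X ih =>
    intro hX
    have hX1 : (1 : ℝ) ≤ X := by exact_mod_cast hX
    have hp : (1 : ℝ) ≤ (X : ℝ) ^ (1 - δ) := Real.one_le_rpow hX1 (by linarith)
    have hcX : cnt B X ≤ X := by
      unfold cnt
      have := card_filter_le (Icc 1 X) (fun m => m ∈ B)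
      rwa [Nat.card_Icc, Nat.add_sub_cancel] at this
    by_cases hs : X ≤ N₀ ∨ X = 1
    · have h1 : (cnt B X : ℝ) ≤ N₀ + 1 := by
        have : cnt B X ≤ N₀ + 1 := by omega
        exact_mod_cast this
      have h2 : (0 : ℝ) ≤ N₀ := Nat.cast_nonneg _
      nlinarith
    · push Not at hs
      obtain ⟨h1, h2⟩ := hs
      have h3 := ih (X / 2) (by omega) (by omega)
      have h4 := h X h1.le
      have h5 : cnt B X ≤ cnt B (X / 2) + {m : ℕ | m ∈ B ∧ X < 2 * m ∧ m ≤ X}.ncard := by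
        have hfin : {m : ℕ | m ∈ B ∧ X < 2 * m ∧ m ≤ X}.Finite :=
          (Set.finite_Iic X).subset fun m hm => hm.2.2
        have h6 : ((Icc 1 X).filter (fun m => m ∈ B)) ⊆
            ((Icc 1 (X / 2)).filter (fun m => m ∈ B)) ∪ hfin.toFinset := by
          intro m hm
          rw [mem_filter, mem_Icc] at hm
          rw [mem_union, mem_filter, mem_Icc, Set.Finite.mem_toFinset]
          by_cases h7 : 2 * m ≤ X
          · exact Or.inl ⟨⟨hm.1.1, by omega⟩, hm.2⟩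
          · exact Or.inr ⟨hm.2, by omega, hm.1.2⟩
        have h7 := (card_le_card h6).trans (card_union_le _ _)
        rw [Set.ncard_eq_toFinset_card _ hfin]
        unfold cnt
        convert h7
      have h6 : (cnt B X : ℝ) ≤ cnt B (X / 2) + ({m : ℕ | m ∈ B ∧ X < 2 * m ∧ m ≤ X}.ncard : ℝ) := by
        exact_mod_cast h5
      have h7 : (((X / 2 : ℕ) : ℝ)) ^ (1 - δ) ≤ 3 / 4 * (X : ℝ) ^ (1 - δ) := by
        have h8 : ((X / 2 : ℕ) : ℝ) ≤ (1 / 2) * X := by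
          have : ((X / 2 : ℕ) : ℝ) ≤ (X : ℝ) / ((2 : ℕ) : ℝ) := Nat.cast_div_le
          push_cast at this
          linarith
        calc (((X / 2 : ℕ) : ℝ)) ^ (1 - δ) ≤ ((1 / 2) * (X : ℝ)) ^ (1 - δ) :=
              Real.rpow_le_rpow (Nat.cast_nonneg _) h8 (by linarith)
          _ = (1 / 2 : ℝ) ^ (1 - δ) * (X : ℝ) ^ (1 - δ) := Real.mul_rpow (by norm_num) (Nat.cast_nonneg _)
          _ ≤ 3 / 4 * (X : ℝ) ^ (1 - δ) := by
              apply mul_le_mul_of_nonneg_right _ (by positivity)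
              calc (1 / 2 : ℝ) ^ (1 - δ) ≤ (1 / 2 : ℝ) ^ (1 / 2 : ℝ) :=
                    Real.rpow_le_rpow_of_exponent_ge (by norm_num) (by norm_num) (by linarith)
                _ = √(1 / 2) := (Real.sqrt_eq_rpow _).symm
                _ ≤ 3 / 4 := by
                    rw [Real.sqrt_le_left (by norm_num)]
                    norm_num
      have h9 : (0 : ℝ) ≤ N₀ := Nat.cast_nonneg _
      have h10 : (4 * C + N₀ + 1) * (((X / 2 : ℕ) : ℝ)) ^ (1 - δ) ≤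
          (4 * C + N₀ + 1) * (3 / 4 * (X : ℝ) ^ (1 - δ)) :=
        mul_le_mul_of_nonneg_left h7 (by positivity)
      nlinarith

open Classical in
/-- **Sets of integers which save a power.** -/
theorem sparse_pow (c : ℝ) (hc : 1 < c) : ∃ κ : ℝ, 0 < κ ∧ κ < 1 ∧ ∀ (ι : Type) [Countable ι] (P : ι → ℤ → Prop),
    ∃ E : Set ℝ, dimH E ≤ ENNReal.ofReal (1 - κ) ∧ ∀ α : ℝ, 0 < α → α ∉ E →
      ∀ (i : ι) (h s : ℤ), (s = 1 ∨ s = -1) → ∀ δ C : ℝ, 0 < δ → δ ≤ 1 / 2 →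
        (∃ N₁ : ℕ, ∀ N : ℕ, N₁ ≤ N → ({k : ℤ | P i k ∧ (N : ℤ) < 2 * |k| ∧ |k| ≤ N}.ncard : ℝ) ≤
          C * (N : ℝ) ^ (1 - δ)) →
        ∀ κ' : ℝ, 0 ≤ κ' → κ' < κ → κ' < δ / 2 → ∃ N₀ : ℕ, ∀ N : ℕ, N₀ ≤ N →
          (((Icc 1 N).filter (fun n : ℕ => P i (h + s * ((⌊α * (n : ℝ) ^ c⌋₊ : ℕ) : ℤ)))).card : ℝ) ≤
            (N : ℝ) ^ (1 - κ') := by
  obtain ⟨κ, hκ0, hκ1, H⟩ := use c hc
  refine ⟨κ, hκ0, hκ1, fun ι _ P => ?_⟩
  obtain ⟨E, hE, hh⟩ := H (fun _ _ => ∅) ((ι × ℤ) × ℤ)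
    (fun i => {m : ℕ | P i.1.1 (i.1.2 + i.2 * (m : ℤ))})
  refine ⟨E, hE, fun α hα hαE i h s hs δ C hδ hδ2 hP κ' hκ' hκκ hκδ => ?_⟩
  obtain ⟨_, _, h3⟩ := hh α hα hαE
  obtain ⟨N₁, hN₁⟩ := hP
  -- one sign
  have one : ∀ t : ℤ, (t = 1 ∨ t = -1) → ∃ C' : ℝ, 0 ≤ C' ∧ ∀ X : ℕ, 1 ≤ X →
      (cnt {m : ℕ | P i (t * (m : ℤ))} X : ℝ) ≤ C' * (X : ℝ) ^ (1 - δ) := by
    intro t ht
    refine dyad {m : ℕ | P i (t * (m : ℤ))} (max C 0) δ (le_max_right _ _) hδ2 N₁ fun N hN => ?_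
    refine le_trans ?_ ((hN₁ N hN).trans (mul_le_mul_of_nonneg_right (le_max_left _ _) (by positivity)))
    have hfin : {k : ℤ | P i k ∧ (N : ℤ) < 2 * |k| ∧ |k| ≤ N}.Finite := by
      refine (Set.finite_Icc (-(N : ℤ)) N).subset fun k hk => ?_
      have := abs_le.1 hk.2.2
      exact ⟨this.1, this.2⟩
    have hinj : Function.Injective (fun m : ℕ => t * (m : ℤ)) := by
      intro a b hab
      have hab' : t * (a : ℤ) = t * (b : ℤ) := hab
      rcases ht with rfl | rfl <;> omega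
    rw [Nat.cast_le, ← Set.ncard_image_of_injective _ hinj]
    refine Set.ncard_le_ncard ?_ hfin
    rintro k ⟨m, ⟨hm1, hm2, hm3⟩, rfl⟩
    refine ⟨hm1, ?_, ?_⟩
    · show (N : ℤ) < 2 * |t * (m : ℤ)|
      rw [abs_mul]
      rcases ht with rfl | rfl <;> simp <;> omega
    · show |t * (m : ℤ)| ≤ N
      rw [abs_mul]
      rcases ht with rfl | rfl <;> simp <;> omega
  obtain ⟨C₁, hC₁, g1⟩ := one 1 (Or.inl rfl)
  obtain ⟨C₂, hC₂, g2⟩ := one (-1) (Or.inr rfl)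
  have two : ∀ X : ℕ, 1 ≤ X → (((Icc (-(X : ℤ)) X).filter (P i)).card : ℝ) ≤ (C₁ + C₂ + 1) * (X : ℝ) ^ (1 - δ) := by
    intro X hX
    have hX1 : (1 : ℝ) ≤ X := by exact_mod_cast hX
    have hp : (1 : ℝ) ≤ (X : ℝ) ^ (1 - δ) := Real.one_le_rpow hX1 (by linarith)
    have h4 : ((Icc (-(X : ℤ)) X).filter (P i)) ⊆
        ((((Icc 1 X).filter (fun m : ℕ => m ∈ {m : ℕ | P i (1 * (m : ℤ))})).image (fun m : ℕ => (1 : ℤ) * (m : ℤ))) ∪
        (((Icc 1 X).filter (fun m : ℕ => m ∈ {m : ℕ | P i (-1 * (m : ℤ))})).image (fun m : ℕ => (-1 : ℤ) * (m : ℤ)))) ∪ {0} := by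
      intro k hk
      rw [mem_filter, mem_Icc] at hk
      rw [mem_union, mem_union, mem_singleton, mem_image, mem_image]
      rcases lt_trichotomy k 0 with h5 | h5 | h5
      · left; right
        refine ⟨k.natAbs, mem_filter.2 ⟨mem_Icc.2 ⟨by omega, by omega⟩, ?_⟩, by omega⟩
        show P i (-1 * (k.natAbs : ℤ))
        rw [show -1 * (k.natAbs : ℤ) = k by omega]
        exact hk.2
      · right; exact h5
      · left; left
        refine ⟨k.natAbs, mem_filter.2 ⟨mem_Icc.2 ⟨by omega, by omega⟩, ?_⟩, by omega⟩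
        show P i (1 * (k.natAbs : ℤ))
        rw [show 1 * (k.natAbs : ℤ) = k by omega]
        exact hk.2
    have h5 := (card_le_card h4).trans ((card_union_le _ _).trans (Nat.add_le_add_right (card_union_le _ _) _))
    have h6 : ((Icc (-(X : ℤ)) X).filter (P i)).card ≤ cnt {m : ℕ | P i (1 * (m : ℤ))} X +
        cnt {m : ℕ | P i (-1 * (m : ℤ))} X + 1 := by
      refine h5.trans ?_
      rw [card_singleton]
      refine Nat.add_le_add_right (Nat.add_le_add (card_image_le.trans (le_of_eq ?_))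
        (card_image_le.trans (le_of_eq ?_))) _
      · unfold cnt
        exact card_filt _ fun _ => Iff.rfl
      · unfold cnt
        exact card_filt _ fun _ => Iff.rfl
    have h7 : (((Icc (-(X : ℤ)) X).filter (P i)).card : ℝ) ≤ (cnt {m : ℕ | P i (1 * (m : ℤ))} X : ℝ) +
        (cnt {m : ℕ | P i (-1 * (m : ℤ))} X : ℝ) + 1 := by exact_mod_cast h6
    have h8 := g1 X hX
    have h9 := g2 X hX
    nlinarith
  have three : ∃ C' : ℝ, ∀ X : ℕ, 1 ≤ X → (cnt {m : ℕ | P i (h + s * (m : ℤ))} X : ℝ) ≤ C' * (X : ℝ) ^ (1 - δ) := by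
    refine ⟨(C₁ + C₂ + 1) * ((1 + h.natAbs : ℕ) : ℝ) ^ (1 - δ), fun X hX => ?_⟩
    have h4 : (cnt {m : ℕ | P i (h + s * (m : ℤ))} X : ℝ) ≤
        (((Icc (-((X + h.natAbs : ℕ) : ℤ)) ((X + h.natAbs : ℕ) : ℤ)).filter (P i)).card : ℝ) :=
      Nat.cast_le.2 (cnt_shift (P i) h s hs X)
    refine h4.trans ((two (X + h.natAbs) (by omega)).trans ?_)
    rw [mul_assoc, ← Real.mul_rpow (Nat.cast_nonneg _) (Nat.cast_nonneg _)]
    apply mul_le_mul_of_nonneg_left _ (by positivity)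
    apply Real.rpow_le_rpow (Nat.cast_nonneg _) _ (by linarith)
    rw [← Nat.cast_mul, Nat.cast_le]
    have h5 := Nat.le_mul_of_pos_right h.natAbs hX
    linarith [show (1 + h.natAbs) * X = X + h.natAbs * X by ring]
  obtain ⟨N₀, hN₀⟩ := up_pow hc hα hκ0 hδ (by linarith) (h3 ((i, h), s)) three κ' hκ' hκκ hκδ
  refine ⟨N₀, fun N hN => ?_⟩
  exact le_trans (le_of_eq (congrArg Nat.cast (hit_form c α (fun m : ℕ => P i (h + s * (m : ℤ))) N))) (hN₀ N hN)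

open Classical in
/-- **Upper densities.** -/
theorem sparse_up (c : ℝ) (hc : 1 < c) : ∃ κ : ℝ, 0 < κ ∧ κ < 1 ∧ ∀ (ι : Type) [Countable ι] (P : ι → ℕ → Prop),
    ∃ E : Set ℝ, dimH E ≤ ENNReal.ofReal (1 - κ) ∧ ∀ α : ℝ, 0 < α → α ∉ E →
      ∀ (i : ι) (η : ℝ), 0 ≤ η →
        (∀ ε : ℝ, 0 < ε → ∃ X₀ : ℕ, ∀ X : ℕ, X₀ ≤ X → (((Icc 1 X).filter (P i)).card : ℝ) ≤ (η + ε) * X) →
        ∀ ε : ℝ, 0 < ε → ∃ N₀ : ℕ, ∀ N : ℕ, N₀ ≤ N →
          (((Icc 1 N).filter (fun n : ℕ => P i ⌊α * (n : ℝ) ^ c⌋₊)).card : ℝ) ≤ (η + ε) * N := by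
  obtain ⟨κ, hκ0, hκ1, H⟩ := use c hc
  refine ⟨κ, hκ0, hκ1, fun ι _ P => ?_⟩
  obtain ⟨E, hE, hh⟩ := H (fun _ _ => ∅) ι (fun i => {m : ℕ | P i m})
  refine ⟨E, hE, fun α hα hαE i η hη hP ε hε => ?_⟩
  obtain ⟨_, _, h3⟩ := hh α hα hαE
  have key := up' hc hα hκ0 (F := ind {m : ℕ | P i m})
    (fun m => (ind_tri _).abs_le m) (h3 i) η hη (fun ε hε => by
      obtain ⟨X₀, hX⟩ := hP ε hε
      refine ⟨X₀, fun x hx => ?_⟩
      rw [sum_ind {m : ℕ | P i m} (Ioc 0 x) (fun m => m), abs_of_nonneg (Nat.cast_nonneg _)]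
      refine le_trans (le_of_eq ?_) (hX x hx)
      have e : Ioc 0 x = Icc 1 x := by ext m; simp only [mem_Ioc, mem_Icc]; omega
      rw [e]
      exact congrArg Nat.cast (card_filt _ fun _ => Iff.rfl)) ε hε
  obtain ⟨N₀, hN₀⟩ := key
  refine ⟨N₀, fun N hN => ?_⟩
  have h4 := hN₀ N hN
  rw [sum_ind, abs_of_nonneg (Nat.cast_nonneg _)] at h4
  refine le_trans (le_of_eq ?_) h4
  exact congrArg Nat.cast (card_filt _ fun _ => Iff.rfl)

/-- powers of the logarithms of comparable numbers -/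
lemma log_range (C : ℝ) (hC : 0 ≤ C) : ∃ N₀ : ℕ, 1 ≤ N₀ ∧ ∀ N : ℕ, N₀ ≤ N → ∀ D : ℝ, (N : ℝ) < 2 * D →
    (Real.log N) ^ C ≤ (Real.log D) ^ (C + 1) := by
  have hlog : Tendsto (fun N : ℕ => Real.log (N : ℝ)) atTop atTop :=
    Real.tendsto_log_atTop.comp tendsto_natCast_atTop_atTop
  obtain ⟨N₁, h1⟩ := (hlog.eventually_ge_atTop (Real.log 2 + max 1 ((2 : ℝ) ^ C))).exists_forall_of_atTop
  refine ⟨max N₁ 1, le_max_right _ _, fun N hN D hD => ?_⟩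
  have h2 := h1 N ((le_max_left _ _).trans hN)
  have hN1 : (1 : ℝ) ≤ N := by exact_mod_cast (le_max_right _ _).trans hN
  have hD0 : 0 < D := by linarith
  have h3 : Real.log N ≤ Real.log 2 + Real.log D := by
    rw [← Real.log_mul (by norm_num) hD0.ne']
    exact Real.log_le_log (by linarith) hD.le
  have h4 : max 1 ((2 : ℝ) ^ C) ≤ Real.log D := by linarith
  have h5 : 1 ≤ Real.log D := (le_max_left _ _).trans h4
  have h6 : (2 : ℝ) ^ C ≤ Real.log D := (le_max_right _ _).trans h4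
  have h7 : Real.log 2 ≤ 1 := by
    have := Real.log_two_lt_d9
    linarith
  have h8 : 0 ≤ Real.log N := Real.log_nonneg hN1
  calc (Real.log N) ^ C ≤ (2 * Real.log D) ^ C := Real.rpow_le_rpow h8 (by linarith) hC
    _ = (2 : ℝ) ^ C * (Real.log D) ^ C := Real.mul_rpow (by norm_num) (by linarith)
    _ ≤ Real.log D * (Real.log D) ^ C := mul_le_mul_of_nonneg_right h6 (by positivity)
    _ = (Real.log D) ^ (C + 1) := by rw [Real.rpow_add (by linarith), Real.rpow_one, mul_comm]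

end Pool.Agent.X20.Tr
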