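import Pool.Agent.X20.Tr.LogC

/-! Averages of complex valued functions along `⌊α n ^ c⌋` (helper20). -/

set_option autoImplicit false

namespace Pool.Agent.X20.Tr

open Finset Filter Topology
open Pool.Agent.Y854.PS (ms xs)

/-- the sum over `n ≤ N` -/
noncomputable def cs (P : ℕ → ℂ) (N : ℕ) : ℂ := ∑ n ∈ Icc 1 N, P n

/-- the two sums agree up to `o(N)` -/
def CC (c α : ℝ) (P : ℕ → ℂ) : Prop := ∀ ε : ℝ, 0 < ε → ∃ N₀ : ℕ, ∀ N : ℕ, N₀ ≤ N →
  ‖cs (fun n => P (ms α c n)) N - cs (fun m => ((wt c α m : ℝ) : ℂ) * P m) (ms α c N)‖ ≤ ε * N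

lemma cs_add (P Q : ℕ → ℂ) (N : ℕ) : cs (fun n => P n + Q n) N = cs P N + cs Q N := by
  unfold cs
  rw [← sum_add_distrib]

lemma cs_sub (P Q : ℕ → ℂ) (N : ℕ) : cs (fun n => P n - Q n) N = cs P N - cs Q N := by
  unfold cs
  rw [← sum_sub_distrib]

lemma cs_smul (a : ℂ) (P : ℕ → ℂ) (N : ℕ) : cs (fun n => a * P n) N = a * cs P N := by
  unfold cs
  rw [mul_sum]

lemma CC.add {c α : ℝ} {P Q : ℕ → ℂ} (hP : CC c α P) (hQ : CC c α Q) : CC c α (fun n => P n + Q n) := by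
  intro ε hε
  obtain ⟨N₁, h1⟩ := hP (ε / 2) (by positivity)
  obtain ⟨N₂, h2⟩ := hQ (ε / 2) (by positivity)
  refine ⟨max N₁ N₂, fun N hN => ?_⟩
  have k1 := h1 N ((le_max_left _ _).trans hN)
  have k2 := h2 N ((le_max_right _ _).trans hN)
  have e : cs (fun n => P (ms α c n) + Q (ms α c n)) N -
      cs (fun m => ((wt c α m : ℝ) : ℂ) * (P m + Q m)) (ms α c N) =
      (cs (fun n => P (ms α c n)) N - cs (fun m => ((wt c α m : ℝ) : ℂ) * P m) (ms α c N)) +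
      (cs (fun n => Q (ms α c n)) N - cs (fun m => ((wt c α m : ℝ) : ℂ) * Q m) (ms α c N)) := by
    simp only [mul_add]
    rw [cs_add (fun n => P (ms α c n)), cs_add (fun m => ((wt c α m : ℝ) : ℂ) * P m)]
    ring
  show ‖cs (fun n => P (ms α c n) + Q (ms α c n)) N -
      cs (fun m => ((wt c α m : ℝ) : ℂ) * (P m + Q m)) (ms α c N)‖ ≤ _
  rw [e]
  refine (norm_add_le _ _).trans ?_
  linarith

lemma CC.smul {c α : ℝ} {P : ℕ → ℂ} (a : ℂ) (hP : CC c α P) : CC c α (fun n => a * P n) := by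
  intro ε hε
  have ha : 0 < ‖a‖ + 1 := by positivity
  obtain ⟨N₁, h1⟩ := hP (ε / (‖a‖ + 1)) (by positivity)
  refine ⟨N₁, fun N hN => ?_⟩
  have e : cs (fun n => a * P (ms α c n)) N - cs (fun m => ((wt c α m : ℝ) : ℂ) * (a * P m)) (ms α c N) =
      a * (cs (fun n => P (ms α c n)) N - cs (fun m => ((wt c α m : ℝ) : ℂ) * P m) (ms α c N)) := by
    have e1 : (fun m : ℕ => ((wt c α m : ℝ) : ℂ) * (a * P m)) = fun m => a * (((wt c α m : ℝ) : ℂ) * P m) :=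
      funext fun m => by ring
    rw [e1, cs_smul, cs_smul]
    ring
  show ‖cs (fun n => a * P (ms α c n)) N - cs (fun m => ((wt c α m : ℝ) : ℂ) * (a * P m)) (ms α c N)‖ ≤ _
  rw [e, norm_mul]
  have hl : (0 : ℝ) ≤ N := Nat.cast_nonneg N
  calc ‖a‖ * ‖cs (fun n => P (ms α c n)) N - cs (fun m => ((wt c α m : ℝ) : ℂ) * P m) (ms α c N)‖
      ≤ (‖a‖ + 1) * (ε / (‖a‖ + 1) * N) :=
        mul_le_mul (by linarith) (h1 N hN) (norm_nonneg _) ha.le
    _ = ε * N := by field_simp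

lemma CC.zero {c α : ℝ} : CC c α (fun _ => 0) := by
  intro ε hε
  refine ⟨0, fun N _ => ?_⟩
  have hl : (0 : ℝ) ≤ N := Nat.cast_nonneg N
  have : ∀ M : ℕ, cs (fun _ => 0) M = 0 := fun M => by
    unfold cs
    simp
  simp only [mul_zero]
  rw [this, this]
  simp only [sub_zero, norm_zero]
  positivity

lemma CC.sum {c α : ℝ} {ι : Type*} (s : Finset ι) (P : ι → ℕ → ℂ) (h : ∀ i ∈ s, CC c α (P i)) :
    CC c α (fun n => ∑ i ∈ s, P i n) := by
  classical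
  induction s using Finset.induction_on with
  | empty => simpa using CC.zero
  | insert a s ha ih =>
    have h1 := (h a (mem_insert_self a s)).add (ih fun i hi => h i (mem_insert_of_mem hi))
    refine (congrArg (CC c α) (funext fun n => ?_)).mp h1
    rw [sum_insert ha]

/-- the sum of the weights -/
def WB (c α : ℝ) : Prop := ∃ N₀ : ℕ, ∀ N : ℕ, N₀ ≤ N →
  |(N : ℝ) - ∑ m ∈ Icc 1 (ms α c N), wt c α m| ≤ N

lemma Ioc_Icc (X : ℕ) : Ioc 0 X = Icc 1 X := by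
  ext m
  simp only [mem_Ioc, mem_Icc]
  omega

lemma Cmp.wb {c α κ : ℝ} (hκ : 0 < κ) {F : ℕ → ℝ} (hC : Cmp c α κ F) : WB c α := by
  obtain ⟨N₀, h⟩ := hC
  refine ⟨max N₀ 1, fun N hN => ?_⟩
  have h1 := (h N ((le_max_left _ _).trans hN)).1
  rw [Ioc_Icc] at h1
  refine h1.trans ?_
  have hN1 : (1 : ℝ) ≤ N := by
    have : 1 ≤ N := (le_max_right _ _).trans hN
    exact_mod_cast this
  calc (N : ℝ) ^ (1 - κ) ≤ (N : ℝ) ^ (1 : ℝ) := Real.rpow_le_rpow_of_exponent_le hN1 (by linarith)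
    _ = N := Real.rpow_one _

lemma Cmp.cc {c α κ : ℝ} (hκ : 0 < κ) {F : ℕ → ℝ} (hC : Cmp c α κ F) : CC c α (fun n => (F n : ℂ)) := by
  intro ε hε
  obtain ⟨N₀, h⟩ := hC
  obtain ⟨N₁, _, h1⟩ := small_pow κ hκ 1 0 ε (by norm_num) le_rfl hε
  refine ⟨max N₀ N₁, fun N hN => ?_⟩
  have h2 := (h N ((le_max_left _ _).trans hN)).2
  have h3 := h1 N ((le_max_right _ _).trans hN)
  rw [Ioc_Icc] at h2
  have e : cs (fun n => ((F (ms α c n) : ℝ) : ℂ)) N - cs (fun m => ((wt c α m : ℝ) : ℂ) * ((F m : ℝ) : ℂ)) (ms α c N) =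
      ((∑ n ∈ Icc 1 N, F (ms α c n) - ∑ m ∈ Icc 1 (ms α c N), F m * wt c α m : ℝ) : ℂ) := by
    unfold cs
    push_cast
    congr 1
    exact sum_congr rfl fun m _ => mul_comm _ _
  show ‖cs (fun n => ((F (ms α c n) : ℝ) : ℂ)) N -
    cs (fun m => ((wt c α m : ℝ) : ℂ) * ((F m : ℝ) : ℂ)) (ms α c N)‖ ≤ _
  rw [e, Complex.norm_real, Real.norm_eq_abs]
  linarith

lemma CC.approx {c α : ℝ} (hc : 1 < c) (hα : 0 < α) (hW : WB c α) {P : ℕ → ℂ}
    (h : ∀ ε : ℝ, 0 < ε → ∃ Q : ℕ → ℂ, CC c α Q ∧ ∀ m, ‖P m - Q m‖ ≤ ε) : CC c α P := by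
  intro ε hε
  obtain ⟨Q, hQ, hPQ⟩ := h (ε / 4) (by positivity)
  obtain ⟨N₁, h1⟩ := hQ (ε / 4) (by positivity)
  obtain ⟨N₂, h2⟩ := hW
  refine ⟨max N₁ N₂, fun N hN => ?_⟩
  have k1 := h1 N ((le_max_left _ _).trans hN)
  have k2 := h2 N ((le_max_right _ _).trans hN)
  rw [_root_.abs_le] at k2
  have a1 : ‖cs (fun n => P (ms α c n)) N - cs (fun n => Q (ms α c n)) N‖ ≤ ε / 4 * N := by
    rw [← cs_sub]
    unfold cs
    calc ‖∑ n ∈ Icc 1 N, (P (ms α c n) - Q (ms α c n))‖ ≤ ∑ n ∈ Icc 1 N, ‖P (ms α c n) - Q (ms α c n)‖ :=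
          norm_sum_le _ _
      _ ≤ ∑ n ∈ Icc 1 N, ε / 4 := sum_le_sum fun n _ => hPQ _
      _ = ε / 4 * N := by
          rw [sum_const, Nat.card_Icc, Nat.add_sub_cancel, nsmul_eq_mul, mul_comm]
  have a2 : ‖cs (fun m => ((wt c α m : ℝ) : ℂ) * P m) (ms α c N) - cs (fun m => ((wt c α m : ℝ) : ℂ) * Q m) (ms α c N)‖ ≤
      ε / 2 * N := by
    rw [← cs_sub]
    unfold cs
    calc ‖∑ m ∈ Icc 1 (ms α c N), (((wt c α m : ℝ) : ℂ) * P m - ((wt c α m : ℝ) : ℂ) * Q m)‖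
        ≤ ∑ m ∈ Icc 1 (ms α c N), ‖((wt c α m : ℝ) : ℂ) * P m - ((wt c α m : ℝ) : ℂ) * Q m‖ := norm_sum_le _ _
      _ ≤ ∑ m ∈ Icc 1 (ms α c N), ε / 4 * wt c α m := by
          apply sum_le_sum
          intro m _
          rw [← mul_sub, norm_mul, Complex.norm_real, Real.norm_eq_abs, abs_of_nonneg (wt_nonneg hc hα m), mul_comm]
          exact mul_le_mul_of_nonneg_right (hPQ m) (wt_nonneg hc hα m)
      _ ≤ ε / 2 * N := by
          rw [← mul_sum]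
          nlinarith [k2.1]
  have e : cs (fun n => P (ms α c n)) N - cs (fun m => ((wt c α m : ℝ) : ℂ) * P m) (ms α c N) =
      (cs (fun n => P (ms α c n)) N - cs (fun n => Q (ms α c n)) N) -
      (cs (fun m => ((wt c α m : ℝ) : ℂ) * P m) (ms α c N) - cs (fun m => ((wt c α m : ℝ) : ℂ) * Q m) (ms α c N)) +
      (cs (fun n => Q (ms α c n)) N - cs (fun m => ((wt c α m : ℝ) : ℂ) * Q m) (ms α c N)) := by ring
  rw [e]
  refine (norm_add_le _ _).trans ((add_le_add (norm_sub_le _ _) k1).trans ?_)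
  linarith

/-- the level sets suffice -/
lemma CC.of_lev {c α : ℝ} (hc : 1 < c) (hα : 0 < α) (hW : WB c α) {P : ℕ → ℂ} (hP : ∀ m, ‖P m‖ ≤ 1)
    (h : ∀ (b : Bool) (k i : ℕ), CC c α (fun m => ((ind (lev P b k i) m : ℝ) : ℂ))) : CC c α P := by
  apply CC.approx hc hα hW
  intro ε hε
  obtain ⟨k, hk⟩ : ∃ k : ℕ, k = ⌈4 / ε⌉₊ + 1 := ⟨_, rfl⟩
  have hk1 : 1 ≤ k := by omega
  have hk0 : (0 : ℝ) < k := by exact_mod_cast hk1
  have hkε : 4 / (k : ℝ) ≤ ε := by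
    rw [div_le_iff₀ hk0]
    have h1 : 4 / ε ≤ k := (Nat.le_ceil _).trans (by rw [hk]; push_cast; linarith)
    rw [div_le_iff₀ hε] at h1
    linarith
  obtain ⟨R, hR⟩ : ∃ R : Bool → ℕ → ℝ, ∀ b m, R b m =
      2 / k * ∑ i ∈ Icc 1 k, ind (lev P b k i) m - ind (lev P b k 0) m := ⟨_, fun _ _ => rfl⟩
  have hRL : ∀ b, CC c α (fun m => ((R b m : ℝ) : ℂ)) := by
    intro b
    have h1 := ((CC.sum (Icc 1 k) (fun i m => ((ind (lev P b k i) m : ℝ) : ℂ)) (fun i _ => h b k i)).smul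
      ((2 / k : ℝ) : ℂ)).add ((h b k 0).smul (-1))
    refine (congrArg (CC c α) (funext fun m => ?_)).mp h1
    rw [hR]
    push_cast
    ring
  refine ⟨fun m => ((R true m : ℝ) : ℂ) + Complex.I * ((R false m : ℝ) : ℂ), (hRL true).add ((hRL false).smul Complex.I),
    fun m => ?_⟩
  have h1 := approx_real P hP true k hk1 m
  have h2 := approx_real P hP false k hk1 m
  rw [← hR] at h1 h2
  unfold part at h1 h2
  simp only [if_true, Bool.false_eq_true, if_false] at h1 h2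
  have e : P m - (((R true m : ℝ) : ℂ) + Complex.I * ((R false m : ℝ) : ℂ)) =
      (((P m).re - R true m : ℝ) : ℂ) + Complex.I * (((P m).im - R false m : ℝ) : ℂ) := by
    apply Complex.ext <;> simp
  rw [e]
  refine (norm_add_le _ _).trans ?_
  rw [norm_mul, Complex.norm_I, one_mul, Complex.norm_real, Complex.norm_real, Real.norm_eq_abs, Real.norm_eq_abs]
  have h3 : 2 / (k : ℝ) + 2 / k = 4 / k := by ring
  linarith

end Pool.Agent.X20.Tr
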