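import Pool.Agent.X20.Tr.AvC

/-! Averages of complex valued functions along `⌊α n ^ c⌋`: limits (helper20). -/

set_option autoImplicit false

namespace Pool.Agent.X20.Tr

open Finset Filter Topology
open Pool.Agent.Y854.PS (ms xs)

lemma real_up {c α : ℝ} (hc : 1 < c) (hα : 0 < α) {F : ℕ → ℝ} (hF : B1 F)
    (hC : ∀ ε : ℝ, 0 < ε → ∃ N₀ : ℕ, ∀ N : ℕ, N₀ ≤ N →
      |∑ n ∈ Icc 1 N, F (ms α c n) - ∑ m ∈ Ioc 0 (ms α c N), F m * wt c α m| ≤ ε * N)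
    (hWt : ∀ ε : ℝ, 0 < ε → ∃ N₀ : ℕ, ∀ N : ℕ, N₀ ≤ N → |(N : ℝ) - ∑ m ∈ Ioc 0 (ms α c N), wt c α m| ≤ ε * N)
    (h : ∀ ε : ℝ, 0 < ε → ∃ x₀ : ℕ, ∀ x : ℕ, x₀ ≤ x → |∑ m ∈ Ioc 0 x, F m| ≤ ε * x) :
    ∀ ε : ℝ, 0 < ε → ∃ N₀ : ℕ, ∀ N : ℕ, N₀ ≤ N → |∑ n ∈ Icc 1 N, F (ms α c n)| ≤ ε * N := by
  intro ε hε
  obtain ⟨N₁, h1⟩ := hC (ε / 4) (by positivity)
  obtain ⟨N₂, h2⟩ := hWt 1 (by positivity)
  obtain ⟨x₀, h3⟩ := h (ε / 4) (by positivity)
  obtain ⟨N₃, h4⟩ := ((tend_ms hc hα).eventually_ge_atTop 1).exists_forall_of_atTop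
  refine ⟨max (max N₁ N₂) (max N₃ ⌈x₀ * wt c α 1 / (ε / 4)⌉₊), fun N hN => ?_⟩
  have k1 := h1 N (((le_max_left _ _).trans (le_max_left _ _)).trans hN)
  have k2 := h2 N (((le_max_right _ _).trans (le_max_left _ _)).trans hN)
  have k4 := h4 N (((le_max_left _ _).trans (le_max_right _ _)).trans hN)
  have k5 : (x₀ * wt c α 1) / (ε / 4) ≤ N :=
    (Nat.le_ceil _).trans (by exact_mod_cast ((le_max_right _ _).trans (le_max_right _ _)).trans hN)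
  rw [div_le_iff₀ (by positivity)] at k5
  have k6 := abel_le F (wt c α) (ε / 4) x₀ (ms α c N) (fun m _ => wt_nonneg hc hα m) (fun m hm => wt_anti hc hα m hm)
    (fun x _ => by
      rcases lt_or_ge x x₀ with h6 | h6
      · have h7 := S_le' hF x
        have h8 : (x : ℝ) ≤ x₀ := by exact_mod_cast h6.le
        have h9 : (0 : ℝ) ≤ ε / 4 * x := by positivity
        linarith
      · have h7 := h3 x h6
        have h8 : (0 : ℝ) ≤ x₀ := Nat.cast_nonneg _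
        linarith) (Nat.cast_nonneg _) k4
  rw [_root_.abs_le] at k1 k2 k6 ⊢
  have k7 : ε / 4 * ∑ m ∈ Ioc 0 (ms α c N), wt c α m ≤ ε / 4 * (2 * N) :=
    mul_le_mul_of_nonneg_left (by linarith [k2.1]) (by positivity)
  constructor <;> nlinarith [k1.1, k1.2, k6.1, k6.2]

lemma real_down {c α : ℝ} (hc : 1 < c) (hα : 0 < α) {F : ℕ → ℝ} (hF : B1 F)
    (hC : ∀ ε : ℝ, 0 < ε → ∃ N₀ : ℕ, ∀ N : ℕ, N₀ ≤ N →
      |∑ n ∈ Icc 1 N, F (ms α c n) - ∑ m ∈ Ioc 0 (ms α c N), F m * wt c α m| ≤ ε * N)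
    (hWt : ∀ ε : ℝ, 0 < ε → ∃ N₀ : ℕ, ∀ N : ℕ, N₀ ≤ N → |(N : ℝ) - ∑ m ∈ Ioc 0 (ms α c N), wt c α m| ≤ ε * N)
    (h : ∀ ε : ℝ, 0 < ε → ∃ N₀ : ℕ, ∀ N : ℕ, N₀ ≤ N → |∑ n ∈ Icc 1 N, F (ms α c n)| ≤ ε * N) :
    ∀ ε : ℝ, 0 < ε → ∃ x₀ : ℕ, ∀ x : ℕ, x₀ ≤ x → |∑ m ∈ Ioc 0 x, F m| ≤ ε * x := by
  intro ε hε
  have hc0 : 0 < c := by linarith
  obtain ⟨e₁, he₁⟩ : ∃ e₁ : ℝ, e₁ = ε / (32 * c) := ⟨_, rfl⟩
  have he0 : 0 < e₁ := by rw [he₁]; positivity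
  obtain ⟨N₁, h1⟩ := hC (e₁ / 4) (by positivity)
  obtain ⟨N₀, h1'⟩ := hWt (e₁ / 4) (by positivity)
  obtain ⟨N₂, h2⟩ := h (e₁ / 4) (by positivity)
  obtain ⟨N₃, h3⟩ : ∃ N₃ : ℕ, ∀ N : ℕ, N₃ ≤ N → 1 + e₁ ≤ e₁ * N := by
    refine ⟨⌈(1 + e₁) / e₁⌉₊, fun N hN => ?_⟩
    have h5 : (1 + e₁) / e₁ ≤ N := (Nat.le_ceil _).trans (by exact_mod_cast hN)
    rw [div_le_iff₀ he0] at h5
    linarith
  obtain ⟨K, hK⟩ : ∃ K : ℕ, K = max (max N₀ N₁) (max N₂ N₃) := ⟨_, rfl⟩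
  have hα1 : 0 < α ^ (-(1 / c)) := Real.rpow_pos_of_pos hα _
  obtain ⟨A, hA⟩ : ∃ A : ℕ → ℝ, ∀ x, A x = ∑ m ∈ Ioc 0 x, F m * wt c α m := ⟨_, fun _ => rfl⟩
  obtain ⟨W, hW⟩ : ∃ W : ℕ → ℝ, ∀ x, W x = ∑ m ∈ Ioc 0 x, wt c α m := ⟨_, fun _ => rfl⟩
  have hAW : ∀ x y : ℕ, x ≤ y → |A y - A x| ≤ W y - W x := by
    intro x y hxy
    rw [hA, hA, hW, hW, ← Finset.sum_Ioc_consecutive _ (Nat.zero_le x) hxy,
      ← Finset.sum_Ioc_consecutive _ (Nat.zero_le x) hxy, add_sub_cancel_left, add_sub_cancel_left]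
    refine (abs_sum_le_sum_abs _ _).trans (sum_le_sum fun m _ => ?_)
    rw [abs_mul, abs_of_nonneg (wt_nonneg hc hα m)]
    have := hF m
    have h5 := wt_nonneg hc hα m
    nlinarith
  have hWm : ∀ x y : ℕ, x ≤ y → W x ≤ W y := by
    intro x y hxy
    have := (abs_nonneg _).trans (hAW x y hxy)
    linarith
  have hA0 : A 0 = 0 := by rw [hA]; simp
  have hW0 : W 0 = 0 := by rw [hW]; simp
  -- step 1
  have step1 : ∀ x : ℕ, |A x| ≤ 2 * e₁ * ((x : ℝ) / α) ^ (1 / c) + W (ms α c (K + 1)) := by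
    intro x
    obtain ⟨N, hN⟩ : ∃ N : ℕ, N = ⌊((x : ℝ) / α) ^ (1 / c)⌋₊ := ⟨_, rfl⟩
    have hx0 : (0 : ℝ) ≤ (x : ℝ) / α := by positivity
    have hN1 : (N : ℝ) ≤ ((x : ℝ) / α) ^ (1 / c) := by rw [hN]; exact Nat.floor_le (by positivity)
    have hN2 : ((x : ℝ) / α) ^ (1 / c) < (N : ℝ) + 1 := by rw [hN]; exact Nat.lt_floor_add_one _
    have hcc : 1 / c * c = 1 := by field_simp
    have hm1 : ms α c N ≤ x := by
      have h5 : (N : ℝ) ^ c ≤ (x : ℝ) / α := by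
        calc (N : ℝ) ^ c ≤ (((x : ℝ) / α) ^ (1 / c)) ^ c := Real.rpow_le_rpow (Nat.cast_nonneg _) hN1 hc0.le
          _ = (x : ℝ) / α := by rw [← Real.rpow_mul hx0, hcc, Real.rpow_one]
      rw [le_div_iff₀ hα] at h5
      unfold ms xs
      apply Nat.floor_le_of_le
      linarith
    have hm2 : x ≤ ms α c (N + 1) := by
      have h5 : (x : ℝ) / α ≤ ((N + 1 : ℕ) : ℝ) ^ c := by
        calc (x : ℝ) / α = (((x : ℝ) / α) ^ (1 / c)) ^ c := by rw [← Real.rpow_mul hx0, hcc, Real.rpow_one]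
          _ ≤ ((N + 1 : ℕ) : ℝ) ^ c := Real.rpow_le_rpow (by positivity) (by push_cast; exact hN2.le) hc0.le
      rw [div_le_iff₀ hα] at h5
      unfold ms xs
      apply Nat.le_floor
      linarith
    rcases le_or_gt K N with hKN | hKN
    · have g0 : N₀ ≤ N := by rw [hK] at hKN; exact ((le_max_left _ _).trans (le_max_left _ _)).trans hKN
      have g1 : N₁ ≤ N := by rw [hK] at hKN; exact ((le_max_right _ _).trans (le_max_left _ _)).trans hKN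
      have g2 : N₂ ≤ N := by rw [hK] at hKN; exact (le_max_left _ _).trans ((le_max_right _ _).trans hKN)
      have g3 : N₃ ≤ N := by rw [hK] at hKN; exact (le_max_right _ _).trans ((le_max_right _ _).trans hKN)
      have k1 := h1' N g0
      have k2 := h1 N g1
      have k3 := h1' (N + 1) (by omega)
      have k4 := h2 N g2
      have k5 := h3 N g3
      rw [← hW] at k1 k3
      rw [← hA] at k2
      have k7 := hAW _ _ hm1
      have k8 := hWm _ _ hm2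
      have k9 : 0 ≤ W (ms α c (K + 1)) := by
        have := hWm 0 (ms α c (K + 1)) (Nat.zero_le _)
        rw [hW0] at this
        exact this
      have k10 : 2 * e₁ * (N : ℝ) ≤ 2 * e₁ * ((x : ℝ) / α) ^ (1 / c) := mul_le_mul_of_nonneg_left hN1 (by positivity)
      push_cast at k3
      rw [_root_.abs_le] at k1 k2 k3 k4 k7 ⊢
      constructor <;> linarith [k1.1, k1.2, k2.1, k2.2, k3.1, k3.2, k4.1, k4.2, k7.1, k7.2]
    · have k1 := hAW 0 x (Nat.zero_le _)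
      rw [hA0, hW0, sub_zero, sub_zero] at k1
      have k2 : W x ≤ W (ms α c (K + 1)) := hWm _ _ (hm2.trans (ms_mono hc hα (by omega)))
      have k3 : 0 ≤ 2 * e₁ * ((x : ℝ) / α) ^ (1 / c) := by positivity
      linarith
  -- step 2
  obtain ⟨K0, hK0⟩ : ∃ K0 : ℝ, K0 = W (ms α c (K + 1)) := ⟨_, rfl⟩
  have hK00 : 0 ≤ K0 := by
    have := hWm 0 (ms α c (K + 1)) (Nat.zero_le _)
    rw [hW0] at this
    rw [hK0]
    exact this
  rw [← hK0] at step1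
  obtain ⟨v, hv⟩ : ∃ v : ℕ → ℝ, ∀ m, v m = c * α ^ (1 / c) * (m : ℝ) ^ (1 - 1 / c) := ⟨_, fun _ => rfl⟩
  have hc1 : 1 / c < 1 := by rw [div_lt_one hc0]; exact hc
  have hvw : ∀ m : ℕ, 1 ≤ m → wt c α m * v m = 1 := by
    intro m hm
    have hm0 : (0 : ℝ) < m := by exact_mod_cast hm
    rw [hv]
    unfold wt
    have e1 : α ^ (-(1 / c)) * α ^ (1 / c) = 1 := by rw [← Real.rpow_add hα]; simp
    have e2 : (m : ℝ) ^ (1 / c - 1) * (m : ℝ) ^ (1 - 1 / c) = 1 := by rw [← Real.rpow_add hm0]; simp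
    calc 1 / c * α ^ (-(1 / c)) * (m : ℝ) ^ (1 / c - 1) * (c * α ^ (1 / c) * (m : ℝ) ^ (1 - 1 / c))
        = (1 / c * c) * (α ^ (-(1 / c)) * α ^ (1 / c)) * ((m : ℝ) ^ (1 / c - 1) * (m : ℝ) ^ (1 - 1 / c)) := by ring
      _ = 1 := by rw [e1, e2]; field_simp
  have hvm : ∀ x y : ℕ, x ≤ y → v x ≤ v y := by
    intro x y hxy
    rw [hv, hv]
    apply mul_le_mul_of_nonneg_left _ (by positivity)
    apply Real.rpow_le_rpow (Nat.cast_nonneg _) (by exact_mod_cast hxy) (by linarith)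
  have hv0 : ∀ x, 0 ≤ v x := fun x => by rw [hv]; positivity
  have key : ∀ X : ℕ, |∑ m ∈ Ioc 0 X, F m| ≤ 2 * (2 * e₁ * ((X : ℝ) / α) ^ (1 / c) + K0) * v (X + 1) := by
    intro X
    obtain ⟨D, hD⟩ : ∃ D : ℝ, D = 2 * e₁ * ((X : ℝ) / α) ^ (1 / c) + K0 := ⟨_, rfl⟩
    rw [← hD]
    have hD0 : 0 ≤ D := by rw [hD]; positivity
    have e1 : ∑ m ∈ Ioc 0 X, F m = ∑ m ∈ Ioc 0 X, (F m * wt c α m) * v m := by
      apply sum_congr rfl
      intro m hm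
      rw [mem_Ioc] at hm
      rw [mul_assoc, hvw m hm.1, mul_one]
    rw [e1, abel (fun m => F m * wt c α m) v X, ← hA]
    have hAD : ∀ x : ℕ, x ≤ X → |A x| ≤ D := by
      intro x hx
      refine (step1 x).trans ?_
      rw [hD]
      have : ((x : ℝ) / α) ^ (1 / c) ≤ ((X : ℝ) / α) ^ (1 / c) := by
        apply Real.rpow_le_rpow (by positivity) _ (by positivity)
        apply div_le_div_of_nonneg_right _ hα.le
        exact_mod_cast hx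
      nlinarith
    have e2 : |∑ x ∈ Ioc 0 X, (∑ m ∈ Ioc 0 x, F m * wt c α m) * (v x - v (x + 1))| ≤ D * (v (X + 1)) := by
      have e3 : ∀ X : ℕ, ∑ x ∈ Ioc 0 X, (v (x + 1) - v x) = v (X + 1) - v 1 := by
        intro X
        induction X with
        | zero => simp
        | succ X ih => rw [Finset.sum_Ioc_succ_top (Nat.zero_le _), ih]; ring
      calc |∑ x ∈ Ioc 0 X, (∑ m ∈ Ioc 0 x, F m * wt c α m) * (v x - v (x + 1))|
          ≤ ∑ x ∈ Ioc 0 X, D * (v (x + 1) - v x) := by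
            refine (abs_sum_le_sum_abs _ _).trans (sum_le_sum fun x hx => ?_)
            rw [mem_Ioc] at hx
            rw [← hA, abs_mul, abs_sub_comm, abs_of_nonneg (sub_nonneg.2 (hvm x (x + 1) (by omega)))]
            exact mul_le_mul_of_nonneg_right (hAD x hx.2) (sub_nonneg.2 (hvm x (x + 1) (by omega)))
        _ = D * (v (X + 1) - v 1) := by rw [← mul_sum, e3]
        _ ≤ D * v (X + 1) := mul_le_mul_of_nonneg_left (by linarith [hv0 1]) hD0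
    refine (abs_add_le _ _).trans ?_
    rw [abs_mul, abs_of_nonneg (hv0 _)]
    have e4 : |A X| * v (X + 1) ≤ D * v (X + 1) := mul_le_mul_of_nonneg_right (hAD X le_rfl) (hv0 _)
    linarith
  -- the end
  obtain ⟨x₂, _, h6⟩ := small_pow (1 / c) (by positivity) (4 * K0 * c * α ^ (1 / c)) 0 (ε / 2) (by positivity)
    le_rfl (by positivity)
  refine ⟨max x₂ 1, fun X hX => (key X).trans ?_⟩
  have hX1 : 1 ≤ X := (le_max_right _ _).trans hX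
  have hXr : (1 : ℝ) ≤ X := by exact_mod_cast hX1
  have hX0 : (0 : ℝ) < X := by linarith
  have h7 := h6 X ((le_max_left _ _).trans hX)
  have hvX : v (X + 1) ≤ 2 * c * α ^ (1 / c) * (X : ℝ) ^ (1 - 1 / c) := by
    rw [hv]
    have h8 : (((X + 1 : ℕ) : ℝ)) ^ (1 - 1 / c) ≤ 2 * (X : ℝ) ^ (1 - 1 / c) := by
      calc (((X + 1 : ℕ) : ℝ)) ^ (1 - 1 / c) ≤ (2 * (X : ℝ)) ^ (1 - 1 / c) := by
            apply Real.rpow_le_rpow (by positivity) (by push_cast; linarith) (by linarith)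
        _ = 2 ^ (1 - 1 / c) * (X : ℝ) ^ (1 - 1 / c) := Real.mul_rpow (by norm_num) (by positivity)
        _ ≤ 2 * (X : ℝ) ^ (1 - 1 / c) := by
            apply mul_le_mul_of_nonneg_right _ (by positivity)
            calc (2 : ℝ) ^ (1 - 1 / c) ≤ 2 ^ (1 : ℝ) := by
                  apply Real.rpow_le_rpow_of_exponent_le (by norm_num)
                  have : 0 < 1 / c := by positivity
                  linarith
              _ = 2 := Real.rpow_one _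
    calc c * α ^ (1 / c) * (((X + 1 : ℕ) : ℝ)) ^ (1 - 1 / c) ≤ c * α ^ (1 / c) * (2 * (X : ℝ) ^ (1 - 1 / c)) :=
          mul_le_mul_of_nonneg_left h8 (by positivity)
      _ = _ := by ring
  have hαX : ((X : ℝ) / α) ^ (1 / c) * (α ^ (1 / c) * (X : ℝ) ^ (1 - 1 / c)) = X := by
    rw [Real.div_rpow hX0.le hα.le]
    have : (X : ℝ) ^ (1 / c) * (X : ℝ) ^ (1 - 1 / c) = X := by rw [← Real.rpow_add hX0]; simp
    have h9 : α ^ (1 / c) ≠ 0 := by positivity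
    calc (X : ℝ) ^ (1 / c) / α ^ (1 / c) * (α ^ (1 / c) * (X : ℝ) ^ (1 - 1 / c))
        = (X : ℝ) ^ (1 / c) * (X : ℝ) ^ (1 - 1 / c) := by field_simp
      _ = X := this
  calc 2 * (2 * e₁ * ((X : ℝ) / α) ^ (1 / c) + K0) * v (X + 1)
      ≤ 2 * (2 * e₁ * ((X : ℝ) / α) ^ (1 / c) + K0) * (2 * c * α ^ (1 / c) * (X : ℝ) ^ (1 - 1 / c)) :=
        mul_le_mul_of_nonneg_left hvX (by positivity)
    _ = 8 * c * e₁ * (((X : ℝ) / α) ^ (1 / c) * (α ^ (1 / c) * (X : ℝ) ^ (1 - 1 / c))) +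
        (4 * K0 * c * α ^ (1 / c) * (X : ℝ) ^ (1 - 1 / c) + 0) := by ring
    _ ≤ 8 * c * e₁ * X + ε / 2 * X := by rw [hαX]; linarith
    _ ≤ ε * X := by
        rw [he₁]
        have : 8 * c * (ε / (32 * c)) = ε / 4 := by field_simp; ring
        rw [this]
        nlinarith


/-- cancellation -/
def SmallC (P : ℕ → ℂ) : Prop := ∀ ε : ℝ, 0 < ε → ∃ N₀ : ℕ, ∀ N : ℕ, N₀ ≤ N → ‖cs P N‖ ≤ ε * N

lemma re_cs (P : ℕ → ℂ) (N : ℕ) : (cs P N).re = ∑ n ∈ Icc 1 N, (P n).re := by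
  unfold cs
  rw [Complex.re_sum]

lemma im_cs (P : ℕ → ℂ) (N : ℕ) : (cs P N).im = ∑ n ∈ Icc 1 N, (P n).im := by
  unfold cs
  rw [Complex.im_sum]

lemma small_iff {c α : ℝ} (hc : 1 < c) (hα : 0 < α) {P : ℕ → ℂ} (hP : ∀ m, ‖P m‖ ≤ 1) (h : CC c α P)
    (h1 : CC c α (fun _ => 1)) : SmallC P ↔ SmallC (fun n => P (ms α c n)) := by
  have hW : ∀ ε : ℝ, 0 < ε → ∃ N₀ : ℕ, ∀ N : ℕ, N₀ ≤ N → |(N : ℝ) - ∑ m ∈ Ioc 0 (ms α c N), wt c α m| ≤ ε * N := by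
    intro ε hε
    obtain ⟨N₀, h2⟩ := h1 ε hε
    refine ⟨N₀, fun N hN => ?_⟩
    have h3 := h2 N hN
    have e : cs (fun _ => (1 : ℂ)) N - cs (fun m => ((wt c α m : ℝ) : ℂ) * 1) (ms α c N) =
        (((N : ℝ) - ∑ m ∈ Ioc 0 (ms α c N), wt c α m : ℝ) : ℂ) := by
      unfold cs
      rw [Ioc_Icc]
      push_cast
      simp
    rw [← Real.norm_eq_abs, ← Complex.norm_real, ← e]
    exact h3
  have hre : ∀ ε : ℝ, 0 < ε → ∃ N₀ : ℕ, ∀ N : ℕ, N₀ ≤ N →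
      |∑ n ∈ Icc 1 N, (P (ms α c n)).re - ∑ m ∈ Ioc 0 (ms α c N), (P m).re * wt c α m| ≤ ε * N := by
    intro ε hε
    obtain ⟨N₀, h2⟩ := h ε hε
    refine ⟨N₀, fun N hN => ?_⟩
    have h3 := (Complex.abs_re_le_norm _).trans (h2 N hN)
    rw [Complex.sub_re, re_cs, re_cs] at h3
    rw [Ioc_Icc]
    refine le_trans (le_of_eq ?_) h3
    congr 2
    apply sum_congr rfl
    intro m _
    rw [Complex.re_ofReal_mul]
    ring
  have him : ∀ ε : ℝ, 0 < ε → ∃ N₀ : ℕ, ∀ N : ℕ, N₀ ≤ N →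
      |∑ n ∈ Icc 1 N, (P (ms α c n)).im - ∑ m ∈ Ioc 0 (ms α c N), (P m).im * wt c α m| ≤ ε * N := by
    intro ε hε
    obtain ⟨N₀, h2⟩ := h ε hε
    refine ⟨N₀, fun N hN => ?_⟩
    have h3 := (Complex.abs_im_le_norm _).trans (h2 N hN)
    rw [Complex.sub_im, im_cs, im_cs] at h3
    rw [Ioc_Icc]
    refine le_trans (le_of_eq ?_) h3
    congr 2
    apply sum_congr rfl
    intro m _
    rw [Complex.im_ofReal_mul]
    ring
  have hBr : B1 (fun m => (P m).re) := fun m => (Complex.abs_re_le_norm _).trans (hP m)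
  have hBi : B1 (fun m => (P m).im) := fun m => (Complex.abs_im_le_norm _).trans (hP m)
  have comb : ∀ Q : ℕ → ℂ, (∀ ε : ℝ, 0 < ε → ∃ N₀ : ℕ, ∀ N : ℕ, N₀ ≤ N → |∑ n ∈ Icc 1 N, (Q n).re| ≤ ε * N) →
      (∀ ε : ℝ, 0 < ε → ∃ N₀ : ℕ, ∀ N : ℕ, N₀ ≤ N → |∑ n ∈ Icc 1 N, (Q n).im| ≤ ε * N) → SmallC Q := by
    intro Q a1 a2 ε hε
    obtain ⟨N₁, b1⟩ := a1 (ε / 2) (by positivity)
    obtain ⟨N₂, b2⟩ := a2 (ε / 2) (by positivity)
    refine ⟨max N₁ N₂, fun N hN => ?_⟩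
    have d1 := b1 N ((le_max_left _ _).trans hN)
    have d2 := b2 N ((le_max_right _ _).trans hN)
    rw [← re_cs] at d1
    rw [← im_cs] at d2
    have := Complex.norm_le_abs_re_add_abs_im (cs Q N)
    linarith
  constructor
  · intro hS
    apply comb
    · refine real_up hc hα hBr hre hW fun ε hε => ?_
      obtain ⟨x₀, h2⟩ := hS ε hε
      refine ⟨x₀, fun x hx => ?_⟩
      rw [Ioc_Icc, ← re_cs]
      exact (Complex.abs_re_le_norm _).trans (h2 x hx)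
    · refine real_up hc hα hBi him hW fun ε hε => ?_
      obtain ⟨x₀, h2⟩ := hS ε hε
      refine ⟨x₀, fun x hx => ?_⟩
      rw [Ioc_Icc, ← im_cs]
      exact (Complex.abs_im_le_norm _).trans (h2 x hx)
  · intro hS
    have r1 := real_down hc hα hBr hre hW fun ε hε => by
      obtain ⟨N₀, h2⟩ := hS ε hε
      refine ⟨N₀, fun N hN => ?_⟩
      rw [← re_cs (fun n => P (ms α c n))]
      exact (Complex.abs_re_le_norm _).trans (h2 N hN)
    have r2 := real_down hc hα hBi him hW fun ε hε => by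
      obtain ⟨N₀, h2⟩ := hS ε hε
      refine ⟨N₀, fun N hN => ?_⟩
      rw [← im_cs (fun n => P (ms α c n))]
      exact (Complex.abs_im_le_norm _).trans (h2 N hN)
    apply comb
    · intro ε hε
      obtain ⟨x₀, h2⟩ := r1 ε hε
      exact ⟨x₀, fun x hx => by rw [← Ioc_Icc]; exact h2 x hx⟩
    · intro ε hε
      obtain ⟨x₀, h2⟩ := r2 ε hε
      exact ⟨x₀, fun x hx => by rw [← Ioc_Icc]; exact h2 x hx⟩

/-- the average over `n ≤ N` -/
noncomputable def av (P : ℕ → ℂ) (N : ℕ) : ℂ := (1 / (N : ℂ)) * cs P N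

lemma av_small (P : ℕ → ℂ) (ρ : ℂ) : Tendsto (av P) atTop (𝓝 ρ) ↔ SmallC (fun n => P n - ρ) := by
  have e : ∀ N : ℕ, 1 ≤ N → av P N - ρ = (1 / (N : ℂ)) * cs (fun n => P n - ρ) N := by
    intro N hN
    have hN0 : (N : ℂ) ≠ 0 := by
      have : N ≠ 0 := by omega
      exact_mod_cast this
    unfold av
    rw [cs_sub P (fun _ => ρ)]
    unfold cs
    rw [sum_const, Nat.card_Icc, Nat.add_sub_cancel, nsmul_eq_mul]
    field_simp
  rw [Metric.tendsto_atTop]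
  constructor
  · intro h ε hε
    obtain ⟨N₀, h1⟩ := h ε hε
    refine ⟨max N₀ 1, fun N hN => ?_⟩
    have hN1 : 1 ≤ N := (le_max_right _ _).trans hN
    have hN0 : (0 : ℝ) < N := by exact_mod_cast hN1
    have h2 := h1 N ((le_max_left _ _).trans hN)
    rw [dist_eq_norm, e N hN1, norm_mul, norm_div, norm_one, Complex.norm_natCast, one_div_mul_eq_div,
      div_lt_iff₀ hN0] at h2
    exact h2.le
  · intro h ε hε
    obtain ⟨N₀, h1⟩ := h (ε / 2) (by positivity)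
    refine ⟨max N₀ 1, fun N hN => ?_⟩
    have hN1 : 1 ≤ N := (le_max_right _ _).trans hN
    have hN0 : (0 : ℝ) < N := by exact_mod_cast hN1
    have h2 := h1 N ((le_max_left _ _).trans hN)
    rw [dist_eq_norm, e N hN1, norm_mul, norm_div, norm_one, Complex.norm_natCast, one_div_mul_eq_div,
      div_lt_iff₀ hN0]
    nlinarith

/-- the limits of the averages agree -/
theorem av_iff {c α : ℝ} (hc : 1 < c) (hα : 0 < α) {P : ℕ → ℂ} (hP : ∀ m, ‖P m‖ ≤ 1) (h : CC c α P)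
    (h1 : CC c α (fun _ => 1)) (ρ : ℂ) :
    Tendsto (av P) atTop (𝓝 ρ) ↔ Tendsto (av (fun n => P (ms α c n))) atTop (𝓝 ρ) := by
  obtain ⟨a, ha⟩ : ∃ a : ℝ, a = 1 + ‖ρ‖ := ⟨_, rfl⟩
  have ha0 : 0 < a := by rw [ha]; positivity
  have hac : (a : ℂ) ≠ 0 := by exact_mod_cast ha0.ne'
  rw [av_small, av_small]
  have hQ : ∀ m, ‖(a : ℂ)⁻¹ * (P m - ρ)‖ ≤ 1 := by
    intro m
    rw [norm_mul, norm_inv, Complex.norm_real, Real.norm_eq_abs, abs_of_pos ha0, ← div_eq_inv_mul, div_le_one ha0, ha]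
    exact (norm_sub_le _ _).trans (by linarith [hP m])
  have hQC : CC c α (fun m => (a : ℂ)⁻¹ * (P m - ρ)) := by
    have h2 := (h.add (h1.smul (-ρ))).smul (a : ℂ)⁻¹
    refine (congrArg (CC c α) (funext fun m => ?_)).mp h2
    ring
  have h2 := small_iff hc hα hQ hQC h1
  have sc : ∀ Q : ℕ → ℂ, SmallC Q ↔ SmallC (fun n => (a : ℂ)⁻¹ * Q n) := by
    intro Q
    constructor
    · intro hS ε hε
      obtain ⟨N₀, h3⟩ := hS (ε * a) (by positivity)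
      refine ⟨N₀, fun N hN => ?_⟩
      rw [cs_smul, norm_mul, norm_inv, Complex.norm_real, Real.norm_eq_abs, abs_of_pos ha0, ← div_eq_inv_mul,
        div_le_iff₀ ha0]
      have := h3 N hN
      nlinarith
    · intro hS ε hε
      obtain ⟨N₀, h3⟩ := hS (ε / a) (by positivity)
      refine ⟨N₀, fun N hN => ?_⟩
      have h4 := h3 N hN
      rw [cs_smul, norm_mul, norm_inv, Complex.norm_real, Real.norm_eq_abs, abs_of_pos ha0, ← div_eq_inv_mul,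
        div_le_iff₀ ha0] at h4
      refine h4.trans (le_of_eq ?_)
      field_simp
  rw [sc (fun n => P n - ρ), sc (fun n => P (ms α c n) - ρ)]
  exact h2

/-- the transfer for a countable family of bounded functions -/
theorem avSparse (c : ℝ) (hc : 1 < c) : ∃ κ : ℝ, 0 < κ ∧ κ < 1 ∧ ∀ (ι : Type) [Countable ι] (P : ι → ℕ → ℂ),
    (∀ i m, ‖P i m‖ ≤ 1) → ∃ E : Set ℝ, dimH E ≤ ENNReal.ofReal (1 - κ) ∧ ∀ α : ℝ, 0 < α → α ∉ E →
      ∀ i (ρ : ℂ), Tendsto (av (P i)) atTop (𝓝 ρ) ↔ Tendsto (av (fun n => P i (ms α c n))) atTop (𝓝 ρ) := by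
  obtain ⟨κ, hκ0, hκ1, H⟩ := use c hc
  refine ⟨κ, hκ0, hκ1, fun ι _ P hP => ?_⟩
  obtain ⟨E, hE, h⟩ := H (fun _ _ => Set.univ) (ι × Bool × ℕ × ℕ) (fun j => lev (P j.1) j.2.1 j.2.2.1 j.2.2.2)
  refine ⟨E, hE, fun α hα hαE i ρ => ?_⟩
  obtain ⟨_, h2, h3⟩ := h α hα hαE
  have h4 : CC c α (fun _ => 1) := by
    have h5 := (h2 0 0).cc hκ0
    refine (congrArg (CC c α) (funext fun m => ?_)).mp h5
    have : ind (Set.univ : Set ℕ) m = 1 := by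
      unfold ind
      rw [if_pos (Set.mem_univ m)]
    rw [this]
    simp
  exact av_iff hc hα (hP i) (CC.of_lev hc hα ((h2 0 0).wb hκ0) (hP i) fun b k j => (h3 (i, b, k, j)).cc hκ0) h4 ρ

end Pool.Agent.X20.Tr
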