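import Pool.Agent.X20.Tr.AvD

/-! Averages along `⌊α n ^ c⌋` for families indexed by a probability space (helper20). -/

set_option autoImplicit false

namespace Pool.Agent.X20.Tr

open Finset Filter Topology MeasureTheory
open Pool.Agent.Y854.PS (ms xs)

universe u

lemma null_of_dim {E : Set ℝ} {κ : ℝ} (hκ : 0 < κ) (hE : dimH E ≤ ENNReal.ofReal (1 - κ)) : volume E = 0 := by
  have h1 : dimH E < ((1 : NNReal) : ENNReal) := by
    refine lt_of_le_of_lt hE ?_
    rw [ENNReal.coe_one, ENNReal.ofReal_lt_one]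
    linarith
  have h2 := hausdorffMeasure_of_dimH_lt h1
  rwa [NNReal.coe_one, hausdorffMeasure_real] at h2

/-- the limits of the two averages of `w` agree -/
def Agree (c α : ℝ) (w : ℕ → ℂ) : Prop :=
  ∀ ρ : ℂ, Tendsto (av w) atTop (𝓝 ρ) ↔ Tendsto (av (fun n => w (ms α c n))) atTop (𝓝 ρ)

lemma agree_iff (c α : ℝ) (w : ℕ → ℂ) : Agree c α w ↔
    ((∃ ρ : ℂ, Tendsto (av w) atTop (𝓝 ρ)) ∨ (∃ ρ : ℂ, Tendsto (av (fun n => w (ms α c n))) atTop (𝓝 ρ)) →
      Tendsto (fun N => av (fun n => w (ms α c n)) N - av w N) atTop (𝓝 0)) := by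
  constructor
  · rintro h (⟨ρ, h1⟩ | ⟨ρ, h1⟩)
    · have h2 := ((h ρ).1 h1).sub h1
      rwa [sub_self] at h2
    · have h2 := h1.sub ((h ρ).2 h1)
      rwa [sub_self] at h2
  · intro h ρ
    constructor
    · intro h1
      have h2 := (h (Or.inl ⟨ρ, h1⟩)).add h1
      rw [zero_add] at h2
      refine h2.congr fun N => ?_
      ring
    · intro h1
      have h2 := h1.sub (h (Or.inr ⟨ρ, h1⟩))
      rw [sub_zero] at h2
      refine h2.congr fun N => ?_
      ring

lemma meas_agree {X : Type u} [MeasurableSpace X] (c : ℝ) {W : X → ℕ → ℂ} (hW : ∀ m, Measurable fun x => W x m) :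
    MeasurableSet {z : X × ℝ | 0 < z.2 → Agree c z.2 (W z.1)} := by
  have hg : Measurable fun y : X × ℕ => W y.1 y.2 := measurable_from_prod_countable_left fun m => hW m
  have hm : ∀ n : ℕ, Measurable fun z : X × ℝ => W z.1 (ms z.2 c n) := by
    intro n
    have h1 : Measurable fun z : X × ℝ => ms z.2 c n := by
      unfold ms xs
      exact Nat.measurable_floor.comp (measurable_snd.mul_const _)
    exact hg.comp (measurable_fst.prodMk h1)
  have hu : ∀ N : ℕ, Measurable fun z : X × ℝ => av (W z.1) N := by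
    intro N
    unfold av cs
    exact (Finset.measurable_sum _ fun n _ => (hW n).comp measurable_fst).const_mul _
  have hv : ∀ N : ℕ, Measurable fun z : X × ℝ => av (fun n => W z.1 (ms z.2 c n)) N := by
    intro N
    unfold av cs
    exact (Finset.measurable_sum _ fun n _ => hm n).const_mul _
  have s1 := MeasureTheory.measurableSet_exists_tendsto (l := atTop) hu
  have s2 := MeasureTheory.measurableSet_exists_tendsto (l := atTop) hv
  have s3 := measurableSet_tendsto (l := atTop) (𝓝 (0 : ℂ)) fun N => (hv N).sub (hu N)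
  have s0 : MeasurableSet {z : X × ℝ | 0 < z.2} := measurableSet_lt measurable_const measurable_snd
  have e : {z : X × ℝ | 0 < z.2 → Agree c z.2 (W z.1)} = {z : X × ℝ | 0 < z.2}ᶜ ∪
      (({z : X × ℝ | ∃ ρ, Tendsto (fun N => av (W z.1) N) atTop (𝓝 ρ)} ∪
        {z : X × ℝ | ∃ ρ, Tendsto (fun N => av (fun n => W z.1 (ms z.2 c n)) N) atTop (𝓝 ρ)})ᶜ ∪
        {z : X × ℝ | Tendsto (fun N => av (fun n => W z.1 (ms z.2 c n)) N - av (W z.1) N) atTop (𝓝 0)}) := by
    ext z
    simp only [agree_iff, Set.mem_setOf_eq, Set.mem_union, Set.mem_compl_iff]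
    tauto
  rw [e]
  exact s0.compl.union ((s1.union s2).compl.union s3)

/-- bounded sequences indexed by a probability space -/
theorem aeSparse (c : ℝ) (hc : 1 < c) : ∃ κ : ℝ, 0 < κ ∧ κ < 1 ∧
    ∀ (X : Type u) [MeasurableSpace X] (μ : Measure X) [SFinite μ] (W : X → ℕ → ℂ),
      (∀ m, AEStronglyMeasurable (fun x => W x m) μ) → (∀ᵐ x ∂μ, ∃ B : ℝ, ∀ m, ‖W x m‖ ≤ B) →
      (∀ᵐ x ∂μ, ∃ E : Set ℝ, dimH E ≤ ENNReal.ofReal (1 - κ) ∧ ∀ α : ℝ, 0 < α → α ∉ E → Agree c α (W x)) ∧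
      ∀ᵐ α : ℝ, 0 < α → ∀ᵐ x ∂μ, Agree c α (W x) := by
  obtain ⟨κ, hκ0, hκ1, H⟩ := avSparse c hc
  -- bounded sequences
  have H' : ∀ w : ℕ → ℂ, (∃ B : ℝ, ∀ m, ‖w m‖ ≤ B) →
      ∃ E : Set ℝ, dimH E ≤ ENNReal.ofReal (1 - κ) ∧ ∀ α : ℝ, 0 < α → α ∉ E → Agree c α w := by
    rintro w ⟨B, hB⟩
    obtain ⟨a, ha⟩ : ∃ a : ℝ, a = 1 + |B| := ⟨_, rfl⟩
    have ha0 : 0 < a := by rw [ha]; positivity
    have hac : (a : ℂ) ≠ 0 := by exact_mod_cast ha0.ne'
    obtain ⟨E, hE, h⟩ := H Unit (fun _ m => (a : ℂ)⁻¹ * w m) (fun _ m => by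
      rw [norm_mul, norm_inv, Complex.norm_real, Real.norm_eq_abs, abs_of_pos ha0, ← div_eq_inv_mul, div_le_one ha0, ha]
      have := le_abs_self B
      linarith [hB m])
    refine ⟨E, hE, fun α hα hαE ρ => ?_⟩
    have h1 := h α hα hαE () ((a : ℂ)⁻¹ * ρ)
    have sc : ∀ w : ℕ → ℂ, Tendsto (av w) atTop (𝓝 ρ) ↔
        Tendsto (av (fun m => (a : ℂ)⁻¹ * w m)) atTop (𝓝 ((a : ℂ)⁻¹ * ρ)) := by
      intro w
      have e : ∀ N, av (fun m => (a : ℂ)⁻¹ * w m) N = (a : ℂ)⁻¹ * av w N := by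
        intro N
        unfold av
        rw [cs_smul]
        ring
      constructor
      · intro h2
        exact (h2.const_mul (a : ℂ)⁻¹).congr fun N => (e N).symm
      · intro h2
        have h3 := h2.const_mul (a : ℂ)
        rw [mul_inv_cancel_left₀ hac] at h3
        refine h3.congr fun N => ?_
        rw [e, mul_inv_cancel_left₀ hac]
    rw [sc w, sc (fun n => w (ms α c n))]
    exact h1
  refine ⟨κ, hκ0, hκ1, fun X _ μ _ W hW hB => ⟨?_, ?_⟩⟩
  · filter_upwards [hB] with x hx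
    exact H' (W x) hx
  · obtain ⟨V, hV⟩ : ∃ V : X → ℕ → ℂ, ∀ x m, V x m = (hW m).mk (fun x => W x m) x := ⟨_, fun _ _ => rfl⟩
    have hVm : ∀ m, Measurable fun x => V x m := by
      intro m
      simp only [hV]
      exact (hW m).stronglyMeasurable_mk.measurable
    have hVW : ∀ᵐ x ∂μ, W x = V x := by
      have h1 : ∀ᵐ x ∂μ, ∀ m, W x m = V x m := by
        rw [ae_all_iff]
        intro m
        filter_upwards [(hW m).ae_eq_mk] with x hx
        rw [hV]
        exact hx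
      filter_upwards [h1] with x hx
      exact funext hx
    have h2 : ∀ᵐ x ∂μ, ∀ᵐ α : ℝ, 0 < α → Agree c α (V x) := by
      filter_upwards [hVW, hB] with x hx hx'
      rw [hx] at hx'
      obtain ⟨E, hE, h3⟩ := H' (V x) hx'
      have h4 : ∀ᵐ α : ℝ, α ∉ E := measure_eq_zero_iff_ae_notMem.1 (null_of_dim hκ0 hE)
      filter_upwards [h4] with α hα hα0
      exact h3 α hα0 hα
    have h5 := (Measure.ae_ae_comm (meas_agree c hVm)).1 h2
    filter_upwards [h5] with α hα hα0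
    filter_upwards [hα, hVW] with x hx hx'
    rw [hx']
    exact hx hα0

end Pool.Agent.X20.Tr
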