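import Pool.Agent.X20.Tr.PrIff

/-! Uniform estimates relative to the primes along `⌊α n ^ c⌋` (helper20). -/

set_option autoImplicit false

namespace Pool.Agent.X20.Tr

open Finset Filter Topology
open Pool.Agent.Y854.PS (ms xs)

/-- lower bound for the weighted sums, the hypothesis only up to `X` -/
lemma abel_ge' (F w : ℕ → ℝ) (B D : ℝ) (X : ℕ) (hw0 : ∀ m, 1 ≤ m → 0 ≤ w m) (hw : ∀ m, 1 ≤ m → w (m + 1) ≤ w m)
    (hS : ∀ x, 1 ≤ x → x ≤ X → B * x - D ≤ ∑ m ∈ Ioc 0 x, F m) (hX : 1 ≤ X) :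
    B * ∑ m ∈ Ioc 0 X, w m - D * w 1 ≤ ∑ m ∈ Ioc 0 X, F m * w m := by
  have h1 := abel_ge (fun m => if m ≤ X then F m else B) w B D X hw0 hw (fun x hx => by
    rcases le_total x X with h | h
    · have e : ∑ m ∈ Ioc 0 x, (if m ≤ X then F m else B) = ∑ m ∈ Ioc 0 x, F m := by
        apply sum_congr rfl
        intro m hm
        rw [mem_Ioc] at hm
        rw [if_pos (by omega)]
      rw [e]
      exact hS x hx h
    · rw [← Finset.sum_Ioc_consecutive _ (Nat.zero_le X) h]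
      have e : ∑ m ∈ Ioc 0 X, (if m ≤ X then F m else B) = ∑ m ∈ Ioc 0 X, F m := by
        apply sum_congr rfl
        intro m hm
        rw [mem_Ioc] at hm
        rw [if_pos (by omega)]
      have e2 : ∑ m ∈ Ioc X x, (if m ≤ X then F m else B) = ((x : ℝ) - X) * B := by
        have : ∑ m ∈ Ioc X x, (if m ≤ X then F m else B) = ∑ m ∈ Ioc X x, B := by
          apply sum_congr rfl
          intro m hm
          rw [mem_Ioc] at hm
          rw [if_neg (by omega)]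
        rw [this, sum_const, Nat.card_Ioc, nsmul_eq_mul, Nat.cast_sub h]
      rw [e, e2]
      have := hS X hX le_rfl
      linarith) hX
  refine h1.trans (le_of_eq ?_)
  apply sum_congr rfl
  intro m hm
  rw [mem_Ioc] at hm
  rw [if_pos (by omega)]

open Classical in
/-- a uniform estimate: the share of a set of primes among the primes of the sequence -/
lemma avg {c α κ : ℝ} (hc : 1 < c) (hα : 0 < α) (hκ : 0 < κ) (hκ1 : κ < 1) (hCP : Cmp c α κ (ind Primes)) :
    ∀ ε : ℝ, 0 < ε → ε ≤ 1 → ∃ N₀ : ℕ, ∀ N : ℕ, N₀ ≤ N → ∀ (B : Set ℕ) (δ Z : ℝ), B ⊆ Primes → |δ| ≤ 2 →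
      Z ≤ (N : ℝ) ^ (1 - κ) →
      |∑ n ∈ Icc 1 N, ind B (ms α c n) - ∑ m ∈ Ioc 0 (ms α c N), ind B m * wt c α m| ≤ (N : ℝ) ^ (1 - κ) →
      (∀ x : ℕ, Z ≤ x → x ≤ ms α c N → |(cnt B x : ℝ) - δ * Nat.primeCounting x| ≤ ε / 2 * Nat.primeCounting x) →
      |(hit c α B N : ℝ) - δ * hit c α Primes N| ≤ ε * hit c α Primes N := by
  intro ε hε hε1
  obtain ⟨N₂, h3⟩ := hCP
  obtain ⟨N₃, h4⟩ := thin_pow hc hα hκ ⟨N₂, h3⟩ (fun δ hδ => by
      obtain ⟨X₀, h⟩ := pi_thick δ hδ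
      exact ⟨X₀, fun X hX => by rw [card_primes]; exact h X hX⟩) (κ / 2) (by positivity)
  have hw1 : 0 ≤ wt c α 1 := wt_nonneg hc hα 1
  obtain ⟨N₄, h5⟩ := ((((tend_pow (κ / 2) (by positivity)).eventually_ge_atTop
    ((4 + 4 * wt c α 1) * (2 / ε))).and (eventually_ge_atTop 1)).and
    ((tend_ms hc hα).eventually_ge_atTop 1)).exists_forall_of_atTop
  refine ⟨max N₂ (max N₃ N₄), fun N hN B δ Z hB hδ hZ h1 hx => ?_⟩
  obtain ⟨⟨k1, k2⟩, k3⟩ := h5 N ((le_max_right _ _).trans ((le_max_right _ _).trans hN))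
  have h6 : (N : ℝ) ^ (1 - κ / 2) ≤ (hit c α Primes N : ℝ) := by
    have := h4 N ((le_max_left _ _).trans ((le_max_right _ _).trans hN))
    unfold hit
    convert this
  obtain ⟨_, h8⟩ := h3 N ((le_max_left _ _).trans hN)
  have hN1 : (1 : ℝ) ≤ N := by exact_mod_cast k2
  have hN0 : (0 : ℝ) < N := by linarith
  have e8 : ∑ n ∈ Icc 1 N, ind Primes (ms α c n) = (hit c α Primes N : ℝ) := by
    rw [sum_ind Primes]
    unfold hit
    rfl
  have e7 : ∑ n ∈ Icc 1 N, ind B (ms α c n) = (hit c α B N : ℝ) := by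
    rw [sum_ind B]
    unfold hit
    rfl
  rw [e8] at h8
  rw [e7] at h1
  rw [_root_.abs_le] at h1 h8 hδ
  obtain ⟨V, hV⟩ : ∃ V : ℝ, V = (N : ℝ) ^ (1 - κ) := ⟨_, rfl⟩
  obtain ⟨Q, hQ⟩ : ∃ Q : ℝ, Q = (N : ℝ) ^ (κ / 2) := ⟨_, rfl⟩
  have hpow : (N : ℝ) ^ (1 - κ / 2) = (N : ℝ) ^ (1 - κ) * (N : ℝ) ^ (κ / 2) := by
    rw [← Real.rpow_add hN0]
    congr 1
    ring
  rw [← hQ] at k1
  rw [hpow, ← hV, ← hQ] at h6
  rw [← hV] at h1 h8 hZ
  have hV0 : 0 < V := by rw [hV]; positivity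
  have hV1 : 1 ≤ V := by rw [hV]; exact Real.one_le_rpow hN1 (by linarith)
  have hpart : ∀ σ : ℝ, (σ = 1 ∨ σ = -1) → -(4 * V * wt c α 1) ≤
      ε / 2 * ∑ m ∈ Ioc 0 (ms α c N), ind Primes m * wt c α m -
        σ * (∑ m ∈ Ioc 0 (ms α c N), ind B m * wt c α m - δ * ∑ m ∈ Ioc 0 (ms α c N), ind Primes m * wt c α m) := by
    intro σ hσ
    have key := abel_ge' (fun m => ε / 2 * ind Primes m - σ * (ind B m - δ * ind Primes m)) (wt c α) 0 (4 * V)
      (ms α c N)
      (fun m _ => wt_nonneg hc hα m) (fun m hm => wt_anti hc hα m hm)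
      (fun x hx1 hxM => by
        have e1 : ∀ C : Set ℕ, ∑ m ∈ Ioc 0 x, ind C m = (cnt C x : ℝ) := by
          intro C
          rw [sum_ind C (Ioc 0 x) (fun m => m)]
          have : Ioc 0 x = Icc 1 x := by ext m; simp only [mem_Ioc, mem_Icc]; omega
          rw [this]
          unfold cnt
          rfl
        rw [sum_sub_distrib, ← mul_sum, ← mul_sum, sum_sub_distrib, ← mul_sum, e1, e1, cnt_primes, zero_mul]
        have hBP : (cnt B x : ℝ) ≤ Nat.primeCounting x := by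
          rw [← cnt_primes]
          unfold cnt
          exact_mod_cast card_le_card (fun m hm => by
            rw [mem_filter] at hm ⊢
            exact ⟨hm.1, hB hm.2⟩)
        have hB0 : (0 : ℝ) ≤ cnt B x := Nat.cast_nonneg _
        have hPx : (Nat.primeCounting x : ℝ) ≤ x := by
          rw [← card_primes]
          have := card_filter_le (Icc 1 x) (fun m => m ∈ Primes)
          rw [Nat.card_Icc, Nat.add_sub_cancel] at this
          exact_mod_cast this
        have hP0 : (0 : ℝ) ≤ Nat.primeCounting x := Nat.cast_nonneg _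
        rcases le_total Z x with h9 | h9
        · have := hx x h9 hxM
          rw [_root_.abs_le] at this
          rcases hσ with rfl | rfl
          · linarith [this.1, this.2]
          · linarith [this.1, this.2]
        · have h10 : (Nat.primeCounting x : ℝ) ≤ V := by linarith
          have h11 : -(2 * Nat.primeCounting x) ≤ δ * (Nat.primeCounting x : ℝ) := by nlinarith [hδ.1]
          have h12 : δ * (Nat.primeCounting x : ℝ) ≤ 2 * Nat.primeCounting x := by nlinarith [hδ.2]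
          have h13 : 0 ≤ ε / 2 * (Nat.primeCounting x : ℝ) := by positivity
          rcases hσ with rfl | rfl
          · linarith
          · linarith) k3
    rw [zero_mul, zero_sub] at key
    have key2 : ∑ m ∈ Ioc 0 (ms α c N), (ε / 2 * ind Primes m - σ * (ind B m - δ * ind Primes m)) * wt c α m =
        ε / 2 * ∑ m ∈ Ioc 0 (ms α c N), ind Primes m * wt c α m -
        σ * (∑ m ∈ Ioc 0 (ms α c N), ind B m * wt c α m - δ * ∑ m ∈ Ioc 0 (ms α c N), ind Primes m * wt c α m) := by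
      rw [mul_sum, mul_sum, ← sum_sub_distrib, mul_sum, ← sum_sub_distrib]
      apply sum_congr rfl
      intro m _
      ring
    rwa [key2] at key
  have g2 : 4 + 4 * wt c α 1 ≤ ε / 2 * Q := by
    have := mul_le_mul_of_nonneg_left k1 (show 0 ≤ ε / 2 by positivity)
    refine le_trans (le_of_eq ?_) this
    field_simp
  have g3 : V * (4 + 4 * wt c α 1) ≤ V * (ε / 2 * Q) := mul_le_mul_of_nonneg_left g2 (by linarith)
  have g4 : ε / 2 * (V * Q) ≤ ε / 2 * (hit c α Primes N : ℝ) := mul_le_mul_of_nonneg_left h6 (by positivity)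
  obtain ⟨SP, hSP⟩ : ∃ SP : ℝ, SP = ∑ m ∈ Ioc 0 (ms α c N), ind Primes m * wt c α m := ⟨_, rfl⟩
  obtain ⟨SB, hSB⟩ : ∃ SB : ℝ, SB = ∑ m ∈ Ioc 0 (ms α c N), ind B m * wt c α m := ⟨_, rfl⟩
  rw [← hSP, ← hSB] at hpart
  rw [← hSB] at h1
  rw [← hSP] at h8
  obtain ⟨hP, hhP⟩ : ∃ hP : ℝ, hP = (hit c α Primes N : ℝ) := ⟨_, rfl⟩
  rw [← hhP] at h8 g4 ⊢
  have g6 := hpart 1 (Or.inl rfl)
  have g7 := hpart (-1) (Or.inr rfl)
  -- `δ (hP - SP)` is at most `2 V`
  have d1 : δ * (hP - SP) ≤ 2 * V := by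
    have : |δ * (hP - SP)| ≤ 2 * V := by
      rw [abs_mul]
      exact mul_le_mul (abs_le.2 ⟨hδ.1, hδ.2⟩) (abs_le.2 ⟨h8.1, h8.2⟩) (abs_nonneg _) (by norm_num)
    exact (le_abs_self _).trans this
  have d2 : -(2 * V) ≤ δ * (hP - SP) := by
    have : |δ * (hP - SP)| ≤ 2 * V := by
      rw [abs_mul]
      exact mul_le_mul (abs_le.2 ⟨hδ.1, hδ.2⟩) (abs_le.2 ⟨h8.1, h8.2⟩) (abs_nonneg _) (by norm_num)
    have := neg_abs_le (δ * (hP - SP))
    linarith
  have d3 : ε / 2 * SP ≤ ε / 2 * hP + V := by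
    have : ε / 2 * (SP - hP) ≤ 1 * V := by
      have h20 : SP - hP ≤ V := by linarith [h8.1]
      have h21 : ε / 2 * (SP - hP) ≤ ε / 2 * V := mul_le_mul_of_nonneg_left h20 (by positivity)
      nlinarith
    linarith
  have d4 : V * (4 + 4 * wt c α 1) ≤ ε / 2 * hP := by
    refine g3.trans (le_trans (le_of_eq ?_) g4)
    ring
  rw [_root_.abs_le]
  constructor
  · linarith [h1.1]
  · linarith [h1.2]

end Pool.Agent.X20.Tr
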