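import Pool.Agent.X20.Tr.LawF
import Pool.Agent.X35.GV.Centered

/-! The law for centered local functions, at all heights, for almost all of the integers `h ± ⌊α n ^ c⌋` (helper20). -/

set_option autoImplicit false

namespace Pool.Agent.X20.Tr

open Finset Filter
open Pool.Agent.Y854.PS (ms xs)

/-- the members of the sequence are large -/
lemma large_seq {c α : ℝ} (hc : 1 < c) (hα : 0 < α) (h s : ℤ) (hs : s = 1 ∨ s = -1) (M : ℝ) :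
    ∃ n₀ : ℕ, ∀ n : ℕ, n₀ ≤ n → M ≤ |((h + s * ((⌊α * (n : ℝ) ^ c⌋₊ : ℕ) : ℤ) : ℤ) : ℝ)| := by
  have h1 := (tend_ms hc hα).eventually_ge_atTop (⌈M + |(h : ℝ)|⌉₊)
  obtain ⟨n₀, hn₀⟩ := eventually_atTop.1 h1
  refine ⟨n₀, fun n hn => ?_⟩
  have h2 : ⌈M + |(h : ℝ)|⌉₊ ≤ ⌊α * (n : ℝ) ^ c⌋₊ := hn₀ n hn
  have h3 : M + |(h : ℝ)| ≤ ((⌊α * (n : ℝ) ^ c⌋₊ : ℕ) : ℝ) := (Nat.le_ceil _).trans (by exact_mod_cast h2)
  push_cast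
  have h4 : |(s : ℝ) * ((⌊α * (n : ℝ) ^ c⌋₊ : ℕ) : ℝ)| = ((⌊α * (n : ℝ) ^ c⌋₊ : ℕ) : ℝ) := by
    rcases hs with rfl | rfl
    · rw [Int.cast_one, one_mul, abs_of_nonneg (Nat.cast_nonneg _)]
    · rw [Int.cast_neg, Int.cast_one, neg_mul, one_mul, abs_neg, abs_of_nonneg (Nat.cast_nonneg _)]
  have h5 := abs_sub_abs_le_abs_sub ((s : ℝ) * ((⌊α * (n : ℝ) ^ c⌋₊ : ℕ) : ℝ)) (-(h : ℝ))
  rw [abs_neg, h4] at h5
  rw [show (h : ℝ) + s * ((⌊α * (n : ℝ) ^ c⌋₊ : ℕ) : ℝ) = s * ((⌊α * (n : ℝ) ^ c⌋₊ : ℕ) : ℝ) - -(h : ℝ) by ring]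
  linarith

/-- finitely many more exceptions -/
lemma few_more {P Q : ℕ → Prop} {κ : ℝ} (hκ : 0 < κ) (n₀ : ℕ) (hPQ : ∀ n, n₀ ≤ n → P n → Q n) {dp : DecidablePred P}
    {dq : DecidablePred Q} (h : ∃ N₀ : ℕ, ∀ N : ℕ, N₀ ≤ N → (((Icc 1 N).filter Q).card : ℝ) ≤ (N : ℝ) ^ (1 - κ)) :
    ∃ N₀ : ℕ, ∀ N : ℕ, N₀ ≤ N → (((Icc 1 N).filter P).card : ℝ) ≤ (N : ℝ) ^ (1 - min κ 1 / 2) := by
  obtain ⟨N₀, hN₀⟩ := h
  obtain ⟨μ, hμ⟩ : ∃ μ : ℝ, μ = min κ 1 / 2 := ⟨_, rfl⟩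
  rw [← hμ]
  have hm : 0 < min κ 1 := lt_min hκ one_pos
  have hμ0 : 0 < μ := by rw [hμ]; positivity
  have hμκ : 2 * μ ≤ κ := by rw [hμ]; linarith [min_le_left κ 1]
  have hμ1 : 2 * μ ≤ 1 := by rw [hμ]; linarith [min_le_right κ 1]
  obtain ⟨N₁, hN₁⟩ := eventually_atTop.1 ((tend_pow μ hμ0).eventually_ge_atTop ((n₀ : ℝ) + 1))
  refine ⟨max (max N₀ N₁) 1, fun N hN => ?_⟩
  have hNa : N₀ ≤ N := (le_max_left _ _).trans ((le_max_left _ _).trans hN)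
  have hNb : N₁ ≤ N := (le_max_right _ _).trans ((le_max_left _ _).trans hN)
  have hN1 : (1 : ℝ) ≤ N := by exact_mod_cast (le_max_right _ _).trans hN
  have hN0 : (0 : ℝ) < N := by linarith
  have h1 : ((Icc 1 N).filter P) ⊆ (range n₀) ∪ ((Icc 1 N).filter Q) := by
    intro n hn
    rw [mem_filter] at hn
    rw [mem_union, mem_range, mem_filter]
    by_cases h : n < n₀
    · exact Or.inl h
    · exact Or.inr ⟨hn.1, hPQ n (by omega) hn.2⟩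
  have h2 := (card_le_card h1).trans (card_union_le _ _)
  rw [card_range] at h2
  have h3 : (((Icc 1 N).filter P).card : ℝ) ≤ n₀ + (((Icc 1 N).filter Q).card : ℝ) := by exact_mod_cast h2
  have h4 := hN₀ N hNa
  have h5 : (N : ℝ) ^ (1 - κ) ≤ (N : ℝ) ^ (1 - 2 * μ) := Real.rpow_le_rpow_of_exponent_le hN1 (by linarith)
  have h6 : (1 : ℝ) ≤ (N : ℝ) ^ (1 - 2 * μ) := Real.one_le_rpow hN1 (by linarith)
  have h7 : (n₀ : ℝ) + 1 ≤ (N : ℝ) ^ μ := hN₁ N hNb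
  have h8 : (N : ℝ) ^ (1 - μ) = (N : ℝ) ^ (1 - 2 * μ) * (N : ℝ) ^ μ := by
    rw [← Real.rpow_add hN0]
    congr 1
    ring
  have h9 : (0 : ℝ) ≤ n₀ := Nat.cast_nonneg _
  rw [h8]
  nlinarith

/-- the sum is large for some `x` between `(log |m|) ^ C` and `|m| ^ κ` and some height up to `x ^ A` -/
def HeightFails (a : ℕ → ℤ → ℝ) (β δ A C κ : ℝ) (m : ℤ) : Prop :=
  ∃ x : ℕ, (Real.log |(m : ℝ)|) ^ C ≤ x ∧ (x : ℝ) ≤ |(m : ℝ)| ^ κ ∧ ∃ σ : ℝ, |σ| ≤ (x : ℝ) ^ A ∧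
    (x : ℝ) ^ (β + 1 / 2 + δ) < ‖∑ p ∈ Pool.Agent.X35.GV.op x, (((a p m - Pool.Agent.X35.GV.avg p (a p)) * Real.log p : ℝ) : ℂ) *
      (p : ℂ) ^ (-(σ * Complex.I))‖

open Classical in
/-- **The centered law along `h ± ⌊α n ^ c⌋`.** -/
theorem centeredSparse (c : ℝ) (hc : 1 < c) : ∃ κ₀ : ℝ, 0 < κ₀ ∧ κ₀ < 1 ∧ ∀ (β : ℝ), 0 ≤ β →
    ∀ (Γ : Type) [Countable Γ] (a : Γ → ℕ → ℤ → ℝ) (D : Γ → ℝ), (∀ g, 0 < D g) →
    (∀ g, ∀ p : ℕ, p.Prime → p ≠ 2 → ∀ m m' : ℤ, m ≡ m' [ZMOD (p : ℕ)] → a g p m = a g p m') →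
    (∀ g, ∀ p : ℕ, p.Prime → p ≠ 2 → ∀ n, |a g p n| ≤ D g * (p : ℝ) ^ β) →
    ∃ E : Set ℝ, dimH E ≤ ENNReal.ofReal (1 - κ₀) ∧ ∀ δ A : ℝ, 0 < δ → 0 ≤ A → ∃ C κ : ℝ, 0 < C ∧ 0 < κ ∧
      ∀ α : ℝ, 0 < α → α ∉ E → ∀ (g : Γ) (h s : ℤ), (s = 1 ∨ s = -1) → ∃ N₀ : ℕ, ∀ N : ℕ, N₀ ≤ N →
        (((Icc 1 N).filter (fun n : ℕ => HeightFails (a g) β δ A C κ
          (h + s * ((⌊α * (n : ℝ) ^ c⌋₊ : ℕ) : ℤ)))).card : ℝ) ≤ (N : ℝ) ^ (1 - κ) := by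
  obtain ⟨κ₀, hκ0, hκ1, H⟩ := lawSparseF c hc
  refine ⟨κ₀, hκ0, hκ1, fun β hβ Γ _ a D hD hper hb => ?_⟩
  choose W hW1 hW2 hW3 using fun A : ℕ => Pool.Agent.X35.GV.heights (A : ℝ) (Nat.cast_nonneg A)
  choose E hE1 hE2 using fun A : ℕ => H ((A : ℝ) + 6) 1 le_rfl Γ (ℕ → ℝ) (fun _ x => W A x) (fun c x hx => hW1 A x hx) ℕ
    (fun _ x _ => Pool.Agent.X35.GV.op x) (fun _ _ p => p)
    (by
      intro c x l _ p hp
      rw [Pool.Agent.X35.GV.mem_op] at hp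
      exact ⟨hp.2.1.two_le, by rw [pow_one]; exact hp.1⟩)
    (by
      intro c x l _ p hp p' hp' hne
      rw [Pool.Agent.X35.GV.mem_op] at hp hp'
      exact (Nat.coprime_primes hp.2.1 hp'.2.1).2 hne)
    (fun g x w p n => Pool.Agent.X35.GV.cen β (D g) (a g) x w p n) (fun _ x _ => 1 + x)
    (by
      intro g x l _ p hp m m' h
      rw [Pool.Agent.X35.GV.mem_op] at hp
      unfold Pool.Agent.X35.GV.cen
      rw [hper g p hp.2.1 hp.2.2 m m' h])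
    (by
      intro g x l hl p hp m
      exact Pool.Agent.X35.GV.cen_abs β (D g) hβ (hD g) (a g) (hb g) x l (hW2 A x l hl) p hp m)
    (by
      intro g x l hl p hp
      exact Pool.Agent.X35.GV.cen_mean β (D g) (a g) x l p hp)
    (by
      intro g x l hl
      have hx0 : (0 : ℝ) ≤ x := Nat.cast_nonneg _
      exact ⟨by linarith, Pool.Agent.X35.GV.cen_var β (D g) hβ (hD g) (a g) (hb g) x l (hW2 A x l hl)⟩)
  refine ⟨⋃ A, E A, ?_, fun δ A hδ hA => ?_⟩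
  · rw [dimH_iUnion]
    exact iSup_le hE1
  obtain ⟨k, hk⟩ := exists_nat_ge A
  obtain ⟨C, κ, hC, hκ, h2⟩ := hE2 k (δ / 4) (by positivity)
  have hm : 0 < min κ 1 / 2 := by
    have : 0 < min κ 1 := lt_min hκ one_pos
    positivity
  have hmκ : min κ 1 / 2 ≤ κ := by
    have := min_le_left κ 1
    linarith
  refine ⟨C, min κ 1 / 2, hC, hm, fun α hα hαE g h s hs => ?_⟩
  obtain ⟨x₀, hx₀⟩ := Pool.Agent.X35.GV.absorb δ (12 * D g) hδ (by have := hD g; positivity)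
  obtain ⟨M, hM1, hM⟩ : ∃ M : ℝ, 1 ≤ M ∧ ∀ y : ℝ, M ≤ y → max x₀ 3 ≤ (Real.log y) ^ C := by
    have h1 : Tendsto (fun y : ℝ => (Real.log y) ^ C) atTop atTop :=
      (tendsto_rpow_atTop hC).comp Real.tendsto_log_atTop
    obtain ⟨M, hM⟩ := eventually_atTop.1 (h1.eventually_ge_atTop (max x₀ 3))
    exact ⟨max M 1, le_max_right _ _, fun y hy => hM y ((le_max_left _ _).trans hy)⟩
  obtain ⟨n₀, hn₀⟩ := large_seq hc hα h s hs M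
  refine few_more hκ n₀ (fun n hn hP => ?_) (h2 α hα (fun hmem => hαE (Set.mem_iUnion.2 ⟨k, hmem⟩)) g h s hs)
  have hlarge := hn₀ n hn
  obtain ⟨m, hmeq⟩ : ∃ m : ℤ, m = h + s * ((⌊α * (n : ℝ) ^ c⌋₊ : ℕ) : ℤ) := ⟨_, rfl⟩
  rw [← hmeq] at hP hlarge ⊢
  obtain ⟨x, hx1, hx2, σ, hσ, hlt⟩ := hP
  refine ⟨x, hx1, hx2.trans (Real.rpow_le_rpow_of_exponent_le (hM1.trans hlarge) hmκ), ?_⟩
  by_contra hcon
  push Not at hcon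
  have hxx := (hM _ hlarge).trans hx1
  have hx3 : (3 : ℝ) ≤ x := (le_max_right _ _).trans hxx
  have hfin := Pool.Agent.X35.GV.finish (k : ℝ) (W k) (hW3 k) β (D g) δ hβ (hD g) hδ (a g) (hb g) x hx3 m hcon
    (hx₀ x ((le_max_left _ _).trans hxx)) σ (hσ.trans (Real.rpow_le_rpow_of_exponent_le (by linarith) hk))
  linarith

end Pool.Agent.X20.Tr
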