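import Pool.Agent.X20.Tr.Pr
import Pool.Agent.X20.Tr.Rel
import Pool.Agent.X20.Tr.UpLog
import Pool.Agent.X20.Tr.Use

/-! Relative densities among the integers with exactly `k` prime factors (helper20). -/

set_option autoImplicit false

namespace Pool.Agent.X20.Tr

open Finset Filter Topology
open Pool.Agent.Y854.PS (ms xs)


lemma ratio_tend {f g : ℕ → ℝ} (hf : ∀ N, 0 ≤ f N) (hg : ∀ N, 0 ≤ g N)
    (h : ∀ ε : ℝ, 0 < ε → ∃ N₀ : ℕ, ∀ N : ℕ, N₀ ≤ N → f N ≤ ε * g N) : Tendsto (fun N => f N / g N) atTop (𝓝 0) := by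
  rw [Metric.tendsto_atTop]
  intro ε hε
  obtain ⟨N₀, h1⟩ := h (ε / 2) (by positivity)
  refine ⟨N₀, fun N hN => ?_⟩
  rw [Real.dist_0_eq_abs, abs_of_nonneg (div_nonneg (hf N) (hg N))]
  rcases (hg N).eq_or_lt with h2 | h2
  · rw [← h2, div_zero]
    exact hε
  · rw [div_lt_iff₀ h2]
    have := h1 N hN
    nlinarith

lemma omega_two_pow {k p : ℕ} (hk : 1 ≤ k) (hp : p.Prime) : (2 ^ (k - 1) * p).primeFactorsList.length = k := by
  rw [← ArithmeticFunction.cardFactors_apply, ArithmeticFunction.cardFactors_mul (by positivity) hp.ne_zero,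
    ArithmeticFunction.cardFactors_apply_prime_pow Nat.prime_two, ArithmeticFunction.cardFactors_apply_prime hp]
  omega

open Classical in
/-- there are many integers with exactly `k` prime factors -/
lemma factors_thick {k : ℕ} (hk : 1 ≤ k) {Q : Set ℕ} (hQ : ∀ n : ℕ, n.primeFactorsList.length = k ↔ n ∈ Q) :
    ∀ δ : ℝ, 0 < δ → ∃ X₀ : ℕ, ∀ X : ℕ, X₀ ≤ X →
    (X : ℝ) ^ (1 - δ) ≤ (((Icc 1 X).filter (fun m => m ∈ Q)).card : ℝ) := by
  intro δ₀ hδ₀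
  obtain ⟨δ, hδ⟩ : ∃ δ : ℝ, δ = min δ₀ 1 := ⟨_, rfl⟩
  have hδ1 : 0 < δ := by rw [hδ]; exact lt_min hδ₀ one_pos
  have hδ2 : δ ≤ 1 := by rw [hδ]; exact min_le_right _ _
  have hδ3 : δ ≤ δ₀ := by rw [hδ]; exact min_le_left _ _
  obtain ⟨X₁, h1⟩ := pi_thick (δ / 2) (by positivity)
  obtain ⟨T, hT⟩ : ∃ T : ℕ, T = 2 ^ (k - 1) := ⟨_, rfl⟩
  have hT0 : 0 < T := by rw [hT]; positivity
  have hTr : (0 : ℝ) < T := by exact_mod_cast hT0
  obtain ⟨X₂, h2⟩ := (((tend_pow (δ / 2) (by positivity)).eventually_ge_atTop (2 * (T : ℝ))).and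
    (eventually_ge_atTop (max (T * X₁) (2 * T)))).exists_forall_of_atTop
  refine ⟨X₂, fun X hX => ?_⟩
  obtain ⟨h3, h4⟩ := h2 X hX
  have hXT : T * X₁ ≤ X := (le_max_left _ _).trans h4
  have hXT2 : 2 * T ≤ X := (le_max_right _ _).trans h4
  obtain ⟨Y, hY⟩ : ∃ Y : ℕ, Y = X / T := ⟨_, rfl⟩
  have hY1 : X₁ ≤ Y := by
    rw [hY, Nat.le_div_iff_mul_le hT0]
    rw [mul_comm]
    exact hXT
  have h5 := h1 Y hY1
  have hX0 : (0 : ℝ) < X := by
    have : 0 < X := by omega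
    exact_mod_cast this
  have hX1 : (1 : ℝ) ≤ X := by
    have : 1 ≤ X := by omega
    exact_mod_cast this
  -- `Y ≥ X / (2 T)`
  have hYX : (X : ℝ) / (2 * T) ≤ Y := by
    rw [div_le_iff₀ (by positivity)]
    have h6 : X < (Y + 1) * T := by
      rw [hY]
      rw [mul_comm]
      exact Nat.lt_mul_div_succ X hT0
    have h7 : 1 ≤ Y := by
      rw [hY, Nat.le_div_iff_mul_le hT0]
      omega
    have h8 : X ≤ Y * (2 * T) := by nlinarith
    exact_mod_cast h8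
  have h6 : (X : ℝ) ^ (1 - δ) ≤ (Y : ℝ) ^ (1 - δ / 2) := by
    have e1 : (X : ℝ) / (2 * T) ≥ (X : ℝ) ^ (1 - δ / 2) := by
      rw [ge_iff_le, le_div_iff₀ (by positivity)]
      have e2 : (X : ℝ) ^ (1 - δ / 2) * (X : ℝ) ^ (δ / 2) = X := by
        rw [← Real.rpow_add hX0]
        simp
      have e3 : (0 : ℝ) ≤ (X : ℝ) ^ (1 - δ / 2) := by positivity
      calc (X : ℝ) ^ (1 - δ / 2) * (2 * T) ≤ (X : ℝ) ^ (1 - δ / 2) * (X : ℝ) ^ (δ / 2) :=
            mul_le_mul_of_nonneg_left h3 e3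
        _ = X := e2
    have e4 : (X : ℝ) ^ (1 - δ / 2) ≤ Y := e1.le.trans hYX
    have e5 : ((X : ℝ) ^ (1 - δ / 2)) ^ (1 - δ / 2) ≤ (Y : ℝ) ^ (1 - δ / 2) :=
      Real.rpow_le_rpow (by positivity) e4 (by linarith)
    refine le_trans ?_ e5
    rw [← Real.rpow_mul hX0.le]
    exact Real.rpow_le_rpow_of_exponent_le hX1 (by nlinarith)
  have h7 : (X : ℝ) ^ (1 - δ₀) ≤ (X : ℝ) ^ (1 - δ) := Real.rpow_le_rpow_of_exponent_le hX1 (by linarith)
  refine h7.trans (h6.trans (h5.trans ?_))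
  have h8 : Nat.primeCounting Y ≤ ((Icc 1 X).filter (fun m => m ∈ Q)).card := by
    rw [← card_primes]
    apply card_le_card_of_injOn (fun p => T * p)
    · intro p hp
      rw [mem_coe, mem_filter, mem_Icc] at hp
      rw [mem_coe, mem_filter, mem_Icc]
      refine ⟨⟨Nat.mul_pos hT0 (by omega), ?_⟩, ?_⟩
      · calc T * p ≤ T * Y := Nat.mul_le_mul_left _ hp.1.2
          _ ≤ X := by rw [hY]; exact Nat.mul_div_le X T
      · refine (hQ _).1 ?_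
        show (T * p).primeFactorsList.length = k
        rw [hT]
        exact omega_two_pow hk hp.2
    · intro p _ q _ h
      exact Nat.eq_of_mul_eq_mul_left hT0 h
  exact_mod_cast h8

open Classical in
/-- the relative density zero -/
lemma rel_factors {k : ℕ} (hk : 1 ≤ k) {P : ℕ → Prop} {B Q : Set ℕ}
    (hB : ∀ n : ℕ, (n.primeFactorsList.length = k ∧ P n) ↔ n ∈ B) (hQ : ∀ n : ℕ, n.primeFactorsList.length = k ↔ n ∈ Q)
    (h : Tendsto (fun X : ℕ => ({N : ℕ | N ≤ X ∧ N.primeFactorsList.length = k ∧ P N}.ncard : ℝ) /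
      ({N : ℕ | N ≤ X ∧ N.primeFactorsList.length = k}.ncard : ℝ)) atTop (𝓝 0)) :
    ∀ ε : ℝ, 0 < ε → ∃ X₀ : ℕ, ∀ X : ℕ, X₀ ≤ X →
      (((Icc 1 X).filter (fun m => m ∈ B)).card : ℝ) ≤
        ε * (((Icc 1 X).filter (fun m => m ∈ Q)).card : ℝ) := by
  intro ε hε
  have hz : ∀ N : ℕ, N.primeFactorsList.length = k → 1 ≤ N := by
    intro N hN
    by_contra h0
    have : N = 0 := by omega
    rw [this, Nat.primeFactorsList_zero, List.length_nil] at hN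
    omega
  have e1 : ∀ X : ℕ, {N : ℕ | N ≤ X ∧ N.primeFactorsList.length = k ∧ P N}.ncard =
      ((Icc 1 X).filter (fun m => m ∈ B)).card := by
    intro X
    rw [← Set.ncard_coe_finset]
    congr 1
    ext n
    rw [coe_filter]
    exact ⟨fun h => ⟨mem_Icc.2 ⟨hz n h.2.1, h.1⟩, (hB n).1 h.2⟩, fun h => ⟨(mem_Icc.1 h.1).2, (hB n).2 h.2⟩⟩
  have e2 : ∀ X : ℕ, {N : ℕ | N ≤ X ∧ N.primeFactorsList.length = k}.ncard =
      ((Icc 1 X).filter (fun m => m ∈ Q)).card := by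
    intro X
    rw [← Set.ncard_coe_finset]
    congr 1
    ext n
    rw [coe_filter]
    exact ⟨fun h => ⟨mem_Icc.2 ⟨hz n h.2, h.1⟩, (hQ n).1 h.2⟩, fun h => ⟨(mem_Icc.1 h.1).2, (hQ n).2 h.2⟩⟩
  obtain ⟨X₁, h1⟩ := (h.eventually (gt_mem_nhds hε)).exists_forall_of_atTop
  refine ⟨X₁, fun X hX => ?_⟩
  have h2 := h1 X hX
  rw [e1, e2] at h2
  rcases Nat.eq_zero_or_pos ((Icc 1 X).filter (fun m => m ∈ Q)).card with h3 | h3
  · have h4 : ((Icc 1 X).filter (fun m => m ∈ B)).card ≤ ((Icc 1 X).filter (fun m => m ∈ Q)).card := by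
      apply card_le_card
      intro m hm
      rw [mem_filter] at hm ⊢
      exact ⟨hm.1, (hQ m).1 ((hB m).2 hm.2).1⟩
    rw [h3] at h4 ⊢
    rw [Nat.le_zero.1 h4]
    simp
  · have h3' : (0 : ℝ) < (((Icc 1 X).filter (fun m => m ∈ Q)).card : ℝ) := by exact_mod_cast h3
    rw [div_lt_iff₀ h3'] at h2
    exact h2.le

end Pool.Agent.X20.Tr
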