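import Pool.Agent.X20.Tr.Dyad

/-! The members of the sequence are large; finitely many more exceptions (helper20). -/

set_option autoImplicit false

namespace Pool.Agent.X20.Tr

open Finset Filter
open Pool.Agent.Y854.PS (ms xs)

/-- the members of the sequence are large -/
lemma seq_large {c α : ℝ} (hc : 1 < c) (hα : 0 < α) (h s : ℤ) (hs : s = 1 ∨ s = -1) (M : ℝ) :
    ∃ n₀ : ℕ, ∀ n : ℕ, n₀ ≤ n → M ≤ |((h + s * ((⌊α * (n : ℝ) ^ c⌋₊ : ℕ) : ℤ) : ℤ) : ℝ)| := by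
  have h1 := (tend_ms hc hα).eventually_ge_atTop (⌈M + |(h : ℝ)|⌉₊)
  obtain ⟨n₀, hn₀⟩ := eventually_atTop.1 h1
  refine ⟨n₀, fun n hn => ?_⟩
  have h2 : ⌈M + |(h : ℝ)|⌉₊ ≤ ⌊α * (n : ℝ) ^ c⌋₊ := hn₀ n hn
  have h3 : M + |(h : ℝ)| ≤ ((⌊α * (n : ℝ) ^ c⌋₊ : ℕ) : ℝ) := (Nat.le_ceil _).trans (by exact_mod_cast h2)
  push_cast
  have h4 : |(s : ℝ) * ((⌊α * (n : ℝ) ^ c⌋₊ : ℕ) : ℝ)| = ((⌊α * (n : ℝ) ^ c⌋₊ : ℕ) : ℝ) := by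
    rcases hs with rfl | rfl
    · rw [Int.cast_one, one_mul, abs_of_nonneg (Nat.cast_nonneg _)]
    · rw [Int.cast_neg, Int.cast_one, neg_mul, one_mul, abs_neg, abs_of_nonneg (Nat.cast_nonneg _)]
  have h5 := abs_sub_abs_le_abs_sub ((s : ℝ) * ((⌊α * (n : ℝ) ^ c⌋₊ : ℕ) : ℝ)) (-(h : ℝ))
  rw [abs_neg, h4] at h5
  rw [show (h : ℝ) + s * ((⌊α * (n : ℝ) ^ c⌋₊ : ℕ) : ℝ) = s * ((⌊α * (n : ℝ) ^ c⌋₊ : ℕ) : ℝ) - -(h : ℝ) by ring]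
  linarith

/-- finitely many more exceptions -/
lemma few_add {P Q : ℕ → Prop} {κ : ℝ} (hκ : 0 < κ) (n₀ : ℕ) (hPQ : ∀ n, n₀ ≤ n → P n → Q n) {dp : DecidablePred P}
    {dq : DecidablePred Q} (h : ∃ N₀ : ℕ, ∀ N : ℕ, N₀ ≤ N → (((Icc 1 N).filter Q).card : ℝ) ≤ (N : ℝ) ^ (1 - κ)) :
    ∃ N₀ : ℕ, ∀ N : ℕ, N₀ ≤ N → (((Icc 1 N).filter P).card : ℝ) ≤ (N : ℝ) ^ (1 - min κ 1 / 2) := by
  obtain ⟨N₀, hN₀⟩ := h
  obtain ⟨μ, hμ⟩ : ∃ μ : ℝ, μ = min κ 1 / 2 := ⟨_, rfl⟩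
  rw [← hμ]
  have hm : 0 < min κ 1 := lt_min hκ one_pos
  have hμ0 : 0 < μ := by rw [hμ]; positivity
  have hμκ : 2 * μ ≤ κ := by rw [hμ]; linarith [min_le_left κ 1]
  have hμ1 : 2 * μ ≤ 1 := by rw [hμ]; linarith [min_le_right κ 1]
  obtain ⟨N₁, hN₁⟩ := eventually_atTop.1 ((tend_pow μ hμ0).eventually_ge_atTop ((n₀ : ℝ) + 1))
  refine ⟨max (max N₀ N₁) 1, fun N hN => ?_⟩
  have hNa : N₀ ≤ N := (le_max_left _ _).trans ((le_max_left _ _).trans hN)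
  have hNb : N₁ ≤ N := (le_max_right _ _).trans ((le_max_left _ _).trans hN)
  have hN1 : (1 : ℝ) ≤ N := by exact_mod_cast (le_max_right _ _).trans hN
  have hN0 : (0 : ℝ) < N := by linarith
  have h1 : ((Icc 1 N).filter P) ⊆ (range n₀) ∪ ((Icc 1 N).filter Q) := by
    intro n hn
    rw [mem_filter] at hn
    rw [mem_union, mem_range, mem_filter]
    by_cases h : n < n₀
    · exact Or.inl h
    · exact Or.inr ⟨hn.1, hPQ n (by omega) hn.2⟩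
  have h2 := (card_le_card h1).trans (card_union_le _ _)
  rw [card_range] at h2
  have h3 : (((Icc 1 N).filter P).card : ℝ) ≤ n₀ + (((Icc 1 N).filter Q).card : ℝ) := by exact_mod_cast h2
  have h4 := hN₀ N hNa
  have h5 : (N : ℝ) ^ (1 - κ) ≤ (N : ℝ) ^ (1 - 2 * μ) := Real.rpow_le_rpow_of_exponent_le hN1 (by linarith)
  have h6 : (1 : ℝ) ≤ (N : ℝ) ^ (1 - 2 * μ) := Real.one_le_rpow hN1 (by linarith)
  have h7 : (n₀ : ℝ) + 1 ≤ (N : ℝ) ^ μ := hN₁ N hNb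
  have h8 : (N : ℝ) ^ (1 - μ) = (N : ℝ) ^ (1 - 2 * μ) * (N : ℝ) ^ μ := by
    rw [← Real.rpow_add hN0]
    congr 1
    ring
  have h9 : (0 : ℝ) ≤ n₀ := Nat.cast_nonneg _
  rw [h8]
  nlinarith

end Pool.Agent.X20.Tr
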