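import Pool.Agent.X20.Tr.Rec

/-! The distribution of the distances to the next prime along `⌊α n ^ c⌋` (helper20). -/

set_option autoImplicit false

namespace Pool.Agent.X20.Tr

open Finset Filter
open Pool.Agent.Y854.PS (ms xs)

/-- the two kinds of sets: even indices `t < gap`, odd indices `gap ≤ t` -/
def BB (j : ℕ) : Set ℕ := if j % 2 = 0 then {m | j / 2 < gap m} else {m | gap m ≤ j / 2}

lemma BB_even (t m : ℕ) : m ∈ BB (2 * t) ↔ t < gap m := by
  unfold BB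
  rw [if_pos (by omega), Set.mem_ofPred_eq]
  rw [show 2 * t / 2 = t by omega]

lemma BB_odd (t m : ℕ) : m ∈ BB (2 * t + 1) ↔ gap m ≤ t := by
  unfold BB
  rw [if_neg (by omega), Set.mem_ofPred_eq]
  rw [show (2 * t + 1) / 2 = t by omega]

lemma pow_dom (s a b : ℝ) (hs : 0 < s) (ha : 0 ≤ a) (hb : 0 ≤ b) :
    ∀ᶠ N : ℕ in atTop, a + b * Real.log N ^ 2 ≤ (N : ℝ) ^ s := by
  have ht : Tendsto (fun X : ℕ => (X : ℝ)) atTop atTop := tendsto_natCast_atTop_atTop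
  have h := ((isLittleO_log_rpow_rpow_atTop 2 hs).comp_tendsto ht).bound
    (show (0 : ℝ) < 1 / (2 * (b + 1)) by positivity)
  filter_upwards [h, (tend_pow s hs).eventually_ge_atTop (2 * a), eventually_ge_atTop 1] with N h1 h2 h3
  have hN1 : (1 : ℝ) ≤ N := by exact_mod_cast h3
  have hl := Real.log_nonneg hN1
  simp only [Function.comp_def] at h1
  rw [Real.norm_of_nonneg (by positivity), Real.norm_of_nonneg (by positivity)] at h1
  have e : Real.log (N : ℝ) ^ (2 : ℝ) = Real.log (N : ℝ) ^ 2 := by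
    rw [← Real.rpow_natCast]; norm_num
  rw [e] at h1
  have h4 : b * Real.log N ^ 2 ≤ b * (1 / (2 * (b + 1)) * (N : ℝ) ^ s) := mul_le_mul_of_nonneg_left h1 hb
  have h5 : b * (1 / (2 * (b + 1)) * (N : ℝ) ^ s) ≤ (N : ℝ) ^ s / 2 := by
    have h6 : b / (b + 1) ≤ 1 := by rw [div_le_one (by linarith)]; linarith
    have h7 : b * (1 / (2 * (b + 1)) * (N : ℝ) ^ s) = b / (b + 1) * ((N : ℝ) ^ s / 2) := by
      field_simp
    rw [h7]
    have h8 : 0 ≤ (N : ℝ) ^ s / 2 := by positivity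
    nlinarith
  linarith

open Classical in
theorem main (c : ℝ) (hc : 1 < c) : ∃ κ : ℝ, 0 < κ ∧ κ < 1 ∧ ∃ E : Set ℝ, dimH E ≤ ENNReal.ofReal (1 - κ) ∧
    ∀ α : ℝ, 0 < α → α ∉ E →
    (∃ N₀ : ℕ, ∀ N : ℕ, N₀ ≤ N → ∀ t : ℕ, (t : ℝ) ≤ (N : ℝ) ^ κ →
      |(((Icc 1 N).filter (fun n : ℕ => t < gap ⌊α * (n : ℝ) ^ c⌋₊)).card : ℝ) -
        1 / c * α ^ (-(1 / c)) * ∑ m ∈ (Ioc 0 ⌊α * (N : ℝ) ^ c⌋₊).filter (fun m => t < gap m),
          (m : ℝ) ^ (1 / c - 1)| ≤ (N : ℝ) ^ (1 - κ)) ∧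
    (∀ lam : ℝ, 0 < lam → ∃ b : ℝ, 0 < b ∧ ∃ N₀ : ℕ, ∀ N : ℕ, N₀ ≤ N →
      b * N ≤ (((Icc 1 N).filter (fun n : ℕ => (gap ⌊α * (n : ℝ) ^ c⌋₊ : ℝ) ≤ lam * Real.log n)).card : ℝ)) ∧
    (∃ N₀ : ℕ, ∀ N : ℕ, N₀ ≤ N → ∀ H : ℝ, Real.log (α * (N : ℝ) ^ c) ≤ H → H ≤ κ * f (α * (N : ℝ) ^ c) →
      N * (α * (N : ℝ) ^ c) ^ (-(5 * H / f (α * (N : ℝ) ^ c))) ≤
        (((Icc 1 N).filter (fun n : ℕ => H < gap ⌊α * (n : ℝ) ^ c⌋₊)).card : ℝ)) := by
  obtain ⟨κt, hκ0, hκ1, htr⟩ := transfer c hc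
  have hc0 : 0 < c := by linarith
  obtain ⟨E, hE, h⟩ := htr BB
  obtain ⟨κ, hκ⟩ : ∃ κ : ℝ, κ = κt / (33 * c) := ⟨_, rfl⟩
  have hκpos : 0 < κ := by rw [hκ]; positivity
  have hκle : κ ≤ κt / 33 := by
    rw [hκ]
    apply div_le_div_of_nonneg_left hκ0.le (by norm_num)
    nlinarith
  refine ⟨κ, hκpos, by linarith, E, hE.trans (ENNReal.ofReal_le_ofReal (by linarith)), fun α hα hαE => ?_⟩
  obtain ⟨N₁, h1⟩ := h α hα hαE
  have hα1 : 0 < α ^ (-(1 / c)) := Real.rpow_pos_of_pos hα _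
  -- the size of `α N ^ c`
  have hxlog : ∀ᶠ N : ℕ in atTop, 1 ≤ Real.log N ∧ Real.log (α * (N : ℝ) ^ c) ≤ 2 * c * Real.log N ∧
      2 ≤ α * (N : ℝ) ^ c := by
    have ht : Tendsto (fun X : ℕ => (X : ℝ)) atTop atTop := tendsto_natCast_atTop_atTop
    have hlog : Tendsto (fun X : ℕ => Real.log (X : ℝ)) atTop atTop := Real.tendsto_log_atTop.comp ht
    filter_upwards [hlog.eventually_ge_atTop 1, hlog.eventually_ge_atTop (Real.log α / c), eventually_ge_atTop 1,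
      ((tend_pow c hc0).const_mul_atTop hα).eventually_ge_atTop 2] with N h2 h3 h4 h5
    have hN0 : (0 : ℝ) < N := by
      have : 0 < N := by omega
      exact_mod_cast this
    refine ⟨h2, ?_, h5⟩
    rw [Real.log_mul hα.ne' (by positivity), Real.log_rpow hN0]
    rw [div_le_iff₀ hc0] at h3
    linarith
  refine ⟨?_, ?_, ?_⟩
  · -- the distribution
    have hev : ∀ᶠ N : ℕ in atTop, N₁ ≤ N ∧ 2 ≤ (N : ℝ) ^ (κt / 2) ∧ 1 ≤ N := by
      filter_upwards [eventually_ge_atTop N₁, (tend_pow (κt / 2) (by positivity)).eventually_ge_atTop 2,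
        eventually_ge_atTop 1] with N h2 h3 h4
      exact ⟨h2, h3, h4⟩
    obtain ⟨N₀, hN₀⟩ := hev.exists_forall_of_atTop
    refine ⟨N₀, fun N hN t ht => ?_⟩
    obtain ⟨k1, k2, k3⟩ := hN₀ N hN
    have hN1 : (1 : ℝ) ≤ N := by exact_mod_cast k3
    have hN0 : (0 : ℝ) < N := by linarith
    have k4 : ((2 * t : ℕ) : ℝ) ≤ (N : ℝ) ^ κt := by
      push_cast
      have h2 : (N : ℝ) ^ κ ≤ (N : ℝ) ^ (κt / 2) := Real.rpow_le_rpow_of_exponent_le hN1 (by linarith)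
      have h3 : (N : ℝ) ^ κt = (N : ℝ) ^ (κt / 2) * (N : ℝ) ^ (κt / 2) := by
        rw [← Real.rpow_add hN0]
        congr 1
        ring
      rw [h3]
      have h4 : 0 < (N : ℝ) ^ (κt / 2) := by positivity
      nlinarith
    have k5 := h1 N k1 (2 * t) k4
    have e1 : (Icc 1 N).filter (fun n => ms α c n ∈ BB (2 * t)) =
        (Icc 1 N).filter (fun n : ℕ => t < gap ⌊α * (n : ℝ) ^ c⌋₊) := by
      apply filter_congr
      intro n _
      rw [BB_even]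
      rfl
    have e2 : ∑ m ∈ Ioc 0 (ms α c N), Pool.Agent.H706R2.PS.A13aux.mt (BB (2 * t)) c α m =
        1 / c * α ^ (-(1 / c)) * ∑ m ∈ (Ioc 0 ⌊α * (N : ℝ) ^ c⌋₊).filter (fun m => t < gap m),
          (m : ℝ) ^ (1 / c - 1) := by
      rw [mul_sum, sum_filter]
      apply sum_congr rfl
      intro m _
      unfold Pool.Agent.H706R2.PS.A13aux.mt
      simp only [BB_even]
    rw [e1, e2] at k5
    refine k5.trans ?_
    apply Real.rpow_le_rpow_of_exponent_le hN1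
    linarith
  · -- short distances
    intro lam hlam
    obtain ⟨b, hb, hlow⟩ := low_prop (lam / (4 * c)) (by positivity)
    have hY : Tendsto (fun N : ℕ => ms α c N) atTop atTop := by
      unfold ms xs
      exact tendsto_nat_floor_atTop.comp ((tend_pow c hc0).const_mul_atTop hα)
    refine ⟨b / (8 * c), by positivity, ?_⟩
    have hev : ∀ᶠ N : ℕ in atTop, (N₁ ≤ N ∧ 1 ≤ N) ∧
        (1 ≤ Real.log N ∧ Real.log (α * (N : ℝ) ^ c) ≤ 2 * c * Real.log N ∧ 2 ≤ α * (N : ℝ) ^ c) ∧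
        (b * ms α c N ≤ (((Ioc 0 (ms α c N)).filter (fun n => gap n ≤ ⌊lam / (4 * c) *
          Real.log (ms α c N)⌋₊)).card : ℝ)) ∧ 8 * c / b ≤ (N : ℝ) ^ κt ∧ 16 * c / b ≤ (N : ℝ) ^ (1 / 2 : ℝ) ∧
        1 + lam * Real.log N ^ 2 ≤ (N : ℝ) ^ κt := by
      filter_upwards [eventually_ge_atTop N₁, eventually_ge_atTop 1, hxlog, hY.eventually hlow,
        (tend_pow κt hκ0).eventually_ge_atTop (8 * c / b), (tend_pow (1 / 2) (by norm_num)).eventually_ge_atTop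
        (16 * c / b), pow_dom κt 1 lam hκ0 (by norm_num) hlam.le] with N a1 a2 a3 a4 a5 a6 a7
      exact ⟨⟨a1, a2⟩, a3, a4, a5, a6, a7⟩
    obtain ⟨N₀, hN₀⟩ := hev.exists_forall_of_atTop
    refine ⟨N₀, fun N hN => ?_⟩
    obtain ⟨⟨k1, k2⟩, ⟨l1, l2, l3⟩, k3, k4, k5, k6⟩ := hN₀ N hN
    have hN1 : (1 : ℝ) ≤ N := by exact_mod_cast k2
    have hN0 : (0 : ℝ) < N := by linarith
    obtain ⟨Y, hYd⟩ : ∃ Y : ℕ, Y = ms α c N := ⟨_, rfl⟩
    have hYle : (Y : ℝ) ≤ α * (N : ℝ) ^ c := by rw [hYd]; exact Nat.floor_le (by unfold xs; positivity)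
    have hYge : α / 2 * (N : ℝ) ^ c ≤ (Y : ℝ) := by
      have : α * (N : ℝ) ^ c < (Y : ℝ) + 1 := by rw [hYd]; exact Nat.lt_floor_add_one _
      linarith
    have hY0 : (0 : ℝ) < Y := lt_of_lt_of_le (by positivity) hYge
    rw [← hYd] at k3
    obtain ⟨T, hT⟩ : ∃ T : ℕ, T = ⌊lam / (4 * c) * Real.log Y⌋₊ := ⟨_, rfl⟩
    rw [← hT] at k3
    have hY1 : (1 : ℝ) ≤ Y := by
      have : 0 < Y := by exact_mod_cast hY0
      exact_mod_cast this
    have hTle : (T : ℝ) ≤ lam / 2 * Real.log N := by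
      have h2 : (T : ℝ) ≤ lam / (4 * c) * Real.log Y := by
        rw [hT]
        apply Nat.floor_le
        have := Real.log_nonneg hY1
        positivity
      have h3 : Real.log Y ≤ 2 * c * Real.log N := (Real.log_le_log hY0 hYle).trans l2
      calc (T : ℝ) ≤ lam / (4 * c) * Real.log Y := h2
        _ ≤ lam / (4 * c) * (2 * c * Real.log N) := mul_le_mul_of_nonneg_left h3 (by positivity)
        _ = _ := by field_simp; ring
    have k7 : ((2 * T + 1 : ℕ) : ℝ) ≤ (N : ℝ) ^ κt := by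
      push_cast
      have : Real.log N ≤ Real.log N ^ 2 := by nlinarith
      nlinarith
    have k8 := h1 N k1 (2 * T + 1) k7
    have k9 := mt_sum_ge (BB (2 * T + 1)) c α hc hα Y (α * (N : ℝ) ^ c) (by positivity) hYle
    have e1 : (((Ioc 0 Y).filter (fun m => m ∈ BB (2 * T + 1))).card : ℝ) =
        (((Ioc 0 Y).filter (fun n => gap n ≤ T)).card : ℝ) := by
      congr 2
      apply filter_congr
      intro n _
      exact BB_odd T n
    rw [e1] at k9
    have hone : α ^ (-(1 / c)) * (α * (N : ℝ) ^ c) ^ (1 / c - 1) * (α * (N : ℝ) ^ c) = N := by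
      have h2 : (α * (N : ℝ) ^ c) ^ (1 / c - 1) * (α * (N : ℝ) ^ c) = (α * (N : ℝ) ^ c) ^ (1 / c) := by
        rw [Real.rpow_sub_one (by positivity)]
        field_simp
      rw [mul_assoc, h2, Real.mul_rpow hα.le (by positivity), ← Real.rpow_mul hN0.le, mul_one_div_cancel hc0.ne',
        Real.rpow_one, ← mul_assoc, ← Real.rpow_add hα]
      simp
    have k10 : b / (2 * c) * N ≤ ∑ m ∈ Ioc 0 Y, Pool.Agent.H706R2.PS.A13aux.mt (BB (2 * T + 1)) c α m := by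
      refine le_trans ?_ k9
      have h2 : b * (α / 2 * (N : ℝ) ^ c) ≤ (((Ioc 0 Y).filter (fun n => gap n ≤ T)).card : ℝ) :=
        (mul_le_mul_of_nonneg_left hYge hb.le).trans k3
      calc b / (2 * c) * N = 1 / c * (b / 2) * (α ^ (-(1 / c)) * (α * (N : ℝ) ^ c) ^ (1 / c - 1) *
            (α * (N : ℝ) ^ c)) := by rw [hone]; field_simp
        _ = 1 / c * α ^ (-(1 / c)) * (α * (N : ℝ) ^ c) ^ (1 / c - 1) * (b * (α / 2 * (N : ℝ) ^ c)) := by ring
        _ ≤ _ := mul_le_mul_of_nonneg_left h2 (by positivity)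
    rw [← hYd] at k8
    have k11 : b / (2 * c) * N - (N : ℝ) ^ (1 - κt) ≤
        (((Icc 1 N).filter (fun n => ms α c n ∈ BB (2 * T + 1))).card : ℝ) := by
      rw [abs_le] at k8
      linarith [k8.1]
    -- the small `n`
    have k12 : (((Icc 1 N).filter (fun n => ms α c n ∈ BB (2 * T + 1))).card : ℝ) ≤
        (((Icc 1 N).filter (fun n : ℕ => (gap ⌊α * (n : ℝ) ^ c⌋₊ : ℝ) ≤ lam * Real.log n)).card : ℝ) +
          (N : ℝ) ^ (1 / 2 : ℝ) := by
      have hsub : (Icc 1 N).filter (fun n => ms α c n ∈ BB (2 * T + 1)) ⊆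
          (Icc 1 N).filter (fun n : ℕ => (gap ⌊α * (n : ℝ) ^ c⌋₊ : ℝ) ≤ lam * Real.log n) ∪
            Icc 1 ⌊(N : ℝ) ^ (1 / 2 : ℝ)⌋₊ := by
        intro n hn
        rw [mem_filter, mem_Icc] at hn
        rw [mem_union, mem_filter, mem_Icc, mem_Icc]
        by_cases h2 : n ≤ ⌊(N : ℝ) ^ (1 / 2 : ℝ)⌋₊
        · exact Or.inr ⟨hn.1.1, h2⟩
        · left
          refine ⟨hn.1, ?_⟩
          have h3 : (N : ℝ) ^ (1 / 2 : ℝ) < n := by
            rw [not_le, Nat.floor_lt (by positivity)] at h2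
            exact h2
          have h4 : 1 / 2 * Real.log N ≤ Real.log n := by
            rw [← Real.log_rpow hN0]
            exact Real.log_le_log (by positivity) h3.le
          have h5 := (BB_odd T (ms α c n)).1 hn.2
          have h6 : (gap ⌊α * (n : ℝ) ^ c⌋₊ : ℝ) ≤ T := by
            have : gap ⌊α * (n : ℝ) ^ c⌋₊ ≤ T := h5
            exact_mod_cast this
          have h7 : lam * (1 / 2 * Real.log N) ≤ lam * Real.log n := mul_le_mul_of_nonneg_left h4 hlam.le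
          linarith
      have h2 := (card_le_card hsub).trans (card_union_le _ _)
      have h3 : (((Icc 1 N).filter (fun n => ms α c n ∈ BB (2 * T + 1))).card : ℝ) ≤
          (((Icc 1 N).filter (fun n : ℕ => (gap ⌊α * (n : ℝ) ^ c⌋₊ : ℝ) ≤ lam * Real.log n)).card : ℝ) +
            ((Icc 1 ⌊(N : ℝ) ^ (1 / 2 : ℝ)⌋₊).card : ℝ) := by exact_mod_cast h2
      have h4 : ((Icc 1 ⌊(N : ℝ) ^ (1 / 2 : ℝ)⌋₊).card : ℝ) ≤ (N : ℝ) ^ (1 / 2 : ℝ) := by
        rw [Nat.card_Icc, Nat.add_sub_cancel]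
        exact Nat.floor_le (by positivity)
      linarith
    have m1 : (N : ℝ) ^ (1 - κt) ≤ b / (8 * c) * N := by
      rw [Real.rpow_sub hN0, Real.rpow_one, div_le_iff₀ (by positivity)]
      rw [div_le_iff₀ hb] at k4
      have h2 : N * (8 * c) ≤ N * ((N : ℝ) ^ κt * b) := mul_le_mul_of_nonneg_left k4 hN0.le
      have h3 : b / (8 * c) * N * (N : ℝ) ^ κt = N * ((N : ℝ) ^ κt * b) / (8 * c) := by field_simp
      rw [h3, le_div_iff₀ (by positivity)]
      exact h2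
    have m2 : (N : ℝ) ^ (1 / 2 : ℝ) ≤ b / (16 * c) * N := by
      have h2 : (N : ℝ) = (N : ℝ) ^ (1 / 2 : ℝ) * (N : ℝ) ^ (1 / 2 : ℝ) := by
        rw [← Real.rpow_add hN0]
        norm_num
      rw [div_le_iff₀ hb] at k5
      have h3 : (N : ℝ) ^ (1 / 2 : ℝ) * (16 * c) ≤ (N : ℝ) ^ (1 / 2 : ℝ) * ((N : ℝ) ^ (1 / 2 : ℝ) * b) :=
        mul_le_mul_of_nonneg_left k5 (by positivity)
      have h4 : b / (16 * c) * N = (N : ℝ) ^ (1 / 2 : ℝ) * ((N : ℝ) ^ (1 / 2 : ℝ) * b) / (16 * c) := by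
        nth_rewrite 1 [h2]
        field_simp
      rw [h4, le_div_iff₀ (by positivity)]
      exact h3
    have m3 : b / (2 * c) * N - b / (8 * c) * N - b / (16 * c) * N = 5 / 16 * (b / c) * N := by
      field_simp
      ring
    have m4 : b / (8 * c) * N = 1 / 8 * (b / c) * N := by
      field_simp
    have m5 : 0 ≤ b / c * N := by positivity
    rw [m4]
    nlinarith
  · -- long distances
    obtain ⟨x₀, hbig⟩ := big_gap
    obtain ⟨x₁, hfb⟩ := f_bounds (max 16 (4 * c)) (le_trans (by norm_num) (le_max_left _ _))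
    obtain ⟨M, hM⟩ : ∃ M : ℝ, M = max 16 (4 * c) := ⟨_, rfl⟩
    rw [← hM] at hfb
    have hM16 : 16 ≤ M := by rw [hM]; exact le_max_left _ _
    have hM4 : 4 * c ≤ M := by rw [hM]; exact le_max_right _ _
    have hxt : Tendsto (fun N : ℕ => α * (N : ℝ) ^ c) atTop atTop := (tend_pow c hc0).const_mul_atTop hα
    have hev : ∀ᶠ N : ℕ in atTop, (N₁ ≤ N ∧ 1 ≤ N) ∧
        (1 ≤ Real.log N ∧ Real.log (α * (N : ℝ) ^ c) ≤ 2 * c * Real.log N ∧ 2 ≤ α * (N : ℝ) ^ c) ∧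
        (x₀ ≤ α * (N : ℝ) ^ c ∧ x₁ ≤ α * (N : ℝ) ^ c) ∧ 16 ≤ Real.log (α * (N : ℝ) ^ c) ∧
        2 * c ≤ (N : ℝ) ^ (κt / 2) ∧ 0 + 8 * c ^ 2 * Real.log N ^ 2 ≤ (N : ℝ) ^ κt := by
      filter_upwards [eventually_ge_atTop N₁, eventually_ge_atTop 1, hxlog, hxt.eventually_ge_atTop x₀,
        hxt.eventually_ge_atTop x₁, (Real.tendsto_log_atTop.comp hxt).eventually_ge_atTop 16,
        (tend_pow (κt / 2) (by positivity)).eventually_ge_atTop (2 * c),
        pow_dom κt 0 (8 * c ^ 2) hκ0 le_rfl (by positivity)] with N a1 a2 a3 a4 a5 a6 a7 a8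
      exact ⟨⟨a1, a2⟩, a3, ⟨a4, a5⟩, a6, a7, a8⟩
    obtain ⟨N₀, hN₀⟩ := hev.exists_forall_of_atTop
    refine ⟨N₀, fun N hN H hH1 hH2 => ?_⟩
    obtain ⟨⟨k1, k2⟩, ⟨l1, l2, l3⟩, ⟨k3, k4⟩, k5, k6, k7⟩ := hN₀ N hN
    have hN1 : (1 : ℝ) ≤ N := by exact_mod_cast k2
    have hN0 : (0 : ℝ) < N := by linarith
    obtain ⟨x, hx⟩ : ∃ x : ℝ, x = α * (N : ℝ) ^ c := ⟨_, rfl⟩
    rw [← hx] at hH1 hH2 k3 k4 k5 l2 l3 ⊢
    have hx0 : 0 < x := by linarith
    obtain ⟨b1, b2, b3⟩ := hfb x k4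
    obtain ⟨L, hL⟩ : ∃ L : ℝ, L = Real.log x := ⟨_, rfl⟩
    rw [← hL] at hH1 b1 b2 b3 k5 l2
    obtain ⟨F, hF⟩ : ∃ F : ℝ, F = f x := ⟨_, rfl⟩
    rw [← hF] at hH2 b2 b3 ⊢
    have hL0 : 0 < L := by linarith
    have hF0 : 0 < F := by nlinarith
    have hFL : 16 * L ≤ F := by nlinarith
    obtain ⟨t, ht⟩ : ∃ t : ℕ, t = ⌊H⌋₊ := ⟨_, rfl⟩
    have hH0 : 0 ≤ H := by linarith
    have ht1 : (t : ℝ) ≤ H := by rw [ht]; exact Nat.floor_le hH0
    have ht2 : H < (t : ℝ) + 1 := by rw [ht]; exact Nat.lt_floor_add_one _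
    have hκ16 : κ ≤ 1 / 16 := by linarith
    have h2 := hbig x k3 t (by rw [← hL]; linarith) (by rw [← hF]; nlinarith)
    rw [← hF] at h2
    -- the index
    have hidx : ((2 * t : ℕ) : ℝ) ≤ (N : ℝ) ^ κt := by
      push_cast
      have h3 : (t : ℝ) ≤ L ^ 2 := by
        have : κ * F ≤ M * F := mul_le_mul_of_nonneg_right (by linarith) hF0.le
        linarith
      have h4 : L ^ 2 ≤ (2 * c * Real.log N) ^ 2 := by
        apply pow_le_pow_left₀ hL0.le l2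
      nlinarith
    have k8 := h1 N k1 (2 * t) hidx
    obtain ⟨Y, hYd⟩ : ∃ Y : ℕ, Y = ms α c N := ⟨_, rfl⟩
    have hYx : Y = ⌊x⌋₊ := by rw [hYd, hx]; rfl
    have hYle : (Y : ℝ) ≤ x := by rw [hYx]; exact Nat.floor_le hx0.le
    rw [← hYd] at k8
    rw [← hYx] at h2
    have k9 := mt_sum_ge (BB (2 * t)) c α hc hα Y x hx0 hYle
    have e1 : (((Ioc 0 Y).filter (fun m => m ∈ BB (2 * t))).card : ℝ) =
        (((Ioc 0 Y).filter (fun m => t < gap m)).card : ℝ) := by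
      congr 2
      apply filter_congr
      intro n _
      exact BB_even t n
    rw [e1] at k9
    have e2 : (((Icc 1 N).filter (fun n => ms α c n ∈ BB (2 * t))).card : ℝ) =
        (((Icc 1 N).filter (fun n : ℕ => H < gap ⌊α * (n : ℝ) ^ c⌋₊)).card : ℝ) := by
      congr 2
      apply filter_congr
      intro n _
      rw [BB_even, ht, Nat.floor_lt hH0]
      rfl
    rw [e2] at k8
    have hone : α ^ (-(1 / c)) * x ^ (1 / c - 1) * x = N := by
      have h3 : x ^ (1 / c - 1) * x = x ^ (1 / c) := by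
        rw [Real.rpow_sub_one hx0.ne']
        field_simp
      rw [mul_assoc, h3, hx, Real.mul_rpow hα.le (by positivity), ← Real.rpow_mul hN0.le,
        mul_one_div_cancel hc0.ne', Real.rpow_one, ← mul_assoc, ← Real.rpow_add hα]
      simp
    obtain ⟨A, hA⟩ : ∃ A : ℝ, A = 33 / 8 * ((t : ℝ) + 1) / F * L := ⟨_, rfl⟩
    have hxA : x ^ (1 - 33 / 8 * ((t : ℝ) + 1) / F) = x * Real.exp (-A) := by
      rw [Real.rpow_sub hx0, Real.rpow_one, Real.exp_neg, div_eq_mul_inv]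
      congr 2
      rw [Real.rpow_def_of_pos hx0, hA, hL, mul_comm]
    have hxD : x ^ (-(5 * H / F)) = Real.exp (-(5 * H / F * L)) := by
      rw [Real.rpow_def_of_pos hx0, hL]
      congr 1
      ring
    rw [hxA] at h2
    have k10 : 1 / c * (N * Real.exp (-A)) ≤ ∑ m ∈ Ioc 0 Y, Pool.Agent.H706R2.PS.A13aux.mt (BB (2 * t)) c α m := by
      refine le_trans ?_ k9
      calc 1 / c * (N * Real.exp (-A)) = 1 / c * α ^ (-(1 / c)) * x ^ (1 / c - 1) * (x * Real.exp (-A)) := by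
            rw [← hone]; ring
        _ ≤ _ := mul_le_mul_of_nonneg_left h2 (by positivity)
    have k11 : 1 / c * (N * Real.exp (-A)) - (N : ℝ) ^ (1 - κt) ≤
        (((Icc 1 N).filter (fun n : ℕ => H < gap ⌊α * (n : ℝ) ^ c⌋₊)).card : ℝ) := by
      rw [abs_le] at k8
      linarith [k8.1]
    -- comparison of the exponents
    have hDA : 2 * c ≤ Real.exp (5 * H / F * L - A) := by
      have h3 : 5 * H / F * L - A = (5 * H - 33 / 8 * ((t : ℝ) + 1)) * (L / F) := by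
        rw [hA]
        field_simp
      have h4 : L / 2 ≤ 5 * H - 33 / 8 * ((t : ℝ) + 1) := by linarith
      have h5 : M ≤ L * (L / F) := by
        rw [← mul_div_assoc, le_div_iff₀ hF0]
        nlinarith
      have h6 : 0 ≤ L / F := by positivity
      have h7 : M / 2 ≤ 5 * H / F * L - A := by
        rw [h3]
        calc M / 2 ≤ L / 2 * (L / F) := by linarith
          _ ≤ _ := mul_le_mul_of_nonneg_right h4 h6
      have h8 := Real.add_one_le_exp (5 * H / F * L - A)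
      linarith
    have hA1 : A ≤ κt / 2 * Real.log N := by
      have h3 : (t : ℝ) + 1 ≤ 2 * H := by linarith
      have h4 : (t : ℝ) + 1 ≤ 2 * (κ * F) := by linarith
      have h5 : A ≤ 33 / 4 * κ * L := by
        rw [hA, div_mul_eq_mul_div, div_le_iff₀ hF0]
        have : 33 / 8 * ((t : ℝ) + 1) * L ≤ 33 / 8 * (2 * (κ * F)) * L := by gcongr
        linarith
      have h6 : 33 / 4 * κ * L ≤ 33 / 4 * κ * (2 * c * Real.log N) := mul_le_mul_of_nonneg_left l2 (by positivity)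
      have h7 : 33 / 4 * κ * (2 * c * Real.log N) = κt / 2 * Real.log N := by
        rw [hκ]
        field_simp
        ring
      linarith
    have hexpA : (N : ℝ) ^ (-(κt / 2)) ≤ Real.exp (-A) := by
      rw [Real.rpow_def_of_pos hN0]
      apply Real.exp_le_exp.2
      linarith
    have m1 : (N : ℝ) ^ (1 - κt) ≤ 1 / (2 * c) * (N * Real.exp (-A)) := by
      have h3 : (N : ℝ) ^ (1 - κt) = N * ((N : ℝ) ^ (-(κt / 2)) * (N : ℝ) ^ (-(κt / 2))) := by
        rw [← Real.rpow_add hN0, Real.rpow_sub hN0, Real.rpow_one, div_eq_mul_inv, ← Real.rpow_neg hN0.le]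
        congr 2
        ring
      have h4 : (N : ℝ) ^ (-(κt / 2)) ≤ 1 / (2 * c) := by
        rw [Real.rpow_neg hN0.le, ← one_div]
        exact one_div_le_one_div_of_le (by positivity) k6
      rw [h3]
      have h5 : (N : ℝ) ^ (-(κt / 2)) * (N : ℝ) ^ (-(κt / 2)) ≤ 1 / (2 * c) * Real.exp (-A) :=
        mul_le_mul h4 hexpA (by positivity) (by positivity)
      calc N * ((N : ℝ) ^ (-(κt / 2)) * (N : ℝ) ^ (-(κt / 2))) ≤ N * (1 / (2 * c) * Real.exp (-A)) :=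
            mul_le_mul_of_nonneg_left h5 hN0.le
        _ = _ := by ring
    have m2 : Real.exp (-(5 * H / F * L)) ≤ 1 / (2 * c) * Real.exp (-A) := by
      have h3 : Real.exp (-A) = Real.exp (5 * H / F * L - A) * Real.exp (-(5 * H / F * L)) := by
        rw [← Real.exp_add]
        congr 1
        ring
      rw [h3, one_div_mul_eq_div, le_div_iff₀ (by positivity)]
      have h4 : 0 < Real.exp (-(5 * H / F * L)) := Real.exp_pos _
      nlinarith
    rw [hxD]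
    have m3 : N * Real.exp (-(5 * H / F * L)) ≤ 1 / (2 * c) * (N * Real.exp (-A)) := by
      calc N * Real.exp (-(5 * H / F * L)) ≤ N * (1 / (2 * c) * Real.exp (-A)) :=
            mul_le_mul_of_nonneg_left m2 hN0.le
        _ = _ := by ring
    have m4 : 1 / c * (N * Real.exp (-A)) = 1 / (2 * c) * (N * Real.exp (-A)) + 1 / (2 * c) * (N * Real.exp (-A)) := by
      field_simp
      ring
    linarith

end Pool.Agent.X20.Tr
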