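import Pool.Agent.X20.Tr.Main
import Pool.Agent.W123.LR.Fin
import Pool.Agent.H932R4.MO.Final

/-! The distance to the next prime along `⌊α n ^ c⌋` (helper20). -/

set_option autoImplicit false

namespace Pool.Agent.X20.Tr

open Finset Filter
open Pool.Agent.Y854.PS (ms xs)

/-- the distance from `m` to the next prime -/
noncomputable def gap (m : ℕ) : ℕ := sInf {k : ℕ | 0 < k ∧ (m + k).Prime}

lemma gap_spec (m : ℕ) : 0 < gap m ∧ (m + gap m).Prime := by
  have h : {k : ℕ | 0 < k ∧ (m + k).Prime}.Nonempty := by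
    obtain ⟨p, hp, hpp⟩ := Nat.exists_infinite_primes (m + 1)
    exact ⟨p - m, by omega, by rw [Nat.add_sub_cancel' (by omega)]; exact hpp⟩
  exact Nat.sInf_mem h

lemma gap_le {m k : ℕ} (hk : 0 < k) (h : (m + k).Prime) : gap m ≤ k := Nat.sInf_le ⟨hk, h⟩

lemma lt_gap {m t : ℕ} : t < gap m ↔ ∀ k, 0 < k → k ≤ t → ¬ (m + k).Prime := by
  constructor
  · intro h k hk hkt hp
    have := gap_le hk hp
    omega
  · intro h
    by_contra hcon
    exact h (gap m) (gap_spec m).1 (by omega) (gap_spec m).2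

/-- a positive proportion of the integers in `(X, 2X]` have a prime within `A log X` -/
lemma some_gap : ∃ A b : ℝ, 0 < A ∧ 0 < b ∧ ∀ᶠ X : ℕ in atTop,
    b * X ≤ (((Ioc X (2 * X)).filter (fun n => (gap n : ℝ) ≤ A * Real.log X)).card : ℝ) := by
  classical
  obtain ⟨θ, hθ0, hθ1, hS⟩ := Pool.Agent.H932R4.MO.exists_short
  have hS1 : Pool.Agent.H932R4.MO.ShortIntervals 1 := by
    obtain ⟨c, hc, X₀, hX₀, h⟩ := hS
    refine ⟨c, hc, X₀, hX₀, fun X Y hX hXY hYX => h X Y hX ?_ hYX⟩
    refine le_trans ?_ hXY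
    apply Real.rpow_le_rpow_of_exponent_le _ hθ1.le
    have : 1 ≤ X := by omega
    exact_mod_cast this
  obtain ⟨c₁, c₂, K, c, hc1, hc2, hK, hc, hreg⟩ := Pool.Agent.W123.LR.regular 1 one_pos le_rfl hS1
  refine ⟨2 * (K + 1), c, by positivity, hc, ?_⟩
  have ht : Tendsto (fun X : ℕ => (X : ℝ)) atTop atTop := tendsto_natCast_atTop_atTop
  have hlog : Tendsto (fun X : ℕ => Real.log (X : ℝ)) atTop atTop := Real.tendsto_log_atTop.comp ht
  have hsmall : ∀ᶠ X : ℕ in atTop, 2 * (K + 1) * Real.log X ≤ X := by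
    have h := (Real.isLittleO_log_id_atTop.comp_tendsto ht).bound
      (show (0 : ℝ) < 1 / (2 * (K + 1)) by positivity)
    filter_upwards [h, eventually_ge_atTop 1] with X hX hX1
    have hX1' : (1 : ℝ) ≤ X := by exact_mod_cast hX1
    simp only [Function.comp_def, id] at hX
    rw [Real.norm_of_nonneg (Real.log_nonneg hX1'), Real.norm_of_nonneg (by positivity)] at hX
    calc 2 * (K + 1) * Real.log X ≤ 2 * (K + 1) * (1 / (2 * (K + 1)) * X) := by gcongr
      _ = X := by field_simp
  filter_upwards [hreg, hsmall, hlog.eventually_ge_atTop (Real.log 2), hlog.eventually_ge_atTop 1,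
    eventually_ge_atTop 2] with X h1 h2 h3 h4 hX2
  have h5 := h1 X (by rw [Real.rpow_one]) le_rfl
  refine h5.trans (Nat.cast_le.2 (card_le_card ?_))
  intro n hn
  rw [mem_filter, mem_Ioc] at hn ⊢
  obtain ⟨⟨hn1, hn2⟩, hR⟩ := hn
  refine ⟨⟨hn1, by omega⟩, ?_⟩
  have hnX : (X : ℝ) ≤ n := by exact_mod_cast hn1.le
  have hnX2 : (n : ℝ) ≤ 2 * X := by
    have : n ≤ 2 * X := by omega
    exact_mod_cast this
  have hX0 : (0 : ℝ) < X := by
    have : 0 < X := by omega
    exact_mod_cast this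
  have hln : Real.log n ≤ 2 * Real.log X := by
    calc Real.log n ≤ Real.log (2 * X) := Real.log_le_log (by linarith) hnX2
      _ = Real.log 2 + Real.log X := Real.log_mul (by norm_num) hX0.ne'
      _ ≤ _ := by linarith
  have hln0 : 1 ≤ Real.log n := h4.trans (Real.log_le_log hX0 hnX)
  obtain ⟨L, hL⟩ : ∃ L : ℕ, L = ⌊(K + 1) * Real.log n⌋₊ := ⟨_, rfl⟩
  have hL1 : (L : ℝ) ≤ (K + 1) * Real.log n := by rw [hL]; exact Nat.floor_le (by positivity)
  have hL2 : K * Real.log n ≤ (L : ℝ) := by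
    have : (K + 1) * Real.log n < (L : ℝ) + 1 := by rw [hL]; exact Nat.lt_floor_add_one _
    nlinarith
  have hL3 : (L : ℝ) ≤ 2 * (K + 1) * Real.log X := by nlinarith
  have h6 := hR n (n + L) le_rfl (by omega) (by push_cast; linarith) (by push_cast; linarith)
  have h7 : 0 < (((Finset.Ioc n (n + L)).filter Nat.Prime).card : ℝ) := by
    refine lt_of_lt_of_le ?_ h6.1
    have : 0 < K * Real.log n := by positivity
    push_cast
    have h8 : 0 < (n : ℝ) + L - n := by linarith
    positivity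
  have h8 : 0 < ((Finset.Ioc n (n + L)).filter Nat.Prime).card := by exact_mod_cast h7
  obtain ⟨p, hp⟩ := Finset.card_pos.1 h8
  rw [mem_filter, mem_Ioc] at hp
  have h9 : gap n ≤ p - n := gap_le (by omega) (by rw [Nat.add_sub_cancel' (by omega)]; exact hp.2)
  have h10 : gap n ≤ L := by omega
  calc (gap n : ℝ) ≤ L := by exact_mod_cast h10
    _ ≤ _ := hL3

/-- from `J T` to `T` -/
lemma pigeon (G : Finset ℕ) (T J W : ℕ) (hT : 1 ≤ T) (hJ : 1 ≤ J) (h : ∀ n ∈ G, gap n ≤ J * T)
    (hW : ∀ n ∈ G, n + J * T ≤ W) (hG : ∀ n ∈ G, 1 ≤ n) :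
    G.card ≤ J * ((Icc 1 W).filter (fun n => gap n ≤ T)).card := by
  classical
  obtain ⟨f, hf⟩ : ∃ f : ℕ → ℕ, ∀ n, f n = n + (gap n - 1) / T * T := ⟨_, fun _ => rfl⟩
  have hmaps : ∀ n ∈ G, f n ∈ (Icc 1 W).filter (fun n => gap n ≤ T) := by
    intro n hn
    have h1 := gap_spec n
    have h2 : (gap n - 1) / T * T ≤ gap n - 1 := Nat.div_mul_le_self _ _
    have h3 : gap n - 1 < ((gap n - 1) / T + 1) * T := by
      have := Nat.lt_div_mul_add (a := gap n - 1) (b := T) (by omega)
      rw [add_mul, one_mul]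
      exact this
    have h4 := h n hn
    have h5 := hW n hn
    have h6 := hG n hn
    rw [mem_filter, mem_Icc, hf]
    refine ⟨⟨by omega, by omega⟩, ?_⟩
    have h7 : n + (gap n - 1) / T * T + (gap n - (gap n - 1) / T * T) = n + gap n := by omega
    have h8 : gap (n + (gap n - 1) / T * T) ≤ gap n - (gap n - 1) / T * T :=
      gap_le (by omega) (by rw [h7]; exact h1.2)
    rw [add_mul, one_mul] at h3
    omega
  refine Finset.card_le_mul_card_image_of_maps_to hmaps J ?_
  intro m _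
  have hinj : ((G.filter (fun n => f n = m)).image (fun n => (gap n - 1) / T)).card =
      (G.filter (fun n => f n = m)).card := by
    apply card_image_of_injOn
    intro n hn n' hn' he
    rw [mem_coe, mem_filter] at hn hn'
    simp only at he
    have h1 := hn.2
    have h2 := hn'.2
    rw [hf] at h1 h2
    rw [he] at h1
    omega
  rw [← hinj]
  have : ((G.filter (fun n => f n = m)).image (fun n => (gap n - 1) / T)) ⊆ range J := by
    intro j hj
    rw [mem_image] at hj
    obtain ⟨n, hn, rfl⟩ := hj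
    rw [mem_filter] at hn
    rw [mem_range, Nat.div_lt_iff_lt_mul (by omega)]
    have h4 := h n hn.1
    have h1 := (gap_spec n).1
    omega
  calc _ ≤ (range J).card := card_le_card this
    _ = J := card_range J

end Pool.Agent.X20.Tr
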