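import Pool.Agent.X20.Tr.Gap

/-! The distance to the next prime along `⌊α n ^ c⌋`, continued (helper20). -/

set_option autoImplicit false

namespace Pool.Agent.X20.Tr

open Finset Filter
open Pool.Agent.Y854.PS (ms xs)

/-- a positive proportion of all integers have a prime within `lam log` -/
lemma low_prop (lam : ℝ) (hlam : 0 < lam) : ∃ b : ℝ, 0 < b ∧ ∀ᶠ Y : ℕ in atTop,
    b * Y ≤ (((Ioc 0 Y).filter (fun n => gap n ≤ ⌊lam * Real.log Y⌋₊)).card : ℝ) := by
  obtain ⟨A, b, hA, hb, hev⟩ := some_gap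
  obtain ⟨J, hJ⟩ : ∃ J : ℕ, J = ⌈2 * A / lam⌉₊ + 1 := ⟨_, rfl⟩
  have hJ1 : 2 * A / lam ≤ J := by
    have := Nat.le_ceil (2 * A / lam)
    rw [hJ]
    push_cast
    linarith
  have hJ0 : (0 : ℝ) < J := by rw [hJ]; positivity
  refine ⟨b / (8 * J), by positivity, ?_⟩
  have ht : Tendsto (fun X : ℕ => (X : ℝ)) atTop atTop := tendsto_natCast_atTop_atTop
  have hlog : Tendsto (fun X : ℕ => Real.log (X : ℝ)) atTop atTop := Real.tendsto_log_atTop.comp ht
  have hsmall : ∀ᶠ X : ℕ in atTop, J * lam * Real.log X ≤ X / 2 := by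
    have h := (Real.isLittleO_log_id_atTop.comp_tendsto ht).bound
      (show (0 : ℝ) < 1 / (2 * (J * lam)) by positivity)
    filter_upwards [h, eventually_ge_atTop 1] with X hX hX1
    have hX1' : (1 : ℝ) ≤ X := by exact_mod_cast hX1
    simp only [Function.comp_def, id] at hX
    rw [Real.norm_of_nonneg (Real.log_nonneg hX1'), Real.norm_of_nonneg (by positivity)] at hX
    calc J * lam * Real.log X ≤ J * lam * (1 / (2 * (J * lam)) * X) := by gcongr
      _ = X / 2 := by field_simp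
  have hdiv : Tendsto (fun Y : ℕ => Y / 4) atTop atTop := by
    apply tendsto_atTop_atTop.2
    intro a
    exact ⟨4 * a, fun Y hY => by omega⟩
  filter_upwards [hdiv.eventually hev, hsmall, hlog.eventually_ge_atTop (2 / lam),
    eventually_ge_atTop 8] with Y h1 h2 h3 hY8
  have hY0 : (0 : ℝ) < Y := by
    have : 0 < Y := by omega
    exact_mod_cast this
  obtain ⟨X, hX⟩ : ∃ X : ℕ, X = Y / 4 := ⟨_, rfl⟩
  rw [← hX] at h1
  obtain ⟨T, hT⟩ : ∃ T : ℕ, T = ⌊lam * Real.log Y⌋₊ := ⟨_, rfl⟩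
  rw [← hT]
  have hl2 : 2 ≤ lam * Real.log Y := by
    rw [div_le_iff₀ hlam] at h3
    linarith
  have hT1 : (T : ℝ) ≤ lam * Real.log Y := by rw [hT]; exact Nat.floor_le (by linarith)
  have hT2 : lam * Real.log Y < (T : ℝ) + 1 := by rw [hT]; exact Nat.lt_floor_add_one _
  have hT3 : lam / 2 * Real.log Y ≤ T := by linarith
  have hT0 : 1 ≤ T := by
    have : (1 : ℝ) ≤ T := by linarith
    exact_mod_cast this
  have hX1 : 1 ≤ X := by omega
  have hXY : Real.log X ≤ Real.log Y := by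
    apply Real.log_le_log
    · have : 0 < X := by omega
      exact_mod_cast this
    · have : X ≤ Y := by omega
      exact_mod_cast this
  have hl0 : 0 ≤ Real.log Y := by
    by_contra h
    push Not at h
    nlinarith
  have h4 := pigeon ((Ioc X (2 * X)).filter (fun n => (gap n : ℝ) ≤ A * Real.log X)) T J Y hT0
    (by omega) ?_ ?_ ?_
  · have h5 : (((Ioc X (2 * X)).filter (fun n => (gap n : ℝ) ≤ A * Real.log X)).card : ℝ) ≤
        J * (((Icc 1 Y).filter (fun n => gap n ≤ T)).card : ℝ) := by exact_mod_cast h4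
    have h6 : (Y : ℝ) / 8 ≤ X := by
      have : Y ≤ 8 * X := by omega
      have : (Y : ℝ) ≤ 8 * X := by exact_mod_cast this
      linarith
    have h7 : b * (Y / 8) ≤ b * X := mul_le_mul_of_nonneg_left h6 hb.le
    have h8 : Icc 1 Y = Ioc 0 Y := rfl
    rw [h8] at h5
    rw [div_mul_eq_mul_div, div_le_iff₀ (by positivity)]
    nlinarith
  · intro n hn
    rw [mem_filter] at hn
    have h5 : (gap n : ℝ) ≤ ((J * T : ℕ) : ℝ) := by
      push_cast
      calc (gap n : ℝ) ≤ A * Real.log X := hn.2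
        _ ≤ A * Real.log Y := mul_le_mul_of_nonneg_left hXY hA.le
        _ = (2 * A / lam) * (lam / 2 * Real.log Y) := by field_simp
        _ ≤ J * T := by
          apply mul_le_mul hJ1 hT3 _ hJ0.le
          positivity
    exact_mod_cast h5
  · intro n hn
    rw [mem_filter, mem_Ioc] at hn
    have h5 : ((n + J * T : ℕ) : ℝ) ≤ Y := by
      push_cast
      have h6 : (n : ℝ) ≤ Y / 2 := by
        have : 2 * n ≤ Y := by omega
        have : 2 * (n : ℝ) ≤ Y := by exact_mod_cast this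
        linarith
      have h7 : (J : ℝ) * T ≤ J * (lam * Real.log Y) := mul_le_mul_of_nonneg_left hT1 hJ0.le
      linarith
    exact_mod_cast h5
  · intro n hn
    rw [mem_filter, mem_Ioc] at hn
    omega

open Classical in
/-- lower bound for the main term -/
lemma mt_sum_ge (B : Set ℕ) (c α : ℝ) (hc : 1 < c) (hα : 0 < α) (Y : ℕ) (x : ℝ) (hx : 0 < x) (hYx : (Y : ℝ) ≤ x) :
    1 / c * α ^ (-(1 / c)) * x ^ (1 / c - 1) * (((Ioc 0 Y).filter (fun m => m ∈ B)).card : ℝ) ≤
      ∑ m ∈ Ioc 0 Y, Pool.Agent.H706R2.PS.A13aux.mt B c α m := by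
  have h0 : 1 / c ≤ 1 := by rw [div_le_one (by linarith)]; exact hc.le
  have h1 : ∑ m ∈ Ioc 0 Y, Pool.Agent.H706R2.PS.A13aux.mt B c α m =
      ∑ m ∈ (Ioc 0 Y).filter (fun m => m ∈ B), 1 / c * α ^ (-(1 / c)) * (m : ℝ) ^ (1 / c - 1) := by
    rw [sum_filter]
    rfl
  rw [h1]
  calc 1 / c * α ^ (-(1 / c)) * x ^ (1 / c - 1) * (((Ioc 0 Y).filter (fun m => m ∈ B)).card : ℝ)
      = ∑ m ∈ (Ioc 0 Y).filter (fun m => m ∈ B), 1 / c * α ^ (-(1 / c)) * x ^ (1 / c - 1) := by
        rw [sum_const, nsmul_eq_mul]; ring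
    _ ≤ _ := by
        apply sum_le_sum
        intro m hm
        rw [mem_filter, mem_Ioc] at hm
        have hm0 : (0 : ℝ) < m := by exact_mod_cast hm.1.1
        have hmx : (m : ℝ) ≤ x := le_trans (by exact_mod_cast hm.1.2) hYx
        apply mul_le_mul_of_nonneg_left _ (by positivity)
        exact Real.rpow_le_rpow_of_nonpos hm0 hmx (by linarith)

end Pool.Agent.X20.Tr
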