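import Pool.Agent.X20.Tr.RelFun
import Pool.Agent.X20.Tr.Low

/-! Relative mean values with respect to a function of positive lower mean (helper20). -/

set_option autoImplicit false

namespace Pool.Agent.X20.Tr

open Finset Filter Topology
open Pool.Agent.Y854.PS (ms xs)

lemma conv_pos {a b : ℕ → ℝ} {ρ β : ℝ} (hβ : 0 < β) (hb : ∃ x₀ : ℕ, ∀ x : ℕ, x₀ ≤ x → β * x ≤ b x)
    (hb1 : ∀ x : ℕ, b x ≤ x) :
    (∀ ε : ℝ, 0 < ε → ∃ x₀ : ℕ, ∀ x : ℕ, x₀ ≤ x → |a x - ρ * b x| ≤ (0 + ε) * x) ↔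
      Tendsto (fun x : ℕ => a x / b x) atTop (𝓝 ρ) := by
  obtain ⟨x₁, hb⟩ := hb
  rw [Metric.tendsto_atTop]
  constructor
  · intro h ε hε
    obtain ⟨x₀, h1⟩ := h (ε * β / 2) (by positivity)
    refine ⟨max (max x₀ x₁) 1, fun x hx => ?_⟩
    have hxr : (1 : ℝ) ≤ x := by exact_mod_cast (le_max_right _ _).trans hx
    have h3 := hb x ((le_max_right _ _).trans ((le_max_left _ _).trans hx))
    have hx0 : (0 : ℝ) < b x := lt_of_lt_of_le (by positivity) h3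
    rw [Real.dist_eq]
    have h2 := h1 x ((le_max_left _ _).trans ((le_max_left _ _).trans hx))
    have e : a x / b x - ρ = (a x - ρ * b x) / b x := by field_simp
    rw [e, abs_div, abs_of_pos hx0, div_lt_iff₀ hx0]
    have h4 : ε * (β * x) ≤ ε * b x := mul_le_mul_of_nonneg_left h3 hε.le
    have h5 : 0 < ε * β * x := by positivity
    nlinarith
  · intro h ε hε
    obtain ⟨x₀, h1⟩ := h ε hε
    refine ⟨max (max x₀ x₁) 1, fun x hx => ?_⟩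
    have hxr : (1 : ℝ) ≤ x := by exact_mod_cast (le_max_right _ _).trans hx
    have h3 := hb x ((le_max_right _ _).trans ((le_max_left _ _).trans hx))
    have hx0 : (0 : ℝ) < b x := lt_of_lt_of_le (by positivity) h3
    have h2 := h1 x ((le_max_left _ _).trans ((le_max_left _ _).trans hx))
    rw [Real.dist_eq] at h2
    have e : a x / b x - ρ = (a x - ρ * b x) / b x := by field_simp
    rw [e, abs_div, abs_of_pos hx0, div_lt_iff₀ hx0] at h2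
    have h4 := mul_le_mul_of_nonneg_left (hb1 x) hε.le
    linarith

/-- **relative mean values** -/
theorem gen_iff {c α κ : ℝ} (hc : 1 < c) (hα : 0 < α) (hκ : 0 < κ) (hκ1 : κ < 1) {f g : ℕ → ℝ}
    (hf0 : ∀ m, 0 ≤ f m) (hfg : ∀ m, f m ≤ g m) (hg1 : ∀ m, g m ≤ 1)
    (hCf : Cmp c α κ f) (hCg : Cmp c α κ g)
    (hlow : ∃ β : ℝ, 0 < β ∧ ∃ X₀ : ℕ, ∀ X : ℕ, X₀ ≤ X → β * X ≤ ∑ m ∈ Ioc 0 X, g m) (ρ : ℝ) :
    Tendsto (fun X : ℕ => (∑ m ∈ Ioc 0 X, f m) / ∑ m ∈ Ioc 0 X, g m) atTop (𝓝 ρ) ↔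
      Tendsto (fun N : ℕ => (∑ n ∈ Icc 1 N, f (ms α c n)) / ∑ n ∈ Icc 1 N, g (ms α c n)) atTop (𝓝 ρ) := by
  obtain ⟨β, hβ, hβX⟩ := hlow
  have hg0 : ∀ m, 0 ≤ g m := fun m => (hf0 m).trans (hfg m)
  have hgB : B1 g := fun m => by
    rw [abs_of_nonneg (hg0 m)]
    exact hg1 m
  have hlowN : ∃ N₀ : ℕ, ∀ N : ℕ, N₀ ≤ N → β / 2 * N ≤ ∑ n ∈ Icc 1 N, g (ms α c n) := by
    obtain ⟨X₀, hX₀⟩ := hβX
    obtain ⟨N₀, h⟩ := low' hc hα hκ hgB hCg β hβ.le (fun ε hε => ⟨X₀, fun x hx => by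
      have h1 := hX₀ x hx
      have h2 : (0 : ℝ) ≤ ε * x := by positivity
      nlinarith⟩) (β / 2) (by positivity)
    refine ⟨N₀, fun N hN => le_trans (le_of_eq ?_) (h N hN)⟩
    ring
  have ub1 : ∀ X : ℕ, ∑ m ∈ Ioc 0 X, g m ≤ X := by
    intro X
    have := sum_le_sum (s := Ioc 0 X) fun m _ => hg1 m
    rw [sum_const, Nat.card_Ioc, nsmul_eq_mul, mul_one, Nat.sub_zero] at this
    exact this
  have ub2 : ∀ N : ℕ, ∑ n ∈ Icc 1 N, g (ms α c n) ≤ N := by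
    intro N
    have := sum_le_sum (s := Icc 1 N) fun n _ => hg1 (ms α c n)
    rw [sum_const, Nat.card_Icc, nsmul_eq_mul, mul_one, Nat.add_sub_cancel] at this
    exact this
  have u1 : ∀ X : ℕ, 0 ≤ (∑ m ∈ Ioc 0 X, f m) / ∑ m ∈ Ioc 0 X, g m ∧ (∑ m ∈ Ioc 0 X, f m) / ∑ m ∈ Ioc 0 X, g m ≤ 1 := by
    intro X
    have h1 : 0 ≤ ∑ m ∈ Ioc 0 X, g m := sum_nonneg fun m _ => hg0 m
    exact ⟨div_nonneg (sum_nonneg fun m _ => hf0 m) h1, div_le_one_of_le₀ (sum_le_sum fun m _ => hfg m) h1⟩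
  have u2 : ∀ N : ℕ, 0 ≤ (∑ n ∈ Icc 1 N, f (ms α c n)) / ∑ n ∈ Icc 1 N, g (ms α c n) ∧
      (∑ n ∈ Icc 1 N, f (ms α c n)) / ∑ n ∈ Icc 1 N, g (ms α c n) ≤ 1 := by
    intro N
    have h1 : 0 ≤ ∑ n ∈ Icc 1 N, g (ms α c n) := sum_nonneg fun m _ => hg0 _
    exact ⟨div_nonneg (sum_nonneg fun m _ => hf0 _) h1, div_le_one_of_le₀ (sum_le_sum fun m _ => hfg _) h1⟩
  by_cases hρ : 0 ≤ ρ ∧ ρ ≤ 1
  swap
  · constructor
    · intro h
      exact absurd ⟨ge_of_tendsto' h fun X => (u1 X).1, le_of_tendsto' h fun X => (u1 X).2⟩ hρ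
    · intro h
      exact absurd ⟨ge_of_tendsto' h fun X => (u2 X).1, le_of_tendsto' h fun X => (u2 X).2⟩ hρ
  obtain ⟨hρ0, hρ1⟩ := hρ
  have hF : B1 (fun m => f m - ρ * g m) := by
    intro m
    show |f m - ρ * g m| ≤ 1
    have h1 := hf0 m
    have h2 := hfg m
    have h3 := hg1 m
    have h4 := hg0 m
    rw [_root_.abs_le]
    constructor <;> nlinarith
  have hC' : Cmp c α (κ / 2) (fun m => f m - ρ * g m) := hCf.sub_mul hκ hCg hρ0 hρ1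
  have e1 : ∀ X : ℕ, ∑ m ∈ Ioc 0 X, (f m - ρ * g m) = ∑ m ∈ Ioc 0 X, f m - ρ * ∑ m ∈ Ioc 0 X, g m := by
    intro X
    rw [sum_sub_distrib, ← mul_sum]
  have e2 : ∀ N : ℕ, ∑ n ∈ Icc 1 N, (f (ms α c n) - ρ * g (ms α c n)) =
      ∑ n ∈ Icc 1 N, f (ms α c n) - ρ * ∑ n ∈ Icc 1 N, g (ms α c n) := by
    intro N
    rw [sum_sub_distrib, ← mul_sum]
  rw [← conv_pos hβ hβX ub1, ← conv_pos (show 0 < β / 2 by positivity) hlowN ub2]
  constructor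
  · intro h
    have h1 := up' hc hα (by positivity : 0 < κ / 2) hF hC' 0 le_rfl (fun ε hε => by
      obtain ⟨x₀, h2⟩ := h ε hε
      exact ⟨x₀, fun x hx => by rw [e1]; exact h2 x hx⟩)
    intro ε hε
    obtain ⟨N₀, h2⟩ := h1 ε hε
    exact ⟨N₀, fun N hN => by rw [← e2]; exact h2 N hN⟩
  · intro h
    have h1 := down' hc hα (by positivity : 0 < κ / 2) (by linarith) hF hC' (fun ε hε => by
      obtain ⟨N₀, h2⟩ := h ε hε
      refine ⟨N₀, fun N hN => ?_⟩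
      rw [e2]
      have := h2 N hN
      rwa [zero_add] at this)
    intro ε hε
    obtain ⟨x₀, h2⟩ := h1 ε hε
    refine ⟨x₀, fun x hx => ?_⟩
    rw [← e1, zero_add]
    exact h2 x hx

end Pool.Agent.X20.Tr
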