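import Pool.Agent.X20.Tr.Dyad
import Pool.Agent.X35.GV.Win

/-! The law for almost all of the integers `h ± ⌊α n ^ c⌋`, countably many systems of conditions (helper20). -/

set_option autoImplicit false

namespace Pool.Agent.X20.Tr

open Finset Filter
open Pool.Agent.X35.GV (prob law1)

open Classical in
/-- the law fails at `n` for some `x` between `(log |n|) ^ C` and `|n| ^ κ` and some `l ∈ Λ x` -/
def LawFails {Ka ι : Type} (Λ : ℕ → Finset Ka) (I : ℕ → Ka → Finset ι) (q : Ka → ι → ℕ) (T : Ka → ι → ℤ → Prop)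
    (δ C κ : ℝ) (n : ℤ) : Prop :=
  ∃ x : ℕ, (Real.log |(n : ℝ)|) ^ C ≤ x ∧ (x : ℝ) ≤ |(n : ℝ)| ^ κ ∧ ∃ l ∈ Λ x,
    √(max 1 (∑ a ∈ I x l, prob (q l a) (T l a))) * (x : ℝ) ^ δ <
      |(((I x l).filter (fun a => T l a n)).card : ℝ) - ∑ a ∈ I x l, prob (q l a) (T l a)|

lemma LawFails.mono {Ka ι : Type} {Λ : ℕ → Finset Ka} {I : ℕ → Ka → Finset ι} {q : Ka → ι → ℕ}
    {T : Ka → ι → ℤ → Prop} {δ δ' C κ κ' : ℝ} {n : ℤ} (h : LawFails Λ I q T δ C κ n) (hδ' : 0 < δ') (hδ : δ' ≤ δ)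
    (hκ0 : 0 < κ) (hκ : κ ≤ κ') : LawFails Λ I q T δ' C κ' n := by
  obtain ⟨x, h1, h2, l, h3, h4⟩ := h
  refine ⟨x, h1, ?_, l, h3, lt_of_le_of_lt ?_ h4⟩
  · rcases eq_or_ne n 0 with h0 | h0
    · rw [h0, Int.cast_zero, abs_zero, Real.zero_rpow hκ0.ne'] at h2
      rw [h0, Int.cast_zero, abs_zero, Real.zero_rpow (by linarith)]
      exact h2
    · have hD : (1 : ℝ) ≤ |(n : ℝ)| := by
        rw [← Int.cast_abs]
        exact_mod_cast Int.one_le_abs h0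
      exact h2.trans (Real.rpow_le_rpow_of_exponent_le hD hκ)
  · apply mul_le_mul_of_nonneg_left _ (Real.sqrt_nonneg _)
    rcases Nat.eq_zero_or_pos x with rfl | hx
    · rw [Nat.cast_zero, Real.zero_rpow hδ'.ne', Real.zero_rpow (by linarith)]
    · exact Real.rpow_le_rpow_of_exponent_le (by exact_mod_cast hx) hδ

open Classical in
/-- **The law along `h ± ⌊α n ^ c⌋`.** -/
theorem lawSparse (c : ℝ) (hc : 1 < c) : ∃ κ₀ : ℝ, 0 < κ₀ ∧ κ₀ < 1 ∧ ∀ (A : ℝ) (B : ℕ), 1 ≤ B →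
    ∀ (Γ : Type) [Countable Γ] (Ka : Type) (Λ : Γ → ℕ → Finset Ka), (∀ g x, 2 ≤ x → ((Λ g x).card : ℝ) ≤ (x : ℝ) ^ A) →
    ∀ (ι : Type) (I : Γ → ℕ → Ka → Finset ι) (q : Γ → Ka → ι → ℕ),
    (∀ g x, ∀ l ∈ Λ g x, ∀ a ∈ I g x l, 2 ≤ q g l a ∧ q g l a ≤ x ^ B) →
    (∀ g x, ∀ l ∈ Λ g x, ∀ a ∈ I g x l, ∀ a' ∈ I g x l, a ≠ a' → Nat.Coprime (q g l a) (q g l a')) →
    ∀ T : Γ → Ka → ι → ℤ → Prop,
    (∀ g x, ∀ l ∈ Λ g x, ∀ a ∈ I g x l, ∀ m m' : ℤ, m ≡ m' [ZMOD (q g l a : ℕ)] → (T g l a m ↔ T g l a m')) →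
    ∃ E : Set ℝ, dimH E ≤ ENNReal.ofReal (1 - κ₀) ∧ ∀ δ : ℝ, 0 < δ → ∃ C κ : ℝ, 0 < C ∧ 0 < κ ∧
      ∀ α : ℝ, 0 < α → α ∉ E → ∀ (g : Γ) (h s : ℤ), (s = 1 ∨ s = -1) → ∃ N₀ : ℕ, ∀ N : ℕ, N₀ ≤ N →
        (((Icc 1 N).filter (fun n : ℕ => LawFails (Λ g) (I g) (q g) (T g) δ C κ
          (h + s * ((⌊α * (n : ℝ) ^ c⌋₊ : ℕ) : ℤ)))).card : ℝ) ≤ (N : ℝ) ^ (1 - κ) := by
  obtain ⟨κ₀, hκ0, hκ1, H⟩ := sparse_pow c hc
  refine ⟨κ₀, hκ0, hκ1, fun A B hB Γ _ Ka Λ hΛ ι I q hq hcop T hT => ?_⟩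
  have hin : ∀ k : ℕ, (0 : ℝ) < 1 / ((k : ℝ) + 1) := fun k => by positivity
  choose d hd hd2 N₁ hN₁ using fun k : ℕ => law1 (1 / ((k : ℝ) + 1)) A B (hin k) hB
  obtain ⟨E, hE, hh⟩ := H (Γ × ℕ) (fun i n => LawFails (Λ i.1) (I i.1) (q i.1) (T i.1) (1 / ((i.2 : ℝ) + 1))
    (2 / (1 / ((i.2 : ℝ) + 1)) + 1) (d i.2) n)
  refine ⟨E, hE, fun ε hε => ?_⟩
  obtain ⟨k, hk⟩ := exists_nat_one_div_lt hε
  obtain ⟨δ, hδ⟩ : ∃ δ : ℝ, δ = min κ₀ (d k) / 4 := ⟨_, rfl⟩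
  have hδ0 : 0 < δ := by rw [hδ]; exact div_pos (lt_min hκ0 (hd k)) (by norm_num)
  have h4κ : 4 * δ ≤ κ₀ := by
    rw [hδ]
    linarith [min_le_left κ₀ (d k)]
  have h4d : 4 * δ ≤ d k := by
    rw [hδ]
    linarith [min_le_right κ₀ (d k)]
  have hCk : 0 < 2 / (1 / ((k : ℝ) + 1)) := by positivity
  refine ⟨2 / (1 / ((k : ℝ) + 1)) + 1, δ, by linarith, hδ0, fun α hα hαE g h s hs => ?_⟩
  obtain ⟨N₂, _, hN₂⟩ := log_range (2 / (1 / ((k : ℝ) + 1))) hCk.le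
  obtain ⟨N₀, hN₀⟩ := hh α hα hαE (g, k) h s hs (d k) 2 (hd k) (hd2 k)
    ⟨max (max (N₁ k) 1) N₂, fun N hN => by
      have hNa : N₁ k ≤ N := (le_max_left _ _).trans ((le_max_left _ _).trans hN)
      have hNb : 1 ≤ N := (le_max_right _ _).trans ((le_max_left _ _).trans hN)
      have hNc := hN₂ N ((le_max_right _ _).trans hN)
      have hfin : {n : ℤ | LawFails (Λ g) (I g) (q g) (T g) (1 / ((k : ℝ) + 1)) (2 / (1 / ((k : ℝ) + 1)) + 1) (d k) n ∧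
          (N : ℤ) < 2 * |n| ∧ |n| ≤ N}.Finite := by
        refine (Set.finite_Icc (-(N : ℤ)) N).subset fun n hn => ?_
        have := abs_le.1 hn.2.2
        exact ⟨this.1, this.2⟩
      have hcond : ∀ n : ℤ, (LawFails (Λ g) (I g) (q g) (T g) (1 / ((k : ℝ) + 1)) (2 / (1 / ((k : ℝ) + 1)) + 1) (d k) n ∧
          (N : ℤ) < 2 * |n| ∧ |n| ≤ N) → ∃ x : ℕ, Real.log N ^ (2 / (1 / ((k : ℝ) + 1))) ≤ x ∧ (x : ℝ) ≤ (N : ℝ) ^ (d k) ∧
          ∃ l ∈ Λ g x, √(max 1 (∑ a ∈ I g x l, prob (q g l a) (T g l a))) * (x : ℝ) ^ (1 / ((k : ℝ) + 1)) <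
          |(((I g x l).filter (fun a => T g l a n)).card : ℝ) - ∑ a ∈ I g x l, prob (q g l a) (T g l a)| := by
        rintro n ⟨⟨x, h1, h2, l, h3, h4⟩, h5, h6⟩
        have h5' : (N : ℝ) < 2 * |(n : ℝ)| := by
          rw [← Int.cast_abs]
          exact_mod_cast h5
        have h6' : |(n : ℝ)| ≤ N := by
          rw [← Int.cast_abs]
          exact_mod_cast h6
        exact ⟨x, (hNc _ h5').trans h1, h2.trans (Real.rpow_le_rpow (abs_nonneg _) h6' (hd k).le), l, h3, h4⟩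
      obtain ⟨P, hP⟩ : ∃ P : Finset ℤ, P = hfin.toFinset.filter (fun n => 0 < n) := ⟨_, rfl⟩
      obtain ⟨Q, hQ⟩ : ∃ Q : Finset ℤ, Q = hfin.toFinset.filter (fun n => ¬ 0 < n) := ⟨_, rfl⟩
      have hP1 : (P.card : ℝ) ≤ (N : ℝ) ^ (1 - d k) := by
        refine hN₁ k N hNa Ka (Λ g) (hΛ g) ι (I g) (q g) (hq g) (hcop g) (T g) (hT g) 1 P ?_ ?_
        · intro m hm
          rw [hP, mem_filter, Set.Finite.mem_toFinset] at hm
          obtain ⟨⟨-, h1, h2⟩, h3⟩ := hm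
          rw [abs_of_pos h3] at h1 h2
          constructor <;> linarith
        · intro m hm
          rw [hP, mem_filter, Set.Finite.mem_toFinset] at hm
          exact hcond m hm.1
      have hQ1 : (Q.card : ℝ) ≤ (N : ℝ) ^ (1 - d k) := by
        refine hN₁ k N hNa Ka (Λ g) (hΛ g) ι (I g) (q g) (hq g) (hcop g) (T g) (hT g) (-(N : ℤ)) Q ?_ ?_
        · intro m hm
          rw [hQ, mem_filter, Set.Finite.mem_toFinset] at hm
          obtain ⟨⟨-, h1, h2⟩, h3⟩ := hm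
          push Not at h3
          rw [abs_of_nonpos h3] at h1 h2
          have : (1 : ℤ) ≤ N := by exact_mod_cast hNb
          constructor
          · linarith
          · have h4 : m ≠ 0 := by
              rintro rfl
              simp at h1
              omega
            omega
        · intro m hm
          rw [hQ, mem_filter, Set.Finite.mem_toFinset] at hm
          exact hcond m hm.1
      have hc' : {n : ℤ | LawFails (Λ g) (I g) (q g) (T g) (1 / ((k : ℝ) + 1)) (2 / (1 / ((k : ℝ) + 1)) + 1) (d k) n ∧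
          (N : ℤ) < 2 * |n| ∧ |n| ≤ N}.ncard = P.card + Q.card := by
        rw [Set.ncard_eq_toFinset_card _ hfin, hP, hQ, card_filter_add_card_filter_not]
      rw [hc']
      push_cast
      linarith⟩
    δ hδ0.le (by linarith) (by linarith)
  refine ⟨N₀, fun N hN => le_trans ?_ (hN₀ N hN)⟩
  rw [Nat.cast_le]
  refine card_le_card fun n hn => ?_
  replace hn := mem_filt.1 hn
  exact mem_filt.2 ⟨hn.1, hn.2.mono (hin k) hk.le hδ0 (by linarith)⟩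

end Pool.Agent.X20.Tr
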