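import Pool.Agent.X20.Tr.Gen

/-! Logarithmic averages along `⌊α n ^ c⌋` (helper20). -/

set_option autoImplicit false

namespace Pool.Agent.X20.Tr

open Finset Filter Topology
open Pool.Agent.Y854.PS (ms xs)

/-- Abel summation -/
lemma abel_id (D : ℕ → ℝ) (h0 : D 0 = 0) (N : ℕ) :
    ∑ n ∈ Icc 1 N, (D n - D (n - 1)) / n =
      D N / (N + 1) + ∑ n ∈ Icc 1 N, D n * (1 / (n : ℝ) - 1 / (n + 1)) := by
  induction N with
  | zero => simp [h0]
  | succ N ih =>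
    rw [sum_Icc_succ_top (by omega), sum_Icc_succ_top (by omega), ih, Nat.add_sub_cancel]
    push_cast
    have h1 : (N : ℝ) + 1 ≠ 0 := by positivity
    have h2 : (N : ℝ) + 1 + 1 ≠ 0 := by positivity
    field_simp
    ring

lemma abel_bd {κ K : ℝ} (hκ : 0 < κ) (hK : 0 ≤ K) (D : ℕ → ℝ) (h0 : D 0 = 0)
    (hD : ∀ n : ℕ, 1 ≤ n → |D n| ≤ K * (n : ℝ) ^ (1 - κ)) (N : ℕ) :
    |∑ n ∈ Icc 1 N, (D n - D (n - 1)) / n| ≤ K + K * ∑' n : ℕ, 1 / (n : ℝ) ^ (1 + κ) := by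
  rw [abel_id D h0]
  refine (abs_add_le _ _).trans (add_le_add ?_ ?_)
  · rcases Nat.eq_zero_or_pos N with rfl | hN
    · simp [h0, hK]
    · have hN1 : (1 : ℝ) ≤ N := by exact_mod_cast hN
      have h1 := hD N hN
      have h2 : (N : ℝ) ^ (1 - κ) ≤ N + 1 := by
        calc (N : ℝ) ^ (1 - κ) ≤ (N : ℝ) ^ (1 : ℝ) := Real.rpow_le_rpow_of_exponent_le hN1 (by linarith)
          _ = N := Real.rpow_one _
          _ ≤ N + 1 := by linarith
      rw [abs_div, abs_of_pos (by positivity : (0 : ℝ) < N + 1), div_le_iff₀ (by positivity)]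
      exact h1.trans (mul_le_mul_of_nonneg_left h2 hK)
  · have hs := (Real.summable_one_div_nat_rpow (p := 1 + κ)).2 (by linarith)
    calc |∑ n ∈ Icc 1 N, D n * (1 / (n : ℝ) - 1 / (n + 1))|
        ≤ ∑ n ∈ Icc 1 N, |D n * (1 / (n : ℝ) - 1 / (n + 1))| := abs_sum_le_sum_abs _ _
      _ ≤ ∑ n ∈ Icc 1 N, K * (1 / (n : ℝ) ^ (1 + κ)) := by
          apply sum_le_sum
          intro n hn
          rw [mem_Icc] at hn
          have hn0 : (0 : ℝ) < n := by exact_mod_cast hn.1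
          have e1 : 1 / (n : ℝ) - 1 / (n + 1) = 1 / (n * (n + 1)) := by
            field_simp
            ring
          have e2 : (n : ℝ) ^ (1 + κ) * (n : ℝ) ^ (1 - κ) = n * n := by
            rw [← Real.rpow_add hn0, show 1 + κ + (1 - κ) = ((2 : ℕ) : ℝ) by push_cast; ring, Real.rpow_natCast]
            ring
          have h3 : 0 < (n : ℝ) ^ (1 + κ) := by positivity
          rw [abs_mul, e1, abs_of_pos (by positivity : (0 : ℝ) < 1 / (n * (n + 1)))]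
          have h4 : 1 / ((n : ℝ) * (n + 1)) ≤ 1 / (n * n) :=
            one_div_le_one_div_of_le (by positivity) (mul_le_mul_of_nonneg_left (by linarith) hn0.le)
          calc |D n| * (1 / ((n : ℝ) * (n + 1))) ≤ K * (n : ℝ) ^ (1 - κ) * (1 / (n * n)) :=
                mul_le_mul (hD n hn.1) h4 (by positivity) (by positivity)
            _ = K * (1 / (n : ℝ) ^ (1 + κ)) := by
                rw [← e2]
                have h5 : (n : ℝ) ^ (1 - κ) ≠ 0 := by positivity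
                field_simp
      _ ≤ K * ∑' n : ℕ, 1 / (n : ℝ) ^ (1 + κ) := by
          rw [← mul_sum]
          exact mul_le_mul_of_nonneg_left (hs.sum_le_tsum _ (fun _ _ => by positivity)) hK

lemma Cmp.bd {c α κ : ℝ} (hκ1 : κ < 1) {F : ℕ → ℝ} (hC : Cmp c α κ F) :
    ∃ K : ℝ, 0 ≤ K ∧ ∀ n : ℕ, 1 ≤ n →
      |∑ i ∈ Icc 1 n, F (ms α c i) - ∑ m ∈ Ioc 0 (ms α c n), F m * wt c α m| ≤ K * (n : ℝ) ^ (1 - κ) := by
  obtain ⟨N₀, h⟩ := hC
  obtain ⟨D, hD⟩ : ∃ D : ℕ → ℝ, ∀ n, D n = |∑ i ∈ Icc 1 n, F (ms α c i) - ∑ m ∈ Ioc 0 (ms α c n), F m * wt c α m| :=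
    ⟨_, fun _ => rfl⟩
  have hD0 : ∀ n, 0 ≤ D n := fun n => by rw [hD]; exact abs_nonneg _
  have hS : 0 ≤ ∑ n ∈ range N₀, D n := sum_nonneg fun n _ => hD0 n
  refine ⟨1 + ∑ n ∈ range N₀, D n, by linarith, fun n hn => ?_⟩
  rw [← hD]
  have h1 : (1 : ℝ) ≤ (n : ℝ) ^ (1 - κ) := Real.one_le_rpow (by exact_mod_cast hn) (by linarith)
  rcases lt_or_ge n N₀ with h2 | h2
  · have h3 : D n ≤ ∑ n ∈ range N₀, D n := single_le_sum (f := D) (fun i _ => hD0 i) (mem_range.2 h2)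
    nlinarith
  · have h3 := (h n h2).2
    rw [← hD] at h3
    nlinarith

lemma ms_zero {c α : ℝ} (hc : 1 < c) : ms α c 0 = 0 := by
  unfold ms xs
  rw [Nat.cast_zero, Real.zero_rpow (by linarith), mul_zero, Nat.floor_zero]

lemma wt_div {c α : ℝ} (hc : 1 < c) (hα : 0 < α) {n m : ℕ} (hn : 1 ≤ n) (h1 : ms α c (n - 1) < m)
    (h2 : m ≤ ms α c n) :
    |wt c α m / n - 1 / c / m| ≤ 1 / c * α ^ (1 / c) * (1 / (m : ℝ) ^ (1 + 1 / c)) := by
  have hc0 : 0 < c := by linarith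
  have hm0 : (0 : ℝ) < m := by
    have : 0 < m := by omega
    exact_mod_cast this
  have hn0 : (0 : ℝ) < n := by exact_mod_cast hn
  obtain ⟨x, hx⟩ : ∃ x : ℝ, x = ((m : ℝ) / α) ^ (1 / c) := ⟨_, rfl⟩
  have hx0 : 0 < x := by rw [hx]; positivity
  have hxc : x ^ c = m / α := by
    rw [hx, ← Real.rpow_mul (by positivity), one_div_mul_cancel hc0.ne', Real.rpow_one]
  have hxn : x ≤ n := by
    rw [← Real.rpow_le_rpow_iff hx0.le hn0.le hc0, hxc, div_le_iff₀ hα, mul_comm]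
    have h3 : (m : ℝ) ≤ (ms α c n : ℝ) := by exact_mod_cast h2
    exact h3.trans (Nat.floor_le (by positivity : 0 ≤ α * (n : ℝ) ^ c))
  have hxn' : (n : ℝ) - 1 < x := by
    by_contra hcon
    push Not at hcon
    have h3 : x ^ c ≤ ((n - 1 : ℕ) : ℝ) ^ c := by
      apply Real.rpow_le_rpow hx0.le _ hc0.le
      rw [Nat.cast_sub hn]
      push_cast
      exact hcon
    rw [hxc, div_le_iff₀ hα, mul_comm] at h3
    have h4 : m ≤ ms α c (n - 1) := Nat.le_floor h3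
    omega
  have hmc : (0 : ℝ) < (m : ℝ) ^ (1 / c) := by positivity
  have hαc : (0 : ℝ) < α ^ (1 / c) := by positivity
  have hx' : x = (m : ℝ) ^ (1 / c) / α ^ (1 / c) := by rw [hx, Real.div_rpow hm0.le hα.le]
  have hw : wt c α m = 1 / c * (x / m) := by
    unfold wt
    rw [hx', Real.rpow_sub hm0, Real.rpow_one, Real.rpow_neg hα.le]
    field_simp
  have e : wt c α m / n - 1 / c / m = -(1 / c * (1 / m) * ((n - x) / n)) := by
    rw [hw]
    field_simp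
    ring
  have h6 : 0 ≤ ((n : ℝ) - x) / n := div_nonneg (by linarith) hn0.le
  rw [e, abs_neg, abs_of_nonneg (by positivity)]
  have h5 : ((n : ℝ) - x) / n ≤ 1 / x := by
    rw [div_le_div_iff₀ hn0 hx0]
    nlinarith
  have h7 : 1 / c * α ^ (1 / c) * (1 / (m : ℝ) ^ (1 + 1 / c)) = 1 / c * (1 / m) * (1 / x) := by
    rw [Real.rpow_add hm0, Real.rpow_one, hx']
    field_simp
  rw [h7]
  exact mul_le_mul_of_nonneg_left h5 (by positivity)

lemma block_bd {c α : ℝ} (hc : 1 < c) (hα : 0 < α) {F : ℕ → ℝ} (hF : B1 F) (N : ℕ) :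
    |∑ n ∈ Icc 1 N, (∑ m ∈ Ioc (ms α c (n - 1)) (ms α c n), F m * wt c α m) / n -
        1 / c * ∑ m ∈ Ioc 0 (ms α c N), F m / m| ≤
      ∑ m ∈ Ioc 0 (ms α c N), 1 / c * α ^ (1 / c) * (1 / (m : ℝ) ^ (1 + 1 / c)) := by
  induction N with
  | zero => simp [ms_zero hc]
  | succ N ih =>
    have hmono := ms_mono hc hα (Nat.le_succ N)
    rw [sum_Icc_succ_top (by omega), Nat.add_sub_cancel,
      ← sum_Ioc_consecutive (fun m : ℕ => F m / (m : ℝ)) (Nat.zero_le _) hmono,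
      ← sum_Ioc_consecutive (fun m : ℕ => 1 / c * α ^ (1 / c) * (1 / (m : ℝ) ^ (1 + 1 / c))) (Nat.zero_le _) hmono]
    have h1 : |(∑ m ∈ Ioc (ms α c N) (ms α c (N + 1)), F m * wt c α m) / ((N + 1 : ℕ) : ℝ) -
        1 / c * ∑ m ∈ Ioc (ms α c N) (ms α c (N + 1)), F m / m| ≤
        ∑ m ∈ Ioc (ms α c N) (ms α c (N + 1)), 1 / c * α ^ (1 / c) * (1 / (m : ℝ) ^ (1 + 1 / c)) := by
      rw [sum_div, mul_sum, ← sum_sub_distrib]
      refine (abs_sum_le_sum_abs _ _).trans (sum_le_sum fun m hm => ?_)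
      rw [mem_Ioc] at hm
      have h2 := wt_div hc hα (n := N + 1) (m := m) (by omega) (by rw [Nat.add_sub_cancel]; exact hm.1) hm.2
      have e : F m * wt c α m / ((N + 1 : ℕ) : ℝ) - 1 / c * (F m / m) =
          F m * (wt c α m / ((N + 1 : ℕ) : ℝ) - 1 / c / m) := by ring
      rw [e, abs_mul]
      have h3 := hF m
      have h4 := mul_le_mul h3 h2 (abs_nonneg _) zero_le_one
      rwa [one_mul] at h4
    have e : ∀ a b p q : ℝ, a + b - 1 / c * (p + q) = (a - 1 / c * p) + (b - 1 / c * q) := fun a b p q => by ring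
    rw [e]
    exact (abs_add_le _ _).trans (add_le_add ih h1)

/-- the weighted sums -/
theorem Cmp.log {c α κ : ℝ} (hc : 1 < c) (hα : 0 < α) (hκ : 0 < κ) (hκ1 : κ < 1) {F : ℕ → ℝ} (hF : B1 F)
    (hC : Cmp c α κ F) : ∃ C : ℝ, ∀ N : ℕ,
      |∑ n ∈ Icc 1 N, F (ms α c n) / n - 1 / c * ∑ m ∈ Ioc 0 (ms α c N), F m / m| ≤ C := by
  have hc0 : 0 < c := by linarith
  obtain ⟨K, hK, hD⟩ := hC.bd hκ1
  obtain ⟨D, hDd⟩ : ∃ D : ℕ → ℝ, ∀ n, D n =
      ∑ i ∈ Icc 1 n, F (ms α c i) - ∑ m ∈ Ioc 0 (ms α c n), F m * wt c α m := ⟨_, fun _ => rfl⟩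
  have hD0 : D 0 = 0 := by
    rw [hDd, ms_zero hc]
    simp
  have h1 := abel_bd hκ hK D hD0 (fun n hn => by rw [hDd]; exact hD n hn)
  have hs := (Real.summable_one_div_nat_rpow (p := 1 + 1 / c)).2 (by
    have : 0 < 1 / c := by positivity
    linarith)
  refine ⟨(K + K * ∑' n : ℕ, 1 / (n : ℝ) ^ (1 + κ)) + 1 / c * α ^ (1 / c) * ∑' n : ℕ, 1 / (n : ℝ) ^ (1 + 1 / c),
    fun N => ?_⟩
  have h2 := h1 N
  have h3 := block_bd hc hα hF N
  have h4 : ∑ m ∈ Ioc 0 (ms α c N), 1 / c * α ^ (1 / c) * (1 / (m : ℝ) ^ (1 + 1 / c)) ≤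
      1 / c * α ^ (1 / c) * ∑' n : ℕ, 1 / (n : ℝ) ^ (1 + 1 / c) := by
    rw [← mul_sum]
    exact mul_le_mul_of_nonneg_left (hs.sum_le_tsum _ (fun _ _ => by positivity)) (by positivity)
  have e1 : ∀ n ∈ Icc 1 N, F (ms α c n) / n = (D n - D (n - 1)) / n +
      (∑ m ∈ Ioc (ms α c (n - 1)) (ms α c n), F m * wt c α m) / n := by
    intro n hn
    rw [mem_Icc] at hn
    obtain ⟨k, rfl⟩ : ∃ k, n = k + 1 := ⟨n - 1, by omega⟩
    rw [← add_div, Nat.add_sub_cancel, hDd, hDd, sum_Icc_succ_top (by omega),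
      ← sum_Ioc_consecutive (fun m : ℕ => F m * wt c α m) (Nat.zero_le _) (ms_mono hc hα (Nat.le_succ k))]
    congr 1
    ring
  rw [sum_congr rfl e1, sum_add_distrib, add_sub_assoc]
  exact (abs_add_le _ _).trans (add_le_add h2 (h3.trans h4))

end Pool.Agent.X20.Tr
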