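import Pool.Agent.X20.Tr.LogC

/-! Logarithmic averages along `⌊α n ^ c⌋`: limits (helper20). -/

set_option autoImplicit false

namespace Pool.Agent.X20.Tr

open Finset Filter Topology
open Pool.Agent.Y854.PS (ms xs)

/-- the logarithmic average over `n ≤ N` -/
noncomputable def lav (P : ℕ → ℂ) (N : ℕ) : ℂ := ((Real.log (N : ℝ) : ℝ) : ℂ)⁻¹ * ls P N

/-- the averages of the two kinds are close -/
theorem lav_sub {c α : ℝ} (hc : 1 < c) (hα : 0 < α) {P : ℕ → ℂ} (hP : ∀ m, ‖P m‖ ≤ 1) (h : LC c α P) :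
    Tendsto (fun N : ℕ => lav (fun n => P (ms α c n)) N - lav P (ms α c N)) atTop (𝓝 0) := by
  have hc0 : 0 < c := by linarith
  rw [Metric.tendsto_atTop]
  intro ε hε
  obtain ⟨N₁, h1⟩ := h (ε / 4) (by positivity)
  obtain ⟨N₂, _, h2⟩ := log_ms hc hα
  obtain ⟨K, hK⟩ : ∃ K : ℝ, K = |Real.log α| + Real.log 2 := ⟨_, rfl⟩
  have hK0 : 0 ≤ K := by
    rw [hK]
    have : 0 ≤ Real.log 2 := Real.log_nonneg (by norm_num)
    positivity
  obtain ⟨N₃, h3⟩ := (tend_log.eventually_ge_atTop (1 + 8 * K / (c * ε))).exists_forall_of_atTop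
  obtain ⟨N₄, h4⟩ := (tend_log.comp (tend_ms hc hα)).eventually_ge_atTop 1 |>.exists_forall_of_atTop
  refine ⟨max (max N₁ N₂) (max N₃ N₄), fun N hN => ?_⟩
  have k1 := h1 N (((le_max_left _ _).trans (le_max_left _ _)).trans hN)
  obtain ⟨_, _, k2⟩ := h2 N (((le_max_right _ _).trans (le_max_left _ _)).trans hN)
  have k3 := h3 N (((le_max_left _ _).trans (le_max_right _ _)).trans hN)
  have k4 : 1 ≤ Real.log (ms α c N : ℝ) := h4 N (((le_max_right _ _).trans (le_max_right _ _)).trans hN)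
  rw [← hK] at k2
  have q0 : 0 ≤ 8 * K / (c * ε) := by positivity
  obtain ⟨a, ha⟩ : ∃ a : ℝ, a = Real.log (N : ℝ) := ⟨_, rfl⟩
  obtain ⟨b, hb⟩ : ∃ b : ℝ, b = Real.log (ms α c N : ℝ) := ⟨_, rfl⟩
  rw [← ha] at k1 k2 k3
  rw [← hb] at k2 k4
  have ha0 : 0 < a := by linarith
  have hb0 : 0 < b := by linarith
  have a2 := norm_ls_le hP zero_le_one (ms α c N)
  rw [← hb, one_mul] at a2
  rw [dist_zero_right]
  unfold lav
  rw [← ha, ← hb]
  have hac : (a : ℂ) ≠ 0 := by exact_mod_cast ha0.ne'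
  have hbc : (b : ℂ) ≠ 0 := by exact_mod_cast hb0.ne'
  have hcc : (c : ℂ) ≠ 0 := by exact_mod_cast hc0.ne'
  have e : (a : ℂ)⁻¹ * ls (fun n => P (ms α c n)) N - (b : ℂ)⁻¹ * ls P (ms α c N) =
      (a : ℂ)⁻¹ * (ls (fun n => P (ms α c n)) N - ((1 / c : ℝ) : ℂ) * ls P (ms α c N)) +
      (((b - c * a) / (c * a * b) : ℝ) : ℂ) * ls P (ms α c N) := by
    push_cast
    field_simp
    ring
  rw [e]
  refine lt_of_le_of_lt (norm_add_le _ _) ?_
  rw [norm_mul, norm_mul, norm_inv, Complex.norm_real, Complex.norm_real, Real.norm_eq_abs, Real.norm_eq_abs,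
    abs_of_pos ha0, abs_div, abs_of_pos (by positivity : 0 < c * a * b)]
  have b1 : a⁻¹ * ‖ls (fun n => P (ms α c n)) N - ((1 / c : ℝ) : ℂ) * ls P (ms α c N)‖ ≤ ε / 4 := by
    calc a⁻¹ * ‖ls (fun n => P (ms α c n)) N - ((1 / c : ℝ) : ℂ) * ls P (ms α c N)‖ ≤ a⁻¹ * (ε / 4 * a) :=
          mul_le_mul_of_nonneg_left k1 (by positivity)
      _ = ε / 4 := by field_simp
  have b2 : |b - c * a| / (c * a * b) * ‖ls P (ms α c N)‖ ≤ ε / 4 := by
    have b3 : 8 * K ≤ a * (c * ε) := by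
      have := (div_le_iff₀ (by positivity : 0 < c * ε)).1 (show 8 * K / (c * ε) ≤ a by linarith)
      exact this
    calc |b - c * a| / (c * a * b) * ‖ls P (ms α c N)‖ ≤ K / (c * a * b) * (2 * b) := by
          apply mul_le_mul _ (a2.trans (by linarith)) (norm_nonneg _) (by positivity)
          exact div_le_div_of_nonneg_right k2 (by positivity)
      _ = 2 * K / (c * a) := by field_simp
      _ ≤ ε / 4 := by
          rw [div_le_iff₀ (by positivity)]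
          nlinarith
  linarith

/-- the number of terms up to `M` -/
noncomputable def nu (c α : ℝ) (M : ℕ) : ℕ := ⌊((M : ℝ) / α) ^ (1 / c)⌋₊

lemma tend_nu {c α : ℝ} (hc : 1 < c) (hα : 0 < α) : Tendsto (nu c α) atTop atTop := by
  unfold nu
  have hc0 : 0 < c := by linarith
  have h1 : Tendsto (fun M : ℕ => (M : ℝ) / α) atTop atTop :=
    tendsto_natCast_atTop_atTop.atTop_div_const hα
  exact tendsto_nat_floor_atTop.comp ((tendsto_rpow_atTop (by positivity : 0 < 1 / c)).comp h1)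

lemma ms_nu {c α : ℝ} (hc : 1 < c) (hα : 0 < α) (M : ℕ) : ms α c (nu c α M) ≤ M ∧ M ≤ ms α c (nu c α M + 1) := by
  have hc0 : 0 < c := by linarith
  obtain ⟨x, hx⟩ : ∃ x : ℝ, x = ((M : ℝ) / α) ^ (1 / c) := ⟨_, rfl⟩
  have hx0 : 0 ≤ x := by rw [hx]; positivity
  have hxc : x ^ c = M / α := by
    rw [hx, ← Real.rpow_mul (by positivity), one_div_mul_cancel hc0.ne', Real.rpow_one]
  have hn : nu c α M = ⌊x⌋₊ := by rw [hx]; rfl
  have h1 := Nat.floor_le hx0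
  have h2 := Nat.lt_floor_add_one x
  rw [hn]
  constructor
  · have h3 : ((⌊x⌋₊ : ℕ) : ℝ) ^ c ≤ x ^ c := Real.rpow_le_rpow (Nat.cast_nonneg _) h1 hc0.le
    rw [hxc, le_div_iff₀ hα, mul_comm] at h3
    have h4 : ms α c ⌊x⌋₊ ≤ ⌊(M : ℝ)⌋₊ := Nat.floor_le_floor h3
    rwa [Nat.floor_natCast] at h4
  · have h3 : x ^ c ≤ ((⌊x⌋₊ + 1 : ℕ) : ℝ) ^ c := by
      apply Real.rpow_le_rpow hx0 _ hc0.le
      push_cast
      exact h2.le
    rw [hxc, div_le_iff₀ hα, mul_comm] at h3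
    exact Nat.le_floor h3

/-- the averages at near points are close -/
theorem lav_nu {c α : ℝ} (hc : 1 < c) (hα : 0 < α) {P : ℕ → ℂ} (hP : ∀ m, ‖P m‖ ≤ 1) :
    Tendsto (fun M : ℕ => lav P M - lav P (ms α c (nu c α M))) atTop (𝓝 0) := by
  have hc0 : 0 < c := by linarith
  rw [Metric.tendsto_atTop]
  intro ε hε
  obtain ⟨K, hK⟩ : ∃ K : ℝ, K = 2 * 2 ^ c := ⟨_, rfl⟩
  have hK1 : 1 ≤ K := by
    rw [hK]
    have : (1 : ℝ) ≤ 2 ^ c := Real.one_le_rpow (by norm_num) hc0.le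
    linarith
  have hlK : 0 ≤ Real.log K := Real.log_nonneg hK1
  obtain ⟨N₀, _, h0⟩ := log_ms hc hα
  have hev := (((tend_nu hc hα).eventually_ge_atTop (max N₀ 1)).and
    ((tend_log.eventually_ge_atTop (2 * (K + 2 * Real.log K) / ε)))).and
    ((tend_log.comp ((tend_ms hc hα).comp (tend_nu hc hα))).eventually_ge_atTop 1)
  obtain ⟨M₀, h⟩ := hev.exists_forall_of_atTop
  refine ⟨M₀, fun M hM => ?_⟩
  obtain ⟨⟨h1, h2⟩, h3⟩ := h M hM
  have h3' : 1 ≤ Real.log (ms α c (nu c α M) : ℝ) := h3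
  obtain ⟨n, hn⟩ : ∃ n : ℕ, n = nu c α M := ⟨_, rfl⟩
  obtain ⟨m1, m2⟩ := ms_nu hc hα M
  rw [← hn] at h1 h3' m1 m2 ⊢
  obtain ⟨M', hM'⟩ : ∃ M' : ℕ, M' = ms α c n := ⟨_, rfl⟩
  obtain ⟨f1, f2, _⟩ := h0 n ((le_max_left _ _).trans h1)
  have hn1 : 1 ≤ n := (le_max_right _ _).trans h1
  have hn0 : (0 : ℝ) < n := by exact_mod_cast hn1
  have hMK : (M : ℝ) ≤ K * M' := by
    have g1 : (M : ℝ) ≤ (ms α c (n + 1) : ℝ) := by exact_mod_cast m2
    have g2 : (ms α c (n + 1) : ℝ) ≤ α * ((n + 1 : ℕ) : ℝ) ^ c :=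
      Nat.floor_le (by positivity : 0 ≤ α * ((n + 1 : ℕ) : ℝ) ^ c)
    have g3 : ((n + 1 : ℕ) : ℝ) ^ c ≤ (2 * (n : ℝ)) ^ c := by
      apply Real.rpow_le_rpow (Nat.cast_nonneg _) _ hc0.le
      have : (1 : ℝ) ≤ n := by exact_mod_cast hn1
      push_cast
      linarith
    rw [Real.mul_rpow (by norm_num) hn0.le] at g3
    rw [hM', hK]
    have g4 : α * ((n + 1 : ℕ) : ℝ) ^ c ≤ α * (2 ^ c * (n : ℝ) ^ c) := mul_le_mul_of_nonneg_left g3 hα.le
    have g5 : (0 : ℝ) < 2 ^ c := by positivity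
    nlinarith
  rw [← hM'] at h3' m1 f1 ⊢
  have hM'0 : (0 : ℝ) < M' := by exact_mod_cast f1
  have hMM : (M' : ℝ) ≤ M := by exact_mod_cast m1
  have hM0 : (0 : ℝ) < M := by linarith
  obtain ⟨a, ha⟩ : ∃ a : ℝ, a = Real.log (M : ℝ) := ⟨_, rfl⟩
  obtain ⟨b, hb⟩ : ∃ b : ℝ, b = Real.log (M' : ℝ) := ⟨_, rfl⟩
  have hba : b ≤ a := by
    rw [ha, hb]
    exact Real.log_le_log hM'0 hMM
  have hab : a ≤ Real.log K + b := by
    rw [ha, hb, ← Real.log_mul (by positivity) hM'0.ne']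
    exact Real.log_le_log hM0 hMK
  rw [← hb] at h3'
  rw [← ha] at h2
  have hb0 : 0 < b := by linarith
  have ha0 : 0 < a := by linarith
  have a2 := norm_ls_le hP zero_le_one M'
  rw [← hb, one_mul] at a2
  have a3 : ‖ls P M - ls P M'‖ ≤ K := by
    have e1 : ls P M - ls P M' = ∑ m ∈ Ioc M' M, (m : ℂ)⁻¹ * P m := by
      have e2 : ∀ X : ℕ, ls P X = ∑ m ∈ Ioc 0 X, (m : ℂ)⁻¹ * P m := by
        intro X
        unfold ls
        apply sum_congr _ fun _ _ => rfl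
        ext m
        simp only [mem_Ioc, mem_Icc]
        omega
      rw [e2, e2, ← sum_Ioc_consecutive _ (Nat.zero_le M') m1, add_sub_cancel_left]
    rw [e1]
    calc ‖∑ m ∈ Ioc M' M, (m : ℂ)⁻¹ * P m‖ ≤ ∑ m ∈ Ioc M' M, ‖(m : ℂ)⁻¹ * P m‖ := norm_sum_le _ _
      _ ≤ ∑ m ∈ Ioc M' M, (M' : ℝ)⁻¹ := by
          apply sum_le_sum
          intro m hm
          rw [mem_Ioc] at hm
          have hm1 : (M' : ℝ) ≤ m := by exact_mod_cast hm.1.le
          rw [norm_mul, norm_inv, Complex.norm_natCast]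
          calc (m : ℝ)⁻¹ * ‖P m‖ ≤ (M' : ℝ)⁻¹ * 1 :=
                mul_le_mul (inv_anti₀ hM'0 hm1) (hP m) (norm_nonneg _) (by positivity)
            _ = (M' : ℝ)⁻¹ := mul_one _
      _ = ((M : ℝ) - M') * (M' : ℝ)⁻¹ := by
          rw [sum_const, Nat.card_Ioc, nsmul_eq_mul, Nat.cast_sub m1]
      _ ≤ K * M' * (M' : ℝ)⁻¹ := mul_le_mul_of_nonneg_right (by linarith) (by positivity)
      _ = K := by field_simp
  rw [dist_zero_right]
  unfold lav
  rw [← ha, ← hb]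
  have hac : (a : ℂ) ≠ 0 := by exact_mod_cast ha0.ne'
  have hbc : (b : ℂ) ≠ 0 := by exact_mod_cast hb0.ne'
  have e : (a : ℂ)⁻¹ * ls P M - (b : ℂ)⁻¹ * ls P M' =
      (a : ℂ)⁻¹ * (ls P M - ls P M') - (((a - b) / (a * b) : ℝ) : ℂ) * ls P M' := by
    push_cast
    field_simp
    ring
  rw [e]
  refine lt_of_le_of_lt (norm_sub_le _ _) ?_
  rw [norm_mul, norm_mul, norm_inv, Complex.norm_real, Complex.norm_real, Real.norm_eq_abs, Real.norm_eq_abs,
    abs_of_pos ha0, abs_div, abs_of_pos (by positivity : 0 < a * b), abs_of_nonneg (by linarith : 0 ≤ a - b)]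
  have b1 : a⁻¹ * ‖ls P M - ls P M'‖ ≤ K / a := by
    rw [div_eq_inv_mul]
    exact mul_le_mul_of_nonneg_left a3 (by positivity)
  have b2 : (a - b) / (a * b) * ‖ls P M'‖ ≤ 2 * Real.log K / a := by
    calc (a - b) / (a * b) * ‖ls P M'‖ ≤ Real.log K / (a * b) * (2 * b) := by
          apply mul_le_mul _ (a2.trans (by linarith)) (norm_nonneg _) (div_nonneg hlK (by positivity))
          exact div_le_div_of_nonneg_right (by linarith) (by positivity)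
      _ = 2 * Real.log K / a := by field_simp
  have b3 : K / a + 2 * Real.log K / a = (K + 2 * Real.log K) / a := by ring
  have b4 : (K + 2 * Real.log K) / a ≤ ε / 2 := by
    rw [div_le_iff₀ hε] at h2
    rw [div_le_iff₀ ha0]
    linarith
  linarith

/-- the limits along all integers -/
theorem lav_iff {c α : ℝ} (hc : 1 < c) (hα : 0 < α) {P : ℕ → ℂ} (hP : ∀ m, ‖P m‖ ≤ 1) (h : LC c α P) (ρ : ℂ) :
    Tendsto (lav P) atTop (𝓝 ρ) ↔ Tendsto (lav (fun n => P (ms α c n))) atTop (𝓝 ρ) := by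
  constructor
  · intro h1
    have h2 := (h1.comp (tend_ms hc hα)).add (lav_sub hc hα hP h)
    rw [add_zero] at h2
    refine h2.congr fun N => ?_
    show lav P (ms α c N) + (lav (fun n => P (ms α c n)) N - lav P (ms α c N)) = _
    ring
  · intro h1
    have h2 := ((h1.comp (tend_nu hc hα)).sub ((lav_sub hc hα hP h).comp (tend_nu hc hα))).add (lav_nu hc hα hP)
    rw [sub_zero, add_zero] at h2
    refine h2.congr fun M => ?_
    show lav (fun n => P (ms α c n)) (nu c α M) - (lav (fun n => P (ms α c n)) (nu c α M) -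
      lav P (ms α c (nu c α M))) + (lav P M - lav P (ms α c (nu c α M))) = _
    ring

/-- the limit points -/
theorem sys_iff {c α : ℝ} (hc : 1 < c) (hα : 0 < α) {ι : Type*} {P : ι → ℕ → ℂ} (hP : ∀ i m, ‖P i m‖ ≤ 1)
    (h : ∀ i, LC c α (P i)) (ρ : ι → ℂ) :
    (∃ N : ℕ → ℕ, Tendsto N atTop atTop ∧ ∀ i, Tendsto (fun k => lav (P i) (N k)) atTop (𝓝 (ρ i))) ↔
    ∃ N : ℕ → ℕ, Tendsto N atTop atTop ∧
      ∀ i, Tendsto (fun k => lav (fun n => P i (ms α c n)) (N k)) atTop (𝓝 (ρ i)) := by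
  constructor
  · rintro ⟨N, hN, h1⟩
    refine ⟨fun k => nu c α (N k), (tend_nu hc hα).comp hN, fun i => ?_⟩
    have h2 := ((h1 i).sub ((lav_nu hc hα (hP i)).comp hN)).add
      (((lav_sub hc hα (hP i) (h i)).comp (tend_nu hc hα)).comp hN)
    rw [sub_zero, add_zero] at h2
    refine h2.congr fun k => ?_
    show lav (P i) (N k) - (lav (P i) (N k) - lav (P i) (ms α c (nu c α (N k)))) +
      (lav (fun n => P i (ms α c n)) (nu c α (N k)) - lav (P i) (ms α c (nu c α (N k)))) = _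
    ring
  · rintro ⟨N, hN, h1⟩
    refine ⟨fun k => ms α c (N k), (tend_ms hc hα).comp hN, fun i => ?_⟩
    have h2 := (h1 i).sub ((lav_sub hc hα (hP i) (h i)).comp hN)
    rw [sub_zero] at h2
    refine h2.congr fun k => ?_
    show lav (fun n => P i (ms α c n)) (N k) - (lav (fun n => P i (ms α c n)) (N k) - lav (P i) (ms α c (N k))) = _
    ring

/-- the transfer for a countable family of bounded functions -/
theorem logSparse (c : ℝ) (hc : 1 < c) : ∃ κ : ℝ, 0 < κ ∧ κ < 1 ∧ ∀ (ι : Type) [Countable ι] (P : ι → ℕ → ℂ),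
    (∀ i m, ‖P i m‖ ≤ 1) → ∃ E : Set ℝ, dimH E ≤ ENNReal.ofReal (1 - κ) ∧ ∀ α : ℝ, 0 < α → α ∉ E →
      ∀ i, LC c α (P i) := by
  obtain ⟨κ, hκ0, hκ1, H⟩ := use c hc
  refine ⟨κ, hκ0, hκ1, fun ι _ P hP => ?_⟩
  obtain ⟨E, hE, h⟩ := H (fun _ _ => ∅) (ι × Bool × ℕ × ℕ) (fun j => lev (P j.1) j.2.1 j.2.2.1 j.2.2.2)
  refine ⟨E, hE, fun α hα hαE i => ?_⟩
  obtain ⟨_, _, h3⟩ := h α hα hαE
  refine LC.of_lev hc hα (hP i) fun b k j => ?_
  refine (h3 (i, b, k, j)).lc hc hα hκ0 hκ1 (fun m => ?_)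
  unfold ind
  split_ifs <;> simp

end Pool.Agent.X20.Tr
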