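import Pool.Agent.X20.Tr.Log
import Pool.Agent.X20.Tr.Use

/-! Logarithmic averages of complex valued functions along `⌊α n ^ c⌋` (helper20). -/

set_option autoImplicit false

namespace Pool.Agent.X20.Tr

open Finset Filter Topology
open Pool.Agent.Y854.PS (ms xs)

/-- sums weighted by `1 / n` -/
noncomputable def ls (P : ℕ → ℂ) (N : ℕ) : ℂ := ∑ n ∈ Icc 1 N, (n : ℂ)⁻¹ * P n

/-- the two weighted sums agree up to `o(log N)` -/
def LC (c α : ℝ) (P : ℕ → ℂ) : Prop := ∀ ε : ℝ, 0 < ε → ∃ N₀ : ℕ, ∀ N : ℕ, N₀ ≤ N →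
  ‖ls (fun n => P (ms α c n)) N - ((1 / c : ℝ) : ℂ) * ls P (ms α c N)‖ ≤ ε * Real.log N

lemma ls_add (P Q : ℕ → ℂ) (N : ℕ) : ls (fun n => P n + Q n) N = ls P N + ls Q N := by
  unfold ls
  rw [← sum_add_distrib]
  exact sum_congr rfl fun n _ => by ring

lemma ls_sub (P Q : ℕ → ℂ) (N : ℕ) : ls (fun n => P n - Q n) N = ls P N - ls Q N := by
  unfold ls
  rw [← sum_sub_distrib]
  exact sum_congr rfl fun n _ => by ring

lemma ls_smul (a : ℂ) (P : ℕ → ℂ) (N : ℕ) : ls (fun n => a * P n) N = a * ls P N := by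
  unfold ls
  rw [mul_sum]
  exact sum_congr rfl fun n _ => by ring

lemma ls_real (F : ℕ → ℝ) (N : ℕ) : ls (fun n => (F n : ℂ)) N = ((∑ n ∈ Icc 1 N, F n / n : ℝ) : ℂ) := by
  unfold ls
  push_cast
  exact sum_congr rfl fun n _ => by ring

lemma sum_inv_le (N : ℕ) : ∑ n ∈ Icc 1 N, ((n : ℝ))⁻¹ ≤ 1 + Real.log N := by
  have h := harmonic_le_one_add_log N
  rw [harmonic_eq_sum_Icc] at h
  push_cast at h
  exact h

lemma norm_ls_le {P : ℕ → ℂ} {B : ℝ} (hP : ∀ n, ‖P n‖ ≤ B) (hB : 0 ≤ B) (N : ℕ) :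
    ‖ls P N‖ ≤ B * (1 + Real.log N) := by
  unfold ls
  calc ‖∑ n ∈ Icc 1 N, (n : ℂ)⁻¹ * P n‖ ≤ ∑ n ∈ Icc 1 N, ‖(n : ℂ)⁻¹ * P n‖ := norm_sum_le _ _
    _ ≤ ∑ n ∈ Icc 1 N, B * ((n : ℝ))⁻¹ := by
        apply sum_le_sum
        intro n _
        rw [norm_mul, norm_inv, Complex.norm_natCast, mul_comm]
        exact mul_le_mul_of_nonneg_right (hP n) (by positivity)
    _ ≤ B * (1 + Real.log N) := by
        rw [← mul_sum]
        exact mul_le_mul_of_nonneg_left (sum_inv_le N) hB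

lemma log_nat_nonneg (N : ℕ) : 0 ≤ Real.log (N : ℝ) := Real.log_natCast_nonneg N

lemma LC.add {c α : ℝ} {P Q : ℕ → ℂ} (hP : LC c α P) (hQ : LC c α Q) : LC c α (fun n => P n + Q n) := by
  intro ε hε
  obtain ⟨N₁, h1⟩ := hP (ε / 2) (by positivity)
  obtain ⟨N₂, h2⟩ := hQ (ε / 2) (by positivity)
  refine ⟨max N₁ N₂, fun N hN => ?_⟩
  have k1 := h1 N ((le_max_left _ _).trans hN)
  have k2 := h2 N ((le_max_right _ _).trans hN)
  rw [ls_add (fun n => P (ms α c n)) (fun n => Q (ms α c n)), ls_add P Q]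
  have e : ls (fun n => P (ms α c n)) N + ls (fun n => Q (ms α c n)) N -
      ((1 / c : ℝ) : ℂ) * (ls P (ms α c N) + ls Q (ms α c N)) =
      (ls (fun n => P (ms α c n)) N - ((1 / c : ℝ) : ℂ) * ls P (ms α c N)) +
      (ls (fun n => Q (ms α c n)) N - ((1 / c : ℝ) : ℂ) * ls Q (ms α c N)) := by ring
  rw [e]
  refine (norm_add_le _ _).trans ?_
  linarith

lemma LC.smul {c α : ℝ} {P : ℕ → ℂ} (a : ℂ) (hP : LC c α P) : LC c α (fun n => a * P n) := by
  intro ε hε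
  have ha : 0 < ‖a‖ + 1 := by positivity
  obtain ⟨N₁, h1⟩ := hP (ε / (‖a‖ + 1)) (by positivity)
  refine ⟨N₁, fun N hN => ?_⟩
  rw [ls_smul a (fun n => P (ms α c n)), ls_smul a P]
  have e : a * ls (fun n => P (ms α c n)) N - ((1 / c : ℝ) : ℂ) * (a * ls P (ms α c N)) =
      a * (ls (fun n => P (ms α c n)) N - ((1 / c : ℝ) : ℂ) * ls P (ms α c N)) := by ring
  rw [e, norm_mul]
  have hl := log_nat_nonneg N
  calc ‖a‖ * ‖ls (fun n => P (ms α c n)) N - ((1 / c : ℝ) : ℂ) * ls P (ms α c N)‖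
      ≤ (‖a‖ + 1) * (ε / (‖a‖ + 1) * Real.log N) :=
        mul_le_mul (by linarith) (h1 N hN) (norm_nonneg _) ha.le
    _ = ε * Real.log N := by field_simp

lemma LC.zero {c α : ℝ} : LC c α (fun _ => 0) := by
  intro ε hε
  refine ⟨0, fun N _ => ?_⟩
  have hl := log_nat_nonneg N
  have : ∀ M : ℕ, ls (fun _ => 0) M = 0 := fun M => by
    unfold ls
    simp
  rw [this, this]
  simp only [mul_zero, sub_zero, norm_zero]
  positivity

lemma LC.sum {c α : ℝ} {ι : Type*} (s : Finset ι) (P : ι → ℕ → ℂ) (h : ∀ i ∈ s, LC c α (P i)) :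
    LC c α (fun n => ∑ i ∈ s, P i n) := by
  classical
  induction s using Finset.induction_on with
  | empty => simpa using LC.zero
  | insert a s ha ih =>
    have h1 := (h a (mem_insert_self a s)).add (ih fun i hi => h i (mem_insert_of_mem hi))
    refine (congrArg (LC c α) (funext fun n => ?_)).mp h1
    rw [sum_insert ha]

/-- the logarithms of the two lengths -/
lemma log_ms {c α : ℝ} (hc : 1 < c) (hα : 0 < α) : ∃ N₀ : ℕ, 1 ≤ N₀ ∧ ∀ N : ℕ, N₀ ≤ N → 1 ≤ ms α c N ∧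
    α * (N : ℝ) ^ c / 2 ≤ ms α c N ∧
    |Real.log (ms α c N) - c * Real.log N| ≤ |Real.log α| + Real.log 2 := by
  obtain ⟨N₀, h⟩ := (((tend_pow c (by linarith)).const_mul_atTop hα).eventually_ge_atTop 2).exists_forall_of_atTop
  refine ⟨max N₀ 1, le_max_right _ _, fun N hN => ?_⟩
  have h1 : 2 ≤ α * (N : ℝ) ^ c := h N ((le_max_left _ _).trans hN)
  have hN0 : (0 : ℝ) < N := by
    have : 0 < N := (le_max_right N₀ 1).trans hN
    exact_mod_cast this
  have h2 : (ms α c N : ℝ) ≤ α * (N : ℝ) ^ c := Nat.floor_le (by positivity)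
  have h3 : α * (N : ℝ) ^ c - 1 < ms α c N := Nat.sub_one_lt_floor _
  have h4 : α * (N : ℝ) ^ c / 2 ≤ ms α c N := by linarith
  have h5 : (1 : ℝ) ≤ ms α c N := by linarith
  have e : Real.log (α * (N : ℝ) ^ c) = Real.log α + c * Real.log N := by
    rw [Real.log_mul hα.ne' (by positivity), Real.log_rpow hN0]
  have h6 : Real.log (ms α c N) ≤ Real.log α + c * Real.log N := (Real.log_le_log (by linarith) h2).trans e.le
  have h7 : Real.log α + c * Real.log N - Real.log 2 ≤ Real.log (ms α c N) := by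
    rw [← e, ← Real.log_div (by positivity) (by norm_num)]
    exact Real.log_le_log (by positivity) h4
  refine ⟨by exact_mod_cast h5, h4, ?_⟩
  have h8 := neg_abs_le (Real.log α)
  have h9 := le_abs_self (Real.log α)
  have h10 : 0 ≤ Real.log 2 := Real.log_nonneg (by norm_num)
  rw [_root_.abs_le]
  constructor <;> linarith

lemma tend_log : Tendsto (fun N : ℕ => Real.log (N : ℝ)) atTop atTop :=
  Real.tendsto_log_atTop.comp tendsto_natCast_atTop_atTop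

lemma LC.approx {c α : ℝ} (hc : 1 < c) (hα : 0 < α) {P : ℕ → ℂ}
    (h : ∀ ε : ℝ, 0 < ε → ∃ Q : ℕ → ℂ, LC c α Q ∧ ∀ m, ‖P m - Q m‖ ≤ ε) : LC c α P := by
  intro ε hε
  have hc0 : 0 < c := by linarith
  obtain ⟨Q, hQ, hPQ⟩ := h (ε / 4) (by positivity)
  obtain ⟨N₁, h1⟩ := hQ (ε / 4) (by positivity)
  obtain ⟨N₂, _, h2⟩ := log_ms hc hα
  obtain ⟨K, hK⟩ : ∃ K : ℝ, K = |Real.log α| + Real.log 2 := ⟨_, rfl⟩
  have hK0 : 0 ≤ K := by
    rw [hK]
    have : 0 ≤ Real.log 2 := Real.log_nonneg (by norm_num)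
    positivity
  obtain ⟨N₃, h3⟩ := (tend_log.eventually_ge_atTop (1 + (1 + K) / c)).exists_forall_of_atTop
  refine ⟨max N₁ (max N₂ N₃), fun N hN => ?_⟩
  have k1 := h1 N ((le_max_left _ _).trans hN)
  obtain ⟨_, _, k2⟩ := h2 N ((le_max_left _ _).trans ((le_max_right _ _).trans hN))
  have k3 := h3 N ((le_max_right _ _).trans ((le_max_right _ _).trans hN))
  rw [← hK, _root_.abs_le] at k2
  have a1 := norm_ls_le (P := fun n => P (ms α c n) - Q (ms α c n)) (fun n => hPQ _) (by positivity) N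
  have a2 := norm_ls_le (P := fun n => P n - Q n) hPQ (by positivity) (ms α c N)
  rw [ls_sub (fun n => P (ms α c n)) (fun n => Q (ms α c n))] at a1
  rw [ls_sub P Q] at a2
  have e : ls (fun n => P (ms α c n)) N - ((1 / c : ℝ) : ℂ) * ls P (ms α c N) =
      (ls (fun n => P (ms α c n)) N - ls (fun n => Q (ms α c n)) N) -
      ((1 / c : ℝ) : ℂ) * (ls P (ms α c N) - ls Q (ms α c N)) +
      (ls (fun n => Q (ms α c n)) N - ((1 / c : ℝ) : ℂ) * ls Q (ms α c N)) := by ring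
  rw [e]
  refine (norm_add_le _ _).trans ((add_le_add (norm_sub_le _ _) k1).trans ?_)
  rw [norm_mul, Complex.norm_real, Real.norm_eq_abs, abs_of_pos (by positivity : 0 < 1 / c)]
  have a3 : 1 / c * ‖ls P (ms α c N) - ls Q (ms α c N)‖ ≤ ε / 4 * ((1 + K) / c + Real.log N) := by
    calc 1 / c * ‖ls P (ms α c N) - ls Q (ms α c N)‖
        ≤ 1 / c * (ε / 4 * (1 + (c * Real.log N + K))) := by
          apply mul_le_mul_of_nonneg_left _ (by positivity)
          refine a2.trans (mul_le_mul_of_nonneg_left ?_ (by positivity))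
          linarith [k2.2]
      _ = ε / 4 * ((1 + K) / c + Real.log N) := by
          field_simp
          ring
  have a4 : 0 ≤ (1 + K) / c := by positivity
  nlinarith [a1, a3]

lemma Cmp.lc {c α κ : ℝ} (hc : 1 < c) (hα : 0 < α) (hκ : 0 < κ) (hκ1 : κ < 1) {F : ℕ → ℝ} (hF : B1 F)
    (hC : Cmp c α κ F) : LC c α (fun n => (F n : ℂ)) := by
  intro ε hε
  obtain ⟨C, h⟩ := hC.log hc hα hκ hκ1 hF
  obtain ⟨N₀, h1⟩ := (tend_log.eventually_ge_atTop (C / ε)).exists_forall_of_atTop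
  refine ⟨N₀, fun N hN => ?_⟩
  rw [ls_real (fun n => F (ms α c n)), ls_real F]
  have e : Ioc 0 (ms α c N) = Icc 1 (ms α c N) := by
    ext m
    simp only [mem_Ioc, mem_Icc]
    omega
  have h2 := h N
  rw [e] at h2
  rw [← Complex.ofReal_mul, ← Complex.ofReal_sub, Complex.norm_real, Real.norm_eq_abs]
  refine h2.trans ?_
  have h3 := h1 N hN
  rw [div_le_iff₀ hε] at h3
  linarith

/-- the real or the imaginary part -/
noncomputable def part (b : Bool) (z : ℂ) : ℝ := if b then z.re else z.im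

/-- level sets -/
def lev (P : ℕ → ℂ) (b : Bool) (k i : ℕ) : Set ℕ := {m | (i : ℝ) ≤ k * ((part b (P m) + 1) / 2)}

lemma count_lev (k : ℕ) (y : ℝ) (h0 : 0 ≤ y) (hk : y ≤ k) (hd : ∀ i : ℕ, Decidable ((i : ℝ) ≤ y)) :
    ∑ i ∈ Icc 1 k, (if (i : ℝ) ≤ y then (1 : ℝ) else 0) = (⌊y⌋₊ : ℝ) := by
  rw [← sum_filter, sum_const, nsmul_eq_mul, mul_one]
  have e : (Icc 1 k).filter (fun i : ℕ => (i : ℝ) ≤ y) = Icc 1 ⌊y⌋₊ := by
    ext i
    rw [mem_filter, mem_Icc, mem_Icc]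
    constructor
    · rintro ⟨⟨h1, _⟩, h3⟩
      exact ⟨h1, Nat.le_floor h3⟩
    · rintro ⟨h1, h2⟩
      have h3 : (i : ℝ) ≤ y := (Nat.le_floor_iff h0).1 h2
      refine ⟨⟨h1, ?_⟩, h3⟩
      exact_mod_cast h3.trans hk
  rw [e, Nat.card_Icc, Nat.add_sub_cancel]

lemma approx_real (P : ℕ → ℂ) (hP : ∀ m, ‖P m‖ ≤ 1) (b : Bool) (k : ℕ) (hk : 1 ≤ k) (m : ℕ) :
    |part b (P m) - (2 / k * ∑ i ∈ Icc 1 k, ind (lev P b k i) m - ind (lev P b k 0) m)| ≤ 2 / k := by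
  classical
  have hk0 : (0 : ℝ) < k := by exact_mod_cast hk
  obtain ⟨x, hx⟩ : ∃ x : ℝ, x = part b (P m) := ⟨_, rfl⟩
  have hx1 : |x| ≤ 1 := by
    rw [hx]
    unfold part
    split_ifs
    · exact (Complex.abs_re_le_norm _).trans (hP m)
    · exact (Complex.abs_im_le_norm _).trans (hP m)
  rw [_root_.abs_le] at hx1
  obtain ⟨y, hy⟩ : ∃ y : ℝ, y = k * ((x + 1) / 2) := ⟨_, rfl⟩
  have hy0 : 0 ≤ y := by
    rw [hy]
    have : 0 ≤ (x + 1) / 2 := by linarith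
    positivity
  have hyk : y ≤ k := by
    rw [hy]
    have : (x + 1) / 2 ≤ 1 := by linarith
    nlinarith
  have e1 : ∀ i : ℕ, ind (lev P b k i) m = if (i : ℝ) ≤ y then (1 : ℝ) else 0 := by
    intro i
    unfold ind lev
    rw [hy, hx]
    by_cases h : (i : ℝ) ≤ k * ((part b (P m) + 1) / 2)
    · rw [if_pos h, if_pos]
      exact h
    · rw [if_neg h, if_neg]
      exact h
  have e2 : ∑ i ∈ Icc 1 k, ind (lev P b k i) m = (⌊y⌋₊ : ℝ) := by
    rw [sum_congr rfl fun i _ => e1 i]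
    exact count_lev k y hy0 hyk _
  have e3 : ind (lev P b k 0) m = 1 := by
    rw [e1 0, if_pos]
    rw [Nat.cast_zero]
    exact hy0
  rw [e2, e3, ← hx]
  have f1 := Nat.floor_le hy0
  have f2 := Nat.sub_one_lt_floor y
  have e4 : x - (2 / k * (⌊y⌋₊ : ℝ) - 1) = 2 / k * (y - ⌊y⌋₊) := by
    rw [hy]
    field_simp
    ring
  rw [e4, abs_of_nonneg (mul_nonneg (by positivity) (by linarith))]
  have h5 : y - (⌊y⌋₊ : ℝ) ≤ 1 := by linarith
  calc 2 / (k : ℝ) * (y - ⌊y⌋₊) ≤ 2 / k * 1 := mul_le_mul_of_nonneg_left h5 (by positivity)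
    _ = 2 / k := mul_one _

/-- the level sets suffice -/
lemma LC.of_lev {c α : ℝ} (hc : 1 < c) (hα : 0 < α) {P : ℕ → ℂ} (hP : ∀ m, ‖P m‖ ≤ 1)
    (h : ∀ (b : Bool) (k i : ℕ), LC c α (fun m => ((ind (lev P b k i) m : ℝ) : ℂ))) : LC c α P := by
  apply LC.approx hc hα
  intro ε hε
  obtain ⟨k, hk⟩ : ∃ k : ℕ, k = ⌈4 / ε⌉₊ + 1 := ⟨_, rfl⟩
  have hk1 : 1 ≤ k := by omega
  have hk0 : (0 : ℝ) < k := by exact_mod_cast hk1
  have hkε : 4 / (k : ℝ) ≤ ε := by
    rw [div_le_iff₀ hk0]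
    have h1 : 4 / ε ≤ k := (Nat.le_ceil _).trans (by rw [hk]; push_cast; linarith)
    rw [div_le_iff₀ hε] at h1
    linarith
  obtain ⟨R, hR⟩ : ∃ R : Bool → ℕ → ℝ, ∀ b m, R b m =
      2 / k * ∑ i ∈ Icc 1 k, ind (lev P b k i) m - ind (lev P b k 0) m := ⟨_, fun _ _ => rfl⟩
  have hRL : ∀ b, LC c α (fun m => ((R b m : ℝ) : ℂ)) := by
    intro b
    have h1 := ((LC.sum (Icc 1 k) (fun i m => ((ind (lev P b k i) m : ℝ) : ℂ)) (fun i _ => h b k i)).smul
      ((2 / k : ℝ) : ℂ)).add ((h b k 0).smul (-1))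
    refine (congrArg (LC c α) (funext fun m => ?_)).mp h1
    rw [hR]
    push_cast
    ring
  refine ⟨fun m => ((R true m : ℝ) : ℂ) + Complex.I * ((R false m : ℝ) : ℂ), (hRL true).add ((hRL false).smul Complex.I),
    fun m => ?_⟩
  have h1 := approx_real P hP true k hk1 m
  have h2 := approx_real P hP false k hk1 m
  rw [← hR] at h1 h2
  unfold part at h1 h2
  simp only [if_true, Bool.false_eq_true, if_false] at h1 h2
  have e : P m - (((R true m : ℝ) : ℂ) + Complex.I * ((R false m : ℝ) : ℂ)) =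
      (((P m).re - R true m : ℝ) : ℂ) + Complex.I * (((P m).im - R false m : ℝ) : ℂ) := by
    apply Complex.ext <;> simp
  rw [e]
  refine (norm_add_le _ _).trans ?_
  rw [norm_mul, Complex.norm_I, one_mul, Complex.norm_real, Complex.norm_real, Real.norm_eq_abs, Real.norm_eq_abs]
  have h3 : 2 / (k : ℝ) + 2 / k = 4 / k := by ring
  linarith

end Pool.Agent.X20.Tr
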