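import Pool.Agent.X20.Tr.LogA
import Pool.Agent.X20.Tr.AvD

/-! Logarithmic and ordinary averages of real functions along `⌊α n ^ c⌋` (helper20). -/

set_option autoImplicit false

namespace Pool.Agent.X20.Tr

open Finset Filter Topology
open Pool.Agent.Y854.PS (ms xs)

lemma ofReal_tendsto {F : ℕ → ℝ} {G : ℕ → ℂ} (h : ∀ N, G N = (F N : ℂ)) (ρ : ℝ) :
    Tendsto G atTop (𝓝 (ρ : ℂ)) ↔ Tendsto F atTop (𝓝 ρ) := by
  constructor
  · intro h1
    have h2 := (Complex.continuous_re.tendsto (ρ : ℂ)).comp h1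
    rw [Complex.ofReal_re] at h2
    refine h2.congr fun N => ?_
    show (G N).re = F N
    rw [h, Complex.ofReal_re]
  · intro h1
    have h2 := (Complex.continuous_ofReal.tendsto ρ).comp h1
    refine h2.congr fun N => ?_
    show ((F N : ℝ) : ℂ) = G N
    rw [h]

/-- the logarithmic average of a real function -/
noncomputable def rlav (F : ℕ → ℝ) (N : ℕ) : ℝ := (∑ n ∈ Icc 1 N, F n / n) / Real.log N

lemma lav_real (F : ℕ → ℝ) (N : ℕ) : lav (fun n => (F n : ℂ)) N = ((rlav F N : ℝ) : ℂ) := by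
  unfold lav rlav
  rw [ls_real]
  push_cast
  rw [div_eq_inv_mul]

/-- the average of a real function -/
noncomputable def rav (F : ℕ → ℝ) (N : ℕ) : ℝ := (∑ n ∈ Icc 1 N, F n) / N

lemma av_real (F : ℕ → ℝ) (N : ℕ) : av (fun n => (F n : ℂ)) N = ((rav F N : ℝ) : ℂ) := by
  unfold av rav cs
  push_cast
  ring

lemma norm_real_le {F : ℕ → ℝ} (hF : B1 F) (m : ℕ) : ‖((F m : ℝ) : ℂ)‖ ≤ 1 := by
  rw [Complex.norm_real, Real.norm_eq_abs]
  exact hF m

/-- the transfer of logarithmic averages for a countable family of bounded real functions -/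
theorem rlogSparse (c : ℝ) (hc : 1 < c) : ∃ κ : ℝ, 0 < κ ∧ κ < 1 ∧ ∀ (ι : Type) [Countable ι] (F : ι → ℕ → ℝ),
    (∀ i, B1 (F i)) → ∃ E : Set ℝ, dimH E ≤ ENNReal.ofReal (1 - κ) ∧ ∀ α : ℝ, 0 < α → α ∉ E → ∀ i,
      (∀ ρ : ℝ, Tendsto (rlav (F i)) atTop (𝓝 ρ) ↔ Tendsto (rlav fun n => F i (ms α c n)) atTop (𝓝 ρ)) ∧
      Tendsto (fun N => rlav (fun n => F i (ms α c n)) N - rlav (F i) (ms α c N)) atTop (𝓝 0) ∧
      Tendsto (fun M => rlav (fun n => F i (ms α c n)) (nu c α M) - rlav (F i) M) atTop (𝓝 0) := by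
  obtain ⟨κ, hκ0, hκ1, H⟩ := logSparse c hc
  refine ⟨κ, hκ0, hκ1, fun ι _ F hF => ?_⟩
  obtain ⟨E, hE, h⟩ := H ι (fun i n => (F i n : ℂ)) (fun i m => norm_real_le (hF i) m)
  refine ⟨E, hE, fun α hα hαE i => ⟨fun ρ => ?_, ?_, ?_⟩⟩
  · have h1 := lav_iff hc hα (norm_real_le (hF i)) (h α hα hαE i) (ρ : ℂ)
    rw [ofReal_tendsto (lav_real (F i)) ρ, ofReal_tendsto (lav_real fun n => F i (ms α c n)) ρ] at h1
    exact h1
  · have h1 := lav_sub hc hα (norm_real_le (hF i)) (h α hα hαE i)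
    have h2 := (ofReal_tendsto (F := fun N => rlav (fun n => F i (ms α c n)) N - rlav (F i) (ms α c N))
      (G := fun N => lav (fun n => ((F i (ms α c n) : ℝ) : ℂ)) N - lav (fun n => ((F i n : ℝ) : ℂ)) (ms α c N))
      (fun N => by
        rw [lav_real (fun n => F i (ms α c n)), lav_real (F i)]
        push_cast
        rfl) 0).1
    exact h2 (by rw [Complex.ofReal_zero]; exact h1)
  · have h1 := ((lav_sub hc hα (norm_real_le (hF i)) (h α hα hαE i)).comp (tend_nu hc hα)).sub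
      (lav_nu hc hα (norm_real_le (hF i)))
    rw [sub_zero] at h1
    have h2 := (ofReal_tendsto (F := fun M => rlav (fun n => F i (ms α c n)) (nu c α M) - rlav (F i) M)
      (G := fun M => lav (fun n => ((F i (ms α c n) : ℝ) : ℂ)) (nu c α M) - lav (fun n => ((F i n : ℝ) : ℂ)) M)
      (fun M => by
        rw [lav_real (fun n => F i (ms α c n)), lav_real (F i)]
        push_cast
        rfl) 0).1
    refine h2 ?_
    rw [Complex.ofReal_zero]
    refine h1.congr fun M => ?_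
    show lav (fun n => ((F i (ms α c n) : ℝ) : ℂ)) (nu c α M) -
      lav (fun n => ((F i n : ℝ) : ℂ)) (ms α c (nu c α M)) -
      (lav (fun n => ((F i n : ℝ) : ℂ)) M - lav (fun n => ((F i n : ℝ) : ℂ)) (ms α c (nu c α M))) = _
    ring

/-- the transfer of averages for a countable family of bounded real functions -/
theorem ravSparse (c : ℝ) (hc : 1 < c) : ∃ κ : ℝ, 0 < κ ∧ κ < 1 ∧ ∀ (ι : Type) [Countable ι] (F : ι → ℕ → ℝ),
    (∀ i, B1 (F i)) → ∃ E : Set ℝ, dimH E ≤ ENNReal.ofReal (1 - κ) ∧ ∀ α : ℝ, 0 < α → α ∉ E → ∀ i,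
      ∀ ρ : ℝ, Tendsto (rav (F i)) atTop (𝓝 ρ) ↔ Tendsto (rav fun n => F i (ms α c n)) atTop (𝓝 ρ) := by
  obtain ⟨κ, hκ0, hκ1, H⟩ := avSparse c hc
  refine ⟨κ, hκ0, hκ1, fun ι _ F hF => ?_⟩
  obtain ⟨E, hE, h⟩ := H ι (fun i n => (F i n : ℂ)) (fun i m => norm_real_le (hF i) m)
  refine ⟨E, hE, fun α hα hαE i ρ => ?_⟩
  have h1 := h α hα hαE i (ρ : ℂ)
  rw [ofReal_tendsto (av_real (F i)) ρ, ofReal_tendsto (av_real fun n => F i (ms α c n)) ρ] at h1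
  exact h1

/-- both transfers at once -/
theorem bothSparse (c : ℝ) (hc : 1 < c) : ∃ κ : ℝ, 0 < κ ∧ κ < 1 ∧ ∀ (ι : Type) [Countable ι] (F : ι → ℕ → ℝ),
    (∀ i, B1 (F i)) → ∃ E : Set ℝ, dimH E ≤ ENNReal.ofReal (1 - κ) ∧ ∀ α : ℝ, 0 < α → α ∉ E → ∀ i, ∀ ρ : ℝ,
      (Tendsto (rlav (F i)) atTop (𝓝 ρ) ↔ Tendsto (rlav fun n => F i (ms α c n)) atTop (𝓝 ρ)) ∧
      (Tendsto (rav (F i)) atTop (𝓝 ρ) ↔ Tendsto (rav fun n => F i (ms α c n)) atTop (𝓝 ρ)) := by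
  obtain ⟨κ, hκ0, hκ1, H⟩ := rlogSparse c hc
  obtain ⟨κ', hκ0', hκ1', H'⟩ := ravSparse c hc
  refine ⟨min κ κ', lt_min hκ0 hκ0', min_lt_of_left_lt hκ1, fun ι _ F hF => ?_⟩
  obtain ⟨E, hE, h⟩ := H ι F hF
  obtain ⟨E', hE', h'⟩ := H' ι F hF
  refine ⟨E ∪ E', ?_, fun α hα hαE i ρ => ?_⟩
  · rw [dimH_union]
    refine max_le (hE.trans (ENNReal.ofReal_le_ofReal ?_)) (hE'.trans (ENNReal.ofReal_le_ofReal ?_))
    · have := min_le_left κ κ'
      linarith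
    · have := min_le_right κ κ'
      linarith
  · rw [Set.mem_union, not_or] at hαE
    exact ⟨(h α hα hαE.1 i).1 ρ, h' α hα hαE.2 i ρ⟩

end Pool.Agent.X20.Tr
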