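import Pool.Agent.X20.Tr.Thin
import Pool.Agent.X26.MS.Cnt

/-! Maier's phenomenon along `⌊α n ^ c⌋` (helper20). -/

set_option autoImplicit false

namespace Pool.Agent.X20.Tr.Mai

open Finset Filter
open Pool.Agent.X20.Tr
open Pool.Agent.Y854.PS (ms xs)

/-- `p` is prime and for all `1 ≤ h ≤ (log p) ^ N` the interval `[p, p + h)` contains at least `(1 + δ) h / log p` primes -/
def Many (δ : ℝ) (N p : ℕ) : Prop := p.Prime ∧ ∀ h : ℕ, 1 ≤ h → (h : ℝ) ≤ (Real.log p) ^ N →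
  (1 + δ) * h / Real.log p ≤ (((Ico p (p + h)).filter Nat.Prime).card : ℝ)

/-- for all `1 ≤ h ≤ (log m) ^ N` the interval `(m, m + h]` contains at most `(1 - δ) h / log m` primes -/
def Few (δ : ℝ) (N m : ℕ) : Prop := ∀ h : ℕ, 1 ≤ h → (h : ℝ) ≤ (Real.log m) ^ N →
  (((Ioc m (m + h)).filter Nat.Prime).card : ℝ) ≤ (1 - δ) * h / Real.log m

lemma Many.mono {δ δ' : ℝ} {N p : ℕ} (h : δ' ≤ δ) (hM : Many δ N p) : Many δ' N p := by
  refine ⟨hM.1, fun k hk hk2 => le_trans ?_ (hM.2 k hk hk2)⟩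
  apply div_le_div_of_nonneg_right _ (Real.log_natCast_nonneg _)
  apply mul_le_mul_of_nonneg_right _ (Nat.cast_nonneg _)
  linarith

lemma Few.mono {δ δ' : ℝ} {N m : ℕ} (h : δ' ≤ δ) (hM : Few δ N m) : Few δ' N m := by
  refine fun k hk hk2 => (hM k hk hk2).trans ?_
  apply div_le_div_of_nonneg_right _ (Real.log_natCast_nonneg _)
  apply mul_le_mul_of_nonneg_right _ (Nat.cast_nonneg _)
  linarith

/-- the countable family of sets -/
def Fam (i : Bool × ℕ × ℕ) : Set ℕ :=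
  if i.1 then {p | Many (1 / ((i.2.2 : ℝ) + 1)) i.2.1 p} else {m | Few (1 / ((i.2.2 : ℝ) + 1)) i.2.1 m}

open Classical in
/-- main theorem -/
theorem main (c : ℝ) (hc : 1 < c) : ∃ κ : ℝ, 0 < κ ∧ κ < 1 ∧ ∃ E : Set ℝ, dimH E ≤ ENNReal.ofReal (1 - κ) ∧
    ∀ α : ℝ, 0 < α → α ∉ E → ∀ (N : ℕ) (ε : ℝ), 0 < ε → ∃ δ : ℝ, 0 < δ ∧ ∃ M₀ : ℕ, ∀ M : ℕ, M₀ ≤ M →
      (M : ℝ) * Real.exp (-(Real.log M) ^ ε) ≤
        (((Icc 1 M).filter (fun n : ℕ => Many δ N ⌊α * (n : ℝ) ^ c⌋₊)).card : ℝ) ∧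
      (M : ℝ) * Real.exp (-(Real.log M) ^ ε) ≤
        (((Icc 1 M).filter (fun n : ℕ => Few δ N ⌊α * (n : ℝ) ^ c⌋₊)).card : ℝ) := by
  obtain ⟨κ, hκ0, hκ1, H⟩ := two_fam c hc
  refine ⟨κ, hκ0, hκ1, ?_⟩
  obtain ⟨E, hE, h⟩ := H (fun _ _ => 0) (fun _ _ => Or.inr (Or.inl rfl)) (Bool × ℕ × ℕ) (fun i => ind (Fam i))
    (fun i => ind_tri _)
  refine ⟨E, hE, fun α hα hαE N ε hε => ?_⟩
  obtain ⟨_, _, h3⟩ := h α hα hαE
  obtain ⟨e, he⟩ : ∃ e : ℝ, e = min (ε / 2) (1 / 4) := ⟨_, rfl⟩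
  have he0 : 0 < e := by rw [he]; exact lt_min (by linarith) (by norm_num)
  have he4 : e ≤ 1 / 4 := by rw [he]; exact min_le_right _ _
  have heε : 2 * e ≤ ε := by
    have : e ≤ ε / 2 := by rw [he]; exact min_le_left _ _
    linarith
  obtain ⟨δ, hδ, X₀, hX₀⟩ := Pool.Agent.X26.MS.main N he0
  obtain ⟨k, hk⟩ := exists_nat_one_div_lt hδ
  have hm : ∃ X₀ : ℝ, ∀ X : ℝ, X₀ ≤ X →
      X * Real.exp (-(Real.log X) ^ e) ≤ (((Icc 1 ⌊X⌋₊).filter (fun m => m ∈ Fam (true, N, k))).card : ℝ) := by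
    refine ⟨X₀, fun X hX => (hX₀ X hX).1.trans ?_⟩
    exact_mod_cast card_le_card (fun m hm' => by
      rw [mem_filter] at hm' ⊢
      refine ⟨hm'.1, ?_⟩
      show m ∈ Fam (true, N, k)
      unfold Fam
      rw [if_pos rfl, Set.mem_ofPred_eq]
      have hM : Many δ N m := hm'.2
      exact hM.mono hk.le)
  have hf : ∃ X₀ : ℝ, ∀ X : ℝ, X₀ ≤ X →
      X * Real.exp (-(Real.log X) ^ e) ≤ (((Icc 1 ⌊X⌋₊).filter (fun m => m ∈ Fam (false, N, k))).card : ℝ) := by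
    refine ⟨X₀, fun X hX => (hX₀ X hX).2.trans ?_⟩
    exact_mod_cast card_le_card (fun m hm' => by
      rw [mem_filter] at hm' ⊢
      refine ⟨hm'.1, ?_⟩
      show m ∈ Fam (false, N, k)
      unfold Fam
      rw [if_neg (by simp), Set.mem_ofPred_eq]
      have hM : Few δ N m := hm'.2
      exact hM.mono hk.le)
  obtain ⟨N₁, g1⟩ := thin hc hα hκ0 (h3 (true, N, k)) e he0 he4 hm
  obtain ⟨N₂, g2⟩ := thin hc hα hκ0 (h3 (false, N, k)) e he0 he4 hf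
  refine ⟨1 / ((k : ℝ) + 1), by positivity, max (max N₁ N₂) 3, fun M hM => ?_⟩
  have hlog : 1 ≤ Real.log M := by
    rw [Real.le_log_iff_exp_le (by
      have : 3 ≤ M := (le_max_right _ _).trans hM
      positivity)]
    have h3 : (3 : ℝ) ≤ M := by exact_mod_cast (le_max_right _ _).trans hM
    have := Real.exp_one_lt_d9
    linarith
  have hle : (M : ℝ) * Real.exp (-(Real.log M) ^ ε) ≤ (M : ℝ) * Real.exp (-(Real.log M) ^ (2 * e)) := by
    apply mul_le_mul_of_nonneg_left _ (Nat.cast_nonneg _)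
    apply Real.exp_le_exp.2
    have := Real.rpow_le_rpow_of_exponent_le hlog heε
    linarith
  refine ⟨(hle.trans (g1 M ((le_max_left _ _).trans ((le_max_left _ _).trans hM)))).trans (le_of_eq ?_),
    (hle.trans (g2 M ((le_max_right _ _).trans ((le_max_left _ _).trans hM)))).trans (le_of_eq ?_)⟩
  · refine congrArg (fun s : Finset ℕ => (s.card : ℝ)) (filter_congr fun n _ => ?_)
    show ms α c n ∈ Fam (true, N, k) ↔ _
    unfold Fam
    rw [if_pos rfl, Set.mem_ofPred_eq]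
    rfl
  · refine congrArg (fun s : Finset ℕ => (s.card : ℝ)) (filter_congr fun n _ => ?_)
    show ms α c n ∈ Fam (false, N, k) ↔ _
    unfold Fam
    rw [if_neg (by simp), Set.mem_ofPred_eq]
    rfl

end Pool.Agent.X20.Tr.Mai
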