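import Pool.Agent.X20.Tr.Dyad

/-! Properties of almost all integers with a bound depending on the logarithm, along `⌊α n ^ c⌋` (helper20). -/

set_option autoImplicit false

namespace Pool.Agent.X20.Tr

open Finset Filter Topology

open Classical in
/-- `Q m s B` is monotone in `B`, and for every `η > 0` there is `K` such that `Q m s ((s log x) ^ K)` for all but `η x` of
the `m ≤ x` -/
theorem orders (c : ℝ) (hc : 1 < c) : ∃ κ : ℝ, 0 < κ ∧ κ < 1 ∧ ∀ Q : ℕ → ℕ → ℝ → Prop,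
    (∀ (m s : ℕ) (B B' : ℝ), 0 < B → B ≤ B' → Q m s B → Q m s B') →
    (∀ η : ℝ, 0 < η → ∃ K : ℕ, ∀ x s : ℕ, 8 ≤ x → 1 ≤ s →
      ({m : ℕ | 1 ≤ m ∧ m ≤ x ∧ ¬ Q m s ((s * Real.log x) ^ K)}.ncard : ℝ) ≤ η * x) →
    ∃ E : Set ℝ, dimH E ≤ ENNReal.ofReal (1 - κ) ∧ ∀ η : ℝ, 0 < η → ∃ K : ℕ, ∀ α : ℝ, 0 < α → α ∉ E →
      ∀ s : ℕ, 1 ≤ s → ∃ N₀ : ℕ, ∀ N : ℕ, N₀ ≤ N →
        (((Icc 1 N).filter (fun n : ℕ => ¬ Q ⌊α * (n : ℝ) ^ c⌋₊ s
          ((s * Real.log (⌊α * (n : ℝ) ^ c⌋₊ : ℕ)) ^ K))).card : ℝ) ≤ η * N := by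
  obtain ⟨κ, hκ0, hκ1, H⟩ := sparse_up c hc
  refine ⟨κ, hκ0, hκ1, fun Q hmono hQ => ?_⟩
  obtain ⟨E, hE, hh⟩ := H (ℕ × ℕ) (fun i m => ¬ Q m i.2 ((i.2 * Real.log m) ^ i.1))
  refine ⟨E, hE, fun η hη => ?_⟩
  obtain ⟨K, hK⟩ := hQ (η / 2) (by positivity)
  refine ⟨K + 1, fun α hα hαE s hs => ?_⟩
  have hs1 : (1 : ℝ) ≤ s := by exact_mod_cast hs
  have hlog : Tendsto (fun N : ℕ => Real.log (N : ℝ)) atTop atTop :=
    Real.tendsto_log_atTop.comp tendsto_natCast_atTop_atTop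
  obtain ⟨N₀, hN₀⟩ := hh α hα hαE (K + 1, s) (η / 2) (by positivity) (fun ε hε => by
    obtain ⟨X₀, hX₀⟩ := (hlog.eventually_ge_atTop (2 * (|Real.log ε| + 2 ^ K + 1))).exists_forall_of_atTop
    refine ⟨max X₀ 8, fun X hX => ?_⟩
    have hX8 : 8 ≤ X := (le_max_right _ _).trans hX
    have h1 := hX₀ X ((le_max_left _ _).trans hX)
    have hX0 : (0 : ℝ) < X := by
      have : 0 < X := by omega
      exact_mod_cast this
    have h2 := hK X s hX8 hs
    have hfin : {m : ℕ | 1 ≤ m ∧ m ≤ X ∧ ¬ Q m s ((s * Real.log X) ^ K)}.Finite :=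
      (Set.finite_Iic X).subset fun m hm => hm.2.1
    have h3 : ((Icc 1 X).filter (fun m : ℕ => ¬ Q m s ((s * Real.log m) ^ (K + 1)))) ⊆
        hfin.toFinset ∪ Icc 1 ⌊ε * X⌋₊ := by
      intro m hm
      rw [mem_filter, mem_Icc] at hm
      obtain ⟨⟨hm1, hm2⟩, hm3⟩ := hm
      rw [mem_union, Set.Finite.mem_toFinset]
      by_cases hmε : (m : ℝ) ≤ ε * X
      · exact Or.inr (mem_Icc.2 ⟨hm1, Nat.le_floor hmε⟩)
      · left
        push Not at hmε
        refine ⟨hm1, hm2, fun hQm => hm3 ?_⟩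
        have h4 : Real.log ε + Real.log X ≤ Real.log m := by
          rw [← Real.log_mul hε.ne' hX0.ne']
          exact Real.log_le_log (by positivity) hmε.le
        have h5 := neg_abs_le (Real.log ε)
        have h6 : (0 : ℝ) ≤ 2 ^ K := by positivity
        have h6' := abs_nonneg (Real.log ε)
        have h7 : Real.log X ≤ 2 * Real.log m := by linarith
        have h8 : (2 : ℝ) ^ K ≤ Real.log m := by linarith
        have h9 : 0 < Real.log X := by linarith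
        have h10 : 0 < Real.log m := by linarith
        refine hmono m s _ _ (by positivity) ?_ hQm
        calc ((s : ℝ) * Real.log X) ^ K ≤ (2 * ((s : ℝ) * Real.log m)) ^ K := by
              apply pow_le_pow_left₀ (by positivity)
              nlinarith
          _ = 2 ^ K * ((s : ℝ) * Real.log m) ^ K := mul_pow _ _ _
          _ ≤ ((s : ℝ) * Real.log m) * ((s : ℝ) * Real.log m) ^ K := by
              apply mul_le_mul_of_nonneg_right _ (by positivity)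
              nlinarith
          _ = ((s : ℝ) * Real.log m) ^ (K + 1) := by rw [pow_succ, mul_comm]
    have h4 := (card_le_card h3).trans (card_union_le _ _)
    rw [Nat.card_Icc, Nat.add_sub_cancel, ← Set.ncard_eq_toFinset_card _ hfin] at h4
    have h5 : (((Icc 1 X).filter (fun m : ℕ => ¬ Q m s ((s * Real.log m) ^ (K + 1)))).card : ℝ) ≤
        ({m : ℕ | 1 ≤ m ∧ m ≤ X ∧ ¬ Q m s ((s * Real.log X) ^ K)}.ncard : ℝ) + (⌊ε * X⌋₊ : ℝ) := by
      exact_mod_cast h4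
    have h6 : (⌊ε * X⌋₊ : ℝ) ≤ ε * X := Nat.floor_le (by positivity)
    have h7 : (((Icc 1 X).filter (fun m : ℕ => ¬ Q m s ((s * Real.log m) ^ (K + 1)))).card : ℝ) ≤
        (η / 2 + ε) * X := by linarith
    exact le_trans (le_of_eq (congrArg Nat.cast (card_filt _ fun _ => Iff.rfl))) h7) (η / 2) (by positivity)
  refine ⟨N₀, fun N hN => ?_⟩
  have h1 := hN₀ N hN
  rw [add_halves] at h1
  exact le_trans (le_of_eq (congrArg Nat.cast (card_filt _ fun _ => Iff.rfl))) h1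

end Pool.Agent.X20.Tr
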