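import Pool.Agent.X20.Tr.Den

/-! Patterns of a function with values `-1, 0, 1` in short intervals which start near `⌊α n ^ c⌋` (helper20). -/

set_option autoImplicit false

namespace Pool.Agent.X20.Tr.Pat

open Finset Filter
open Pool.Agent.X20.Tr
open Pool.Agent.Y854.PS (ms xs)

/-- functions with values `-1, 0, 1` -/
def Tri3 (g : ℕ → ℤ) : Prop := ∀ n, g n = 1 ∨ g n = 0 ∨ g n = -1

/-- the digit of the pattern -/
def dig (g : ℕ → ℤ) (m i : ℕ) : ℕ := (g (m + i + 1) + 1).toNat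

/-- the pattern as a list of digits -/
def word (g : ℕ → ℤ) (L m : ℕ) : List ℕ := (List.range L).map (dig g m)

/-- the code of the pattern -/
def code (g : ℕ → ℤ) (L m : ℕ) : ℕ := 3 ^ L + Nat.ofDigits 3 (word g L m)

lemma dig_lt {g : ℕ → ℤ} (hg : Tri3 g) (m i : ℕ) : dig g m i < 3 := by
  unfold dig
  rcases hg (m + i + 1) with e | e | e <;> rw [e] <;> norm_num

lemma word_len (g : ℕ → ℤ) (L m : ℕ) : (word g L m).length = L := by
  unfold word
  simp

lemma word_lt {g : ℕ → ℤ} (hg : Tri3 g) (L m : ℕ) : ∀ l ∈ word g L m, l < 3 := by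
  intro l hl
  unfold word at hl
  rw [List.mem_map] at hl
  obtain ⟨i, _, rfl⟩ := hl
  exact dig_lt hg m i

lemma code_ge (g : ℕ → ℤ) (L m : ℕ) : 3 ^ L ≤ code g L m := Nat.le_add_right _ _

lemma code_lt {g : ℕ → ℤ} (hg : Tri3 g) (L m : ℕ) : code g L m < 2 * 3 ^ L := by
  unfold code
  have h := Nat.ofDigits_lt_base_pow_length (b := 3) (l := word g L m) (by norm_num) (word_lt hg L m)
  rw [word_len] at h
  omega

lemma code_inj {g : ℕ → ℤ} (hg : Tri3 g) (L m m' : ℕ) (h : code g L m = code g L m') :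
    ∀ i < L, g (m + i + 1) = g (m' + i + 1) := by
  intro i hi
  have h1 : word g L m = word g L m' := by
    apply Nat.ofDigits_inj_of_len_eq (b := 3) (by norm_num) (by rw [word_len, word_len]) (word_lt hg L m)
      (word_lt hg L m')
    unfold code at h
    omega
  have h2 : dig g m i = dig g m' i := by
    have h3 : (word g L m)[i]? = (word g L m')[i]? := by rw [h1]
    unfold word at h3
    simpa [List.getElem?_map, List.getElem?_range hi] using h3
  unfold dig at h2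
  rcases hg (m + i + 1) with e | e | e <;> rcases hg (m' + i + 1) with e' | e' | e' <;>
    rw [e, e'] at h2 ⊢ <;> simp at h2

lemma log_code {L t : ℕ} (h1 : 3 ^ L ≤ t) (h2 : t < 2 * 3 ^ L) : Nat.log 3 t = L := by
  rw [Nat.log_eq_iff (Or.inr ⟨by norm_num, by
    have : 0 < 3 ^ L := by positivity
    omega⟩)]
  refine ⟨h1, ?_⟩
  rw [pow_succ]
  omega

/-- the family of functions -/
noncomputable def F (g : ℕ → ℤ) (t m : ℕ) : ℝ :=
  if code g (Nat.log 3 t.unpair.1) (m + t.unpair.2) = t.unpair.1 then 1 else 0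

lemma F_tri (g : ℕ → ℤ) (t : ℕ) : Tri (F g t) := by
  intro m
  unfold F
  split_ifs
  · exact Or.inl rfl
  · exact Or.inr (Or.inl rfl)

/-- expansion of a function of the pattern -/
lemma expand {g : ℕ → ℤ} (hg : Tri3 g) (L j : ℕ) (φ : ℕ → ℝ) (m : ℕ) :
    φ (code g L (m + j)) = ∑ t ∈ Ico (3 ^ L) (2 * 3 ^ L), φ t * F g (Nat.pair t j) m := by
  have e : ∀ t ∈ Ico (3 ^ L) (2 * 3 ^ L), φ t * F g (Nat.pair t j) m =
      if code g L (m + j) = t then φ t else 0 := by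
    intro t ht
    rw [mem_Ico] at ht
    unfold F
    rw [Nat.unpair_pair]
    simp only
    rw [log_code ht.1 ht.2]
    split_ifs <;> simp
  rw [sum_congr rfl e, sum_ite_eq, if_pos]
  rw [mem_Ico]
  exact ⟨code_ge g L _, code_lt hg L _⟩

/-- the transfer of the distribution of the patterns -/
def TV (g : ℕ → ℤ) (c α κ : ℝ) : Prop := ∃ N₀ : ℕ, ∀ N : ℕ, N₀ ≤ N →
  |(N : ℝ) - ∑ m ∈ Ioc 0 (ms α c N), wt c α m| ≤ (N : ℝ) ^ (1 - κ) ∧
  ∀ L j : ℕ, (3 : ℝ) ^ L ≤ (N : ℝ) ^ κ → (j : ℝ) ≤ (N : ℝ) ^ κ → ∀ (B : ℝ) (φ : ℕ → ℝ), (∀ t, |φ t| ≤ B) →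
    |∑ n ∈ Icc 1 N, φ (code g L (ms α c n + j)) - ∑ m ∈ Ioc 0 (ms α c N), φ (code g L (m + j)) * wt c α m| ≤
      B * 3 ^ L * (N : ℝ) ^ (1 - 8 * κ)

theorem tv {g : ℕ → ℤ} (hg : Tri3 g) (c : ℝ) (hc : 1 < c) : ∃ κ : ℝ, 0 < κ ∧ 8 * κ < 1 ∧ ∃ E : Set ℝ,
    dimH E ≤ ENNReal.ofReal (1 - κ) ∧ ∀ α : ℝ, 0 < α → α ∉ E → TV g c α κ := by
  obtain ⟨κ, hκ0, hκ1, H1⟩ := two_fam c hc
  refine ⟨κ / 8, by positivity, by linarith, ?_⟩
  obtain ⟨E, hE', h⟩ := H1 (F g) (F_tri g) Unit (fun _ _ => 0) (fun _ _ => Or.inr (Or.inl rfl))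
  refine ⟨E, hE'.trans (ENNReal.ofReal_le_ofReal (by linarith)), fun α hα hαE => ?_⟩
  obtain ⟨⟨N₁, h1⟩, _, _⟩ := h α hα hαE
  obtain ⟨N₂, h2⟩ := (((tend_pow (κ / 8) (by positivity)).eventually_ge_atTop 9).and
    (eventually_ge_atTop 1)).exists_forall_of_atTop
  refine ⟨max N₁ N₂, fun N hN => ?_⟩
  obtain ⟨k1, k2⟩ := h2 N ((le_max_right _ _).trans hN)
  obtain ⟨k0, k3⟩ := h1 N ((le_max_left _ _).trans hN)
  have hN0 : (0 : ℝ) < N := by exact_mod_cast k2
  have hN1 : (1 : ℝ) ≤ N := by exact_mod_cast k2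
  refine ⟨k0.trans (Real.rpow_le_rpow_of_exponent_le hN1 (by linarith)), fun L j hL hj B φ hφ => ?_⟩
  obtain ⟨P, hP⟩ : ∃ P : ℝ, P = (N : ℝ) ^ (κ / 8) := ⟨_, rfl⟩
  rw [← hP] at hL hj k1
  have hPκ : P ^ 8 = (N : ℝ) ^ κ := by
    rw [hP, ← Real.rpow_natCast, ← Real.rpow_mul hN0.le]
    congr 1
    push_cast
    ring
  have hcode : ∀ t ∈ Ico (3 ^ L) (2 * 3 ^ L), ((Nat.pair t j : ℕ) : ℝ) ≤ (N : ℝ) ^ κ := by
    intro t ht
    rw [mem_Ico] at ht
    have ht2 : (t : ℝ) ≤ 2 * P := by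
      have : (t : ℝ) ≤ 2 * 3 ^ L := by exact_mod_cast ht.2.le
      linarith
    have hm : ((max t j + 1 : ℕ) : ℝ) ≤ 3 * P := by
      push_cast
      rcases le_total t j with h6 | h6
      · have h7 : (t : ℝ) ≤ j := by exact_mod_cast h6
        rw [max_eq_right h7]
        linarith
      · have h7 : (j : ℝ) ≤ t := by exact_mod_cast h6
        rw [max_eq_left h7]
        linarith
    have b1 : ((Nat.pair t j : ℕ) : ℝ) ≤ ((max t j + 1 : ℕ) : ℝ) ^ 2 := by
      exact_mod_cast (Nat.pair_lt_max_add_one_sq t j).le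
    rw [← hPκ]
    calc ((Nat.pair t j : ℕ) : ℝ) ≤ ((max t j + 1 : ℕ) : ℝ) ^ 2 := b1
      _ ≤ (3 * P) ^ 2 := pow_le_pow_left₀ (Nat.cast_nonneg _) hm 2
      _ = 9 * P ^ 2 := by ring
      _ ≤ P * P ^ 2 := mul_le_mul_of_nonneg_right k1 (by positivity)
      _ = P ^ 3 := by ring
      _ ≤ P ^ 8 := pow_le_pow_right₀ (by linarith) (by norm_num)
  have e1 : ∑ n ∈ Icc 1 N, φ (code g L (ms α c n + j)) - ∑ m ∈ Ioc 0 (ms α c N), φ (code g L (m + j)) * wt c α m =
      ∑ t ∈ Ico (3 ^ L) (2 * 3 ^ L), φ t * (∑ n ∈ Icc 1 N, F g (Nat.pair t j) (ms α c n) -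
        ∑ m ∈ Ioc 0 (ms α c N), F g (Nat.pair t j) m * wt c α m) := by
    have e2 : ∀ n ∈ Icc 1 N, φ (code g L (ms α c n + j)) =
        ∑ t ∈ Ico (3 ^ L) (2 * 3 ^ L), φ t * F g (Nat.pair t j) (ms α c n) := fun n _ => expand hg L j φ _
    have e3 : ∀ m ∈ Ioc 0 (ms α c N), φ (code g L (m + j)) * wt c α m =
        ∑ t ∈ Ico (3 ^ L) (2 * 3 ^ L), φ t * (F g (Nat.pair t j) m * wt c α m) := by
      intro m _
      rw [expand hg L j φ m, sum_mul]
      exact sum_congr rfl fun t _ => by ring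
    rw [sum_congr rfl e2, sum_congr rfl e3, sum_comm, sum_comm (s := Ioc 0 (ms α c N)), ← sum_sub_distrib]
    apply sum_congr rfl
    intro t _
    rw [mul_sub, mul_sum, mul_sum]
  have hB : 0 ≤ B := (abs_nonneg _).trans (hφ 0)
  rw [e1]
  refine (abs_sum_le_sum_abs _ _).trans ?_
  calc ∑ t ∈ Ico (3 ^ L) (2 * 3 ^ L), |φ t * (∑ n ∈ Icc 1 N, F g (Nat.pair t j) (ms α c n) -
        ∑ m ∈ Ioc 0 (ms α c N), F g (Nat.pair t j) m * wt c α m)|
      ≤ ∑ t ∈ Ico (3 ^ L) (2 * 3 ^ L), B * (N : ℝ) ^ (1 - κ) := by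
        apply sum_le_sum
        intro t ht
        rw [abs_mul]
        exact mul_le_mul (hφ t) (k3 _ (hcode t ht)) (abs_nonneg _) hB
    _ = B * 3 ^ L * (N : ℝ) ^ (1 - 8 * (κ / 8)) := by
        rw [sum_const, Nat.card_Ico, nsmul_eq_mul, show 2 * 3 ^ L - 3 ^ L = 3 ^ L by omega,
          show 8 * (κ / 8) = κ by ring]
        push_cast
        ring

/-- functions of the pattern -/
lemma of_pattern {g : ℕ → ℤ} (hg : Tri3 g) (L : ℕ) (V : ℕ → ℝ) (B : ℝ) (hB : 0 ≤ B) (hV : ∀ n, |V n| ≤ B)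
    (hp : ∀ m m' : ℕ, (∀ i < L, g (m + i + 1) = g (m' + i + 1)) → V m = V m') :
    ∃ φ : ℕ → ℝ, (∀ t, |φ t| ≤ B) ∧ ∀ n, V n = φ (code g L n) := by
  classical
  refine ⟨fun t => if h : ∃ m, code g L m = t then V h.choose else 0, fun t => ?_, fun n => ?_⟩
  · show |(if h : ∃ m, code g L m = t then V h.choose else 0)| ≤ B
    split_ifs
    · exact hV _
    · rw [abs_zero]
      exact hB
  · show V n = (if h : ∃ m, code g L m = code g L n then V h.choose else 0)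
    have h : ∃ m, code g L m = code g L n := ⟨n, rfl⟩
    rw [dif_pos h]
    exact (hp _ _ (code_inj hg L _ _ h.choose_spec)).symm

/-- means of functions of the patterns over the starting points `⌊α n ^ c⌋` -/
theorem means {g : ℕ → ℤ} (hg : Tri3 g) {c α κ : ℝ} (hc : 1 < c) (hα : 0 < α) (hκ : 0 < κ) (hκ8 : 8 * κ < 1)
    (hT : TV g c α κ) (B : ℝ) (hB : 0 ≤ B) (ι : Type*) (V : ι → ℕ → ℕ → ℝ) (h0 : ∀ v n H, 0 ≤ V v n H)
    (h1 : ∀ v n H, V v n H ≤ B * H)
    (hp : ∀ v m m' H, (∀ i < H, g (m + i + 1) = g (m' + i + 1)) → V v m H = V v m' H)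
    (hs : ∀ v n H H', V v n (H + H') ≤ V v n H + V v (n + H) H')
    (hin : ∀ ε : ℝ, 0 < ε → ∃ H₀ : ℕ, ∀ N H : ℕ, H₀ ≤ H → H ≤ N → ∀ v, ∑ n ∈ Icc 1 N, V v n H ≤ ε * H * N) :
    ∀ ε : ℝ, 0 < ε → ∃ H₀ N₀ : ℕ, ∀ N : ℕ, N₀ ≤ N → ∀ H : ℕ, H₀ ≤ H → (H : ℝ) ≤ (N : ℝ) ^ κ → ∀ v,
      ∑ n ∈ Icc 1 N, V v (ms α c n) H ≤ ε * H * N := by
  intro ε hε
  obtain ⟨H₁, h2⟩ := hin (ε / 4) (by positivity)
  obtain ⟨l, hl⟩ : ∃ l : ℕ, l = max H₁ 1 := ⟨_, rfl⟩
  have hl1 : 1 ≤ l := by rw [hl]; exact le_max_right _ _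
  have hlH : H₁ ≤ l := by rw [hl]; exact le_max_left _ _
  have hl0 : (0 : ℝ) < l := by exact_mod_cast hl1
  have hw0 : 0 ≤ wt c α 1 := wt_nonneg hc hα 1
  obtain ⟨N₁, hT1⟩ := hT
  obtain ⟨N₂, hN21, h3⟩ := small_pow κ hκ (ε / 4 + (ε / 4) * wt c α 1 + B * 3 ^ l) (B * l * wt c α 1) (ε / 4)
    (by positivity) (by positivity) (by positivity)
  obtain ⟨N₃, h4⟩ := ((tend_ms hc hα).eventually_ge_atTop 1).exists_forall_of_atTop
  obtain ⟨N₄, h5⟩ := ((tend_pow κ hκ).eventually_ge_atTop ((3 : ℝ) ^ l)).exists_forall_of_atTop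
  refine ⟨⌈B * l * 4 / ε⌉₊, max (max N₁ N₂) (max N₃ N₄), fun N hN H hH hHN v => ?_⟩
  obtain ⟨k0, k1⟩ := hT1 N (((le_max_left _ _).trans (le_max_left _ _)).trans hN)
  have k2 := h3 N (((le_max_right _ _).trans (le_max_left _ _)).trans hN)
  have k3 := h4 N (((le_max_left _ _).trans (le_max_right _ _)).trans hN)
  have k4 := h5 N (((le_max_right _ _).trans (le_max_right _ _)).trans hN)
  have hN1 : 1 ≤ N := hN21.trans (((le_max_right _ _).trans (le_max_left _ _)).trans hN)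
  have hN0 : (0 : ℝ) < N := by exact_mod_cast hN1
  have hN1' : (1 : ℝ) ≤ N := by exact_mod_cast hN1
  have hHB : B * l ≤ ε / 4 * H := by
    have := (Nat.le_ceil (B * l * 4 / ε)).trans (by exact_mod_cast hH : (⌈B * l * 4 / ε⌉₊ : ℝ) ≤ H)
    rw [div_le_iff₀ hε] at this
    linarith
  -- splitting
  obtain ⟨q, hq⟩ : ∃ q : ℕ, q = H / l := ⟨_, rfl⟩
  obtain ⟨r, hr⟩ : ∃ r : ℕ, r = H % l := ⟨_, rfl⟩
  have hqr : q * l + r = H := by
    rw [hq, hr, mul_comm]
    exact Nat.div_add_mod H l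
  have hrl : r < l := by rw [hr]; exact Nat.mod_lt _ hl1
  have hsplit : ∀ (q' n : ℕ), V v n (q' * l + r) ≤ ∑ j ∈ range q', V v (n + j * l) l + V v (n + q' * l) r := by
    intro q'
    induction q' with
    | zero => intro n; simp
    | succ q' ih =>
      intro n
      have e1 : (q' + 1) * l + r = l + (q' * l + r) := by ring
      rw [e1]
      refine (hs v n l (q' * l + r)).trans ?_
      have := ih (n + l)
      rw [sum_range_succ']
      have e2 : ∀ j, n + l + j * l = n + (j + 1) * l := fun j => by ring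
      simp only [e2] at this
      simp only [Nat.zero_mul, Nat.add_zero]
      linarith
  have hVH : ∀ n, V v n H ≤ ∑ j ∈ range q, V v (n + j * l) l + B * l := by
    intro n
    have h6 := hsplit q n
    rw [hqr] at h6
    have h7 := h1 v (n + q * l) r
    have h8 : B * (r : ℝ) ≤ B * l := mul_le_mul_of_nonneg_left (by exact_mod_cast hrl.le) hB
    linarith
  obtain ⟨φ, hφ1, hφ2⟩ := of_pattern hg l (fun n => V v n l) (B * l) (by positivity) (fun n => by
    rw [abs_of_nonneg (h0 v n l)]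
    exact h1 v n l) (fun m m' hm => hp v m m' l hm)
  have hql : (q : ℝ) * l ≤ H := by
    have : q * l ≤ H := by omega
    exact_mod_cast this
  obtain ⟨P, hP⟩ : ∃ P : ℝ, P = (N : ℝ) ^ (1 - κ) := ⟨_, rfl⟩
  have hP8 : (N : ℝ) ^ (1 - 8 * κ) ≤ P := by
    rw [hP]
    exact Real.rpow_le_rpow_of_exponent_le hN1' (by linarith)
  have hHP : (H : ℝ) ≤ P := by
    rw [hP]
    exact hHN.trans (Real.rpow_le_rpow_of_exponent_le hN1' (by linarith))
  rw [← hP] at k0 k2
  have hP0 : 0 ≤ P := by rw [hP]; positivity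
  have hblock : ∀ j ∈ range q, ∑ n ∈ Icc 1 N, V v (ms α c n + j * l) l ≤
      l * (ε / 4 * (N + P) + (ε / 4 * P + B * l) * wt c α 1 + B * 3 ^ l * P) := by
    intro j hj
    rw [mem_range] at hj
    have hjl : j * l ≤ H := by
      have : j * l ≤ q * l := Nat.mul_le_mul_right _ hj.le
      omega
    have hjH : ((j * l : ℕ) : ℝ) ≤ H := by exact_mod_cast hjl
    have k5 := k1 l (j * l) k4 (hjH.trans hHN) (B * l) φ hφ1
    have k6 := abel_le (fun m => V v (m + j * l) l) (wt c α) (ε / 4 * l) (ε / 4 * l * H + B * l * l) (ms α c N)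
      (fun m _ => wt_nonneg hc hα m) (fun m hm => wt_anti hc hα m hm)
      (fun x hx => by
        rw [abs_of_nonneg (sum_nonneg fun m _ => h0 v _ _)]
        have hx0 : (0 : ℝ) ≤ x := Nat.cast_nonneg _
        have hB1 : 0 ≤ B * l * l := by positivity
        have hB2 : 0 ≤ ε / 4 * l * H := by positivity
        have hB3 : 0 ≤ ε / 4 * l * x := by positivity
        rcases le_total l (x + j * l) with h6 | h6
        · have h7 := h2 (x + j * l) l hlH h6 v
          have h8 : ∑ m ∈ Ioc 0 x, V v (m + j * l) l ≤ ∑ n ∈ Icc 1 (x + j * l), V v n l := by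
            rw [← sum_image (f := fun n => V v n l) (g := fun m => m + j * l)
              (fun a _ b _ hab => Nat.add_right_cancel hab)]
            refine sum_le_sum_of_subset_of_nonneg (fun n hn => ?_) fun n _ _ => h0 v n l
            rw [mem_image] at hn
            obtain ⟨m, hm, rfl⟩ := hn
            rw [mem_Ioc] at hm
            rw [mem_Icc]
            omega
          have h9 : ε / 4 * l * ((x + j * l : ℕ) : ℝ) ≤ ε / 4 * l * x + ε / 4 * l * H := by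
            rw [← mul_add]
            apply mul_le_mul_of_nonneg_left _ (by positivity)
            rw [Nat.cast_add]
            linarith
          linarith
        · have h7 : ∑ m ∈ Ioc 0 x, V v (m + j * l) l ≤ x * (B * l) := by
            calc ∑ m ∈ Ioc 0 x, V v (m + j * l) l ≤ ∑ m ∈ Ioc 0 x, B * l := sum_le_sum fun m _ => h1 v _ _
              _ = x * (B * l) := by simp
          have h8 : (x : ℝ) ≤ l := by
            have : x ≤ l := by omega
            exact_mod_cast this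
          have h9 : (x : ℝ) * (B * l) ≤ l * (B * l) := mul_le_mul_of_nonneg_right h8 (by positivity)
          have h10 : (l : ℝ) * (B * l) = B * l * l := by ring
          linarith) (by positivity) k3
    rw [abs_of_nonneg (sum_nonneg fun m _ => mul_nonneg (h0 v _ _) (wt_nonneg hc hα m))] at k6
    simp only [← hφ2] at k5
    have k7 : ∑ m ∈ Ioc 0 (ms α c N), wt c α m ≤ N + P := by
      rw [_root_.abs_le] at k0
      linarith [k0.1]
    have k8 : B * l * 3 ^ l * (N : ℝ) ^ (1 - 8 * κ) ≤ B * l * 3 ^ l * P := mul_le_mul_of_nonneg_left hP8 (by positivity)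
    have k9 : ε / 4 * l * ∑ m ∈ Ioc 0 (ms α c N), wt c α m ≤ ε / 4 * l * (N + P) :=
      mul_le_mul_of_nonneg_left k7 (by positivity)
    have k10 : (ε / 4 * l * H + B * l * l) * wt c α 1 ≤ (ε / 4 * l * P + B * l * l) * wt c α 1 := by
      apply mul_le_mul_of_nonneg_right _ hw0
      have := mul_le_mul_of_nonneg_left hHP (show 0 ≤ ε / 4 * l by positivity)
      linarith
    rw [_root_.abs_le] at k5
    have k11 : l * (ε / 4 * (N + P) + (ε / 4 * P + B * l) * wt c α 1 + B * 3 ^ l * P) =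
        ε / 4 * l * (N + P) + (ε / 4 * l * P + B * l * l) * wt c α 1 + B * l * 3 ^ l * P := by ring
    rw [k11]
    linarith [k5.2]
  calc ∑ n ∈ Icc 1 N, V v (ms α c n) H
      ≤ ∑ n ∈ Icc 1 N, (∑ j ∈ range q, V v (ms α c n + j * l) l + B * l) := sum_le_sum fun n _ => hVH _
    _ = ∑ j ∈ range q, ∑ n ∈ Icc 1 N, V v (ms α c n + j * l) l + N * (B * l) := by
        rw [sum_add_distrib, sum_comm, sum_const, Nat.card_Icc, Nat.add_sub_cancel, nsmul_eq_mul]
    _ ≤ q * (l * (ε / 4 * (N + P) + (ε / 4 * P + B * l) * wt c α 1 + B * 3 ^ l * P)) + N * (ε / 4 * H) := by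
        apply add_le_add
        · refine (sum_le_sum hblock).trans (le_of_eq ?_)
          rw [sum_const, card_range, nsmul_eq_mul]
        · exact mul_le_mul_of_nonneg_left hHB hN0.le
    _ ≤ H * (ε / 4 * (N + P) + (ε / 4 * P + B * l) * wt c α 1 + B * 3 ^ l * P) + N * (ε / 4 * H) := by
        rw [← mul_assoc]
        apply add_le_add_left
        exact mul_le_mul_of_nonneg_right hql (by positivity)
    _ ≤ ε * H * N := by
        have k12 : ε / 4 * (N + P) + (ε / 4 * P + B * l) * wt c α 1 + B * 3 ^ l * P ≤ ε / 2 * N := by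
          nlinarith [k2]
        have k13 : (H : ℝ) * (ε / 4 * (N + P) + (ε / 4 * P + B * l) * wt c α 1 + B * 3 ^ l * P) ≤
            H * (ε / 2 * N) := mul_le_mul_of_nonneg_left k12 (Nat.cast_nonneg _)
        have k14 : 0 ≤ (H : ℝ) * N * ε := by positivity
        nlinarith [k13]

end Pool.Agent.X20.Tr.Pat
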