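import Pool.Agent.X20.Tr.Cen
import Pool.Agent.X35.GV.PencilCurve
import Pool.Agent.X35.GM.Seq2

/-! The sums of `a_p p ^ (- i σ)` for all pencils `y² = f(x) - m q(x)`, for almost all of the integers `m = h ± ⌊α n ^ c⌋` (helper20). -/

set_option autoImplicit false

namespace Pool.Agent.X20.Tr

open Finset Filter Polynomial
open Pool.Agent.X35.GV (avg ptr tot tot0 tot1 op mem_op op_log)

lemma ptr_per (f q : ℤ[X]) (p : ℕ) {m m' : ℤ} (h : m ≡ m' [ZMOD (p : ℕ)]) : ptr f q m p = ptr f q m' p := by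
  unfold ptr
  have e : (f - C m * q).map (Int.castRingHom (ZMod p)) = (f - C m' * q).map (Int.castRingHom (ZMod p)) := by
    rw [Polynomial.map_sub, Polynomial.map_sub, Polynomial.map_mul, Polynomial.map_mul, Polynomial.map_C, Polynomial.map_C]
    have h1 : (Int.castRingHom (ZMod p)) m = (Int.castRingHom (ZMod p)) m' := by
      simpa using (ZMod.intCast_eq_intCast_iff m m' p).2 h
    rw [h1]
  rw [e]

lemma avg_ptr (f q : ℤ[X]) (p : ℕ) (hp : p.Prime) (h2 : p ≠ 2) :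
    avg p (fun n => (ptr f q n p : ℝ)) = -tot0 p (Pool.Agent.X35.GV.up f) (Pool.Agent.X35.GV.up q) (fun p _ => (1 : ℝ) * (p : ℝ)) := by
  have hp0 : (0 : ℝ) < p := by exact_mod_cast hp.pos
  have h1 := Pool.Agent.X35.GV.tot1_mean p hp h2 (Pool.Agent.X35.GV.up f) (Pool.Agent.X35.GV.up q) (fun p _ => (1 : ℝ) * (p : ℝ)) 1 1
  have h3 : ∀ n : ℤ, (ptr f q n p : ℝ) = -(1 * (tot1 p (Pool.Agent.X35.GV.up f) (Pool.Agent.X35.GV.up q) (fun p _ => (1 : ℝ) * (p : ℝ)) n / 1)) -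
      tot0 p (Pool.Agent.X35.GV.up f) (Pool.Agent.X35.GV.up q) (fun p _ => (1 : ℝ) * (p : ℝ)) := by
    intro n
    have h4 := Pool.Agent.X35.GV.ptr_tot f q n p hp h2 (fun _ => 1)
    rw [Pool.Agent.X35.GV.tot_split p hp] at h4
    rw [one_mul, div_one]
    linarith
  unfold Pool.Agent.X35.GV.avg at h1 ⊢
  have h5 : ∑ n ∈ range p, (1 * (tot1 p (Pool.Agent.X35.GV.up f) (Pool.Agent.X35.GV.up q) (fun p _ => (1 : ℝ) * (p : ℝ)) ((n : ℕ) : ℤ) / 1)) = 0 := by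
    rw [div_eq_zero_iff] at h1
    rcases h1 with h1 | h1
    · exact h1
    · exact absurd h1 hp0.ne'
  beta_reduce
  rw [sum_congr rfl fun (n : ℕ) (_ : n ∈ range p) => h3 (n : ℤ), sum_sub_distrib, sum_neg_distrib, h5, sum_const, card_range, nsmul_eq_mul]
  field_simp
  ring

lemma avg_ptr_le (f q : ℤ[X]) (hf : f.Monic) (ho : Odd f.natDegree) (hd : q.natDegree < f.natDegree) (hq : q ≠ 0) :
    ∃ K : ℝ, 0 ≤ K ∧ ∀ p : ℕ, p.Prime → p ≠ 2 → |avg p (fun n => (ptr f q n p : ℝ))| ≤ K := by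
  obtain ⟨m, hm0, hm⟩ := Pool.Agent.X35.GV.good_of_indep (Pool.Agent.X35.GV.up f) (Pool.Agent.X35.GV.up q)
    (Pool.Agent.X35.GV.up_indep f q (Pool.Agent.X35.GV.indep_of_monic _ _ hd hq))
  obtain ⟨e, he⟩ : ∃ e : ℕ, e = (Pool.Agent.X35.GV.up q).totalDegree := ⟨_, rfl⟩
  refine ⟨e + f.natDegree * m, by positivity, fun p hp h2 => ?_⟩
  have hp0 : (0 : ℝ) < p := by exact_mod_cast hp.pos
  by_cases hpm : p ∣ m
  · have h1 := Pool.Agent.X35.GV.avg_abs (1 / 2) f.natDegree (fun p n => (ptr f q n p : ℝ)) (by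
      intro p hp h2 n
      rw [← Real.sqrt_eq_rpow]
      exact Pool.Agent.X35.GV.ptr_bound f q hf ho hd n p hp h2) p hp h2
    have h3 : (p : ℝ) ≤ m := by exact_mod_cast Nat.le_of_dvd (Nat.pos_of_ne_zero hm0) hpm
    have h4 : (p : ℝ) ^ (1 / 2 : ℝ) ≤ m := by
      rw [← Real.sqrt_eq_rpow]
      have h5 : (1 : ℝ) ≤ p := by exact_mod_cast hp.one_lt.le
      have h6 : √(p : ℝ) ≤ p := by
        rw [Real.sqrt_le_left hp0.le]
        nlinarith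
      linarith
    have h7 : (f.natDegree : ℝ) * (p : ℝ) ^ (1 / 2 : ℝ) ≤ f.natDegree * m := mul_le_mul_of_nonneg_left h4 (Nat.cast_nonneg _)
    have h8 : (0 : ℝ) ≤ e := Nat.cast_nonneg _
    linarith
  · have h1 := Pool.Agent.X35.GV.tot0_abs p hp (Pool.Agent.X35.GV.up f) (Pool.Agent.X35.GV.up q) (fun p _ => (1 : ℝ) * (p : ℝ)) (p : ℝ) hp0 (by
      intro t
      rw [one_mul, abs_of_pos hp0]) (hm p hp hpm) e (le_of_eq he.symm)
    rw [avg_ptr f q p hp h2, abs_neg]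
    refine h1.trans ?_
    rw [mul_div_assoc, div_self hp0.ne', mul_one]
    have : (0 : ℝ) ≤ f.natDegree * m := by positivity
    linarith

/-- the sum of `a_p p ^ (- i σ)` is large for some `x` between `(log |m|) ^ C` and `|m| ^ κ` and some height up to `x ^ A` -/
def PtrLarge (f q : ℤ[X]) (δ A C κ : ℝ) (m : ℤ) : Prop :=
  ∃ x : ℕ, (Real.log |(m : ℝ)|) ^ C ≤ x ∧ (x : ℝ) ≤ |(m : ℝ)| ^ κ ∧ ∃ σ : ℝ, |σ| ≤ (x : ℝ) ^ A ∧
    (x : ℝ) ^ (1 + δ) < ‖∑ p ∈ op x, ((ptr f q m p : ℝ) : ℂ) * (p : ℂ) ^ (-(σ * Complex.I))‖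

lemma absorb2 (δ K : ℝ) (hδ : 0 < δ) : ∃ x₀ : ℝ, ∀ x : ℝ, x₀ ≤ x →
    (x : ℝ) ^ (1 / 2 + 1 / 2 + δ / 2) + K * x ≤ (x : ℝ) ^ (1 + δ) := by
  have h2 : Tendsto (fun x : ℝ => x ^ (δ / 2)) atTop atTop := tendsto_rpow_atTop (by positivity)
  obtain ⟨x₀, hx₀⟩ := eventually_atTop.1 ((h2.eventually_ge_atTop (1 + |K|)).and (eventually_ge_atTop (1 : ℝ)))
  refine ⟨x₀, fun x hx => ?_⟩
  obtain ⟨h3, h4⟩ := hx₀ x hx
  have hx0 : 0 < x := by linarith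
  have e1 : x ^ (1 / 2 + 1 / 2 + δ / 2) = x * x ^ (δ / 2) := by
    rw [Real.rpow_add hx0]
    norm_num
  have e2 : x ^ (1 + δ) = x * (x ^ (δ / 2) * x ^ (δ / 2)) := by
    rw [Real.rpow_add hx0, Real.rpow_one, ← Real.rpow_add hx0]
    congr 2
    ring
  rw [e1, e2]
  have h5 : 1 ≤ x ^ (δ / 2) := Real.one_le_rpow h4 (by positivity)
  have h6 : K ≤ |K| := le_abs_self K
  have h7 : (1 + |K|) * x ^ (δ / 2) ≤ x ^ (δ / 2) * x ^ (δ / 2) := mul_le_mul_of_nonneg_right h3 (by linarith)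
  have h8 : |K| ≤ |K| * x ^ (δ / 2) := le_mul_of_one_le_right (abs_nonneg K) h5
  nlinarith

open Classical in
/-- **Sums of traces for all pencils along `h ± ⌊α n ^ c⌋`.** -/
theorem ptrSparse (c : ℝ) (hc : 1 < c) : ∃ κ₀ : ℝ, 0 < κ₀ ∧ κ₀ < 1 ∧
    ∃ E : Set ℝ, dimH E ≤ ENNReal.ofReal (1 - κ₀) ∧ ∀ δ A : ℝ, 0 < δ → 0 ≤ A → ∃ C κ : ℝ, 0 < C ∧ 0 < κ ∧
      ∀ α : ℝ, 0 < α → α ∉ E → ∀ f q : ℤ[X], f.Monic → Odd f.natDegree → q.natDegree < f.natDegree → q ≠ 0 →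
        ∀ (h s : ℤ), (s = 1 ∨ s = -1) → ∃ N₀ : ℕ, ∀ N : ℕ, N₀ ≤ N →
          (((Icc 1 N).filter (fun n : ℕ => PtrLarge f q δ A C κ
            (h + s * ((⌊α * (n : ℝ) ^ c⌋₊ : ℕ) : ℤ)))).card : ℝ) ≤ (N : ℝ) ^ (1 - κ) := by
  obtain ⟨κ₀, hκ0, hκ1, H⟩ := centeredSparse c hc
  refine ⟨κ₀, hκ0, hκ1, ?_⟩
  let Γ : Type := {c : ℤ[X] × ℤ[X] // c.1.Monic ∧ Odd c.1.natDegree ∧ c.2.natDegree < c.1.natDegree ∧ c.2 ≠ 0}
  have hcount : Countable Γ := by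
    have h0 := Pool.Agent.X35.GM.countable_int_poly
    exact Subtype.countable
  have hl3 : 1 ≤ Real.log 3 := by
    rw [Real.le_log_iff_exp_le (by norm_num)]
    exact Real.exp_one_lt_three.le
  have hlog : ∀ p : ℕ, p.Prime → p ≠ 2 → 1 ≤ Real.log p := by
    intro p hp h2
    have h3 : 3 ≤ p := by
      have := hp.two_le
      omega
    exact hl3.trans (Real.log_le_log (by norm_num) (by exact_mod_cast h3))
  obtain ⟨E, hE1, hE2⟩ := H (1 / 2) (by norm_num) Γ (fun g p n => (ptr g.1.1 g.1.2 n p : ℝ) / Real.log p)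
    (fun g => (g.1.1.natDegree : ℝ)) (fun g => by exact_mod_cast g.2.2.1.pos)
    (by
      intro g p _ _ m m' h
      rw [ptr_per g.1.1 g.1.2 p h])
    (by
      intro g p hp h2 n
      have h1 := Pool.Agent.X35.GV.ptr_bound g.1.1 g.1.2 g.2.1 g.2.2.1 g.2.2.2.1 n p hp h2
      have h3 := hlog p hp h2
      rw [abs_div, abs_of_pos (by linarith : 0 < Real.log (p : ℝ)), div_le_iff₀ (by linarith), ← Real.sqrt_eq_rpow]
      have h4 : (0 : ℝ) ≤ g.1.1.natDegree * √(p : ℝ) := by positivity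
      nlinarith)
  refine ⟨E, hE1, fun δ A hδ hA => ?_⟩
  obtain ⟨C, κ, hC, hκ, h3⟩ := hE2 (δ / 2) A (by positivity) hA
  have hm : 0 < min κ 1 / 2 := by
    have : 0 < min κ 1 := lt_min hκ one_pos
    positivity
  have hmκ : min κ 1 / 2 ≤ κ := by
    have := min_le_left κ 1
    linarith
  refine ⟨C, min κ 1 / 2, hC, hm, fun α hα hαE f q hf ho hd hq h s hs => ?_⟩
  obtain ⟨K, hK0, hK⟩ := avg_ptr_le f q hf ho hd hq
  obtain ⟨x₀, hx₀⟩ := absorb2 δ K hδ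
  obtain ⟨M, hM1, hM⟩ : ∃ M : ℝ, 1 ≤ M ∧ ∀ y : ℝ, M ≤ y → x₀ ≤ (Real.log y) ^ C := by
    have h1 : Tendsto (fun y : ℝ => (Real.log y) ^ C) atTop atTop :=
      (tendsto_rpow_atTop hC).comp Real.tendsto_log_atTop
    obtain ⟨M, hM⟩ := eventually_atTop.1 (h1.eventually_ge_atTop x₀)
    exact ⟨max M 1, le_max_right _ _, fun y hy => hM y ((le_max_left _ _).trans hy)⟩
  obtain ⟨n₀, hn₀⟩ := large_seq hc hα h s hs M
  refine few_more hκ n₀ (fun n hn hP => ?_) (h3 α hα hαE ⟨(f, q), hf, ho, hd, hq⟩ h s hs)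
  have hlarge := hn₀ n hn
  obtain ⟨m, hmeq⟩ : ∃ m : ℤ, m = h + s * ((⌊α * (n : ℝ) ^ c⌋₊ : ℕ) : ℤ) := ⟨_, rfl⟩
  rw [← hmeq] at hP hlarge ⊢
  obtain ⟨x, hx1, hx2, σ, hσ, hlt⟩ := hP
  refine ⟨x, hx1, hx2.trans (Real.rpow_le_rpow_of_exponent_le (hM1.trans hlarge) hmκ), σ, hσ, ?_⟩
  have hxx := hx₀ x ((hM _ hlarge).trans hx1)
  have hsplit : ∑ p ∈ op x, ((ptr f q m p : ℝ) : ℂ) * (p : ℂ) ^ (-(σ * Complex.I)) =
      ∑ p ∈ op x, ((((ptr f q m p : ℝ) / Real.log p - avg p (fun n => (ptr f q n p : ℝ) / Real.log p)) * Real.log p : ℝ) : ℂ) *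
        (p : ℂ) ^ (-(σ * Complex.I)) +
      ∑ p ∈ op x, ((avg p (fun n => (ptr f q n p : ℝ)) : ℝ) : ℂ) * (p : ℂ) ^ (-(σ * Complex.I)) := by
    rw [← sum_add_distrib]
    refine sum_congr rfl fun p hp => ?_
    rw [mem_op] at hp
    have h1 := hlog p hp.2.1 hp.2.2
    have h2 : Real.log (p : ℝ) ≠ 0 := by linarith
    have h4 : avg p (fun n => (ptr f q n p : ℝ) / Real.log p) = avg p (fun n => (ptr f q n p : ℝ)) / Real.log p := by
      unfold Pool.Agent.X35.GV.avg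
      rw [← sum_div]
      ring
    rw [h4, ← add_mul]
    congr 1
    rw [← Complex.ofReal_add]
    congr 1
    field_simp
    ring
  have hnorm : ‖∑ p ∈ op x, ((avg p (fun n => (ptr f q n p : ℝ)) : ℝ) : ℂ) * (p : ℂ) ^ (-(σ * Complex.I))‖ ≤ K * x := by
    refine (norm_sum_le _ _).trans ?_
    have h1 : ∀ p ∈ op x, ‖((avg p (fun n => (ptr f q n p : ℝ)) : ℝ) : ℂ) * (p : ℂ) ^ (-(σ * Complex.I))‖ ≤ K := by
      intro p hp
      rw [mem_op] at hp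
      rw [norm_mul, Complex.norm_real, Real.norm_eq_abs, Complex.norm_natCast_cpow_of_pos hp.2.1.pos]
      have h4 : (-((σ : ℂ) * Complex.I)).re = 0 := by simp
      rw [h4, Real.rpow_zero, mul_one]
      exact hK p hp.2.1 hp.2.2
    refine (sum_le_sum h1).trans ?_
    rw [sum_const, nsmul_eq_mul, mul_comm]
    exact mul_le_mul_of_nonneg_left (Pool.Agent.X35.GV.op_card x) hK0
  rw [hsplit] at hlt
  have h5 := norm_add_le (∑ p ∈ op x, ((((ptr f q m p : ℝ) / Real.log p - avg p (fun n => (ptr f q n p : ℝ) / Real.log p)) *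
    Real.log p : ℝ) : ℂ) * (p : ℂ) ^ (-(σ * Complex.I)))
    (∑ p ∈ op x, ((avg p (fun n => (ptr f q n p : ℝ)) : ℝ) : ℂ) * (p : ℂ) ^ (-(σ * Complex.I)))
  show (x : ℝ) ^ (1 / 2 + 1 / 2 + δ / 2) < ‖∑ p ∈ op x, ((((ptr f q m p : ℝ) / Real.log p -
    avg p (fun n => (ptr f q n p : ℝ) / Real.log p)) * Real.log p : ℝ) : ℂ) * (p : ℂ) ^ (-(σ * Complex.I))‖
  linarith

end Pool.Agent.X20.Tr
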