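import Pool.Agent.X20.Tr.Gap2
import Pool.Agent.Y831.RC2.Quarter
import Pool.Agent.Y831.RC2.Count2

/-! Long distances to the next prime along `⌊α n ^ c⌋` (helper20). -/

set_option autoImplicit false

namespace Pool.Agent.X20.Tr

open Finset Filter
open Pool.Agent.Y854.PS (ms xs)

/-- the record scale -/
noncomputable def f (x : ℝ) : ℝ :=
  Real.log x * (Real.log (Real.log x)) ^ 2 * Real.log (Real.log (Real.log (Real.log x))) /
    (Real.log (Real.log (Real.log x))) ^ 2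

lemma no_between (n q : ℕ) (hq : q.Prime) (h1 : Nat.nth Nat.Prime n < q) (h2 : q < Nat.nth Nat.Prime (n + 1)) :
    False := by
  have hm := Nat.nth_strictMono Nat.infinite_setOfPred_prime
  have h3 : Nat.nth Nat.Prime (Nat.count Nat.Prime q) = q := Nat.nth_count hq
  rw [← h3] at h1 h2
  have h4 := hm.lt_iff_lt.1 h1
  have h5 := hm.lt_iff_lt.1 h2
  omega

open Classical in
lemma big_gap : ∃ x₀ : ℝ, ∀ x : ℝ, x₀ ≤ x → ∀ t : ℕ, Real.log x ≤ (t : ℝ) + 1 → (t : ℝ) + 1 ≤ 1 / 8 * f x →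
    x ^ (1 - 33 / 8 * ((t : ℝ) + 1) / f x) ≤ (((Ioc 0 ⌊x⌋₊).filter (fun m => t < gap m)).card : ℝ) := by
  obtain ⟨x₀, h⟩ := Pool.Agent.Y831.RC.fin_count2 (1 / 4) (by norm_num) (by norm_num)
    Pool.Agent.Y831.RC.run_quarter (1 / 8) (by norm_num)
  refine ⟨max x₀ 1, fun x hx t h1 h2 => ?_⟩
  have hx1 : 1 ≤ x := (le_max_right _ _).trans hx
  have h3 := h x ((le_max_left _ _).trans hx) ((t : ℝ) + 1) h1 (by
    refine h2.trans (le_of_eq ?_)
    norm_num
    rfl)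
  have h4 : x ^ (1 - 33 / 8 * ((t : ℝ) + 1) / f x) = x ^ (1 - (1 / (1 / 4) + 1 / 8) * ((t : ℝ) + 1) / f x) := by
    norm_num
  rw [h4]
  refine le_trans h3 (Nat.cast_le.2 ?_)
  have hm := Nat.nth_strictMono Nat.infinite_setOfPred_prime
  apply card_le_card_of_injOn (fun n => Nat.nth Nat.Prime n)
  · intro n hn
    simp only [coe_filter, mem_range, Set.mem_ofPred_eq] at hn
    simp only [coe_filter, mem_Ioc, Set.mem_ofPred_eq]
    obtain ⟨_, h5, h6⟩ := hn
    have h7 : Nat.nth Nat.Prime n < Nat.nth Nat.Prime (n + 1) := hm (by omega)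
    refine ⟨⟨?_, ?_⟩, ?_⟩
    · exact (Nat.prime_nth_prime n).pos
    · have : Nat.nth Nat.Prime (n + 1) ≤ ⌊x⌋₊ := Nat.le_floor h5
      omega
    · rw [lt_gap]
      intro k hk hkt hp
      have h8 : ((t + 1 + Nat.nth Nat.Prime n : ℕ) : ℝ) ≤ ((Nat.nth Nat.Prime (n + 1) : ℕ) : ℝ) := by
        push_cast
        linarith
      have h9 : t + 1 + Nat.nth Nat.Prime n ≤ Nat.nth Nat.Prime (n + 1) := by exact_mod_cast h8
      exact no_between n _ hp (by omega) (by omega)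
  · intro a _ b _ hab
    exact hm.injective hab

lemma f_bounds (M : ℝ) (hM : 1 ≤ M) : ∃ x₀ : ℝ, ∀ x : ℝ, x₀ ≤ x → 1 ≤ Real.log x ∧ M * Real.log x ≤ f x ∧
    M * f x ≤ Real.log x ^ 2 := by
  obtain ⟨x₀, h⟩ := Pool.Agent.H256R2.SC.LG.ev_log (max 6 (6 * M))
  refine ⟨x₀, fun x hx => ?_⟩
  obtain ⟨_, h1, h2, h3, h4⟩ := h x hx
  have k0 : (6 : ℝ) ≤ max 6 (6 * M) := le_max_left _ _
  have k1 : 6 * M ≤ max 6 (6 * M) := le_max_right _ _
  obtain ⟨L, hL⟩ : ∃ L : ℝ, L = Real.log x := ⟨_, rfl⟩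
  rw [← hL] at h1 h2 h3 h4
  obtain ⟨u, hu⟩ : ∃ u : ℝ, u = Real.log L := ⟨_, rfl⟩
  rw [← hu] at h2 h3 h4
  obtain ⟨v, hv⟩ : ∃ v : ℝ, v = Real.log u := ⟨_, rfl⟩
  rw [← hv] at h3 h4
  obtain ⟨w, hw⟩ : ∃ w : ℝ, w = Real.log v := ⟨_, rfl⟩
  rw [← hw] at h4
  have hf : f x = L * u ^ 2 * w / v ^ 2 := by unfold f; rw [← hL, ← hu, ← hv, ← hw]
  have hL0 : 0 < L := by linarith
  have hu0 : 0 < u := by linarith
  have hv0 : 0 < v := by linarith
  have hw0 : 0 < w := by linarith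
  have hvu : v ≤ u := by
    have := Real.log_le_sub_one_of_pos hu0
    rw [← hv] at this
    linarith
  have hwv : w ≤ v := by
    have := Real.log_le_sub_one_of_pos hv0
    rw [← hw] at this
    linarith
  have hexp : M * u ^ 2 ≤ L := by
    have h5 : u ^ 3 / (Nat.factorial 3 : ℝ) ≤ Real.exp u := Real.pow_div_factorial_le_exp u hu0.le 3
    have h6 : Real.exp u = L := by rw [hu]; exact Real.exp_log hL0
    rw [h6] at h5
    have h7 : (Nat.factorial 3 : ℝ) = 6 := by norm_num [Nat.factorial]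
    rw [h7] at h5
    have h8 : 6 * M * u ^ 2 ≤ u * u ^ 2 := by
      apply mul_le_mul_of_nonneg_right _ (by positivity)
      linarith
    nlinarith
  rw [hf, ← hL]
  refine ⟨by linarith, ?_, ?_⟩
  · rw [le_div_iff₀ (by positivity)]
    have h5 : v ^ 2 ≤ u ^ 2 := by nlinarith
    have h6 : M ≤ w := by linarith
    calc M * L * v ^ 2 ≤ M * L * u ^ 2 := by gcongr
      _ ≤ w * L * u ^ 2 := by gcongr
      _ = L * u ^ 2 * w := by ring
  · have h5 : w / v ^ 2 ≤ 1 := by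
      rw [div_le_one (by positivity)]
      nlinarith
    calc M * (L * u ^ 2 * w / v ^ 2) = (M * u ^ 2) * L * (w / v ^ 2) := by ring
      _ ≤ L * L * 1 := by
          apply mul_le_mul _ h5 (by positivity) (by positivity)
          exact mul_le_mul_of_nonneg_right hexp hL0.le
      _ = L ^ 2 := by ring

end Pool.Agent.X20.Tr
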