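import Pool.Agent.X20.Tr.Den
import Pool.Agent.TH823.MRS.Circ5

/-! Exponential sums over short intervals which start at `⌊α n ^ c⌋` (helper20). -/

set_option autoImplicit false

namespace Pool.Agent.X20.Tr.Sho

open Finset Filter
open Pool.Agent.X20.Tr
open Pool.Agent.Y854.PS (ms xs)
open Pool.Agent.TH823.MRS (ExpoSmall)
open Pool.Agent.H807R2.Dav (ee norm_ee ee_add)

/-- exponential sums over short intervals -/
noncomputable def S (g : ℕ → ℤ) (θ : ℝ) (H m : ℕ) : ℂ := ∑ h ∈ Icc 1 H, (g (m + h) : ℂ) * ee (h * θ)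

/-- the window of the starting points `x` with `x < n ≤ x + H` -/
noncomputable def W (u : ℕ → ℂ) (X H n : ℕ) : ℂ := ∑ x ∈ Ioc 0 X, if x < n ∧ n ≤ x + H then u x else 0

lemma card_win (X H n : ℕ) : ((Ioc 0 X).filter (fun x => x < n ∧ n ≤ x + H)).card ≤ H := by
  calc ((Ioc 0 X).filter (fun x => x < n ∧ n ≤ x + H)).card ≤ (Ico (n - H) n).card := by
        apply card_le_card
        intro x hx
        rw [mem_filter, mem_Ioc] at hx
        rw [mem_Ico]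
        omega
    _ ≤ H := by
        rw [Nat.card_Ico]
        omega

lemma W_le (u : ℕ → ℂ) (hu : ∀ x, ‖u x‖ ≤ 1) (X H n : ℕ) : ‖W u X H n‖ ≤ H := by
  unfold W
  rw [← sum_filter]
  refine (norm_sum_le _ _).trans ?_
  calc ∑ x ∈ (Ioc 0 X).filter (fun x => x < n ∧ n ≤ x + H), ‖u x‖
      ≤ ∑ x ∈ (Ioc 0 X).filter (fun x => x < n ∧ n ≤ x + H), (1 : ℝ) := sum_le_sum fun x _ => hu x
    _ = (((Ioc 0 X).filter (fun x => x < n ∧ n ≤ x + H)).card : ℝ) := by simp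
    _ ≤ H := by exact_mod_cast card_win X H n

lemma W_lip1 (u : ℕ → ℂ) (hu : ∀ x, ‖u x‖ ≤ 1) (X H n m : ℕ) (h : m ≤ n) :
    ‖W u X H n - W u X H m‖ ≤ 2 * ((n : ℝ) - m) := by
  unfold W
  rw [← sum_sub_distrib]
  refine (norm_sum_le _ _).trans ?_
  calc ∑ x ∈ Ioc 0 X, ‖(if x < n ∧ n ≤ x + H then u x else 0) - (if x < m ∧ m ≤ x + H then u x else 0)‖
      ≤ ∑ x ∈ Ioc 0 X, ((if m ≤ x ∧ x < n then (1 : ℝ) else 0) + (if m ≤ x + H ∧ x + H < n then (1 : ℝ) else 0)) := by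
        apply sum_le_sum
        intro x _
        have hux := hu x
        have hn : ‖(0 : ℂ) - u x‖ ≤ 1 := by rw [zero_sub, norm_neg]; exact hux
        by_cases a1 : x < n ∧ n ≤ x + H <;> by_cases a2 : x < m ∧ m ≤ x + H
        · rw [if_pos a1, if_pos a2, sub_self, norm_zero]
          split_ifs <;> norm_num
        · rw [if_pos a1, if_neg a2, sub_zero, if_pos (show m ≤ x ∧ x < n by omega)]
          split_ifs <;> linarith
        · rw [if_neg a1, if_pos a2, if_pos (show m ≤ x + H ∧ x + H < n by omega)]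
          split_ifs <;> linarith
        · rw [if_neg a1, if_neg a2, sub_self, norm_zero]
          split_ifs <;> norm_num
    _ = (((Ioc 0 X).filter (fun x => m ≤ x ∧ x < n)).card : ℝ) +
        (((Ioc 0 X).filter (fun x => m ≤ x + H ∧ x + H < n)).card : ℝ) := by
        rw [sum_add_distrib, sum_boole, sum_boole]
    _ ≤ ((n : ℝ) - m) + ((n : ℝ) - m) := by
        have e1 : ((Ioc 0 X).filter (fun x => m ≤ x ∧ x < n)).card ≤ n - m := by
          calc _ ≤ (Ico m n).card := card_le_card fun x hx => by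
                rw [mem_filter] at hx
                rw [mem_Ico]
                exact hx.2
            _ = n - m := Nat.card_Ico _ _
        have e2 : ((Ioc 0 X).filter (fun x => m ≤ x + H ∧ x + H < n)).card ≤ n - m := by
          calc _ ≤ (Ico m n).card := by
                refine card_le_card_of_injOn (fun x => x + H) (fun x hx => ?_) (fun x _ y _ hxy => ?_)
                · rw [mem_coe, mem_filter] at hx
                  rw [mem_coe, mem_Ico]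
                  exact hx.2
                · exact Nat.add_right_cancel hxy
            _ = n - m := Nat.card_Ico _ _
        have e3 : ((n - m : ℕ) : ℝ) = (n : ℝ) - m := Nat.cast_sub h
        rw [← e3]
        exact add_le_add (by exact_mod_cast e1) (by exact_mod_cast e2)
    _ = 2 * ((n : ℝ) - m) := by ring

lemma W_lip (u : ℕ → ℂ) (hu : ∀ x, ‖u x‖ ≤ 1) (X H n m : ℕ) :
    ‖W u X H n - W u X H m‖ ≤ 2 * |(n : ℝ) - m| := by
  rcases le_total m n with h | h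
  · rw [abs_of_nonneg (by
      have : (m : ℝ) ≤ n := by exact_mod_cast h
      linarith)]
    exact W_lip1 u hu X H n m h
  · rw [abs_sub_comm, abs_of_nonneg (by
      have : (n : ℝ) ≤ m := by exact_mod_cast h
      linarith), ← norm_neg, neg_sub]
    exact W_lip1 u hu X H m n h

lemma W_zero (u : ℕ → ℂ) (X H n : ℕ) (hHX : H ≤ X) (hn : 3 * X < n) : W u X H n = 0 := by
  unfold W
  apply sum_eq_zero
  intro x hx
  rw [mem_Ioc] at hx
  rw [if_neg (by omega)]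

/-- the first moment of the exponential sums over short intervals -/
lemma l1 (g : ℕ → ℤ) (hE : ExpoSmall (fun n => ((g n : ℤ) : ℂ))) (ε : ℝ) (hε : 0 < ε) :
    ∃ H₀ X₀ : ℕ, ∀ X : ℕ, X₀ ≤ X → ∀ H : ℕ, H₀ ≤ H → H ≤ X → ∀ θ : ℝ,
      ∑ x ∈ Ioc 0 X, ‖S g θ H x‖ ≤ ε * H * X := by
  obtain ⟨H₀, X₀, h⟩ := hE ε hε 2 (by norm_num)
  refine ⟨⌈H₀⌉₊, X₀, fun X hX H hH hHX θ => ?_⟩
  have hu : ∀ x, ∃ u : ℂ, ‖u‖ ≤ 1 ∧ u * ∑ h ∈ Icc 1 H, (g (x + h) : ℂ) * ee (((x + h : ℕ) : ℝ) * θ) =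
      (‖S g θ H x‖ : ℂ) := by
    intro x
    obtain ⟨u, h1, h2⟩ := Pool.Agent.TH823.MRS.phase
      (∑ h ∈ Icc 1 H, (g (x + h) : ℂ) * ee (((x + h : ℕ) : ℝ) * θ))
    refine ⟨u, h1, h2.trans ?_⟩
    congr 1
    have e : ∑ h ∈ Icc 1 H, (g (x + h) : ℂ) * ee (((x + h : ℕ) : ℝ) * θ) = ee (x * θ) * S g θ H x := by
      unfold S
      rw [mul_sum]
      apply sum_congr rfl
      intro k _
      rw [show ((x + k : ℕ) : ℝ) * θ = x * θ + k * θ by push_cast; ring, ee_add]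
      ring
    rw [e, norm_mul, norm_ee, one_mul]
  choose u hu1 hu2 using hu
  have h1 := h X hX H ((Nat.le_ceil _).trans (by exact_mod_cast hH)) (by exact_mod_cast hHX) (W u X H)
    (W_le u hu1 X H) (W_lip u hu1 X H) (fun n hn => W_zero u X H n hHX hn) θ
  have e1 : ∑ n ∈ Icc 1 (3 * X), (g n : ℂ) * ee ((n : ℝ) * θ) * W u X H n =
      ((∑ x ∈ Ioc 0 X, ‖S g θ H x‖ : ℝ) : ℂ) := by
    unfold W
    simp only [mul_sum]
    rw [sum_comm, Complex.ofReal_sum]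
    apply sum_congr rfl
    intro x hx
    rw [mem_Ioc] at hx
    rw [← hu2 x, mul_sum]
    have e2 : ∀ n ∈ Icc 1 (3 * X), (g n : ℂ) * ee ((n : ℝ) * θ) * (if x < n ∧ n ≤ x + H then u x else 0) =
        if x < n ∧ n ≤ x + H then (g n : ℂ) * ee ((n : ℝ) * θ) * u x else 0 := by
      intro n _
      split_ifs <;> simp
    rw [sum_congr rfl e2, ← sum_filter]
    have e3 : (Icc 1 (3 * X)).filter (fun n => x < n ∧ n ≤ x + H) = Ioc x (x + H) := by
      ext n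
      rw [mem_filter, mem_Icc, mem_Ioc]
      omega
    rw [e3]
    have e4 : Ioc x (x + H) = (Icc 1 H).image (fun k => x + k) := by
      ext n
      rw [mem_Ioc, mem_image]
      constructor
      · intro hn
        exact ⟨n - x, by rw [mem_Icc]; omega, by omega⟩
      · rintro ⟨k, hk, rfl⟩
        rw [mem_Icc] at hk
        omega
    rw [e4, sum_image (fun a _ b _ hab => Nat.add_left_cancel hab)]
    apply sum_congr rfl
    intro k _
    ring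
  rw [e1, Complex.norm_real, Real.norm_of_nonneg (sum_nonneg fun _ _ => norm_nonneg _)] at h1
  exact h1

/-- the square of the modulus of the sums -/
lemma sq_eq (g : ℕ → ℤ) (θ : ℝ) (H m : ℕ) : ((‖S g θ H m‖ ^ 2 : ℝ) : ℂ) =
    ∑ p ∈ Icc 1 H ×ˢ Icc 1 H, (ee (p.1 * θ) * (starRingEnd ℂ) (ee (p.2 * θ))) *
      (((g (m + p.1) * g (m + p.2) : ℤ) : ℝ) : ℂ) := by
  have h1 : ((‖S g θ H m‖ ^ 2 : ℝ) : ℂ) = S g θ H m * (starRingEnd ℂ) (S g θ H m) := by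
    rw [Complex.mul_conj, Complex.normSq_eq_norm_sq]
  rw [h1]
  unfold S
  rw [map_sum, sum_mul_sum, sum_product]
  apply sum_congr rfl
  intro a _
  apply sum_congr rfl
  intro b _
  rw [map_mul]
  have : (starRingEnd ℂ) ((g (m + b) : ℤ) : ℂ) = ((g (m + b) : ℤ) : ℂ) := by
    exact map_intCast (starRingEnd ℂ) _
  rw [this]
  push_cast
  ring

lemma S_norm_le (g : ℕ → ℤ) (hg : ∀ n, g n = 1 ∨ g n = 0 ∨ g n = -1) (θ : ℝ) (H m : ℕ) : ‖S g θ H m‖ ≤ H := by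
  unfold S
  refine (norm_sum_le _ _).trans ?_
  calc ∑ h ∈ Icc 1 H, ‖(g (m + h) : ℂ) * ee (h * θ)‖ ≤ ∑ h ∈ Icc 1 H, (1 : ℝ) := by
        apply sum_le_sum
        intro h _
        rw [norm_mul, norm_ee, mul_one, Complex.norm_intCast]
        rcases hg (m + h) with e | e | e <;> rw [e] <;> norm_num
    _ = H := by simp

/-- main theorem -/
theorem main (g : ℕ → ℤ) (hg : ∀ n, g n = 1 ∨ g n = 0 ∨ g n = -1) (hE : ExpoSmall (fun n => ((g n : ℤ) : ℂ)))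
    (c : ℝ) (hc : 1 < c) : ∃ κ : ℝ, 0 < κ ∧ κ < 1 ∧ ∃ E : Set ℝ, dimH E ≤ ENNReal.ofReal (1 - κ) ∧
    ∀ α : ℝ, 0 < α → α ∉ E →
      (∃ N₀ : ℕ, ∀ N : ℕ, N₀ ≤ N → ∀ H : ℕ, (H : ℝ) ≤ (N : ℝ) ^ κ → ∀ θ : ℝ,
        |∑ n ∈ Icc 1 N, ‖S g θ H (ms α c n)‖ ^ 2 -
          ∑ m ∈ Ioc 0 (ms α c N), ‖S g θ H m‖ ^ 2 * wt c α m| ≤ (N : ℝ) ^ (1 - κ)) ∧
      (∀ ε : ℝ, 0 < ε → ∃ H₀ N₀ : ℕ, ∀ N : ℕ, N₀ ≤ N → ∀ H : ℕ, H₀ ≤ H → (H : ℝ) ≤ (N : ℝ) ^ κ → ∀ θ : ℝ,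
        ∑ n ∈ Icc 1 N, ‖S g θ H (ms α c n)‖ ^ 2 ≤ ε * (H : ℝ) ^ 2 * N) := by
  obtain ⟨κ, hκ0, hκ1, H1⟩ := two_fam c hc
  refine ⟨κ / 4, by positivity, by linarith, ?_⟩
  obtain ⟨E, hE', h⟩ := H1 (fun t m => ((g (m + t.unpair.1) * g (m + t.unpair.2) : ℤ) : ℝ)) (fun t m => by
      show ((g (m + t.unpair.1) * g (m + t.unpair.2) : ℤ) : ℝ) = 1 ∨
        ((g (m + t.unpair.1) * g (m + t.unpair.2) : ℤ) : ℝ) = 0 ∨
        ((g (m + t.unpair.1) * g (m + t.unpair.2) : ℤ) : ℝ) = -1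
      rcases hg (m + t.unpair.1) with e | e | e <;> rcases hg (m + t.unpair.2) with e' | e' | e' <;>
        rw [e, e'] <;> norm_num) Unit (fun _ _ => 0) (fun _ _ => Or.inr (Or.inl rfl))
  refine ⟨E, hE'.trans (ENNReal.ofReal_le_ofReal (by linarith)), fun α hα hαE => ?_⟩
  obtain ⟨⟨N₁, h1⟩, _, _⟩ := h α hα hαE
  obtain ⟨N₂, h2⟩ := (((tend_pow (κ / 2) (by positivity)).eventually_ge_atTop 4).and
    (eventually_ge_atTop 1)).exists_forall_of_atTop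
  have first : ∀ N : ℕ, max N₁ N₂ ≤ N → ∀ H : ℕ, (H : ℝ) ≤ (N : ℝ) ^ (κ / 4) → ∀ θ : ℝ,
        |∑ n ∈ Icc 1 N, ‖S g θ H (ms α c n)‖ ^ 2 -
          ∑ m ∈ Ioc 0 (ms α c N), ‖S g θ H m‖ ^ 2 * wt c α m| ≤ (H : ℝ) ^ 2 * (N : ℝ) ^ (1 - κ) := by
    intro N hN H hH θ
    obtain ⟨k1, k2⟩ := h2 N ((le_max_right _ _).trans hN)
    obtain ⟨_, k3⟩ := h1 N ((le_max_left _ _).trans hN)
    have hN0 : (0 : ℝ) < N := by exact_mod_cast k2
    obtain ⟨a, ha⟩ : ∃ a : ℕ × ℕ → ℂ, ∀ p, a p = ee (p.1 * θ) * (starRingEnd ℂ) (ee (p.2 * θ)) := ⟨_, fun _ => rfl⟩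
    have ha1 : ∀ p, ‖a p‖ = 1 := by
      intro p
      rw [ha, norm_mul, RCLike.norm_conj, norm_ee, norm_ee, one_mul]
    have e1 : ((∑ n ∈ Icc 1 N, ‖S g θ H (ms α c n)‖ ^ 2 -
        ∑ m ∈ Ioc 0 (ms α c N), ‖S g θ H m‖ ^ 2 * wt c α m : ℝ) : ℂ) =
        ∑ p ∈ Icc 1 H ×ˢ Icc 1 H, a p * (((∑ n ∈ Icc 1 N, ((g (ms α c n + p.1) * g (ms α c n + p.2) : ℤ) : ℝ) -
          ∑ m ∈ Ioc 0 (ms α c N), ((g (m + p.1) * g (m + p.2) : ℤ) : ℝ) * wt c α m : ℝ)) : ℂ) := by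
      rw [Complex.ofReal_sub, Complex.ofReal_sum, Complex.ofReal_sum]
      have e2 : ∀ n ∈ Icc 1 N, ((‖S g θ H (ms α c n)‖ ^ 2 : ℝ) : ℂ) = ∑ p ∈ Icc 1 H ×ˢ Icc 1 H,
          a p * (((g (ms α c n + p.1) * g (ms α c n + p.2) : ℤ) : ℝ) : ℂ) := by
        intro n _
        rw [sq_eq]
        exact sum_congr rfl fun p _ => by rw [ha]
      have e3 : ∀ m ∈ Ioc 0 (ms α c N), ((‖S g θ H m‖ ^ 2 * wt c α m : ℝ) : ℂ) = ∑ p ∈ Icc 1 H ×ˢ Icc 1 H,
          a p * ((((g (m + p.1) * g (m + p.2) : ℤ) : ℝ) * wt c α m : ℝ) : ℂ) := by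
        intro m _
        rw [Complex.ofReal_mul, sq_eq, sum_mul]
        apply sum_congr rfl
        intro p _
        rw [ha, Complex.ofReal_mul]
        ring
      rw [sum_congr rfl e2, sum_congr rfl e3, sum_comm, sum_comm (s := Ioc 0 (ms α c N)), ← sum_sub_distrib]
      apply sum_congr rfl
      intro p _
      rw [Complex.ofReal_sub, Complex.ofReal_sum, Complex.ofReal_sum, mul_sub, mul_sum, mul_sum]
    have e4 : |∑ n ∈ Icc 1 N, ‖S g θ H (ms α c n)‖ ^ 2 -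
        ∑ m ∈ Ioc 0 (ms α c N), ‖S g θ H m‖ ^ 2 * wt c α m| = ‖((∑ n ∈ Icc 1 N, ‖S g θ H (ms α c n)‖ ^ 2 -
        ∑ m ∈ Ioc 0 (ms α c N), ‖S g θ H m‖ ^ 2 * wt c α m : ℝ) : ℂ)‖ := by
      rw [Complex.norm_real, Real.norm_eq_abs]
    rw [e4, e1]
    refine (norm_sum_le _ _).trans ?_
    calc ∑ p ∈ Icc 1 H ×ˢ Icc 1 H, ‖a p * (((∑ n ∈ Icc 1 N, ((g (ms α c n + p.1) * g (ms α c n + p.2) : ℤ) : ℝ) -
          ∑ m ∈ Ioc 0 (ms α c N), ((g (m + p.1) * g (m + p.2) : ℤ) : ℝ) * wt c α m : ℝ)) : ℂ)‖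
        ≤ ∑ p ∈ Icc 1 H ×ˢ Icc 1 H, (N : ℝ) ^ (1 - κ) := by
          apply sum_le_sum
          intro p hp
          rw [mem_product, mem_Icc, mem_Icc] at hp
          rw [norm_mul, ha1, one_mul, Complex.norm_real, Real.norm_eq_abs]
          have ht : ((Nat.pair p.1 p.2 : ℕ) : ℝ) ≤ (N : ℝ) ^ κ := by
            have b1 : Nat.pair p.1 p.2 < (max p.1 p.2 + 1) ^ 2 := Nat.pair_lt_max_add_one_sq _ _
            have b2 : (max p.1 p.2 + 1) ^ 2 ≤ (H + 1) ^ 2 := Nat.pow_le_pow_left (by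
              have := max_le hp.1.2 hp.2.2
              omega) 2
            have b3 : (H + 1) ^ 2 ≤ (2 * H) ^ 2 := Nat.pow_le_pow_left (by
              have := hp.1.1.trans hp.1.2
              omega) 2
            have b4 : ((Nat.pair p.1 p.2 : ℕ) : ℝ) ≤ (2 * (H : ℝ)) ^ 2 := by
              exact_mod_cast (b1.le.trans (b2.trans b3))
            have b5 : (2 * (H : ℝ)) ^ 2 ≤ 4 * (N : ℝ) ^ (κ / 2) := by
              have b6 : (H : ℝ) ^ 2 ≤ ((N : ℝ) ^ (κ / 4)) ^ 2 := pow_le_pow_left₀ (Nat.cast_nonneg _) hH 2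
              have b7 : ((N : ℝ) ^ (κ / 4)) ^ 2 = (N : ℝ) ^ (κ / 2) := by
                rw [← Real.rpow_natCast, ← Real.rpow_mul hN0.le]
                congr 1
                push_cast
                ring
              rw [b7] at b6
              calc (2 * (H : ℝ)) ^ 2 = 4 * (H : ℝ) ^ 2 := by ring
                _ ≤ 4 * (N : ℝ) ^ (κ / 2) := by linarith
            have b8 : (N : ℝ) ^ κ = (N : ℝ) ^ (κ / 2) * (N : ℝ) ^ (κ / 2) := by
              rw [← Real.rpow_add hN0]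
              congr 1
              ring
            rw [b8]
            have b9 : 0 ≤ (N : ℝ) ^ (κ / 2) := by positivity
            exact b4.trans (b5.trans (mul_le_mul_of_nonneg_right k1 b9))
          have k4 := k3 (Nat.pair p.1 p.2) ht
          simp only [Nat.unpair_pair] at k4
          exact k4
      _ = (H : ℝ) ^ 2 * (N : ℝ) ^ (1 - κ) := by
          rw [sum_const, card_product, Nat.card_Icc, Nat.add_sub_cancel, nsmul_eq_mul]
          push_cast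
          ring
  have hpow : ∀ N : ℕ, 1 ≤ N → ∀ H : ℕ, (H : ℝ) ≤ (N : ℝ) ^ (κ / 4) →
      (H : ℝ) ^ 2 * (N : ℝ) ^ (1 - κ) ≤ (N : ℝ) ^ (1 - κ / 4) := by
    intro N hN H hH
    have hN0 : (0 : ℝ) < N := by exact_mod_cast hN
    have hN1 : (1 : ℝ) ≤ N := by exact_mod_cast hN
    have b6 : (H : ℝ) ^ 2 ≤ ((N : ℝ) ^ (κ / 4)) ^ 2 := pow_le_pow_left₀ (Nat.cast_nonneg _) hH 2
    have b7 : ((N : ℝ) ^ (κ / 4)) ^ 2 = (N : ℝ) ^ (κ / 2) := by
      rw [← Real.rpow_natCast, ← Real.rpow_mul hN0.le]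
      congr 1
      push_cast
      ring
    rw [b7] at b6
    calc (H : ℝ) ^ 2 * (N : ℝ) ^ (1 - κ) ≤ (N : ℝ) ^ (κ / 2) * (N : ℝ) ^ (1 - κ) :=
          mul_le_mul_of_nonneg_right b6 (by positivity)
      _ = (N : ℝ) ^ (κ / 2 + (1 - κ)) := by rw [Real.rpow_add hN0]
      _ ≤ (N : ℝ) ^ (1 - κ / 4) := Real.rpow_le_rpow_of_exponent_le hN1 (by linarith)
  refine ⟨⟨max N₁ N₂, fun N hN H hH θ => (first N hN H hH θ).trans
    (hpow N (h2 N ((le_max_right _ _).trans hN)).2 H hH)⟩, ?_⟩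
  intro ε hε
  obtain ⟨H₀, X₀, h3⟩ := l1 g hE (ε / 4) (by positivity)
  obtain ⟨N₃, hN31, h4⟩ := small_pow (κ / 4) (by positivity) (1 + ε / 4 + wt c α 1) (X₀ * wt c α 1) (ε / 4)
    (by have := wt_nonneg hc hα 1; positivity) (mul_nonneg (Nat.cast_nonneg _) (wt_nonneg hc hα _)) (by positivity)
  obtain ⟨N₄, h5⟩ := ((tend_ms hc hα).eventually_ge_atTop 1).exists_forall_of_atTop
  refine ⟨max H₀ 1, max (max N₁ N₂) (max N₃ N₄), fun N hN H hH hHN θ => ?_⟩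
  have hN12 : max N₁ N₂ ≤ N := (le_max_left _ _).trans hN
  have k1 := first N hN12 H hHN θ
  have k2 := h4 N ((le_max_left _ _).trans ((le_max_right _ _).trans hN))
  have k3 := h5 N ((le_max_right _ _).trans ((le_max_right _ _).trans hN))
  obtain ⟨k4, _⟩ := h1 N ((le_max_left _ _).trans hN12)
  have hN1 : 1 ≤ N := (h2 N ((le_max_right _ _).trans hN12)).2
  have hN0 : (0 : ℝ) < N := by exact_mod_cast hN1
  have hN1' : (1 : ℝ) ≤ N := by exact_mod_cast hN1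
  have hH1 : (1 : ℝ) ≤ H := by exact_mod_cast (le_max_right _ _).trans hH
  have hw0 : 0 ≤ wt c α 1 := wt_nonneg hc hα 1
  -- the first moment
  have k5 := abel_le (fun m => ‖S g θ H m‖) (wt c α) (ε / 4 * H) (H * (X₀ + H)) (ms α c N)
    (fun m _ => wt_nonneg hc hα m) (fun m hm => wt_anti hc hα m hm)
    (fun x _ => by
      rw [abs_of_nonneg (sum_nonneg fun _ _ => norm_nonneg _)]
      have hx0 : (0 : ℝ) ≤ x := Nat.cast_nonneg _
      rcases le_total (max X₀ H) x with h6 | h6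
      · have h7 := h3 x ((le_max_left _ _).trans h6) H ((le_max_left _ _).trans hH) ((le_max_right _ _).trans h6) θ
        have : 0 ≤ (H : ℝ) * (X₀ + H) := by positivity
        linarith
      · have h7 : ∑ m ∈ Ioc 0 x, ‖S g θ H m‖ ≤ x * H := by
          calc ∑ m ∈ Ioc 0 x, ‖S g θ H m‖ ≤ ∑ m ∈ Ioc 0 x, (H : ℝ) := sum_le_sum fun m _ => S_norm_le g hg θ H m
            _ = x * H := by simp
        have h8 : (x : ℝ) ≤ X₀ + H := by
          have h9 : x ≤ X₀ + H := h6.trans (max_le (Nat.le_add_right _ _) (Nat.le_add_left _ _))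
          exact_mod_cast h9
        have h9 : (x : ℝ) * H ≤ H * (X₀ + H) := by
          rw [mul_comm]
          exact mul_le_mul_of_nonneg_left h8 (by linarith)
        have : 0 ≤ ε / 4 * H * x := by positivity
        linarith) (by positivity) k3
  rw [abs_of_nonneg (sum_nonneg fun m _ => mul_nonneg (norm_nonneg _) (wt_nonneg hc hα m))] at k5
  have k6 : ∑ m ∈ Ioc 0 (ms α c N), ‖S g θ H m‖ ^ 2 * wt c α m ≤
      H * ∑ m ∈ Ioc 0 (ms α c N), ‖S g θ H m‖ * wt c α m := by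
    rw [mul_sum]
    apply sum_le_sum
    intro m _
    have := mul_nonneg (norm_nonneg (S g θ H m)) (wt_nonneg hc hα m)
    calc ‖S g θ H m‖ ^ 2 * wt c α m = ‖S g θ H m‖ * (‖S g θ H m‖ * wt c α m) := by ring
      _ ≤ H * (‖S g θ H m‖ * wt c α m) := mul_le_mul_of_nonneg_right (S_norm_le g hg θ H m) this
  have hP : (N : ℝ) ^ (1 - κ) ≤ (N : ℝ) ^ (1 - κ / 4) := Real.rpow_le_rpow_of_exponent_le hN1' (by linarith)
  have hQ : (H : ℝ) ≤ (N : ℝ) ^ (1 - κ / 4) := hHN.trans (Real.rpow_le_rpow_of_exponent_le hN1' (by linarith))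
  have k7 : ∑ m ∈ Ioc 0 (ms α c N), wt c α m ≤ N + (N : ℝ) ^ (1 - κ / 4) := by
    rw [_root_.abs_le] at k4
    linarith [k4.1]
  obtain ⟨P, hPP⟩ : ∃ P : ℝ, P = (N : ℝ) ^ (1 - κ / 4) := ⟨_, rfl⟩
  rw [← hPP] at hP hQ k7 k2
  have hP0 : 0 ≤ P := by linarith
  have k8 : ∑ m ∈ Ioc 0 (ms α c N), ‖S g θ H m‖ * wt c α m ≤ H * (ε / 4 * (N + P) + (X₀ + P) * wt c α 1) := by
    calc ∑ m ∈ Ioc 0 (ms α c N), ‖S g θ H m‖ * wt c α m
        ≤ ε / 4 * H * ∑ m ∈ Ioc 0 (ms α c N), wt c α m + H * (X₀ + H) * wt c α 1 := k5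
      _ ≤ ε / 4 * H * (N + P) + H * (X₀ + P) * wt c α 1 := by
          apply add_le_add
          · exact mul_le_mul_of_nonneg_left k7 (by positivity)
          · apply mul_le_mul_of_nonneg_right _ hw0
            apply mul_le_mul_of_nonneg_left _ (by linarith)
            linarith
      _ = H * (ε / 4 * (N + P) + (X₀ + P) * wt c α 1) := by ring
  have k9 : (H : ℝ) ^ 2 * (N : ℝ) ^ (1 - κ) ≤ (H : ℝ) ^ 2 * P := mul_le_mul_of_nonneg_left hP (by positivity)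
  have k10 : ∑ n ∈ Icc 1 N, ‖S g θ H (ms α c n)‖ ^ 2 ≤
      ∑ m ∈ Ioc 0 (ms α c N), ‖S g θ H m‖ ^ 2 * wt c α m + (H : ℝ) ^ 2 * (N : ℝ) ^ (1 - κ) := by
    rw [_root_.abs_le] at k1
    linarith [k1.2]
  have k11 : (H : ℝ) * ∑ m ∈ Ioc 0 (ms α c N), ‖S g θ H m‖ * wt c α m ≤
      (H : ℝ) ^ 2 * (ε / 4 * (N + P) + (X₀ + P) * wt c α 1) := by
    calc (H : ℝ) * ∑ m ∈ Ioc 0 (ms α c N), ‖S g θ H m‖ * wt c α m
        ≤ H * (H * (ε / 4 * (N + P) + (X₀ + P) * wt c α 1)) := mul_le_mul_of_nonneg_left k8 (by linarith)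
      _ = (H : ℝ) ^ 2 * (ε / 4 * (N + P) + (X₀ + P) * wt c α 1) := by ring
  have k12 : ε / 4 * (N + P) + (X₀ + P) * wt c α 1 + P ≤ ε * N := by
    have : 0 ≤ ε * N := by positivity
    nlinarith [k2]
  calc ∑ n ∈ Icc 1 N, ‖S g θ H (ms α c n)‖ ^ 2
      ≤ (H : ℝ) ^ 2 * (ε / 4 * (N + P) + (X₀ + P) * wt c α 1 + P) := by linarith
    _ ≤ (H : ℝ) ^ 2 * (ε * N) := mul_le_mul_of_nonneg_left k12 (by positivity)
    _ = ε * (H : ℝ) ^ 2 * N := by ring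

end Pool.Agent.X20.Tr.Sho
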