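import Pool.Agent.X20.Tr.Den

/-! Thin sets along `⌊α n ^ c⌋` (helper20). -/

set_option autoImplicit false

namespace Pool.Agent.X20.Tr

open Finset Filter
open Pool.Agent.Y854.PS (ms xs)

open Classical in
/-- lower bound for the number of the visits of a thin set -/
lemma thin {c α κ : ℝ} (hc : 1 < c) (hα : 0 < α) (hκ : 0 < κ) {B : Set ℕ} (hC : Cmp c α κ (ind B))
    (ε : ℝ) (hε : 0 < ε) (hε1 : ε ≤ 1 / 4)
    (hB : ∃ X₀ : ℝ, ∀ X : ℝ, X₀ ≤ X →
      X * Real.exp (-(Real.log X) ^ ε) ≤ (((Icc 1 ⌊X⌋₊).filter (fun m => m ∈ B)).card : ℝ)) :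
    ∃ N₀ : ℕ, ∀ N : ℕ, N₀ ≤ N →
      (N : ℝ) * Real.exp (-(Real.log N) ^ (2 * ε)) ≤ (((Icc 1 N).filter (fun n => ms α c n ∈ B)).card : ℝ) := by
  have hc0 : 0 < c := by linarith
  obtain ⟨N₁, h1⟩ := hC
  obtain ⟨X₀, h2⟩ := hB
  obtain ⟨K, hK⟩ : ∃ K : ℝ, K = (2 * c) ^ ε := ⟨_, rfl⟩
  obtain ⟨η, hη⟩ : ∃ η : ℝ, η = min 1 κ := ⟨_, rfl⟩
  have hη0 : 0 < η := by rw [hη]; exact lt_min one_pos hκ
  have hη1 : η ≤ 1 := by rw [hη]; exact min_le_left _ _
  have hηκ : η ≤ κ := by rw [hη]; exact min_le_right _ _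
  have hK0 : 0 < K := by rw [hK]; positivity
  have hlc : 0 < Real.log (2 * c) := Real.log_pos (by linarith)
  have hlogT : Tendsto (fun N : ℕ => Real.log (N : ℝ)) atTop atTop :=
    Real.tendsto_log_atTop.comp tendsto_natCast_atTop_atTop
  have huT : Tendsto (fun N : ℕ => (Real.log (N : ℝ)) ^ ε) atTop atTop := (tendsto_rpow_atTop hε).comp hlogT
  have hxT : Tendsto (fun N : ℕ => α * (N : ℝ) ^ c) atTop atTop := (tend_pow c hc0).const_mul_atTop hα
  obtain ⟨N₂, h3⟩ := ((((huT.eventually_ge_atTop ((K + Real.log (2 * c) + 1) / η)).and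
    (hlogT.eventually_ge_atTop (max 1 (Real.log α / c)))).and
    ((hxT.eventually_ge_atTop X₀).and (hxT.eventually_ge_atTop 1))).and
    ((huT.eventually_ge_atTop 1).and (eventually_ge_atTop 1))).exists_forall_of_atTop
  refine ⟨max N₁ N₂, fun N hN => ?_⟩
  obtain ⟨⟨⟨k1, k2⟩, k3, k4⟩, k5, k6⟩ := h3 N ((le_max_right _ _).trans hN)
  obtain ⟨_, h4⟩ := h1 N ((le_max_left _ _).trans hN)
  have hN1 : (1 : ℝ) ≤ N := by exact_mod_cast k6
  have hN0 : (0 : ℝ) < N := by linarith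
  obtain ⟨x, hx⟩ : ∃ x : ℝ, x = α * (N : ℝ) ^ c := ⟨_, rfl⟩
  rw [← hx] at k3 k4
  have hx0 : 0 < x := by linarith
  obtain ⟨Lg, hLg⟩ : ∃ Lg : ℝ, Lg = Real.log N := ⟨_, rfl⟩
  rw [← hLg] at k1 k2 k5
  have hL1 : 1 ≤ Lg := (le_max_left _ _).trans k2
  have hLα : Real.log α ≤ c * Lg := by
    have := (le_max_right _ _).trans k2
    rw [div_le_iff₀ hc0] at this
    linarith
  -- log x
  have hlogx : Real.log x = Real.log α + c * Lg := by
    rw [hx, Real.log_mul hα.ne' (by positivity), Real.log_rpow hN0, hLg]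
  have hlogx0 : 0 ≤ Real.log x := Real.log_nonneg k4
  have hu : (Real.log x) ^ ε ≤ K * Lg ^ ε := by
    rw [hK, ← Real.mul_rpow (by positivity) (by linarith)]
    apply Real.rpow_le_rpow hlogx0 _ hε.le
    rw [hlogx]
    linarith
  -- the main term
  have h5 : 1 / c * α ^ (-(1 / c)) * x ^ (1 / c - 1) * (((Ioc 0 (ms α c N)).filter (fun m => m ∈ B)).card : ℝ) ≤
      ∑ m ∈ Ioc 0 (ms α c N), ind B m * wt c α m := by
    have hsum : ∑ m ∈ Ioc 0 (ms α c N), ind B m * wt c α m =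
        ∑ m ∈ (Ioc 0 (ms α c N)).filter (fun m => m ∈ B), wt c α m := by
      rw [sum_filter]
      apply sum_congr rfl
      intro m _
      unfold ind
      split_ifs
      · rw [one_mul]
      · rw [zero_mul]
    rw [hsum]
    calc 1 / c * α ^ (-(1 / c)) * x ^ (1 / c - 1) * (((Ioc 0 (ms α c N)).filter (fun m => m ∈ B)).card : ℝ)
        = ∑ m ∈ (Ioc 0 (ms α c N)).filter (fun m => m ∈ B), 1 / c * α ^ (-(1 / c)) * x ^ (1 / c - 1) := by
          rw [sum_const, nsmul_eq_mul]; ring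
      _ ≤ _ := by
          apply sum_le_sum
          intro m hm
          rw [mem_filter, mem_Ioc] at hm
          have hm0 : (0 : ℝ) < m := by exact_mod_cast hm.1.1
          have hmx : (m : ℝ) ≤ x := by
            have h6 : (m : ℝ) ≤ (ms α c N : ℝ) := by exact_mod_cast hm.1.2
            refine h6.trans ?_
            unfold ms xs
            rw [hx]
            exact Nat.floor_le (by positivity)
          unfold wt
          apply mul_le_mul_of_nonneg_left _ (by positivity)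
          have h0 : 1 / c ≤ 1 := by rw [div_le_one hc0]; exact hc.le
          exact Real.rpow_le_rpow_of_nonpos hm0 hmx (by linarith)
  have h6 := h2 x k3
  have h7 : (((Icc 1 ⌊x⌋₊).filter (fun m => m ∈ B)).card : ℝ) = (((Ioc 0 (ms α c N)).filter (fun m => m ∈ B)).card : ℝ) := by
    have e1 : Icc 1 ⌊x⌋₊ = Ioc 0 (ms α c N) := by
      unfold ms xs
      rw [hx]
      ext m
      simp only [mem_Icc, mem_Ioc]
      omega
    rw [e1]
  rw [h7] at h6
  have hNx : α ^ (-(1 / c)) * x ^ (1 / c) = N := by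
    rw [hx, Real.mul_rpow hα.le (by positivity), ← Real.rpow_mul hN0.le, ← mul_assoc, ← Real.rpow_add hα]
    have : c * (1 / c) = 1 := by field_simp
    rw [this]
    simp
  have h8 : 1 / c * N * Real.exp (-(Real.log x) ^ ε) ≤ ∑ m ∈ Ioc 0 (ms α c N), ind B m * wt c α m := by
    refine le_trans (le_trans (le_of_eq ?_) (mul_le_mul_of_nonneg_left h6
      (show 0 ≤ 1 / c * α ^ (-(1 / c)) * x ^ (1 / c - 1) by positivity))) h5
    have e2 : x ^ (1 / c - 1) * x = x ^ (1 / c) := by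
      conv_lhs => rw [← Real.rpow_one x, ← Real.rpow_mul hx0.le, one_mul, ← Real.rpow_add hx0]
      congr 1
      ring
    calc 1 / c * N * Real.exp (-(Real.log x) ^ ε)
        = 1 / c * (α ^ (-(1 / c)) * x ^ (1 / c)) * Real.exp (-(Real.log x) ^ ε) := by rw [hNx]
      _ = 1 / c * α ^ (-(1 / c)) * (x ^ (1 / c - 1) * x) * Real.exp (-(Real.log x) ^ ε) := by rw [e2]; ring
      _ = _ := by ring
  rw [sum_ind B] at h4
  rw [_root_.abs_le] at h4
  -- the comparison of the exponentials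
  obtain ⟨u, hu'⟩ : ∃ u : ℝ, u = Lg ^ ε := ⟨_, rfl⟩
  rw [← hu'] at k1 k5 hu
  have hu1 : K * u + Real.log (2 * c) ≤ η * u ^ 2 := by
    rw [div_le_iff₀ hη0] at k1
    nlinarith [mul_le_mul_of_nonneg_left k1 (show (0 : ℝ) ≤ u by linarith)]
  have hu2 : Lg ^ (2 * ε) = u ^ 2 := by
    rw [hu', ← Real.rpow_natCast, ← Real.rpow_mul (by linarith)]
    congr 1
    push_cast
    ring
  have hu3 : u ^ 2 ≤ Lg := by
    rw [← hu2]
    conv_rhs => rw [← Real.rpow_one Lg]
    exact Real.rpow_le_rpow_of_exponent_le hL1 (by linarith)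
  have hexp1 : Real.exp (-u ^ 2) ≤ 1 / (2 * c) * Real.exp (-(K * u)) := by
    have e3 : 1 / (2 * c) * Real.exp (-(K * u)) = Real.exp (-(K * u + Real.log (2 * c))) := by
      rw [neg_add, Real.exp_add, Real.exp_neg (Real.log (2 * c)), Real.exp_log (by positivity)]
      rw [one_div, mul_comm]
    rw [e3]
    apply Real.exp_le_exp.2
    have : η * u ^ 2 ≤ 1 * u ^ 2 := mul_le_mul_of_nonneg_right hη1 (by positivity)
    linarith
  have hexp2 : (N : ℝ) ^ (-κ) ≤ 1 / (2 * c) * Real.exp (-(K * u)) := by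
    have e3 : 1 / (2 * c) * Real.exp (-(K * u)) = Real.exp (-(K * u + Real.log (2 * c))) := by
      rw [neg_add, Real.exp_add, Real.exp_neg (Real.log (2 * c)), Real.exp_log (by positivity)]
      rw [one_div, mul_comm]
    have e4 : (N : ℝ) ^ (-κ) = Real.exp (-(κ * Lg)) := by
      rw [Real.rpow_def_of_pos hN0, ← hLg]
      congr 1
      ring
    rw [e3, e4]
    apply Real.exp_le_exp.2
    have h9 : η * u ^ 2 ≤ κ * Lg := mul_le_mul hηκ hu3 (by positivity) hκ.le
    linarith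
  have hexp3 : Real.exp (-(K * u)) ≤ Real.exp (-(Real.log x) ^ ε) := Real.exp_le_exp.2 (by linarith)
  have hpow : (N : ℝ) ^ (1 - κ) = N * (N : ℝ) ^ (-κ) := by
    rw [sub_eq_add_neg, Real.rpow_add hN0, Real.rpow_one]
  have hsq : (Real.log (N : ℝ)) ^ (2 * ε) = u ^ 2 := by rw [← hLg]; exact hu2
  rw [hsq]
  have h10 : 1 / c * N * Real.exp (-(K * u)) ≤ 1 / c * N * Real.exp (-(Real.log x) ^ ε) :=
    mul_le_mul_of_nonneg_left hexp3 (by positivity)
  have h11 : (N : ℝ) * Real.exp (-u ^ 2) ≤ N * (1 / (2 * c) * Real.exp (-(K * u))) :=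
    mul_le_mul_of_nonneg_left hexp1 hN0.le
  have h12 : (N : ℝ) * (N : ℝ) ^ (-κ) ≤ N * (1 / (2 * c) * Real.exp (-(K * u))) :=
    mul_le_mul_of_nonneg_left hexp2 hN0.le
  have h13 : N * (1 / (2 * c) * Real.exp (-(K * u))) + N * (1 / (2 * c) * Real.exp (-(K * u))) =
      1 / c * N * Real.exp (-(K * u)) := by
    field_simp
    ring
  rw [hpow] at h4
  linarith [h4.1]

end Pool.Agent.X20.Tr
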