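import Pool.Agent.X20.Tr.Use

/-! Thin sets stay thin along `⌊α n ^ c⌋` (helper20). -/

set_option autoImplicit false

namespace Pool.Agent.X20.Tr

open Finset Filter Topology
open Pool.Agent.Y854.PS (ms xs)

/-- sets with at most `C X ^ (1 - δ)` elements -/
lemma up_pow {c α κ δ : ℝ} (hc : 1 < c) (hα : 0 < α) (hκ : 0 < κ) (hδ : 0 < δ) (hδ1 : δ ≤ 1) {B : Set ℕ}
    (hCB : Cmp c α κ (ind B))
    (hB : ∃ C : ℝ, ∀ X : ℕ, 1 ≤ X → (cnt B X : ℝ) ≤ C * (X : ℝ) ^ (1 - δ)) (κ' : ℝ) (hκ0 : 0 ≤ κ') (hκ' : κ' < κ)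
    (hκδ : κ' < δ / 2) :
    ∃ N₀ : ℕ, ∀ N : ℕ, N₀ ≤ N → (hit c α B N : ℝ) ≤ (N : ℝ) ^ (1 - κ') := by
  classical
  have hc0 : 0 < c := by linarith
  obtain ⟨N₁, h1⟩ := hCB
  obtain ⟨C0, h2'⟩ := hB
  obtain ⟨C, hC⟩ : ∃ C : ℝ, C = max C0 0 := ⟨_, rfl⟩
  have hC0 : 0 ≤ C := by rw [hC]; exact le_max_right _ _
  have h2 : ∀ X : ℕ, 1 ≤ X → (cnt B X : ℝ) ≤ C * (X : ℝ) ^ (1 - δ) := by
    intro X hX
    refine (h2' X hX).trans (mul_le_mul_of_nonneg_right ?_ (by positivity))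
    rw [hC]
    exact le_max_left _ _
  have hw1 : 0 ≤ wt c α 1 := wt_nonneg hc hα 1
  have hxT : Tendsto (fun N : ℕ => α * (N : ℝ) ^ c) atTop atTop := (tend_pow c hc0).const_mul_atTop hα
  obtain ⟨τ, hτ⟩ : ∃ τ : ℝ, τ = min (κ - κ') (δ / 2 - κ') := ⟨_, rfl⟩
  have hτ0 : 0 < τ := by rw [hτ]; exact lt_min (by linarith) (by linarith)
  have hτ1 : τ ≤ κ - κ' := by rw [hτ]; exact min_le_left _ _
  have hτ2 : τ ≤ δ / 2 - κ' := by rw [hτ]; exact min_le_right _ _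
  obtain ⟨K, hK⟩ : ∃ K : ℝ, K = 2 * C * (α / 2) ^ (-(δ / (2 * c))) + 1 + (1 + α ^ (1 / (2 * c))) * wt c α 1 :=
    ⟨_, rfl⟩
  obtain ⟨N₂, h3⟩ := (((tend_ms hc hα).eventually_ge_atTop 2).and
    (((tend_pow τ hτ0).eventually_ge_atTop K).and
    ((eventually_ge_atTop 3).and (hxT.eventually_ge_atTop 2)))).exists_forall_of_atTop
  refine ⟨max N₁ N₂, fun N hN => ?_⟩
  obtain ⟨k1, k2, k6, k8⟩ := h3 N ((le_max_right _ _).trans hN)
  obtain ⟨g1, g2⟩ := h1 N ((le_max_left _ _).trans hN)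
  have hN3 : (3 : ℝ) ≤ N := by exact_mod_cast k6
  have hN0 : (0 : ℝ) < N := by linarith
  rw [sum_ind B] at g2
  rw [_root_.abs_le] at g1 g2
  obtain ⟨M, hM⟩ : ∃ M : ℕ, M = ms α c N := ⟨_, rfl⟩
  rw [← hM] at g1 g2 k1
  have hM2 : (2 : ℝ) ≤ M := by exact_mod_cast k1
  have hM0 : (0 : ℝ) < M := by linarith
  have hMx : α / 2 * (N : ℝ) ^ c ≤ M := by
    have h5 : α * (N : ℝ) ^ c < M + 1 := by
      rw [hM]
      unfold ms xs
      exact Nat.lt_floor_add_one _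
    linarith
  have hMx2 : (M : ℝ) ≤ α * (N : ℝ) ^ c := by
    rw [hM]
    unfold ms xs
    exact Nat.floor_le (by positivity)
  obtain ⟨D, hD⟩ : ∃ D : ℝ, D = 1 + (M : ℝ) ^ (1 / (2 * c)) := ⟨_, rfl⟩
  obtain ⟨b, hb⟩ : ∃ b : ℝ, b = C * (M : ℝ) ^ (-(δ / (2 * c))) := ⟨_, rfl⟩
  have hb0 : 0 ≤ b := by rw [hb]; positivity
  have key := abel_ge (fun m => b - ind B m) (wt c α) 0 D M
    (fun m _ => wt_nonneg hc hα m) (fun m hm => wt_anti hc hα m hm)
    (fun x hx => by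
      rw [sum_sub_distrib, sum_const, Nat.card_Ioc, Nat.sub_zero, nsmul_eq_mul, sum_ind B (Ioc 0 x) (fun m => m)]
      have e : Ioc 0 x = Icc 1 x := by ext m; simp only [mem_Ioc, mem_Icc]; omega
      rw [e, zero_mul]
      have hx0 : (0 : ℝ) ≤ x := Nat.cast_nonneg _
      have hpx : ((((Icc 1 x).filter (fun m => m ∈ B)).card : ℕ) : ℝ) ≤ x := by
        have := card_filter_le (Icc 1 x) (fun m => m ∈ B)
        rw [Nat.card_Icc, Nat.add_sub_cancel] at this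
        exact_mod_cast this
      have hpos : 0 ≤ x * b := by positivity
      have hDM : 0 ≤ (M : ℝ) ^ (1 / (2 * c)) := by positivity
      rcases le_total ((M : ℝ) ^ (1 / (2 * c))) x with h10 | h10
      · have h11 := h2 x (by omega)
        have hx1 : (0 : ℝ) < x := by
          have : 0 < x := by omega
          exact_mod_cast this
        have h15 : (cnt B x : ℝ) = (((Icc 1 x).filter (fun m => m ∈ B)).card : ℝ) := by
          unfold cnt
          norm_cast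
        rw [h15] at h11
        have h14 : (x : ℝ) ^ (-δ) ≤ (M : ℝ) ^ (-(δ / (2 * c))) := by
          calc (x : ℝ) ^ (-δ) ≤ ((M : ℝ) ^ (1 / (2 * c))) ^ (-δ) :=
                Real.rpow_le_rpow_of_nonpos (by positivity) h10 (by linarith)
            _ = (M : ℝ) ^ (-(δ / (2 * c))) := by
                rw [← Real.rpow_mul hM0.le]
                congr 1
                ring
        have h16 : C * (x : ℝ) ^ (1 - δ) ≤ x * b := by
          rw [hb]
          calc C * (x : ℝ) ^ (1 - δ) = C * (x * (x : ℝ) ^ (-δ)) := by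
                rw [show (1 : ℝ) - δ = 1 + -δ by ring, Real.rpow_add hx1, Real.rpow_one]
            _ ≤ C * (x * (M : ℝ) ^ (-(δ / (2 * c)))) :=
                mul_le_mul_of_nonneg_left (mul_le_mul_of_nonneg_left h14 hx0) hC0
            _ = x * (C * (M : ℝ) ^ (-(δ / (2 * c)))) := by ring
        rw [hD]
        linarith
      · rw [hD]
        linarith) (by omega)
  rw [zero_mul, zero_sub] at key
  have key2 : ∑ m ∈ Ioc 0 M, (b - ind B m) * wt c α m =
      b * ∑ m ∈ Ioc 0 M, wt c α m - ∑ m ∈ Ioc 0 M, ind B m * wt c α m := by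
    rw [mul_sum, ← sum_sub_distrib]
    apply sum_congr rfl
    intro m _
    ring
  rw [key2] at key
  obtain ⟨q, hq⟩ : ∃ q : ℝ, q = (N : ℝ) ^ (1 - κ' - τ) := ⟨_, rfl⟩
  have hq0 : 0 < q := by rw [hq]; positivity
  have hNκ : (N : ℝ) ^ (1 - κ) ≤ q := by
    rw [hq]
    exact Real.rpow_le_rpow_of_exponent_le (by linarith) (by linarith)
  have hNδ : (N : ℝ) ^ (1 - δ / 2) ≤ q := by
    rw [hq]
    exact Real.rpow_le_rpow_of_exponent_le (by linarith) (by linarith)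
  have hNh : (N : ℝ) ^ (1 / 2 : ℝ) ≤ q := by
    refine le_trans (Real.rpow_le_rpow_of_exponent_le (by linarith) ?_) hNδ
    linarith
  have hN1h : (1 : ℝ) ≤ q := (Real.one_le_rpow (by linarith) (by norm_num)).trans hNh
  have hgq : ∑ m ∈ Ioc 0 M, wt c α m ≤ N + q := by linarith [g1.1]
  have t1 : b * ∑ m ∈ Ioc 0 M, wt c α m ≤ 2 * C * (α / 2) ^ (-(δ / (2 * c))) * q := by
    have hq1 : q ≤ N := by
      rw [hq]
      calc (N : ℝ) ^ (1 - κ' - τ) ≤ (N : ℝ) ^ (1 : ℝ) :=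
            Real.rpow_le_rpow_of_exponent_le (by linarith) (by linarith)
        _ = N := Real.rpow_one _
    have h5 : ∑ m ∈ Ioc 0 M, wt c α m ≤ 2 * N := by linarith
    have h7 : 0 ≤ ∑ m ∈ Ioc 0 M, wt c α m := sum_nonneg fun m _ => wt_nonneg hc hα m
    have h8 : (M : ℝ) ^ (-(δ / (2 * c))) ≤ (α / 2) ^ (-(δ / (2 * c))) * (N : ℝ) ^ (-(δ / 2)) := by
      calc (M : ℝ) ^ (-(δ / (2 * c))) ≤ (α / 2 * (N : ℝ) ^ c) ^ (-(δ / (2 * c))) :=
            Real.rpow_le_rpow_of_nonpos (by positivity) hMx (by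
              have : 0 < δ / (2 * c) := by positivity
              linarith)
        _ = (α / 2) ^ (-(δ / (2 * c))) * (N : ℝ) ^ (-(δ / 2)) := by
            rw [Real.mul_rpow (by positivity) (by positivity), ← Real.rpow_mul hN0.le]
            congr 2
            field_simp
    calc b * ∑ m ∈ Ioc 0 M, wt c α m ≤ (C * ((α / 2) ^ (-(δ / (2 * c))) * (N : ℝ) ^ (-(δ / 2)))) * (2 * N) := by
          apply mul_le_mul _ h5 h7 (by positivity)
          rw [hb]
          exact mul_le_mul_of_nonneg_left h8 hC0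
      _ = 2 * C * (α / 2) ^ (-(δ / (2 * c))) * (N : ℝ) ^ (1 - δ / 2) := by
          rw [show (1 : ℝ) - δ / 2 = 1 + -(δ / 2) by ring, Real.rpow_add hN0, Real.rpow_one]
          ring
      _ ≤ _ := mul_le_mul_of_nonneg_left hNδ (by positivity)
  have t2 : (M : ℝ) ^ (1 / (2 * c)) ≤ α ^ (1 / (2 * c)) * q := by
    calc (M : ℝ) ^ (1 / (2 * c)) ≤ (α * (N : ℝ) ^ c) ^ (1 / (2 * c)) :=
          Real.rpow_le_rpow (by positivity) hMx2 (by positivity)
      _ = α ^ (1 / (2 * c)) * (N : ℝ) ^ (1 / 2 : ℝ) := by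
          rw [Real.mul_rpow hα.le (by positivity), ← Real.rpow_mul hN0.le]
          congr 2
          field_simp
      _ ≤ α ^ (1 / (2 * c)) * q := mul_le_mul_of_nonneg_left hNh (by positivity)
  have t3 : D * wt c α 1 ≤ (1 + α ^ (1 / (2 * c))) * wt c α 1 * q := by
    have h5 : D ≤ (1 + α ^ (1 / (2 * c))) * q := by
      rw [hD]
      nlinarith
    calc D * wt c α 1 ≤ (1 + α ^ (1 / (2 * c))) * q * wt c α 1 := mul_le_mul_of_nonneg_right h5 hw1
      _ = _ := by ring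
  have hfin : (hit c α B N : ℝ) ≤ K * q := by
    have h15 : (hit c α B N : ℝ) = (((Icc 1 N).filter (fun n => ms α c n ∈ B)).card : ℝ) := by
      unfold hit
      norm_cast
    rw [h15, hK]
    linarith [g2.2]
  calc (hit c α B N : ℝ) ≤ K * q := hfin
    _ ≤ (N : ℝ) ^ τ * q := mul_le_mul_of_nonneg_right k2 hq0.le
    _ = (N : ℝ) ^ (1 - κ') := by
        rw [hq, ← Real.rpow_add hN0]
        congr 1
        ring

end Pool.Agent.X20.Tr
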